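import Pool.Agent.Hhelper14.ZPL.Hecke2
import Pool.Agent.Hhelper14.ZP2.Hecke

/-!
# ZPS module 01: the integral power series `J`, `D`, `E`

`j(τ) q = J(q)`, `Δ(τ) = q D(q)`, `E = 1 / D`, all three with rational INTEGER coefficients and
constant coefficient `1`, `q = exp (2 π i τ)`.

Proof. Copy `ZP/JFun.lean` (`good_serA`, `good_serB`, `good_mix`, `good_serDelta`, `exists_J`) with
the subring `OO` replaced by the subring `O = (Int.castRingHom ℂ).range` (`Good O F` is defined for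
every subring `O`; `Good.inv`, `Good.div_id`, ... are available for all `O`).
`D` comes from `good_serDelta.div_id`, `E` from `Good.inv` (nonvanishing of `D` on the disc:
`discriminant_ne_zero` and `exists_qParam`), `J = (1 + 240 serA)^3 * E`. The coefficients lie in `O`,
so they are casts of integers (`choose`). `D * E = 1` from `ZP.coeff_unique` (product series).
See `ZP2/Formal.lean`, `exists_Jf`, for the translation to `Ev`.
-/

namespace Pool.Agent.ZPS

open UpperHalfPlane ModularForm Function PowerSeries Pool.Agent.Hhelper14.ZP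

/-- the integers in `ℂ` -/
noncomputable def ZZC : Subring ℂ := (Int.castRingHom ℂ).range

theorem intCast_mem_ZZC (m : ℤ) : (m : ℂ) ∈ ZZC := ⟨m, by simp⟩

theorem natCast_mem_ZZC (m : ℕ) : (m : ℂ) ∈ ZZC := by
  exact_mod_cast intCast_mem_ZZC m

theorem goodZ_serA : Good ZZC serA := ⟨fun n => (ArithmeticFunction.sigma 3 n : ℂ),
  fun _ => natCast_mem_ZZC _, fun _ hz => hasSum_serA hz⟩

theorem goodZ_serB : Good ZZC serB := ⟨fun n => (ArithmeticFunction.sigma 5 n : ℂ),
  fun _ => natCast_mem_ZZC _, fun _ hz => hasSum_serB hz⟩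

theorem goodZ_mix : Good ZZC (fun z => (5 * serA z + 7 * serB z) / 12) := by
  refine ⟨fun n => (5 * (ArithmeticFunction.sigma 3 n : ℂ) +
    7 * (ArithmeticFunction.sigma 5 n : ℂ)) / 12, fun n => ?_, fun z hz => ?_⟩
  · obtain ⟨m, hm⟩ := twelve_dvd n
    have : (5 * (ArithmeticFunction.sigma 3 n : ℂ) + 7 * (ArithmeticFunction.sigma 5 n : ℂ)) / 12 =
        (m : ℂ) := by
      have h2 : (5 * (ArithmeticFunction.sigma 3 n : ℂ) + 7 * (ArithmeticFunction.sigma 5 n : ℂ)) =
          12 * m := by exact_mod_cast hm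
      rw [h2]
      field_simp
    dsimp only
    rw [this]
    exact intCast_mem_ZZC m
  · have h1 := (((hasSum_serA hz).mul_left 5).add ((hasSum_serB hz).mul_left 7)).div_const 12
    refine hasSum_of_eq h1 fun n => ?_
    ring

theorem goodZ_serDelta : Good ZZC serDelta := by
  have h100 : (100 : ℂ) ∈ ZZC := by exact_mod_cast natCast_mem_ZZC 100
  have h8000 : (8000 : ℂ) ∈ ZZC := by exact_mod_cast natCast_mem_ZZC 8000
  have h147 : (147 : ℂ) ∈ ZZC := by exact_mod_cast natCast_mem_ZZC 147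
  exact ((goodZ_mix.add ((goodZ_serA.pow 2).const_mul h100)).add
    ((goodZ_serA.pow 3).const_mul h8000)).sub ((goodZ_serB.pow 2).const_mul h147)

/-- a function given by a power series with integer coefficients -/
theorem exists_ser {F : ℂ → ℂ} (hF : Good ZZC F) : ∃ f : PowerSeries ℤ,
    ∀ z : ℂ, ‖z‖ < 1 → Ev z (PowerSeries.map (Int.castRingHom ℂ) f) (F z) := by
  obtain ⟨a, ha, hs⟩ := hF
  choose m hm using ha
  refine ⟨PowerSeries.mk m, fun z hz => ?_⟩
  have h1 := hs z hz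
  have h2 : (fun n => a n * z ^ n) = fun n =>
      coeff n (PowerSeries.map (Int.castRingHom ℂ) (PowerSeries.mk m)) * z ^ n := by
    funext n
    rw [PowerSeries.coeff_map, PowerSeries.coeff_mk, hm n]
  rw [h2] at h1
  exact ⟨h1.summable.norm, h1⟩

theorem coeff_zero_of_ev {f : PowerSeries ℤ} {v : ℂ}
    (h : Ev (0 : ℂ) (PowerSeries.map (Int.castRingHom ℂ) f) v) : ((coeff 0 f : ℤ) : ℂ) = v := by
  have h2 := hasSum_single (f := fun n : ℕ =>
    coeff n (PowerSeries.map (Int.castRingHom ℂ) f) * (0 : ℂ) ^ n) 0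
      (fun n hn => by simp [hn])
  have h3 := h.2.unique h2
  rw [h3]
  simp

theorem exists_series : ∃ J D E : PowerSeries ℤ,
    coeff 0 J = 1 ∧ coeff 0 D = 1 ∧ D * E = 1 ∧ ∀ τ : ℍ, ∃ v : ℂ,
      Ev (Periodic.qParam 1 (τ : ℂ)) (PowerSeries.map (Int.castRingHom ℂ) J)
        (Periodic.qParam 1 (τ : ℂ) * jInv τ) ∧
      Ev (Periodic.qParam 1 (τ : ℂ)) (PowerSeries.map (Int.castRingHom ℂ) D) v ∧
      Ev (Periodic.qParam 1 (τ : ℂ)) (PowerSeries.map (Int.castRingHom ℂ) E) v⁻¹ ∧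
      ModularForm.discriminant τ = Periodic.qParam 1 (τ : ℂ) * v ∧ v ≠ 0 := by
  obtain ⟨D, hD, hDz⟩ := goodZ_serDelta.div_id (by simp [serDelta, serA_zero, serB_zero])
  have hDτ : ∀ τ : ℍ, discriminant τ = Periodic.qParam 1 τ * D (Periodic.qParam 1 τ) :=
    fun τ => by rw [disc_eq, hDz _ (norm_qParam_lt τ)]
  have hq : ∀ τ : ℍ, Periodic.qParam 1 (τ : ℂ) ≠ 0 := fun τ => Periodic.qParam_ne_zero _
  have hD0 : D 0 = 1 := by
    have h1 : Filter.Tendsto (fun τ : ℍ => D (Periodic.qParam 1 τ)) atImInfty (nhds (D 0)) :=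
      hD.continuousAt_zero.tendsto.comp (qParam_tendsto_atImInfty one_pos)
    refine tendsto_nhds_unique h1 (tendsto_atImInfty_tprod_one_sub_eta_q_pow.congr fun τ => ?_)
    have h2 := hDτ τ
    rw [discriminant_eq_q_prod] at h2
    exact mul_left_cancel₀ (hq τ) h2
  have hDne : ∀ z : ℂ, ‖z‖ < 1 → D z ≠ 0 := by
    intro z hz
    rcases eq_or_ne z 0 with rfl | hz0
    · rw [hD0]; exact one_ne_zero
    · obtain ⟨τ, hτ⟩ := exists_qParam hz hz0
      intro h
      apply discriminant_ne_zero τ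
      rw [hDτ, hτ, h, mul_zero]
  have h240 : (240 : ℂ) ∈ ZZC := by exact_mod_cast natCast_mem_ZZC 240
  have hE : Good ZZC (fun z => 1 + 240 * serA z) := (Good.const ZZC.one_mem).add
    (goodZ_serA.const_mul h240)
  have hDi : Good ZZC (fun z => (D z)⁻¹) := hD.inv hD0 hDne
  obtain ⟨fJ, hfJ⟩ := exists_ser ((hE.pow 3).mul hDi)
  obtain ⟨fD, hfD⟩ := exists_ser hD
  obtain ⟨fE, hfE⟩ := exists_ser hDi
  have h0 : ‖(0 : ℂ)‖ < 1 := by simp
  refine ⟨fJ, fD, fE, ?_, ?_, ?_, fun τ => ?_⟩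
  · have h1 := coeff_zero_of_ev (hfJ 0 h0)
    simp only [serA_zero, hD0, mul_zero, add_zero, one_pow, inv_one, mul_one] at h1
    exact_mod_cast h1
  · have h1 := coeff_zero_of_ev (hfD 0 h0)
    rw [hD0] at h1
    exact_mod_cast h1
  · have h1 : ∀ z : ℂ, ‖z‖ < 1 → HasSum (fun n =>
        coeff n (PowerSeries.map (Int.castRingHom ℂ) (fD * fE)) * z ^ n) (1 : ℂ) := by
      intro z hz
      have h2 := (hfD z hz).mul (hfE z hz)
      rw [mul_inv_cancel₀ (hDne z hz), ← map_mul] at h2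
      exact h2.2
    have h3 : ∀ z : ℂ, ‖z‖ < 1 → HasSum (fun n =>
        coeff n (1 : PowerSeries ℂ) * z ^ n) (1 : ℂ) := fun z _ => (Ev.one z).2
    have h4 := coeff_unique (F := fun _ => (1 : ℂ)) h1 h3
    ext n
    have h5 := congrFun h4 n
    rw [← map_one (PowerSeries.map (Int.castRingHom ℂ)), PowerSeries.coeff_map,
      PowerSeries.coeff_map] at h5
    exact Int.cast_injective h5
  · refine ⟨D (Periodic.qParam 1 (τ : ℂ)), ?_, hfD _ (norm_qParam_lt τ), hfE _ (norm_qParam_lt τ),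
      hDτ τ, hDne _ (norm_qParam_lt τ)⟩
    have h1 := hfJ _ (norm_qParam_lt τ)
    have h2 : (1 + 240 * serA (Periodic.qParam 1 (τ : ℂ))) ^ 3 * (D (Periodic.qParam 1 (τ : ℂ)))⁻¹ =
        Periodic.qParam 1 (τ : ℂ) * jInv τ := by
      rw [jInv, E4_eq, hDτ]
      have h1 := hq τ
      have h2 := hDne _ (norm_qParam_lt τ)
      field_simp
    rw [h2] at h1
    exact h1

/-- `q j(τ) = J(q)` -/
noncomputable def JZ : PowerSeries ℤ := exists_series.choose

/-- `Δ(τ) = q D(q)` -/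
noncomputable def DZ : PowerSeries ℤ := exists_series.choose_spec.choose

/-- `E = 1 / D` -/
noncomputable def EZ : PowerSeries ℤ := exists_series.choose_spec.choose_spec.choose

theorem spec_series : coeff 0 JZ = 1 ∧ coeff 0 DZ = 1 ∧ DZ * EZ = 1 ∧ ∀ τ : ℍ, ∃ v : ℂ,
      Ev (Periodic.qParam 1 (τ : ℂ)) (PowerSeries.map (Int.castRingHom ℂ) JZ)
        (Periodic.qParam 1 (τ : ℂ) * jInv τ) ∧
      Ev (Periodic.qParam 1 (τ : ℂ)) (PowerSeries.map (Int.castRingHom ℂ) DZ) v ∧
      Ev (Periodic.qParam 1 (τ : ℂ)) (PowerSeries.map (Int.castRingHom ℂ) EZ) v⁻¹ ∧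
      ModularForm.discriminant τ = Periodic.qParam 1 (τ : ℂ) * v ∧ v ≠ 0 :=
  exists_series.choose_spec.choose_spec.choose_spec

/-- the integral power series `F` converges at `z` with value `v` -/
def EvZ {K : Type*} [NormedField K] (F : PowerSeries ℤ) (z v : K) : Prop :=
  Ev z (PowerSeries.map (Int.castRingHom K) F) v

theorem map_map_Z {K : Type*} [NormedField K] (σ : ℂ →+* K) (F : PowerSeries ℤ) :
    PowerSeries.map σ (PowerSeries.map (Int.castRingHom ℂ) F) =
      PowerSeries.map (Int.castRingHom K) F := by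
  ext n
  simp

/-- `j` -/
theorem evZ_J (τ : ℍ) : EvZ JZ (Periodic.qParam 1 (τ : ℂ)) (Periodic.qParam 1 (τ : ℂ) * jInv τ) := by
  obtain ⟨v, h, -⟩ := spec_series.2.2.2 τ
  exact h

end Pool.Agent.ZPS
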