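import Pool.Agent.ZPS.PointDefs
import Pool.Agent.Hhelper14.ZPL.KClosed
import Pool.Agent.Hhelper77.ZPL.SpKClosed
import Pool.Agent.Hhelper14.ZPL.Topo

/-!
# ZPS module 19: the special hypersurfaces

For `i ≠ k` and `M` primitive (not needed) integral of determinant `N > 0` the set
`{x | ∃ τ, x_i = j(τ), x_k = j(Mτ)}` is a special subvariety (blocks: `{i,k}` and the singletons; see
`ZPL.isSpecial_mk` with `κ = {l // l ≠ k}`, `block l = l` for `l ≠ k`, `block k = i`, `g l = 1`, `g k = M` as an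
element of `GL₂(ℚ)`; the singletons are free since `j` is surjective, `ZPL.j_surj`), of dimension `n - 1`
(`ZPL.dim_spSet`) so `≠ ℂⁿ` (`ZPL.dim_univ`). It depends only on the class of `M` modulo `SL₂(ℤ)` on the left
(`jA_smul`, `finite_QQ`), so for `N ≤ N₂` there are only finitely many; `HypSet N₂ i k` is contained in
their union.
-/

namespace Pool.Agent.ZPS

open UpperHalfPlane MvPolynomial Pool.Agent.Hhelper14.ZP Pool.Agent.Hhelper14.ZPL

variable {n : ℕ}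

/-- an integral matrix of positive determinant as an element of `GL₂(ℚ)` -/
theorem exists_glq {N : ℕ} (hN : 0 < N) (A : DD N) :
    ∃ g : GL (Fin 2) ℚ, 0 < g.det.val ∧ ∀ τ : ℍ, gact g τ = act hN A τ := by
  have hdet : (A.1.map (Int.cast : ℤ → ℚ)).det = (N : ℚ) := by
    have h := A.2
    have h2 := congrArg (fun x : ℤ => (x : ℚ)) h
    simp only [Int.cast_natCast] at h2
    rw [← h2]
    exact (Int.castRingHom ℚ).map_det A.1 |>.symm
  have hne : (A.1.map (Int.cast : ℤ → ℚ)).det ≠ 0 := by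
    rw [hdet]; exact_mod_cast hN.ne'
  have hval : ((Matrix.GeneralLinearGroup.mkOfDetNeZero _ hne : GL (Fin 2) ℚ) :
      Matrix (Fin 2) (Fin 2) ℚ) = A.1.map (Int.cast : ℤ → ℚ) := rfl
  have hg : 0 < (Matrix.GeneralLinearGroup.mkOfDetNeZero _ hne : GL (Fin 2) ℚ).det.val := by
    have : (Matrix.GeneralLinearGroup.mkOfDetNeZero _ hne : GL (Fin 2) ℚ).det.val =
      (A.1.map (Int.cast : ℤ → ℚ)).det := rfl
    rw [this, hdet]
    exact_mod_cast hN
  refine ⟨_, hg, fun τ => ?_⟩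
  apply UpperHalfPlane.ext
  rw [coe_gact hg, coe_act]
  have e : ∀ i j, (((Matrix.GeneralLinearGroup.mkOfDetNeZero _ hne : GL (Fin 2) ℚ).1 i j : ℚ) : ℂ) =
      ((A.1 i j : ℤ) : ℂ) := by
    intro i j
    have h1 : (Matrix.GeneralLinearGroup.mkOfDetNeZero _ hne : GL (Fin 2) ℚ).1 i j =
      ((A.1 i j : ℤ) : ℚ) := rfl
    rw [h1]
    exact Rat.cast_intCast _
  rw [e, e, e, e]

/-- the hypersurface attached to a class of matrices -/
def HypQ {N : ℕ} (hN : 0 < N) (q : QQ N) (i k : Fin n) : Set (Fin n → ℂ) :=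
  {x | ∃ τ : ℍ, x i = jInv τ ∧ x k = jQ hN q τ}

theorem hypQ_special {N : ℕ} (hN : 0 < N) (q : QQ N) {i k : Fin n} (hik : i ≠ k) :
    Pool.Agent.Hhelper14.ZPL.IsSpecial (HypQ hN q i k) ∧ HypQ hN q i k ≠ Set.univ := by
  induction q using Quotient.inductionOn' with
  | h A =>
    obtain ⟨g, hg, hgA⟩ := exists_glq hN A
    have h1 : (0 : ℚ) < (1 : GL (Fin 2) ℚ).det.val := by simp
    have e : HypQ hN (Quotient.mk'' A) i k =
        {x : Fin n → ℂ | ∃ τ : ℍ, x i = jInv (gact 1 τ) ∧ x k = jInv (gact g τ)} := by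
      ext x
      simp only [HypQ, Set.mem_setOf_eq, jQ_mk, jA, gact_one, hgA]
    rw [e]
    exact ⟨special_pair hik h1 hg, pair_ne_univ hik h1 hg⟩

theorem exists_hyps (n N₂ : ℕ) : ∃ S : Set (Set (Fin n → ℂ)), S.Finite ∧
    (∀ T ∈ S, Pool.Agent.Hhelper14.ZPL.IsSpecial T ∧ T ≠ Set.univ) ∧
    ∀ i k, i ≠ k → ∀ x ∈ HypSet N₂ i k, ∃ T ∈ S, x ∈ T := by
  have hfin : ∀ N : {N : Fin (N₂ + 1) // 0 < (N : ℕ)}, Finite (QQ (N.1 : ℕ)) :=
    fun N => finite_QQ N.2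
  let F : ({p : Fin n × Fin n // p.1 ≠ p.2} ×
      (Σ N : {N : Fin (N₂ + 1) // 0 < (N : ℕ)}, QQ (N.1 : ℕ))) → Set (Fin n → ℂ) :=
    fun z => HypQ z.2.1.2 z.2.2 z.1.1.1 z.1.1.2
  refine ⟨Set.range F, Set.finite_range F, ?_, ?_⟩
  · rintro _ ⟨z, rfl⟩
    exact hypQ_special _ _ z.1.2
  · rintro i k hik x ⟨N, hN, M, τ, hle, -, h1, h2⟩
    refine ⟨_, ⟨⟨⟨(i, k), hik⟩, ⟨⟨⟨N, by omega⟩, hN⟩, Quotient.mk'' M⟩⟩, rfl⟩, ?_⟩
    exact ⟨τ, h1, h2⟩

end Pool.Agent.ZPS
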