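import Pool.Agent.ZPS.GP
import Pool.Agent.Hhelper14.ZP2.Hecke
import Pool.Agent.Hhelper14.ZP2.Tate
import Pool.Agent.Hhelper14.ZP2.Emb

/-!
# ZPS module 11a: extension of embeddings of number fields to `ℂ`

Extension: every embedding `φ₀ : K → ℂ_p` (or `K → ℂ`) extends to `ℂ → ℂ_p` (`ℂ → ℂ`). For `ℂ_p`:
`φ₀(K)` lies in the image of `PadicAlgCl p` (algebraic over `ℚ`, and `PadicAlgCl p` is algebraically
closed), so one may replace `ℂ_p` by `PadicAlgCl p`, which has cardinality `𝔠` (`mk_padicAlgCl`, see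
`exists_embedding`). Both `ℂ` (a `K`-algebra by inclusion) and `PadicAlgCl p` (a `K`-algebra by `φ₀`)
are algebraically closed of cardinality `𝔠` and `K` is countable, so they have transcendence bases
over `K` of the same cardinality `𝔠` and are isomorphic as `K`-algebras
(`IsAlgClosed.equivOfTranscendenceBasis`, `IsAlgClosed.cardinal_eq_cardinal_transcendence_basis...`).
-/

namespace Pool.Agent.ZPS

open Pool.Agent.Hhelper14.ZP

open Cardinal in
/-- A field extension of a countable field embeds into every larger uncountable algebraically closed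
extension. -/
theorem exists_algHom {K M Ω : Type} [Field K] [Field M] [Field Ω] [Algebra K M] [Algebra K Ω]
    [IsAlgClosed Ω] (hK : #K ≤ ℵ₀) (hΩ : ℵ₀ < #Ω) (hM : #M ≤ #Ω) : Nonempty (M →ₐ[K] Ω) := by
  obtain ⟨s, hs⟩ := exists_isTranscendenceBasis K M
  obtain ⟨t, ht⟩ := exists_isTranscendenceBasis K Ω
  have h1 : #Ω = #t := IsAlgClosed.cardinal_eq_cardinal_transcendence_basis_of_aleph0_lt' _ ht hK hΩ
  have h2 : #s ≤ #t := by
    rw [← h1]
    exact (Cardinal.mk_set_le s).trans hM
  obtain ⟨e⟩ := Cardinal.le_def s t |>.1 h2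
  set y : s → Ω := fun i => ((e i : t) : Ω) with hy
  have hyi : AlgebraicIndependent K y := ht.1.comp (fun i => e i) e.injective
  set R' : Subalgebra K M := Algebra.adjoin K (Set.range ((↑) : s → M)) with hR'
  set f : R' →ₐ[K] Ω := (MvPolynomial.aeval y).comp hs.1.aevalEquiv.symm.toAlgHom with hf
  have hfi : Function.Injective f := by
    rw [hf]
    simp only [AlgHom.coe_comp]
    exact Function.Injective.comp hyi hs.1.aevalEquiv.symm.injective
  letI : Algebra R' Ω := f.toRingHom.toAlgebra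
  haveI : IsScalarTower K R' Ω := IsScalarTower.of_algebraMap_eq (fun x => (f.commutes x).symm)
  haveI : FaithfulSMul R' Ω := (faithfulSMul_iff_algebraMap_injective R' Ω).2 hfi
  haveI : Algebra.IsAlgebraic R' M := hs.isAlgebraic
  exact ⟨(IsAlgClosed.lift (R := R') (S := M) (M := Ω)).restrictScalars K⟩

theorem mk_numberField_le (K : IntermediateField ℚ ℂ) [FiniteDimensional ℚ K] :
    Cardinal.mk K ≤ Cardinal.aleph0 := by
  haveI : Algebra.IsAlgebraic ℚ K := Algebra.IsAlgebraic.of_finite ℚ K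
  have h := Algebra.IsAlgebraic.cardinalMk_le_max ℚ K
  simpa using h

theorem exists_ringHom {K M Ω : Type} [Field K] [Field M] [Field Ω] [Algebra K M]
    [IsAlgClosed Ω] (hK : Cardinal.mk K ≤ Cardinal.aleph0) (hΩ : Cardinal.aleph0 < Cardinal.mk Ω)
    (hM : Cardinal.mk M ≤ Cardinal.mk Ω) (φ : K →+* Ω) :
    ∃ ψ : M →+* Ω, ∀ x : K, ψ (algebraMap K M x) = φ x := by
  letI : Algebra K Ω := φ.toAlgebra
  obtain ⟨ψ⟩ := exists_algHom (K := K) (M := M) (Ω := Ω) hK hΩ hM
  exact ⟨ψ.toRingHom, fun x => ψ.commutes x⟩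

/-- extension of embeddings of number fields, `p`-adic case -/
theorem extend_padic (p : ℕ) [Fact p.Prime] (K : IntermediateField ℚ ℂ) [FiniteDimensional ℚ K]
    (φ : K →+* PadicComplex p) : ∃ ψ : ℂ →+* PadicComplex p, ∀ x : K, ψ x = φ x := by
  obtain ⟨σ⟩ := exists_embedding p
  have h1 : Cardinal.mk ℂ ≤ Cardinal.mk (PadicComplex p) :=
    Cardinal.mk_le_of_injective σ.injective
  have h2 : Cardinal.aleph0 < Cardinal.mk (PadicComplex p) := by
    refine lt_of_lt_of_le ?_ h1
    rw [Cardinal.mk_complex]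
    exact Cardinal.aleph0_lt_continuum
  exact exists_ringHom (mk_numberField_le K) h2 h1 φ

/-- extension of embeddings of number fields, complex case -/
theorem extend_complex (K : IntermediateField ℚ ℂ) [FiniteDimensional ℚ K]
    (φ : K →+* ℂ) : ∃ ψ : ℂ →+* ℂ, ∀ x : K, ψ x = φ x := by
  have h2 : Cardinal.aleph0 < Cardinal.mk ℂ := by
    rw [Cardinal.mk_complex]
    exact Cardinal.aleph0_lt_continuum
  exact exists_ringHom (mk_numberField_le K) h2 le_rfl φ

end Pool.Agent.ZPS
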