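import Pool.Agent.ZPS.Series

/-!
# ZPS module 07: archimedean bounds for `j` and `Δ`

(1) for `Im τ ≥ √3/2`: `|log⁺|j(τ)| - 2π Im τ| ≤ C`. With `q = qParam 1 τ`, `|q| = e^{-2π Im τ} ≤
e^{-π√3} < 1`; `j q = J(q)`, `J` continuous on the closed disc of radius `e^{-π√3}` and `J(0) = 1`
(`exists_J`, `Good.continuousAt_zero`, `Good.differentiableOn`): `|J| ≤ M` gives the upper bound
(`log⁺` of `M/|q|`), `|J| ≥ 1/2` for `|q| ≤ δ` gives the lower bound for `Im τ` large, and for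
`|q| ≥ δ` the number `2π Im τ` is bounded.
(2) `g(τ) = |Δ(τ)| (Im τ)^6` is `SL₂(ℤ)`-invariant (`disc_smul`, `ModularGroup.im_smul_eq_div_normSq`
or `UpperHalfPlane.im_smul...`), so one may assume `τ` in the fundamental domain
(`ModularGroup.exists_smul_mem_fd`, `ModularGroup.three_le_four_mul_im_sq_of_mem_fd`), where
`log|Δ| = -2π Im τ + O(1)` (`Δ = q D(q)`, `D` nonvanishing continuous on the closed disc,
`exists_series`/`JFun`), and `0 ≤ ...`: `-(C) ≤ 6 log Im τ ≤ π Im τ + C`. Use (1).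
-/

namespace Pool.Agent.ZPS

open UpperHalfPlane ModularForm MatrixGroups Function Pool.Agent.Hhelper14.ZP

/-- the radius of the disc containing the values of `q` on `Im τ ≥ √3 / 2` -/
noncomputable def bdR : ℝ := Real.exp (-2 * Real.pi * (√3 / 2))

theorem bd_R_lt : bdR < 1 := by
  rw [bdR, Real.exp_lt_one_iff]
  have h1 := Real.pi_pos
  have h2 : 0 < √3 := Real.sqrt_pos.mpr (by norm_num)
  have : 0 < Real.pi * √3 := by positivity
  linarith

theorem bd_norm_q (τ : ℍ) : ‖Periodic.qParam 1 (τ : ℂ)‖ = Real.exp (-(2 * Real.pi * τ.im)) := by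
  rw [Function.Periodic.norm_qParam]
  congr 1
  rw [UpperHalfPlane.coe_im]
  ring

theorem bd_norm_q_le {τ : ℍ} (h : √3 / 2 ≤ τ.im) : ‖Periodic.qParam 1 (τ : ℂ)‖ ≤ bdR := by
  rw [bd_norm_q, bdR, Real.exp_le_exp]
  have := mul_le_mul_of_nonneg_left h Real.two_pi_pos.le
  linarith

theorem exists_C1 : ∃ C : ℝ, 0 < C ∧ ∀ τ : ℍ, √3 / 2 ≤ τ.im →
    |Real.posLog ‖jInv τ‖ - 2 * Real.pi * τ.im| ≤ C := by
  obtain ⟨J, hJ, hJ0, hJτ⟩ := exists_J
  have hcont : ContinuousOn J (Metric.closedBall 0 bdR) :=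
    hJ.differentiableOn.continuousOn.mono (Metric.closedBall_subset_ball bd_R_lt)
  obtain ⟨M, hM⟩ := (isCompact_closedBall (0 : ℂ) bdR).exists_bound_of_continuousOn hcont
  have hnear : ∀ᶠ z in nhds (0 : ℂ), (1 : ℝ) / 2 < ‖J z‖ := by
    have h1 : ContinuousAt (fun z => ‖J z‖) 0 := hJ.continuousAt_zero.norm
    refine h1.eventually (lt_mem_nhds ?_)
    show (1 : ℝ) / 2 < ‖J 0‖
    rw [hJ0, norm_one]
    norm_num
  obtain ⟨δ, hδ, hδJ⟩ := Metric.eventually_nhds_iff.mp hnear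
  have hC0 : 0 ≤ Real.log (max M 1) := Real.log_nonneg (le_max_right _ _)
  have hl2 : 0 ≤ Real.log 2 := Real.log_nonneg (by norm_num)
  refine ⟨Real.log (max M 1) + Real.log 2 + |Real.log δ| + 1, by positivity, fun τ hτ => ?_⟩
  have hq0 : Periodic.qParam 1 (τ : ℂ) ≠ 0 := Periodic.qParam_ne_zero _
  have hqpos : 0 < ‖Periodic.qParam 1 (τ : ℂ)‖ := norm_pos_iff.mpr hq0
  set t : ℝ := 2 * Real.pi * τ.im with ht
  have hqt : ‖Periodic.qParam 1 (τ : ℂ)‖ = Real.exp (-t) := bd_norm_q τ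
  have hj : ‖jInv τ‖ = ‖J (Periodic.qParam 1 (τ : ℂ))‖ * Real.exp t := by
    have h1 := congrArg norm (hJτ τ)
    rw [norm_mul, hqt] at h1
    rw [← h1, mul_assoc, ← Real.exp_add, neg_add_cancel, Real.exp_zero, mul_one]
  have hJM : ‖J (Periodic.qParam 1 (τ : ℂ))‖ ≤ max M 1 :=
    (hM _ (by rw [mem_closedBall_zero_iff]; exact bd_norm_q_le hτ)).trans (le_max_left _ _)
  have ht0 : 0 < t := by rw [ht]; have := τ.im_pos; positivity
  have hup : Real.posLog ‖jInv τ‖ ≤ Real.log (max M 1) + t := by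
    have hM1 : (1 : ℝ) ≤ max M 1 := le_max_right _ _
    have h1 : ‖jInv τ‖ ≤ max M 1 * Real.exp t := by
      rw [hj]
      exact mul_le_mul_of_nonneg_right hJM (Real.exp_pos _).le
    have h2 : (1 : ℝ) ≤ max M 1 * Real.exp t :=
      one_le_mul_of_one_le_of_one_le hM1 (Real.one_le_exp ht0.le)
    calc Real.posLog ‖jInv τ‖ ≤ Real.posLog (max M 1 * Real.exp t) :=
          Real.monotoneOn_posLog (norm_nonneg _) (zero_le_one.trans h2) h1
      _ = Real.log (max M 1 * Real.exp t) := Real.posLog_eq_log (by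
          rw [abs_of_nonneg (zero_le_one.trans h2)]; exact h2)
      _ = Real.log (max M 1) + t := by
          rw [Real.log_mul (by positivity) (Real.exp_pos _).ne', Real.log_exp]
  have hlow : t - (Real.log 2 + |Real.log δ|) ≤ Real.posLog ‖jInv τ‖ := by
    rcases lt_or_ge ‖Periodic.qParam 1 (τ : ℂ)‖ δ with hlt | hge
    · have h1 := hδJ (by rw [dist_zero_right]; exact hlt)
      have h2 : Real.exp t / 2 ≤ ‖jInv τ‖ := by
        rw [hj]
        have := Real.exp_pos t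
        nlinarith
      have h3 : t - Real.log 2 ≤ Real.log ‖jInv τ‖ := by
        have := Real.log_le_log (by positivity) h2
        rwa [Real.log_div (Real.exp_pos _).ne' (by norm_num), Real.log_exp] at this
      have h4 : Real.log ‖jInv τ‖ ≤ Real.posLog ‖jInv τ‖ := le_max_right _ _
      have := abs_nonneg (Real.log δ)
      linarith
    · have h1 : Real.log δ ≤ -t := by
        have := Real.log_le_log hδ hge
        rwa [hqt, Real.log_exp] at this
      have h2 := neg_abs_le (Real.log δ)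
      have h3 : 0 ≤ Real.posLog ‖jInv τ‖ := Real.posLog_nonneg
      have h4 : -|Real.log δ| ≤ Real.log δ := neg_abs_le _
      have h5 : t ≤ |Real.log δ| := by
        have := neg_le_abs (Real.log δ)
        linarith
      linarith
  rw [abs_le]
  constructor
  · linarith
  · have := abs_nonneg (Real.log δ)
    linarith

/-- `log |Δ| = -2π Im τ + O(1)` on `Im τ ≥ √3 / 2` -/
theorem bd_exists_C3 : ∃ C : ℝ, 0 < C ∧ ∀ τ : ℍ, √3 / 2 ≤ τ.im →
    |Real.log ‖discriminant τ‖ + 2 * Real.pi * τ.im| ≤ C := by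
  obtain ⟨D, hD, hDz⟩ := good_serDelta.div_id (by simp [serDelta, serA_zero, serB_zero])
  have hDτ : ∀ τ : ℍ, discriminant τ = Periodic.qParam 1 τ * D (Periodic.qParam 1 τ) :=
    fun τ => by rw [disc_eq, hDz _ (norm_qParam_lt τ)]
  have hq : ∀ τ : ℍ, Periodic.qParam 1 (τ : ℂ) ≠ 0 := fun τ => Periodic.qParam_ne_zero _
  have hD0 : D 0 = 1 := by
    have h1 : Filter.Tendsto (fun τ : ℍ => D (Periodic.qParam 1 τ)) atImInfty (nhds (D 0)) :=
      hD.continuousAt_zero.tendsto.comp (qParam_tendsto_atImInfty one_pos)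
    refine tendsto_nhds_unique h1 (tendsto_atImInfty_tprod_one_sub_eta_q_pow.congr fun τ => ?_)
    have h2 := hDτ τ
    rw [discriminant_eq_q_prod] at h2
    exact mul_left_cancel₀ (hq τ) h2
  have hDne : ∀ z : ℂ, ‖z‖ < 1 → D z ≠ 0 := by
    intro z hz
    rcases eq_or_ne z 0 with rfl | hz0
    · rw [hD0]; exact one_ne_zero
    · obtain ⟨τ, hτ⟩ := exists_qParam hz hz0
      intro h
      apply discriminant_ne_zero τ
      rw [hDτ, hτ, h, mul_zero]
  have hcont : ContinuousOn (fun z => Real.log ‖D z‖) (Metric.closedBall 0 bdR) := by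
    refine ContinuousOn.log ?_ ?_
    · exact (hD.differentiableOn.continuousOn.mono
        (Metric.closedBall_subset_ball bd_R_lt)).norm
    · intro z hz
      rw [mem_closedBall_zero_iff] at hz
      exact norm_ne_zero_iff.mpr (hDne z (hz.trans_lt bd_R_lt))
  obtain ⟨M, hM⟩ := (isCompact_closedBall (0 : ℂ) bdR).exists_bound_of_continuousOn hcont
  refine ⟨|M| + 1, by positivity, fun τ hτ => ?_⟩
  have h1 := hM (Periodic.qParam 1 (τ : ℂ))
    (by rw [mem_closedBall_zero_iff]; exact bd_norm_q_le hτ)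
  rw [hDτ, norm_mul, Real.log_mul (norm_ne_zero_iff.mpr (hq τ))
    (norm_ne_zero_iff.mpr (hDne _ (norm_qParam_lt τ))), bd_norm_q, Real.log_exp]
  rw [Real.norm_eq_abs] at h1
  have h2 : -(2 * Real.pi * τ.im) + Real.log ‖D (Periodic.qParam 1 (τ : ℂ))‖ +
      2 * Real.pi * τ.im = Real.log ‖D (Periodic.qParam 1 (τ : ℂ))‖ := by ring
  rw [h2]
  have := le_abs_self M
  linarith

/-- `|Δ(τ)| (Im τ)^6` is invariant -/
theorem bd_disc_inv (γ : SL(2, ℤ)) (τ : ℍ) :
    ‖discriminant (γ • τ)‖ * (γ • τ).im ^ 6 = ‖discriminant τ‖ * τ.im ^ 6 := by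
  have h1 : denom (γ : GL (Fin 2) ℝ) τ ≠ 0 := denom_ne_zero _ _
  have h2 : (0 : ℝ) < ‖denom (γ : GL (Fin 2) ℝ) τ‖ := norm_pos_iff.mpr h1
  rw [disc_smul, ModularGroup.im_smul_eq_div_normSq, Complex.normSq_eq_norm_sq, norm_mul,
    norm_zpow]
  have h3 : ‖denom (γ : GL (Fin 2) ℝ) τ‖ ^ (12 : ℤ) = ‖denom (γ : GL (Fin 2) ℝ) τ‖ ^ (12 : ℕ) := by
    norm_cast
  rw [h3]
  field_simp

theorem exists_C2 : ∃ C : ℝ, 0 < C ∧ ∀ τ : ℍ,
    Real.posLog ‖jInv τ‖ / 2 - C ≤ -Real.log (‖ModularForm.discriminant τ‖ * τ.im ^ 6) ∧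
    -Real.log (‖ModularForm.discriminant τ‖ * τ.im ^ 6) ≤ Real.posLog ‖jInv τ‖ + C := by
  obtain ⟨C1, hC1, h1⟩ := exists_C1
  obtain ⟨C3, hC3, h3⟩ := bd_exists_C3
  have h30 : (0 : ℝ) < √3 / 2 := by
    have : 0 < √3 := Real.sqrt_pos.mpr (by norm_num)
    positivity
  refine ⟨C1 + C3 + 6 * |Real.log (√3 / 2)|, by positivity, fun τ => ?_⟩
  obtain ⟨γ, hγ⟩ := ModularGroup.exists_smul_mem_fd τ
  rw [← bd_disc_inv γ τ, ← jInv_smul γ τ]
  have hfd := ModularGroup.three_le_four_mul_im_sq_of_mem_fd hγ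
  generalize γ • τ = σ at *
  have hy : √3 / 2 ≤ σ.im := by
    have h4 : √3 ≤ 2 * σ.im := by
      rw [Real.sqrt_le_left (by have := σ.im_pos; linarith)]
      linarith
    linarith
  have hy0 := σ.im_pos
  have hd0 : ‖discriminant σ‖ ≠ 0 := norm_ne_zero_iff.mpr (discriminant_ne_zero σ)
  rw [Real.log_mul hd0 (by positivity), Real.log_pow]
  push_cast
  have e1 := abs_le.mp (h1 σ hy)
  have e3 := abs_le.mp (h3 σ hy)
  have el : Real.log (√3 / 2) ≤ Real.log σ.im := Real.log_le_log h30 hy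
  have el' : -|Real.log (√3 / 2)| ≤ Real.log (√3 / 2) := neg_abs_le _
  have ea := abs_nonneg (Real.log (√3 / 2))
  have eu : 6 * Real.log σ.im ≤ Real.pi * σ.im := by
    have h5 : Real.log σ.im ≤ σ.im / 2 := by
      have h6 : Real.log (σ.im / 2) ≤ σ.im / 2 - 1 := Real.log_le_sub_one_of_pos (by positivity)
      rw [Real.log_div hy0.ne' (by norm_num)] at h6
      have h7 : Real.log 2 < 1 := by
        have := Real.log_two_lt_d9
        linarith
      linarith
    have h8 : 3 * σ.im ≤ Real.pi * σ.im := mul_le_mul_of_nonneg_right Real.pi_gt_three.le hy0.le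
    linarith
  constructor
  · have : Real.pi * σ.im = (2 * Real.pi * σ.im) / 2 := by ring
    linarith
  · linarith

end Pool.Agent.ZPS
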