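import Pool.Agent.ZPS.Series

/-!
# ZPS module 03: primitive integral 2×2 matrices and their left factors

`M` primitive of determinant `N`, `a ∣ N`: there is a factorisation `M = P * A` with `det A = a`,
`det P = N / a`, and `A` is unique up to left multiplication by `SL₂(ℤ)`.

Proofs. Smith normal form: `M = U diag(1,N) W` with `U, W ∈ SL₂(ℤ)`: take `A = diag(1,a) W`,
`P = U diag(1, N/a)`. Uniqueness: after multiplying by `U⁻¹` and `W⁻¹`, `M = diag(1,N) = P A`. Write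
`A = (α β; γ δ)`; then `a P = M (δ -β; -γ α)`, whose first row is `(δ, -β)` so `a ∣ δ`, `a ∣ β`; from
`α δ - β γ = a`, i.e. `α (δ/a) - (β/a) γ = 1`, `A = V diag(1,a)` with `V = (α β/a; γ δ/a) ∈ SL₂(ℤ)`.
So every left factor is in the class of `diag(1,a) W`.
-/

namespace Pool.Agent.ZPS

open UpperHalfPlane MatrixGroups Pool.Agent.Hhelper14.ZP

/-- the integral matrix `A` is primitive: no integer `k > 1` divides all its entries -/
def IsPrim {N : ℕ} (A : DD N) : Prop := ∀ k : ℤ, (∀ i j, k ∣ A.1 i j) → IsUnit k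

/-- `A` is a left factor of `M` -/
def IsLeft {N a : ℕ} (M : DD N) (A : DD a) : Prop := ∃ P : Matrix (Fin 2) (Fin 2) ℤ, M.1 = P * A.1

namespace LF

lemma dvd_left {k : ℤ} {X : Matrix (Fin 2) (Fin 2) ℤ} (h : ∀ i j, k ∣ X i j)
    (Y : Matrix (Fin 2) (Fin 2) ℤ) : ∀ i j, k ∣ (Y * X) i j := by
  intro i j
  rw [Matrix.mul_apply]
  exact Finset.dvd_sum fun l _ => (h l j).mul_left _

lemma dvd_right {k : ℤ} {X : Matrix (Fin 2) (Fin 2) ℤ} (h : ∀ i j, k ∣ X i j)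
    (Y : Matrix (Fin 2) (Fin 2) ℤ) : ∀ i j, k ∣ (X * Y) i j := by
  intro i j
  rw [Matrix.mul_apply]
  exact Finset.dvd_sum fun l _ => (h i l).mul_right _

lemma mul_eta_left (X : Matrix (Fin 2) (Fin 2) ℤ) (a b c d : ℤ) : !![a, b; c, d] * X =
    !![a * X 0 0 + b * X 1 0, a * X 0 1 + b * X 1 1;
      c * X 0 0 + d * X 1 0, c * X 0 1 + d * X 1 1] := by
  conv_lhs => rw [Matrix.eta_fin_two X]
  rw [Matrix.mul_fin_two]

lemma mul_eta_right (X : Matrix (Fin 2) (Fin 2) ℤ) (a b c d : ℤ) : X * !![a, b; c, d] =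
    !![X 0 0 * a + X 0 1 * c, X 0 0 * b + X 0 1 * d;
      X 1 0 * a + X 1 1 * c, X 1 0 * b + X 1 1 * d] := by
  conv_lhs => rw [Matrix.eta_fin_two X]
  rw [Matrix.mul_fin_two]

/-- `X` is in the double coset of `M` -/
def Eqv (M X : Matrix (Fin 2) (Fin 2) ℤ) : Prop := ∃ U W : SL(2, ℤ), X = U.1 * M * W.1

lemma Eqv.refl (M : Matrix (Fin 2) (Fin 2) ℤ) : Eqv M M := ⟨1, 1, by simp⟩

lemma Eqv.left {M X : Matrix (Fin 2) (Fin 2) ℤ} (h : Eqv M X) (V : Matrix (Fin 2) (Fin 2) ℤ)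
    (hV : V.det = 1) : Eqv M (V * X) := by
  obtain ⟨U, W, rfl⟩ := h
  refine ⟨⟨V, hV⟩ * U, W, ?_⟩
  rw [Matrix.SpecialLinearGroup.coe_mul]
  simp only [Matrix.mul_assoc]

lemma Eqv.right {M X : Matrix (Fin 2) (Fin 2) ℤ} (h : Eqv M X) (V : Matrix (Fin 2) (Fin 2) ℤ)
    (hV : V.det = 1) : Eqv M (X * V) := by
  obtain ⟨U, W, rfl⟩ := h
  refine ⟨U, W * ⟨V, hV⟩, ?_⟩
  rw [Matrix.SpecialLinearGroup.coe_mul]
  simp only [Matrix.mul_assoc]

lemma Eqv.det {M X : Matrix (Fin 2) (Fin 2) ℤ} (h : Eqv M X) : X.det = M.det := by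
  obtain ⟨U, W, rfl⟩ := h
  rw [Matrix.det_mul, Matrix.det_mul, U.2, W.2, one_mul, mul_one]

lemma inv_mul_val (U : SL(2, ℤ)) : (U⁻¹).1 * U.1 = 1 := by
  rw [← Matrix.SpecialLinearGroup.coe_mul, inv_mul_cancel, Matrix.SpecialLinearGroup.coe_one]

lemma mul_inv_val (U : SL(2, ℤ)) : U.1 * (U⁻¹).1 = 1 := by
  rw [← Matrix.SpecialLinearGroup.coe_mul, mul_inv_cancel, Matrix.SpecialLinearGroup.coe_one]

lemma Eqv.symm' {M X : Matrix (Fin 2) (Fin 2) ℤ} (h : Eqv M X) :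
    ∃ U W : SL(2, ℤ), M = U.1 * X * W.1 := by
  obtain ⟨U, W, rfl⟩ := h
  refine ⟨U⁻¹, W⁻¹, ?_⟩
  calc M = ((U⁻¹).1 * U.1) * M * (W.1 * (W⁻¹).1) := by
        rw [inv_mul_val, mul_inv_val, one_mul, mul_one]
    _ = (U⁻¹).1 * (U.1 * M * W.1) * (W⁻¹).1 := by simp only [Matrix.mul_assoc]

theorem smith_aux {M : Matrix (Fin 2) (Fin 2) ℤ} (hdet : M.det ≠ 0)
    (hM : ∀ k : ℤ, (∀ i j, k ∣ M i j) → IsUnit k) :
    ∃ y : ℤ, Eqv M !![1, 0; 0, y] ∨ Eqv M !![-1, 0; 0, y] := by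
  classical
  have hex : ∃ k : ℕ, 0 < k ∧ ∃ X, Eqv M X ∧ (X 0 0).natAbs = k := by
    by_cases h0 : M 0 0 = 0
    · by_cases h1 : M 0 1 = 0
      · exfalso
        apply hdet
        rw [Matrix.det_fin_two, h0, h1]
        ring
      · refine ⟨(M 0 1).natAbs, Int.natAbs_pos.2 h1, M * !![0, -1; 1, 0],
          (Eqv.refl M).right _ (by simp [Matrix.det_fin_two]), ?_⟩
        simp [Matrix.mul_apply, Fin.sum_univ_two]
    · exact ⟨(M 0 0).natAbs, Int.natAbs_pos.2 h0, M, Eqv.refl M, rfl⟩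
  obtain ⟨hk0, X, hX, hXk⟩ := Nat.find_spec hex
  set k := Nat.find hex with hk
  have hmin : ∀ Y, Eqv M Y → (Y 0 0).natAbs < k → Y 0 0 = 0 := by
    intro Y hY hlt
    by_contra h0
    exact Nat.find_min hex hlt ⟨Int.natAbs_pos.2 h0, Y, hY, rfl⟩
  have hrow : ∀ Y, Eqv M Y → (Y 0 0).natAbs = k → Y 0 0 ∣ Y 0 1 := by
    intro Y hY hYk
    have hne : Y 0 0 ≠ 0 := by
      intro h0
      rw [h0] at hYk
      simp at hYk
      omega
    have h1 := hmin (Y * !![1, -(Y 0 1 / Y 0 0); 0, 1] * !![0, -1; 1, 0])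
      ((hY.right _ (by simp [Matrix.det_fin_two])).right _ (by simp [Matrix.det_fin_two]))
    have h2 : (Y * !![1, -(Y 0 1 / Y 0 0); 0, 1] * !![0, -1; 1, 0] :
        Matrix (Fin 2) (Fin 2) ℤ) 0 0 = Y 0 1 % Y 0 0 := by
      have h3 := Int.emod_add_mul_ediv (Y 0 1) (Y 0 0)
      rw [mul_eta_right Y, Matrix.mul_fin_two]
      simp
      linarith
    rw [h2] at h1
    apply Int.dvd_of_emod_eq_zero
    apply h1
    have h4 := Int.emod_nonneg (Y 0 1) hne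
    have h5 := Int.emod_lt_abs (Y 0 1) hne
    rw [Int.abs_eq_natAbs] at h5
    rw [← hYk]
    omega
  have hcol : ∀ Y, Eqv M Y → (Y 0 0).natAbs = k → Y 0 0 ∣ Y 1 0 := by
    intro Y hY hYk
    have hne : Y 0 0 ≠ 0 := by
      intro h0
      rw [h0] at hYk
      simp at hYk
      omega
    have h1 := hmin (!![0, 1; -1, 0] * (!![1, 0; -(Y 1 0 / Y 0 0), 1] * Y))
      ((hY.left _ (by simp [Matrix.det_fin_two])).left _ (by simp [Matrix.det_fin_two]))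
    have h2 : (!![0, 1; -1, 0] * (!![1, 0; -(Y 1 0 / Y 0 0), 1] * Y) :
        Matrix (Fin 2) (Fin 2) ℤ) 0 0 = Y 1 0 % Y 0 0 := by
      have h3 := Int.emod_add_mul_ediv (Y 1 0) (Y 0 0)
      rw [mul_eta_left Y, Matrix.mul_fin_two]
      simp
      linarith
    rw [h2] at h1
    apply Int.dvd_of_emod_eq_zero
    apply h1
    have h4 := Int.emod_nonneg (Y 1 0) hne
    have h5 := Int.emod_lt_abs (Y 1 0) hne
    rw [Int.abs_eq_natAbs] at h5
    rw [← hYk]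
    omega
  obtain ⟨s, hs⟩ := hrow X hX hXk
  obtain ⟨t, ht⟩ := hcol X hX hXk
  have hX1 : Eqv M (!![1, 0; -t, 1] * X * !![1, -s; 0, 1]) :=
    (hX.left _ (by simp [Matrix.det_fin_two])).right _ (by simp [Matrix.det_fin_two])
  have e1 : !![1, 0; -t, 1] * X * !![1, -s; 0, 1] = !![X 0 0, 0; 0, X 1 1 - t * X 0 1] := by
    rw [mul_eta_left X, Matrix.mul_fin_two, hs, ht]
    ext i j
    fin_cases i <;> fin_cases j <;> simp <;> ring
  rw [e1] at hX1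
  set x := X 0 0 with hx
  set y := X 1 1 - t * X 0 1 with hy
  have hX2 : Eqv M (!![1, 1; 0, 1] * !![x, 0; 0, y]) :=
    hX1.left _ (by simp [Matrix.det_fin_two])
  have e2 : !![1, 1; 0, 1] * !![x, 0; 0, y] = !![x, y; 0, y] := by
    ext i j
    fin_cases i <;> fin_cases j <;> simp [Matrix.mul_apply, Fin.sum_univ_two]
  rw [e2] at hX2
  have hxy : x ∣ y := by
    have := hrow _ hX2 (by simpa using hXk)
    simpa using this
  have hall : ∀ i j, x ∣ M i j := by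
    obtain ⟨U, W, hUW⟩ := hX1.symm'
    rw [hUW]
    apply dvd_right
    apply dvd_left
    intro i j
    fin_cases i <;> fin_cases j <;> simp [hxy]
  have hu := hM x hall
  rw [Int.isUnit_iff] at hu
  rcases hu with hu | hu
  · exact ⟨y, Or.inl (by rw [hu] at hX1; exact hX1)⟩
  · exact ⟨y, Or.inr (by rw [hu] at hX1; exact hX1)⟩

end LF

open LF

theorem IsPrim.smul {N : ℕ} {A : DD N} (h : IsPrim A) (γ : SL(2, ℤ)) : IsPrim (γ • A) := by
  intro k hk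
  apply h k
  have e : A.1 = (γ⁻¹).1 * (γ • A).1 := by
    rw [FixedDetMatrices.smul_coe, ← Matrix.mul_assoc, inv_mul_val, Matrix.one_mul]
  rw [e]
  exact dvd_left hk _

theorem IsPrim.rmul {N : ℕ} {A : DD N} (h : IsPrim A) (γ : SL(2, ℤ)) :
    IsPrim (Pool.Agent.Hhelper14.ZP.rmul A γ) := by
  intro k hk
  apply h k
  have e : A.1 = (Pool.Agent.Hhelper14.ZP.rmul A γ).1 * (γ⁻¹).1 := by
    rw [rmul_val, Matrix.mul_assoc, mul_inv_val, Matrix.mul_one]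
  rw [e]
  exact dvd_right hk _

/-- Smith normal form -/
theorem IsPrim.smith {N : ℕ} (hN : 0 < N) {M : DD N} (hM : IsPrim M) :
    ∃ U W : SL(2, ℤ), M.1 = U.1 * !![1, 0; 0, (N : ℤ)] * W.1 := by
  have hdet : M.1.det = N := M.2
  have hN' : (N : ℤ) ≠ 0 := by exact_mod_cast hN.ne'
  obtain ⟨y, h | h⟩ := smith_aux (M := M.1) (by rw [hdet]; exact hN') hM
  · have h1 := h.det
    rw [hdet, Matrix.det_fin_two] at h1
    simp at h1
    obtain ⟨U, W, hUW⟩ := h.symm'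
    have e : (!![1, 0; 0, (N : ℤ)] : Matrix (Fin 2) (Fin 2) ℤ) = !![1, 0; 0, y] := by rw [h1]
    exact ⟨U, W, by rw [e]; exact hUW⟩
  · have h1 := h.det
    rw [hdet, Matrix.det_fin_two] at h1
    simp at h1
    obtain ⟨U, W, hUW⟩ := h.symm'
    refine ⟨-U, W, ?_⟩
    have e : (!![-1, 0; 0, y] : Matrix (Fin 2) (Fin 2) ℤ) = -!![1, 0; 0, (N : ℤ)] := by
      rw [← h1]
      ext i j
      fin_cases i <;> fin_cases j <;> simp
    rw [e] at hUW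
    rw [hUW, Matrix.SpecialLinearGroup.coe_neg, Matrix.mul_neg, Matrix.neg_mul, Matrix.neg_mul,
      Matrix.neg_mul]

theorem exists_left {N : ℕ} (hN : 0 < N) {M : DD N} (hM : IsPrim M) {a : ℕ} (ha : a ∣ N) :
    ∃ A : DD a, IsLeft M A := by
  obtain ⟨U, W, hUW⟩ := hM.smith hN
  obtain ⟨c, hc⟩ := ha
  refine ⟨⟨!![1, 0; 0, (a : ℤ)] * W.1, ?_⟩, U.1 * !![1, 0; 0, (c : ℤ)], ?_⟩
  · rw [Matrix.det_mul, W.2, Matrix.det_fin_two]
    simp
  · rw [hUW]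
    have e : !![1, 0; 0, (N : ℤ)] = !![1, 0; 0, (c : ℤ)] * !![1, 0; 0, (a : ℤ)] := by
      rw [hc]
      ext i j
      fin_cases i <;> fin_cases j <;> simp [Matrix.mul_apply, Fin.sum_univ_two]
      ring
    rw [e]
    simp only [Matrix.mul_assoc]

theorem left_unique {N : ℕ} (hN : 0 < N) {M : DD N} (hM : IsPrim M) {a : ℕ} (ha : a ∣ N)
    {A B : DD a} (hA : IsLeft M A) (hB : IsLeft M B) : ∃ γ : SL(2, ℤ), B = γ • A := by
  obtain ⟨U, W, hUW⟩ := hM.smith hN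
  have ha0 : (a : ℤ) ≠ 0 := by
    have : a ≠ 0 := by
      rintro rfl
      rw [zero_dvd_iff] at ha
      omega
    exact_mod_cast this
  have key : ∀ A : DD a, IsLeft M A → ∃ V : SL(2, ℤ), A.1 = V.1 * !![1, 0; 0, (a : ℤ)] * W.1 := by
    intro A hA
    obtain ⟨P, hP⟩ := hA
    obtain ⟨A', hA'⟩ : ∃ A' : Matrix (Fin 2) (Fin 2) ℤ, A' = A.1 * (W⁻¹).1 := ⟨_, rfl⟩
    obtain ⟨P', hP'⟩ : ∃ P' : Matrix (Fin 2) (Fin 2) ℤ, P' = (U⁻¹).1 * P := ⟨_, rfl⟩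
    have e1 : P' * A' = !![1, 0; 0, (N : ℤ)] := by
      calc P' * A' = (U⁻¹).1 * (P * A.1) * (W⁻¹).1 := by
            rw [hP', hA']; simp only [Matrix.mul_assoc]
        _ = (U⁻¹).1 * (U.1 * !![1, 0; 0, (N : ℤ)] * W.1) * (W⁻¹).1 := by rw [← hP, hUW]
        _ = ((U⁻¹).1 * U.1) * !![1, 0; 0, (N : ℤ)] * (W.1 * (W⁻¹).1) := by
            simp only [Matrix.mul_assoc]
        _ = !![1, 0; 0, (N : ℤ)] := by rw [inv_mul_val, mul_inv_val, one_mul, mul_one]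
    have hdA : A'.det = a := by
      rw [hA', Matrix.det_mul, A.2, (W⁻¹).2, mul_one]
    rw [Matrix.det_fin_two] at hdA
    have e00 : P' 0 0 * A' 0 0 + P' 0 1 * A' 1 0 = 1 := by
      have := congrFun (congrFun e1 0) 0
      simpa [Matrix.mul_apply, Fin.sum_univ_two] using this
    have e01 : P' 0 0 * A' 0 1 + P' 0 1 * A' 1 1 = 0 := by
      have := congrFun (congrFun e1 0) 1
      simpa [Matrix.mul_apply, Fin.sum_univ_two] using this
    -- first row of adj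
    have f0 : (a : ℤ) * P' 0 0 = A' 1 1 := by
      rw [← hdA]
      linear_combination (A' 1 1) * e00 - (A' 1 0) * e01
    have f1 : (a : ℤ) * P' 0 1 = -A' 0 1 := by
      rw [← hdA]
      linear_combination (A' 0 0) * e01 - (A' 0 1) * e00
    have hV : (!![A' 0 0, -P' 0 1; A' 1 0, P' 0 0] : Matrix (Fin 2) (Fin 2) ℤ).det = 1 := by
      rw [Matrix.det_fin_two]
      simp
      linarith
    refine ⟨⟨_, hV⟩, ?_⟩
    have e2 : A' = !![A' 0 0, -P' 0 1; A' 1 0, P' 0 0] * !![1, 0; 0, (a : ℤ)] := by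
      ext i j
      fin_cases i <;> fin_cases j <;> simp [Matrix.mul_apply, Fin.sum_univ_two]
      · linarith
      · linarith
    calc A.1 = A.1 * ((W⁻¹).1 * W.1) := by rw [inv_mul_val, mul_one]
      _ = A' * W.1 := by rw [hA', Matrix.mul_assoc]
      _ = !![A' 0 0, -P' 0 1; A' 1 0, P' 0 0] * !![1, 0; 0, (a : ℤ)] * W.1 := by rw [← e2]
  obtain ⟨V₁, h1⟩ := key A hA
  obtain ⟨V₂, h2⟩ := key B hB
  refine ⟨V₂ * V₁⁻¹, ?_⟩
  apply Subtype.ext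
  rw [FixedDetMatrices.smul_coe, Matrix.SpecialLinearGroup.coe_mul, h1, h2]
  calc V₂.1 * !![1, 0; 0, (a : ℤ)] * W.1
      = V₂.1 * ((V₁⁻¹).1 * V₁.1) * !![1, 0; 0, (a : ℤ)] * W.1 := by
        rw [inv_mul_val, mul_one]
    _ = V₂.1 * (V₁⁻¹).1 * (V₁.1 * !![1, 0; 0, (a : ℤ)] * W.1) := by
        simp only [Matrix.mul_assoc]

/-- every rational matrix with positive determinant acts as a primitive integral matrix -/
theorem exists_prim {g : GL (Fin 2) ℚ} (hg : 0 < g.det.val) :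
    ∃ (N : ℕ) (hN : 0 < N) (M : DD N), IsPrim M ∧ ∀ τ : ℍ, gact g τ = act hN M τ := by
  obtain ⟨N₀, hN₀, A, hA⟩ := exists_integral hg
  have hdet : A.1.det = (N₀ : ℤ) := A.2
  obtain ⟨k, hk⟩ : ∃ k : ℕ, k = Nat.gcd (Int.gcd (A.1 0 0) (A.1 0 1))
    (Int.gcd (A.1 1 0) (A.1 1 1)) := ⟨_, rfl⟩
  have hdvd : ∀ i j, (k : ℤ) ∣ A.1 i j := by
    have h1 : (k : ℤ) ∣ (Int.gcd (A.1 0 0) (A.1 0 1) : ℤ) := by
      rw [hk]; exact_mod_cast Nat.gcd_dvd_left _ _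
    have h2 : (k : ℤ) ∣ (Int.gcd (A.1 1 0) (A.1 1 1) : ℤ) := by
      rw [hk]; exact_mod_cast Nat.gcd_dvd_right _ _
    intro i j
    fin_cases i <;> fin_cases j
    · exact h1.trans (Int.gcd_dvd_left _ _)
    · exact h1.trans (Int.gcd_dvd_right _ _)
    · exact h2.trans (Int.gcd_dvd_left _ _)
    · exact h2.trans (Int.gcd_dvd_right _ _)
  have hmax : ∀ m : ℤ, (∀ i j, m ∣ A.1 i j) → m ∣ (k : ℤ) := by
    intro m hm
    rw [hk]
    rw [← Int.natAbs_dvd_natAbs, Int.natAbs_natCast]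
    apply Nat.dvd_gcd
    · exact Nat.dvd_gcd (Int.natAbs_dvd_natAbs.2 (hm 0 0)) (Int.natAbs_dvd_natAbs.2 (hm 0 1))
    · exact Nat.dvd_gcd (Int.natAbs_dvd_natAbs.2 (hm 1 0)) (Int.natAbs_dvd_natAbs.2 (hm 1 1))
  choose A' hA' using hdvd
  have hk0 : (k : ℤ) ≠ 0 := by
    intro h0
    have : A.1.det = 0 := by
      rw [Matrix.det_fin_two, hA' 0 0, hA' 0 1, hA' 1 0, hA' 1 1, h0]
      ring
    rw [hdet] at this
    have : N₀ = 0 := by exact_mod_cast this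
    omega
  let B : Matrix (Fin 2) (Fin 2) ℤ := fun i j => A' i j
  have hB : ∀ i j, A.1 i j = (k : ℤ) * B i j := hA'
  have hdB : (k : ℤ) ^ 2 * B.det = N₀ := by
    rw [← hdet, Matrix.det_fin_two, Matrix.det_fin_two, hB 0 0, hB 0 1, hB 1 0, hB 1 1]
    ring
  have hpos : 0 < B.det := by
    have h1 : (0 : ℤ) < N₀ := by exact_mod_cast hN₀
    have h2 : (0 : ℤ) < (k : ℤ) ^ 2 := by positivity
    rw [← hdB] at h1
    exact (pos_iff_pos_of_mul_pos h1).1 h2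
  have hN : 0 < B.det.toNat := by omega
  refine ⟨B.det.toNat, hN, mkDD B (Int.toNat_of_nonneg hpos.le).symm, ?_, fun τ => ?_⟩
  · intro m hm
    have h1 := hmax ((k : ℤ) * m) (by
      intro i j
      rw [hB]
      exact mul_dvd_mul_left _ (hm i j))
    obtain ⟨c, hc⟩ := h1
    rw [isUnit_iff_dvd_one]
    refine ⟨c, ?_⟩
    apply mul_left_cancel₀ hk0
    rw [mul_one, ← mul_assoc]
    exact hc
  · rw [hA]
    apply UpperHalfPlane.ext
    rw [coe_act, coe_act_mk]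
    have hkC : ((k : ℤ) : ℂ) ≠ 0 := by exact_mod_cast hk0
    have hBC : ∀ i j, ((A.1 i j : ℤ) : ℂ) = ((k : ℤ) : ℂ) * ((B i j : ℤ) : ℂ) := by
      intro i j
      rw [hB]
      push_cast
      ring
    simp only [hBC]
    rw [show (((k : ℤ) : ℂ) * ((B 0 0 : ℤ) : ℂ) * (τ : ℂ) + ((k : ℤ) : ℂ) * ((B 0 1 : ℤ) : ℂ)) =
      ((k : ℤ) : ℂ) * (((B 0 0 : ℤ) : ℂ) * (τ : ℂ) + ((B 0 1 : ℤ) : ℂ)) by ring,
      show (((k : ℤ) : ℂ) * ((B 1 0 : ℤ) : ℂ) * (τ : ℂ) + ((k : ℤ) : ℂ) * ((B 1 1 : ℤ) : ℂ)) =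
      ((k : ℤ) : ℂ) * (((B 1 0 : ℤ) : ℂ) * (τ : ℂ) + ((B 1 1 : ℤ) : ℂ)) by ring,
      mul_div_mul_left _ _ hkC]

end Pool.Agent.ZPS
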