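import Pool.Agent.ZPS.ConjLemma
import Pool.Agent.ZPS.LeftFac
import Pool.Agent.Hhelper14.ZPL.Closed

/-!
# ZPS module 04: conjugates of a cyclic isogeny together with its intermediate curves

For a primitive `M` of determinant `N` and `τ₀ ∈ ℍ` put `y a = j (A_a τ₀)`, `A_a` a left factor of `M`
of determinant `a` (`a ∣ N`). For every `σ : ℂ → K` and `t ∈ K` such that `t ^ N` is the `q` of
`σ (j τ₀)` there are `a d = N` and a `d`-th root of unity `c ∈ ℂ` such that `σ(c) t^{a²}` is the `q` of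
`σ (j (M τ₀))` and `t ^ (N a)` (`= q ^ a`) is the `q` of `σ (y a)`; if `a = d`, `c` is a primitive
`d`-th root of unity.

Proof. `conj_lemma` with `X` = the classes in `QQ N` of primitive matrices, `ρ γ` = the restriction of
`rQ γ` (bijective, `rQ_bijective`, primitivity is preserved by `IsPrim.rmul`), `S = Option {a // a ∣ N}`
(finite as `N > 0`), `F x none = jQ hN x`, `F x (some a) = jA _ A` for a left factor `A` of
determinant `a` of a (chosen) representative `M_x` of `x`; invariance `F (ρ γ x) s τ = F x s (γ τ)` by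
`left_unique` (if `A` is a left factor of `M` then `rmul A γ` is a left factor of `rmul M γ`, and a
left factor of `M` is a left factor of `δ • M`), `jA_smul`, `jA_rmul`. Membership in `RR N`:
`jQ_mem`, and `RR_mono` for `RR a ≤ RR N` (see `ZPL/Closed.lean`, `N = a * (N/a)`).
Expansions: for a class with representative `B = (a b; 0 d)` (`exists_rep`, `rep_shape`,
`qParam_act'`): `qParam 1 (B τ) = c qN^{a²}`, `c = exp(2πi/d)^b`, so
`Φ x none = C(c⁻¹) X^{N²-a²} powComp c (a²) J`, exponent `k = N²`; for `A ∈ DD a'` with representative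
`(α β; 0 δ)`, `α δ = a'`: `qParam 1 = c' (qN N)^{(N/a') α²}` (`qN_mul`), and `(N/a') α² ≤ N²`.
Values `v`: `Φ x s` conjugated by `σ` and evaluated at `t` (`map_powComp`, `Ev.powComp`), with `hconv`
for the value of `J` at `σ(c) t^e` (`‖σ c‖ = 1` since `c` is a root of unity; `‖t^e‖ < 1`).
Take `x₀` = the class of `M`, `y a = F x₀ (some a) τ₀`. The lemma gives a class `x`; let
`B = (a b; 0 d)` be its representative. The statement for `s = none` is the first `EvZ`. For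
`s = some a`: `(a 0; 0 1)` is a left factor of `B` (`B = (1 b; 0 d) (a 0; 0 1)`), so by uniqueness
`F x (some a) τ = j (a τ)` and (choose the expansion, or use uniqueness of power series expansions)
its expansion has `e = N a`, `c' = 1`. If `a = d`, primitivity of `B` gives `gcd(a, b) = 1` and
`c = exp(2πi/a)^b` is a primitive root of unity.
-/

namespace Pool.Agent.ZPS

open UpperHalfPlane ModularForm MatrixGroups Function PowerSeries Pool.Agent.Hhelper14.ZP

/-- the classes of primitive matrices -/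
def PX (N : ℕ) : Type := {x : QQ N // ∀ A : DD N, (Quotient.mk'' A : QQ N) = x → IsPrim A}

theorem PX.prim {N : ℕ} (x : PX N) : IsPrim (Quotient.out x.1 : DD N) :=
  x.2 _ (Quotient.out_eq' _)

/-- the class of a primitive matrix -/
def PX.mk {N : ℕ} (M : DD N) (hM : IsPrim M) : PX N :=
  ⟨Quotient.mk'' M, by
    intro A hA
    obtain ⟨γ, hγ⟩ := Quotient.exact' hA
    have h : γ • M = A := hγ
    rw [← h]
    exact hM.smul γ⟩

/-- the chosen left factor -/
noncomputable def leftOf {N : ℕ} (hN : 0 < N) (x : PX N) {a : ℕ} (ha : a ∣ N) : DD a :=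
  (exists_left hN x.prim ha).choose

theorem leftOf_spec {N : ℕ} (hN : 0 < N) (x : PX N) {a : ℕ} (ha : a ∣ N) :
    IsLeft (Quotient.out x.1 : DD N) (leftOf hN x ha) :=
  (exists_left hN x.prim ha).choose_spec

theorem jA_leftOf {N : ℕ} (hN : 0 < N) (x : PX N) {a : ℕ} (ha : a ∣ N) (ha0 : 0 < a) (M : DD N)
    (hM : (Quotient.mk'' M : QQ N) = x.1) (A : DD a) (hA : IsLeft M A) :
    jA ha0 (leftOf hN x ha) = jA ha0 A := by
  have h1 : (Quotient.mk'' M : QQ N) = Quotient.mk'' (Quotient.out x.1) :=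
    hM.trans (Quotient.out_eq' _).symm
  obtain ⟨γ, hγ⟩ := Quotient.exact' h1
  have hγ' : γ • (Quotient.out x.1 : DD N) = M := hγ
  have hL : IsLeft M (leftOf hN x ha) := by
    obtain ⟨P, hP⟩ := leftOf_spec hN x ha
    refine ⟨γ.1 * P, ?_⟩
    rw [← hγ', FixedDetMatrices.smul_coe, hP, Matrix.mul_assoc]
  obtain ⟨δ, hδ⟩ := left_unique hN (x.2 M hM) ha hA hL
  rw [hδ, jA_smul]

/-- the action of `SL₂(ℤ)` on the primitive classes -/
def pR {N : ℕ} (γ : SL(2, ℤ)) (x : PX N) : PX N :=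
  ⟨rQ γ x.1, by
    intro A hA
    have h1 : x.1 = Quotient.mk'' (Quotient.out x.1 : DD N) := (Quotient.out_eq' _).symm
    rw [h1] at hA
    have hA' : (Quotient.mk'' A : QQ N) = Quotient.mk'' (rmul (Quotient.out x.1 : DD N) γ) := hA
    obtain ⟨δ, hδ⟩ := Quotient.exact' hA'
    have hδ' : δ • (rmul (Quotient.out x.1 : DD N) γ) = A := hδ
    rw [← hδ']
    exact (x.prim.rmul γ).smul δ⟩

theorem finite_PX {N : ℕ} (hN : 0 < N) : Finite (PX N) := by
  have := finite_QQ hN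
  exact Finite.of_injective (fun x : PX N => x.1) fun x y h => Subtype.ext h

theorem pR_bijective {N : ℕ} (hN : 0 < N) (γ : SL(2, ℤ)) : Function.Bijective (pR (N := N) γ) := by
  have := finite_PX hN
  refine Finite.injective_iff_bijective.mp ?_
  intro x y h
  refine Subtype.ext ?_
  exact (rQ_bijective hN γ).1 (congrArg (fun z : PX N => z.1) h)

/-- the functions of the chain -/
noncomputable def cF {N : ℕ} (hN : 0 < N) (x : PX N) : Option {a : ℕ // a ∣ N} → ℍ → ℂ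
  | none => jQ hN x.1
  | some a => jA (Nat.pos_of_dvd_of_pos a.2 hN) (leftOf hN x a.2)

theorem RR_mono' {a N : ℕ} (hN : 0 < N) (ha : a ∣ N) : RR a ≤ RR N := by
  obtain ⟨m, rfl⟩ := ha
  exact Pool.Agent.Hhelper14.ZPL.RR_mono (Nat.pos_of_mul_pos_right hN) (Nat.pos_of_mul_pos_left hN)

theorem cF_mem {N : ℕ} (hN : 0 < N) (x : PX N) (s : Option {a : ℕ // a ∣ N}) :
    cF hN x s ∈ RR N := by
  rcases s with _ | a
  · exact jQ_mem hN x.1
  · exact RR_mono' hN a.2 (jQ_mem (Nat.pos_of_dvd_of_pos a.2 hN) (Quotient.mk'' _))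

theorem cF_pR {N : ℕ} (hN : 0 < N) (γ : SL(2, ℤ)) (x : PX N) (s : Option {a : ℕ // a ∣ N})
    (τ : ℍ) : cF hN (pR γ x) s τ = cF hN x s (γ • τ) := by
  rcases s with _ | a
  · exact jQ_rQ hN γ x.1 τ
  · have ha0 := Nat.pos_of_dvd_of_pos a.2 hN
    change jA ha0 (leftOf hN (pR γ x) a.2) τ = jA ha0 (leftOf hN x a.2) (γ • τ)
    rw [jA_leftOf hN (pR γ x) a.2 ha0 (rmul (Quotient.out x.1 : DD N) γ) ?_
      (rmul (leftOf hN x a.2) γ) ?_, jA_rmul]
    · change _ = rQ γ x.1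
      conv_rhs => rw [← Quotient.out_eq' x.1]
      rfl
    · obtain ⟨P, hP⟩ := leftOf_spec hN x a.2
      exact ⟨P, by rw [rmul_val, rmul_val, hP, Matrix.mul_assoc]⟩

/-- the series `J` over `ℂ` -/
theorem ev_J_of_qParam {N : ℕ} {τ τ' : ℍ} {c : ℂ} {e : ℕ} (he : 0 < e)
    (h : Periodic.qParam 1 (τ' : ℂ) = c * qN N τ ^ e) :
    Ev (qN N τ) (powComp c e (PowerSeries.map (Int.castRingHom ℂ) JZ))
      (c * qN N τ ^ e * jInv τ') := by
  have h1 : EvZ JZ (Periodic.qParam 1 (τ' : ℂ)) (Periodic.qParam 1 (τ' : ℂ) * jInv τ') := evZ_J τ'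
  rw [h] at h1
  exact h1.powComp he

/-- data of the representative of a primitive class -/
theorem rep_data {N : ℕ} (hN : 0 < N) (x : PX N) : ∃ (a d : ℕ) (c : ℂ) (ha : a ∣ N), 0 < a ∧ 0 < d ∧
    a * d = N ∧ c ^ d = 1 ∧ (a = d → IsPrimitiveRoot c d) ∧
    (∀ τ : ℍ, Ev (qN N τ) (powComp c (a ^ 2) (PowerSeries.map (Int.castRingHom ℂ) JZ))
      (c * qN N τ ^ (a ^ 2) * cF hN x none τ)) ∧
    (∀ τ : ℍ, Ev (qN N τ) (powComp 1 (N * a) (PowerSeries.map (Int.castRingHom ℂ) JZ))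
      (1 * qN N τ ^ (N * a) * cF hN x (some ⟨a, ha⟩) τ)) := by
  obtain ⟨B, hB, γ, hBγ⟩ := exists_rep hN (Quotient.out x.1 : DD N)
  have hxB : (Quotient.mk'' B : QQ N) = x.1 := by
    rw [← Quotient.out_eq' x.1, hBγ]
    exact Quotient.sound' ⟨γ⁻¹, by simp⟩
  have hBp : IsPrim B := x.2 B hxB
  obtain ⟨h10, h00, -, -⟩ := hB
  have hdet : B.1 0 0 * B.1 1 1 = N := by
    have h := B.2
    rw [Matrix.det_fin_two, h10, mul_zero, sub_zero] at h
    exact h
  have h11 : 0 < B.1 1 1 := by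
    by_contra hcon
    push Not at hcon
    have h1 : B.1 0 0 * B.1 1 1 ≤ 0 := mul_nonpos_of_nonneg_of_nonpos h00.le hcon
    rw [hdet] at h1
    have : (0 : ℤ) < N := by exact_mod_cast hN
    omega
  obtain ⟨a, haB⟩ : ∃ a : ℕ, B.1 0 0 = (a : ℤ) := ⟨(B.1 0 0).toNat, (Int.toNat_of_nonneg h00.le).symm⟩
  obtain ⟨d, hdB⟩ : ∃ d : ℕ, B.1 1 1 = (d : ℤ) := ⟨(B.1 1 1).toNat, (Int.toNat_of_nonneg h11.le).symm⟩
  obtain ⟨b, hbB⟩ : ∃ b : ℤ, B.1 0 1 = b := ⟨_, rfl⟩
  rw [haB, hdB] at hdet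
  rw [haB] at h00
  rw [hdB] at h11
  have ha0 : 0 < a := by exact_mod_cast h00
  have hd0 : 0 < d := by exact_mod_cast h11
  have had : a * d = N := by exact_mod_cast hdet
  have hdvd : a ∣ N := ⟨d, had.symm⟩
  have hd' : (d : ℂ) ≠ 0 := by exact_mod_cast hd0.ne'
  have ha' : (a : ℂ) ≠ 0 := by exact_mod_cast ha0.ne'
  have hNc : (N : ℂ) = a * d := by rw [← had]; push_cast; ring
  set ζ := Complex.exp (2 * Real.pi * Complex.I / d) with hζ
  have hζp : IsPrimitiveRoot ζ d := Complex.isPrimitiveRoot_exp d hd0.ne'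
  refine ⟨a, d, ζ ^ b, hdvd, ha0, hd0, had, ?_, ?_, fun τ => ?_, fun τ => ?_⟩
  · rw [← zpow_natCast, ← zpow_mul, mul_comm, zpow_mul, zpow_natCast, hζp.pow_eq_one, one_zpow]
  · intro hadeq
    refine hζp.zpow_of_gcd_eq_one b ?_
    have h1 := hBp ((b.gcd d : ℕ) : ℤ) (by
      have hgb : ((b.gcd d : ℕ) : ℤ) ∣ b := Int.gcd_dvd_left ..
      have hgd : ((b.gcd d : ℕ) : ℤ) ∣ (d : ℤ) := Int.gcd_dvd_right ..
      intro i j
      fin_cases i <;> fin_cases j
      · change _ ∣ B.1 0 0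
        rw [haB, hadeq]
        exact hgd
      · change _ ∣ B.1 0 1
        rw [hbB]
        exact hgb
      · change _ ∣ B.1 1 0
        rw [h10]
        exact dvd_zero _
      · change _ ∣ B.1 1 1
        rw [hdB]
        exact hgd)
    have h2 := Int.isUnit_iff_natAbs_eq.mp h1
    simpa using h2
  · have h1 : cF hN x none τ = jInv (act hN B τ) := by
      change jQ hN x.1 τ = _
      rw [← hxB, jQ_mk]
      rfl
    rw [h1]
    refine ev_J_of_qParam (by positivity) ?_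
    rw [coe_act, haB, hdB, hbB, h10, hζ]
    have e1 : ((((a : ℤ) : ℂ) * (τ : ℂ) + ((b : ℤ) : ℂ)) /
        (((0 : ℤ) : ℂ) * (τ : ℂ) + (((d : ℕ) : ℤ) : ℂ))) = (a * τ + b) / d := by
      simp
    rw [e1]
    simp only [qN, Periodic.qParam]
    rw [← Complex.exp_int_mul, ← Complex.exp_nat_mul, ← Complex.exp_add]
    congr 1
    push_cast
    rw [hNc]
    field_simp
    ring
  · let A0 : DD a := ⟨!![(a : ℤ), 0; 0, 1], by simp [Matrix.det_fin_two]⟩
    have hA0 : IsLeft B A0 := by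
      refine ⟨!![1, b; 0, (d : ℤ)], ?_⟩
      ext i j
      fin_cases i <;> fin_cases j <;> simp [A0, Matrix.mul_apply, haB, hbB, h10, hdB]
    have h1 : cF hN x (some ⟨a, hdvd⟩) τ = jInv (act ha0 A0 τ) := by
      change jA ha0 (leftOf hN x hdvd) τ = _
      rw [jA_leftOf hN x hdvd ha0 B hxB A0 hA0]
      rfl
    rw [h1]
    refine ev_J_of_qParam (by positivity) ?_
    rw [coe_act]
    have e1 : ((A0.1 0 0 * (τ : ℂ) + A0.1 0 1) / (A0.1 1 0 * τ + A0.1 1 1) : ℂ) = a * τ := by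
      simp [A0]
    rw [e1]
    simp only [qN, Periodic.qParam]
    rw [one_mul, ← Complex.exp_nat_mul]
    congr 1
    push_cast
    rw [hNc]
    field_simp

/-- expansions of the left factors -/
theorem exp_gen {N : ℕ} (hN : 0 < N) (x : PX N) (a : {a : ℕ // a ∣ N}) :
    ∃ (e : ℕ) (c : ℂ), 0 < e ∧ e ≤ N ^ 2 ∧ (∃ n : ℕ, 0 < n ∧ c ^ n = 1) ∧
      ∀ τ : ℍ, Ev (qN N τ) (powComp c e (PowerSeries.map (Int.castRingHom ℂ) JZ))
        (c * qN N τ ^ e * cF hN x (some a) τ) := by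
  obtain ⟨a, ha⟩ := a
  obtain ⟨m, hm⟩ := ha
  have ha0 : 0 < a := Nat.pos_of_dvd_of_pos ⟨m, hm⟩ hN
  have hm0 : 0 < m := by
    rcases Nat.eq_zero_or_pos m with h | h
    · rw [h, mul_zero] at hm
      omega
    · exact h
  obtain ⟨B, hB, γ, hBγ⟩ := exists_rep ha0 (leftOf hN x ⟨m, hm⟩)
  obtain ⟨α, δ, c, hα, hδ, hαδ, hc, hq⟩ := Pool.Agent.Hhelper14.ZP.qParam_act' ha0 hB
  refine ⟨m * α ^ 2, c, by positivity, ?_, ⟨δ, hδ, hc⟩, fun τ => ?_⟩
  · have h1 : α ≤ a := by rw [← hαδ]; exact Nat.le_mul_of_pos_right α hδ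
    calc m * α ^ 2 ≤ m ^ 2 * a ^ 2 :=
          Nat.mul_le_mul (Nat.le_self_pow two_ne_zero m) (Nat.pow_le_pow_left h1 2)
      _ = N ^ 2 := by rw [hm]; ring
  · have h1 : cF hN x (some ⟨a, ⟨m, hm⟩⟩) τ = jInv (act ha0 B τ) := by
      change jA ha0 (leftOf hN x ⟨m, hm⟩) τ = _
      rw [hBγ, jA_smul]
      rfl
    rw [h1]
    refine ev_J_of_qParam (by positivity) ?_
    rw [hq τ, pow_mul, hm, Pool.Agent.Hhelper14.ZPL.qN_mul ha0 hm0]

theorem chain_conj {N : ℕ} (hN : 0 < N) (M : DD N) (hM : IsPrim M) (τ₀ : ℍ) :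
    ∃ y : ℕ → ℂ, (∀ a, ∀ ha : 0 < a, a ∣ N → ∃ A : DD a, y a = jA ha A τ₀) ∧
      ∀ (K : Type) [NormedField K] [CompleteSpace K] (σ : ℂ →+* K) (t : K), t ≠ 0 → ‖t‖ < 1 →
        (∀ z : K, ‖z‖ < 1 → ∃ v, EvZ JZ z v) →
        EvZ JZ (t ^ N) (t ^ N * σ (jInv τ₀)) →
        ∃ (a d : ℕ) (c : ℂ), 0 < a ∧ 0 < d ∧ a * d = N ∧ c ^ d = 1 ∧
          (a = d → IsPrimitiveRoot c d) ∧
          EvZ JZ (σ c * t ^ a ^ 2) (σ c * t ^ a ^ 2 * σ (jA hN M τ₀)) ∧
          EvZ JZ (t ^ (N * a)) (t ^ (N * a) * σ (y a)) := by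
  classical
  have hfX := finite_PX hN
  have hfS : Finite {a : ℕ // a ∣ N} := by
    have : {a : ℕ | a ∣ N}.Finite := by
      refine (Finset.finite_toSet N.divisors).subset ?_
      intro a ha
      simp only [Finset.mem_coe, Nat.mem_divisors]
      exact ⟨ha, hN.ne'⟩
    exact this.to_subtype
  let x₀ : PX N := PX.mk M hM
  refine ⟨fun a => if h : a ∣ N then cF hN x₀ (some ⟨a, h⟩) τ₀ else 0, ?_, ?_⟩
  · intro a ha hdvd
    refine ⟨leftOf hN x₀ hdvd, ?_⟩
    simp only [dif_pos hdvd]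
    rfl
  · intro K _ _ σ t ht ht1 hconv hft
    choose a d c hdvd ha hd had hcd hprim hnone hsome using rep_data hN
    -- expansions
    have hexp : ∀ (x : PX N) (s : Option {a : ℕ // a ∣ N}), ∃ (e : ℕ) (c' : ℂ), 0 < e ∧ e ≤ N ^ 2 ∧
        (∃ n : ℕ, 0 < n ∧ c' ^ n = 1) ∧
        (∀ τ : ℍ, Ev (qN N τ) (powComp c' e (PowerSeries.map (Int.castRingHom ℂ) JZ))
          (c' * qN N τ ^ e * cF hN x s τ)) ∧
        (s = none → e = a x ^ 2 ∧ c' = c x) ∧
        (s = some ⟨a x, hdvd x⟩ → e = N * a x ∧ c' = 1) := by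
      intro x s
      rcases s with _ | b
      · refine ⟨a x ^ 2, c x, by have := ha x; positivity, ?_, ⟨d x, hd x, hcd x⟩, hnone x,
          fun _ => ⟨rfl, rfl⟩, fun h => by simp at h⟩
        refine Nat.pow_le_pow_left ?_ 2
        calc a x ≤ a x * d x := Nat.le_mul_of_pos_right _ (hd x)
          _ = N := had x
      · by_cases hb : b = ⟨a x, hdvd x⟩
        · subst hb
          refine ⟨N * a x, 1, Nat.mul_pos hN (ha x), ?_, ⟨1, one_pos, by simp⟩, hsome x,
            fun h => by simp at h, fun _ => ⟨rfl, rfl⟩⟩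
          calc N * a x ≤ N * N := Nat.mul_le_mul_left N (Nat.le_of_dvd hN (hdvd x))
            _ = N ^ 2 := by ring
        · obtain ⟨e, c', h1, h2, h3, h4⟩ := exp_gen hN x b
          refine ⟨e, c', h1, h2, h3, h4, fun h => by simp at h, fun h => ?_⟩
          exact absurd (Option.some.inj h) hb
    choose e c' he heN hc' hexpτ hs1 hs2 using hexp
    have hc0 : ∀ x s, c' x s ≠ 0 := by
      intro x s h0
      obtain ⟨n, hn, h1⟩ := hc' x s
      rw [h0, zero_pow hn.ne'] at h1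
      exact zero_ne_one h1
    have hσc : ∀ x s, ‖σ (c' x s)‖ = 1 := by
      intro x s
      obtain ⟨n, hn, h1⟩ := hc' x s
      have h2 := congrArg (fun z => ‖σ z‖) h1
      simp only [map_pow, norm_pow, map_one, norm_one] at h2
      exact (pow_eq_one_iff_of_nonneg (norm_nonneg _) hn.ne').mp h2
    have hz : ∀ x s, ‖σ (c' x s) * t ^ e x s‖ < 1 := by
      intro x s
      rw [norm_mul, hσc, one_mul, norm_pow]
      exact pow_lt_one₀ (norm_nonneg _) ht1 (he x s).ne'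
    choose w hw using fun x s => hconv _ (hz x s)
    obtain ⟨x, hx⟩ := conj_lemma hN pR (pR_bijective hN) (cF hN) (cF_mem hN)
      (cF_pR hN) (N ^ 2)
      (fun x s => PowerSeries.C ((c' x s)⁻¹) * PowerSeries.X ^ (N ^ 2 - e x s) *
        powComp (c' x s) (e x s) (PowerSeries.map (Int.castRingHom ℂ) JZ))
      (by
        intro x s τ
        have h1 := ((Ev.C (qN N τ) ((c' x s)⁻¹)).mul ((Ev.X (qN N τ)).pow (N ^ 2 - e x s))).mul
          (hexpτ x s τ)
        have h2 : (c' x s)⁻¹ * qN N τ ^ (N ^ 2 - e x s) *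
            (c' x s * qN N τ ^ e x s * cF hN x s τ) = cF hN x s τ * qN N τ ^ (N ^ 2) := by
          rw [← Nat.sub_add_cancel (heN x s), pow_add, Nat.sub_add_cancel (heN x s)]
          have := hc0 x s
          field_simp
        rw [h2] at h1
        exact h1)
      σ τ₀ t ht hft
      (fun x s => (σ (c' x s))⁻¹ * t ^ (N ^ 2 - e x s) * w x s)
      (by
        intro x s
        have h1 : Ev t (powComp (σ (c' x s)) (e x s) (PowerSeries.map (Int.castRingHom K) JZ))
            (w x s) := Ev.powComp (he x s) (hw x s)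
        have h2 := ((Ev.C t ((σ (c' x s))⁻¹)).mul ((Ev.X t).pow (N ^ 2 - e x s))).mul h1
        rw [map_mul, map_mul, map_pow, PowerSeries.map_C, PowerSeries.map_X, map_powComp,
          map_map_Z, map_inv₀]
        exact h2) x₀
    have hval : ∀ s, EvZ JZ (σ (c' x s) * t ^ e x s)
        (σ (c' x s) * t ^ e x s * σ (cF hN x₀ s τ₀)) := by
      intro s
      have h1 : w x s = σ (c' x s) * t ^ e x s * σ (cF hN x₀ s τ₀) := by
        have h2 := hx s
        have h3 : σ (c' x s) ≠ 0 := by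
          rw [← norm_ne_zero_iff, hσc]
          exact one_ne_zero
        have h4 : t ^ (N ^ 2 - e x s) ≠ 0 := pow_ne_zero _ ht
        have h5 : t ^ (N ^ 2) = t ^ (N ^ 2 - e x s) * t ^ e x s := by
          rw [← pow_add, Nat.sub_add_cancel (heN x s)]
        rw [h5] at h2
        have h6 : t ^ (N ^ 2 - e x s) * w x s =
            t ^ (N ^ 2 - e x s) * (σ (c' x s) * t ^ e x s * σ (cF hN x₀ s τ₀)) := by
          calc t ^ (N ^ 2 - e x s) * w x s
              = σ (c' x s) * ((σ (c' x s))⁻¹ * t ^ (N ^ 2 - e x s) * w x s) := by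
                field_simp
            _ = _ := by rw [h2]; ring
        exact mul_left_cancel₀ h4 h6
      rw [← h1]
      exact hw x s
    refine ⟨a x, d x, c x, ha x, hd x, had x, hcd x, hprim x, ?_, ?_⟩
    · have h1 := hval none
      rw [(hs1 x none rfl).1, (hs1 x none rfl).2] at h1
      exact h1
    · have h1 := hval (some ⟨a x, hdvd x⟩)
      rw [(hs2 x _ rfl).1, (hs2 x _ rfl).2, map_one, one_mul] at h1
      simp only [dif_pos (hdvd x)]
      exact h1

end Pool.Agent.ZPS
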