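import Pool.Agent.ZPS.Series

/-!
# ZPS module 08: convergence of `J`, `D`, `E` on the open unit discs of `ℂ` and `ℂ_p`

Over `ℂ`: a nonzero `z` in the disc is `qParam 1 τ` (`exists_qParam`), use `spec_series`; `z = 0` is
trivial. Over `ℂ_p`: the coefficients are integers, of norm `≤ 1` (`norm_intCast_le`), `ev_val`;
if the constant coefficient is `1` the value is congruent to `1`: `norm_val_sub_le`, `val_zero`.
`exists_tate`: `exists_q` gives `q` with `q x = J(q)`; take an `N`-th root of `q`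
(`IsAlgClosed.exists_pow_nat_eq`; `PadicComplex p` is algebraically closed, see `ZP2/Crit.lean`).
-/

namespace Pool.Agent.ZPS

open UpperHalfPlane ModularForm MatrixGroups Function PowerSeries Pool.Agent.Hhelper14.ZP

theorem conv_ev_zero {K : Type*} [NormedField K] (f : PowerSeries K) : Ev 0 f (coeff 0 f) := by
  have h : ∀ n, n ≠ 0 → coeff n f * (0 : K) ^ n = 0 := fun n hn => by simp [hn]
  refine ⟨?_, ?_⟩
  · exact summable_of_ne_finset_zero (s := {0}) fun n hn => by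
      rw [h n (by simpa using hn), norm_zero]
  · have := hasSum_single (f := fun n => coeff n f * (0 : K) ^ n) 0 h
    simpa using this

theorem conv_C (z : ℂ) (hz : ‖z‖ < 1) :
    (∃ v, EvZ JZ z v) ∧ (∃ v, EvZ DZ z v) ∧ ∃ v, EvZ EZ z v := by
  rcases eq_or_ne z 0 with rfl | hz0
  · exact ⟨⟨_, conv_ev_zero _⟩, ⟨_, conv_ev_zero _⟩, ⟨_, conv_ev_zero _⟩⟩
  · obtain ⟨τ, hτ⟩ := exists_qParam hz hz0
    obtain ⟨v, h1, h2, h3, -⟩ := spec_series.2.2.2 τ
    rw [hτ] at h1 h2 h3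
    exact ⟨⟨_, h1⟩, ⟨_, h2⟩, ⟨_, h3⟩⟩

theorem conv_norm_coeff {p : ℕ} [Fact p.Prime] (F : PowerSeries ℤ) (n : ℕ) :
    ‖coeff n (PowerSeries.map (Int.castRingHom (PadicComplex p)) F)‖ ≤ 1 := by
  rw [PowerSeries.coeff_map]
  exact norm_intCast_le _

theorem conv_Cp {p : ℕ} [Fact p.Prime] (F : PowerSeries ℤ) (z : PadicComplex p) (hz : ‖z‖ < 1) :
    ∃ v, EvZ F z v :=
  ⟨_, ev_val (conv_norm_coeff F) hz⟩

theorem norm_sub_one {p : ℕ} [Fact p.Prime] {F : PowerSeries ℤ} (hF : coeff 0 F = 1)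
    {z v : PadicComplex p} (hz : ‖z‖ < 1) (h : EvZ F z v) : ‖v - 1‖ < 1 ∧ ‖v‖ = 1 := by
  have h0 : coeff 0 (PowerSeries.map (Int.castRingHom (PadicComplex p)) F) = 1 := by
    rw [PowerSeries.coeff_map, hF, map_one]
  have hv : v = val (PowerSeries.map (Int.castRingHom (PadicComplex p)) F) z :=
    Ev.unique h (ev_val (conv_norm_coeff F) hz)
  subst hv
  refine ⟨?_, norm_val (conv_norm_coeff F) h0 hz⟩
  have h1 := norm_val_sub_le (conv_norm_coeff F) hz (t := 0) (by simp)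
  rw [val_zero (conv_norm_coeff F), h0, sub_zero] at h1
  exact h1.trans_lt hz

/-- the `q`-parameter, with an `N`-th root -/
theorem exists_tate {p : ℕ} [Fact p.Prime] {N : ℕ} (hN : 0 < N) {x : PadicComplex p}
    (hx : 1 < ‖x‖) : ∃ t : PadicComplex p, t ≠ 0 ∧ ‖t‖ < 1 ∧ EvZ JZ (t ^ N) (t ^ N * x) ∧
      ‖t‖ ^ N * ‖x‖ = 1 := by
  have h0 : coeff 0 (PowerSeries.map (Int.castRingHom (PadicComplex p)) JZ) = 1 := by
    rw [PowerSeries.coeff_map, spec_series.1, map_one]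
  obtain ⟨q, hq, hqx⟩ := exists_q (conv_norm_coeff JZ) h0 hx
  have hev : EvZ JZ q (q * x) := by
    rw [hqx]
    exact ev_val (conv_norm_coeff JZ) hq
  obtain ⟨t, ht⟩ := IsAlgClosed.exists_pow_nat_eq q hN
  have hn : ‖t‖ ^ N * ‖x‖ = 1 := by
    rw [← norm_pow, ht, ← norm_mul]
    exact (norm_sub_one spec_series.1 hq hev).2
  refine ⟨t, ?_, ?_, ?_, hn⟩
  · rintro rfl
    rw [norm_zero, zero_pow hN.ne', zero_mul] at hn
    exact zero_ne_one hn
  · by_contra hcon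
    have h1 : 1 ≤ ‖t‖ ^ N := one_le_pow₀ (not_lt.mp hcon)
    rw [← norm_pow, ht] at h1
    linarith
  · rw [ht]
    exact hev

end Pool.Agent.ZPS
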