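import Pool.Agent.ZPS.DConj
import Pool.Agent.ZPS.Bounds
import Pool.Agent.ZPS.Conv
import Pool.Agent.Hhelper14.ZP2.Crit

/-!
# ZPS module 10: comparison of heights under isogenies

`D = D_M(τ)` (`Dfun`). Nonzero: `Dfun_ne_zero`. Algebraic: `Dfun_integral` (a monic polynomial over
`OO[jInv τ]`; `OO` consists of algebraic numbers).

`p`-adic: put `x = jInv τ`, `x' = jA hN M τ`. If `‖φ x‖ ≤ 1`: `x'` and `D` are integral over `OO[x]`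
(`modular_eq`, `Dfun_integral`), `‖φ z‖ ≤ 1` for `z ∈ OO` (`norm_OO_le`), so `‖φ x'‖, ‖φ D‖ ≤ 1`. If
`‖φ x‖ > 1`: `t` from `exists_tate`, `D_conj`: `‖v‖ = ‖w‖ = 1`, `‖φ D‖ ‖t‖^N = ‖a‖^12 ‖t‖^{a²} ≤ ‖t‖^{a²}`
and `‖φ x'‖ ‖t‖^{a²} = 1`, `‖φ x‖ ‖t‖^N = 1`, so `‖φ D‖ ‖φ x'‖ ≤ ‖φ x‖`, `‖φ x'‖ ≥ 1`.

Archimedean: choose `τ₁` with `jInv τ₁ = σ x` (`ZPL.j_surj`), `t = qN N τ₁`; `D_conj`. As in
`arch_pair`, `σ c * t^{a²} = qParam 1 (Bτ₁)`, `B = (a b; 0 d)`, `σ x' = jInv (Bτ₁)`, `t^N w = Δ(τ₁)`,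
`σ c t^{a²} v = Δ(Bτ₁)`, `Im (Bτ₁) = (a/d) Im τ₁`; with `g(τ) = |Δ(τ)| (Im τ)^6`:
`|σ D| = a¹² |Δ(Bτ₁)|/|Δ(τ₁)| = N⁶ g(Bτ₁)/g(τ₁)`. Take logarithms and use `exists_C2`
(`C = 2 C₂`): `log|σ D| = 6 log N + log g(Bτ₁) - log g(τ₁) ≤ 6 log N - log⁺|σ x'|/2 + C₂ +
log⁺|σ x| + C₂`.
-/

namespace Pool.Agent.ZPS

open UpperHalfPlane ModularForm MatrixGroups Function PowerSeries Pool.Agent.Hhelper14.ZP

/-- a root of a monic polynomial over `ℤ̄[x]`, `x` algebraic, is algebraic -/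
theorem algebraic_of_root {x D : ℂ} (hx : IsAlgebraic ℚ x) {Φ : Polynomial (Polynomial OO)}
    (hΦ : Φ.Monic) (h : (Φ.map (Polynomial.eval₂RingHom OO.subtype x)).eval D = 0) :
    IsAlgebraic ℚ D := by
  let A : Subalgebra ℚ ℂ := integralClosure ℚ ℂ
  have hOO : ∀ a : OO, (a : ℂ) ∈ A := by
    intro a
    have h1 : IsIntegral ℤ (a : ℂ) := a.2
    have h2 : IsIntegral ℚ (a : ℂ) := h1.tower_top
    exact h2
  have hxA : x ∈ A := hx.isIntegral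
  let f : OO →+* A :=
    { toFun := fun a => ⟨(a : ℂ), hOO a⟩
      map_one' := rfl
      map_mul' := fun _ _ => rfl
      map_zero' := rfl
      map_add' := fun _ _ => rfl }
  let e : Polynomial OO →+* A := Polynomial.eval₂RingHom f ⟨x, hxA⟩
  have he : (algebraMap A ℂ).comp e = Polynomial.eval₂RingHom OO.subtype x := by
    apply Polynomial.ringHom_ext
    · intro a
      simp only [e, f, RingHom.comp_apply, Polynomial.coe_eval₂RingHom, Polynomial.eval₂_C]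
      rfl
    · simp only [e, RingHom.comp_apply, Polynomial.coe_eval₂RingHom, Polynomial.eval₂_X]
      rfl
  have h2 : IsIntegral A D := by
    refine ⟨Φ.map e, hΦ.map e, ?_⟩
    rw [← Polynomial.eval_map, Polynomial.map_map, he]
    exact h
  have h3 : IsIntegral ℚ D := isIntegral_trans (R := ℚ) (A := A) D h2
  exact h3.isAlgebraic

/-- a root of a monic polynomial over `ℤ̄[x]`, `x ∈ V`, is in `V` -/
theorem mem_of_monic (V : ValuationSubring ℂ) {x D : ℂ} (hx : x ∈ V)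
    {Φ : Polynomial (Polynomial OO)} (hΦ : Φ.Monic)
    (h : (Φ.map (Polynomial.eval₂RingHom OO.subtype x)).eval D = 0) : D ∈ V := by
  let f : OO →+* V := Subring.inclusion (fun x hx => OO_le V hx)
  let e : Polynomial OO →+* V := Polynomial.eval₂RingHom f ⟨x, hx⟩
  have he : (algebraMap V ℂ).comp e = Polynomial.eval₂RingHom OO.subtype x := by
    apply Polynomial.ringHom_ext
    · intro a
      simp only [e, f, RingHom.comp_apply, Polynomial.coe_eval₂RingHom, Polynomial.eval₂_C]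
      rfl
    · simp [e]
  have h2 : IsIntegral V D := by
    refine ⟨Φ.map e, hΦ.map e, ?_⟩
    rw [← Polynomial.eval_map, Polynomial.map_map, he]
    exact h
  obtain ⟨y, hy⟩ := (IsIntegrallyClosed.isIntegral_iff (R := V) (K := ℂ)).mp h2
  rw [← hy]
  exact y.2

theorem norm_root_one {K : Type} [NormedField K] (σ : ℂ →+* K) {c : ℂ} {d : ℕ} (hd : 0 < d)
    (hc : c ^ d = 1) : ‖σ c‖ = 1 := by
  have h2 := congrArg (fun z => ‖σ z‖) hc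
  simp only [map_pow, norm_pow, map_one, norm_one] at h2
  exact (pow_eq_one_iff_of_nonneg (norm_nonneg _) hd.ne').mp h2

theorem comparison_padic {p : ℕ} [Fact p.Prime] (φ : ℂ →+* PadicComplex p) {N : ℕ} (hN : 0 < N)
    (M : DD N) (τ : ℍ) :
    ‖φ (Dfun hN M τ)‖ * max 1 ‖φ (jA hN M τ)‖ ≤ max 1 ‖φ (jInv τ)‖ := by
  by_cases hx : ‖φ (jInv τ)‖ ≤ 1
  · obtain ⟨Φ, hΦ, hΦτ⟩ := modular_eq hN M
    obtain ⟨Ψ, hΨ, hΨτ⟩ := Dfun_integral hN M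
    have h1 : ‖φ (jA hN M τ)‖ ≤ 1 := mem_of_monic (sigmaVal φ) hx hΦ (hΦτ τ)
    have h2 : ‖φ (Dfun hN M τ)‖ ≤ 1 := mem_of_monic (sigmaVal φ) hx hΨ (hΨτ τ)
    rw [max_eq_left h1, max_eq_left hx, mul_one]
    exact h2
  · rw [not_le] at hx
    obtain ⟨t, ht0, ht1, htJ, htn⟩ := exists_tate hN hx
    obtain ⟨a, d, c, v, w, ha, hd, had, hc, hJ, hv, hw, hD⟩ := D_conj hN M τ φ t ht0 ht1
      (fun z hz => ⟨conv_Cp JZ z hz, conv_Cp DZ z hz, conv_Cp EZ z hz⟩) htJ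
    have hcn : ‖φ c‖ = 1 := norm_root_one φ hd hc
    have hn1 : ‖φ c * t ^ a ^ 2‖ < 1 := by
      rw [norm_mul, hcn, one_mul, norm_pow]
      exact pow_lt_one₀ (norm_nonneg _) ht1 (pow_pos ha 2).ne'
    have hn2 : ‖t ^ N‖ < 1 := by
      rw [norm_pow]
      exact pow_lt_one₀ (norm_nonneg _) ht1 hN.ne'
    have hv1 : ‖v‖ = 1 := (norm_sub_one spec_series.2.1 hn1 hv).2
    have hw1 : ‖w‖ = 1 := (norm_sub_one spec_series.2.1 hn2 hw).2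
    have hj1 := (norm_sub_one spec_series.1 hn1 hJ).2
    rw [norm_mul, norm_mul, hcn, one_mul, norm_pow] at hj1
    have hD1 := congrArg norm hD
    rw [norm_mul, norm_mul, norm_pow, hw1, mul_one, norm_mul, norm_pow, norm_mul, norm_mul, hcn,
      one_mul, norm_pow, hv1, mul_one] at hD1
    have ht0' : 0 < ‖t‖ := norm_pos_iff.mpr ht0
    have han : ‖(a : PadicComplex p)‖ ≤ 1 := by
      have := norm_intCast_le (p := p) (a : ℤ)
      simpa using this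
    have han12 : ‖(a : PadicComplex p)‖ ^ 12 ≤ 1 := pow_le_one₀ (norm_nonneg _) han
    have hta : 0 < ‖t‖ ^ a ^ 2 := pow_pos ht0' _
    have htN : 0 < ‖t‖ ^ N := pow_pos ht0' _
    have hta1 : ‖t‖ ^ a ^ 2 ≤ 1 := pow_le_one₀ ht0'.le ht1.le
    have hx'1 : 1 ≤ ‖φ (jA hN M τ)‖ := by
      by_contra hcon
      rw [not_le] at hcon
      have : ‖t‖ ^ a ^ 2 * ‖φ (jA hN M τ)‖ < 1 := by
        calc ‖t‖ ^ a ^ 2 * ‖φ (jA hN M τ)‖ ≤ 1 * ‖φ (jA hN M τ)‖ := by gcongr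
          _ < 1 := by rw [one_mul]; exact hcon
      linarith
    rw [max_eq_right hx'1, max_eq_right hx.le]
    have h3 : ‖φ (Dfun hN M τ)‖ * ‖t‖ ^ N ≤ ‖t‖ ^ a ^ 2 := by
      rw [hD1]
      calc ‖(a : PadicComplex p)‖ ^ 12 * ‖t‖ ^ a ^ 2 ≤ 1 * ‖t‖ ^ a ^ 2 := by gcongr
        _ = _ := one_mul _
    have h4 : (‖φ (Dfun hN M τ)‖ * ‖φ (jA hN M τ)‖) * ‖t‖ ^ N ≤ ‖φ (jInv τ)‖ * ‖t‖ ^ N := by
      calc (‖φ (Dfun hN M τ)‖ * ‖φ (jA hN M τ)‖) * ‖t‖ ^ N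
          = (‖φ (Dfun hN M τ)‖ * ‖t‖ ^ N) * ‖φ (jA hN M τ)‖ := by ring
        _ ≤ ‖t‖ ^ a ^ 2 * ‖φ (jA hN M τ)‖ := by gcongr
        _ = 1 := hj1
        _ = ‖φ (jInv τ)‖ * ‖t‖ ^ N := by rw [mul_comm]; exact htn.symm
    exact le_of_mul_le_mul_right h4 htN

theorem norm_qParam_one (τ : ℍ) :
    ‖Periodic.qParam 1 (τ : ℂ)‖ = Real.exp (-2 * Real.pi * τ.im) := by
  rw [Periodic.norm_qParam, div_one]
  rfl

theorem log_aux {D x y n : ℝ} (hD : 0 < D) (hx : 0 < x) (hy : 0 < y) (hn : 0 < n)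
    (h : D * x = n ^ 6 * y) : Real.log D + Real.log x = 6 * Real.log n + Real.log y := by
  have h1 := congrArg Real.log h
  rw [Real.log_mul hD.ne' hx.ne', Real.log_mul (pow_pos hn 6).ne' hy.ne', Real.log_pow] at h1
  push_cast at h1
  exact h1

theorem comparison_arch {C₂ : ℝ} (hC₂ : ∀ τ : ℍ,
      Real.posLog ‖jInv τ‖ / 2 - C₂ ≤ -Real.log (‖ModularForm.discriminant τ‖ * τ.im ^ 6) ∧
      -Real.log (‖ModularForm.discriminant τ‖ * τ.im ^ 6) ≤ Real.posLog ‖jInv τ‖ + C₂)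
    (σ : ℂ →+* ℂ) {N : ℕ} (hN : 0 < N) (M : DD N) (τ : ℍ) :
    Real.log ‖σ (Dfun hN M τ)‖ + Real.posLog ‖σ (jA hN M τ)‖ / 2 ≤
        Real.posLog ‖σ (jInv τ)‖ + 6 * Real.log N + 2 * C₂ := by
  obtain ⟨τ₁, hτ₁⟩ := Pool.Agent.Hhelper14.ZPL.j_surj (σ (jInv τ))
  set t := qN N τ₁ with htdef
  have ht0 : t ≠ 0 := qN_ne_zero N τ₁
  have ht1 : ‖t‖ < 1 := norm_qN_lt hN τ₁
  have htN : t ^ N = Periodic.qParam 1 (τ₁ : ℂ) := qN_pow hN τ₁
  have hJ0 : EvZ JZ (t ^ N) (t ^ N * σ (jInv τ)) := by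
    rw [htN, ← hτ₁]
    exact evZ_J τ₁
  obtain ⟨a, d, c, v, w, ha, hd, had, hc, hJ, hv, hw, hD⟩ := D_conj hN M τ σ t ht0 ht1
    (fun z hz => conv_C z hz) hJ0
  have hcn : ‖σ c‖ = 1 := norm_root_one σ hd hc
  have hc0 : σ c ≠ 0 := by
    intro h
    rw [h, norm_zero] at hcn
    exact zero_ne_one hcn
  have hu0 : σ c * t ^ a ^ 2 ≠ 0 := mul_ne_zero hc0 (pow_ne_zero _ ht0)
  have hu1 : ‖σ c * t ^ a ^ 2‖ < 1 := by
    rw [norm_mul, hcn, one_mul, norm_pow]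
    exact pow_lt_one₀ (norm_nonneg _) ht1 (pow_pos ha 2).ne'
  obtain ⟨τ₂, hτ₂⟩ := exists_qParam hu1 hu0
  -- the imaginary part
  have hapos : (0 : ℝ) < a := by exact_mod_cast ha
  have hdpos : (0 : ℝ) < d := by exact_mod_cast hd
  have hNr : (N : ℝ) = a * d := by rw [← had]; push_cast; ring
  have him : τ₂.im = a / d * τ₁.im := by
    have h1 := norm_qParam_one τ₂
    rw [hτ₂, norm_mul, hcn, one_mul, norm_pow] at h1
    have h2 : (‖t‖ ^ a ^ 2) ^ N = Real.exp (-2 * Real.pi * τ₁.im) ^ a ^ 2 := by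
      rw [← norm_qParam_one τ₁, ← htN, norm_pow, ← pow_mul, ← pow_mul, mul_comm]
    rw [h1, ← Real.exp_nat_mul, ← Real.exp_nat_mul] at h2
    have h3 := Real.exp_injective h2
    push_cast at h3
    have h4 : (N : ℝ) * τ₂.im = (a : ℝ) ^ 2 * τ₁.im := by
      have hpi := Real.pi_pos
      have h5 : (2 * Real.pi) * ((N : ℝ) * τ₂.im) = (2 * Real.pi) * ((a : ℝ) ^ 2 * τ₁.im) := by
        linear_combination -h3
      exact mul_left_cancel₀ (by positivity) h5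
    rw [hNr] at h4
    field_simp
    have h6 : (a : ℝ) * (d * τ₂.im) = a * (a * τ₁.im) := by linear_combination h4
    have h7 := mul_left_cancel₀ hapos.ne' h6
    linear_combination h7
  -- the values
  have hx' : σ (jA hN M τ) = jInv τ₂ := by
    have h1 := evZ_J τ₂
    rw [hτ₂] at h1
    exact mul_left_cancel₀ hu0 (Ev.unique hJ h1)
  obtain ⟨v₂, -, hv₂, -, hΔ₂, hv₂0⟩ := spec_series.2.2.2 τ₂
  obtain ⟨v₁, -, hv₁, -, hΔ₁, hv₁0⟩ := spec_series.2.2.2 τ₁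
  have hvv : v = v₂ := by
    have h1 : EvZ DZ (Periodic.qParam 1 (τ₂ : ℂ)) v₂ := hv₂
    rw [hτ₂] at h1
    exact Ev.unique hv h1
  have hww : w = v₁ := by
    have h1 : EvZ DZ (Periodic.qParam 1 (τ₁ : ℂ)) v₁ := hv₁
    rw [← htN] at h1
    exact Ev.unique hw h1
  have hD' : σ (Dfun hN M τ) * ModularForm.discriminant τ₁ =
      (a : ℂ) ^ 12 * ModularForm.discriminant τ₂ := by
    rw [hΔ₁, hΔ₂, ← htN, hτ₂, ← hvv, ← hww]
    exact hD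
  have hg1 : 0 < ‖ModularForm.discriminant τ₁‖ := norm_pos_iff.mpr (ModularForm.discriminant_ne_zero τ₁)
  have hg2 : 0 < ‖ModularForm.discriminant τ₂‖ := norm_pos_iff.mpr (ModularForm.discriminant_ne_zero τ₂)
  have hD0 : 0 < ‖σ (Dfun hN M τ)‖ := by
    rw [norm_pos_iff]
    exact (map_ne_zero σ).mpr (Dfun_ne_zero hN M τ)
  have hnorm : ‖σ (Dfun hN M τ)‖ * (‖ModularForm.discriminant τ₁‖ * τ₁.im ^ 6) =
      (N : ℝ) ^ 6 * (‖ModularForm.discriminant τ₂‖ * τ₂.im ^ 6) := by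
    have h1 := congrArg norm hD'
    rw [norm_mul, norm_mul, norm_pow, Complex.norm_natCast] at h1
    rw [him, hNr]
    have h2 : ‖σ (Dfun hN M τ)‖ * (‖ModularForm.discriminant τ₁‖ * τ₁.im ^ 6) =
        (a : ℝ) ^ 12 * ‖ModularForm.discriminant τ₂‖ * τ₁.im ^ 6 := by
      rw [← mul_assoc, h1]
    rw [h2]
    field_simp
  have hNpos : (0 : ℝ) < N := by exact_mod_cast hN
  have hlog := log_aux hD0 (mul_pos hg1 (pow_pos τ₁.im_pos 6)) (mul_pos hg2 (pow_pos τ₂.im_pos 6))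
    hNpos hnorm
  have h1 := (hC₂ τ₁).2
  have h2 := (hC₂ τ₂).1
  rw [hx', ← hτ₁]
  linarith

theorem exists_comparison : ∃ C : ℝ, 0 < C ∧ ∀ (N : ℕ) (hN : 0 < N) (M : DD N) (τ : ℍ),
    ∃ D : ℂ, D ≠ 0 ∧ (IsAlgebraic ℚ (jInv τ) → IsAlgebraic ℚ D) ∧
      (∀ (p : ℕ) [Fact p.Prime] (φ : ℂ →+* PadicComplex p),
        ‖φ D‖ * max 1 ‖φ (jA hN M τ)‖ ≤ max 1 ‖φ (jInv τ)‖) ∧
      ∀ σ : ℂ →+* ℂ, Real.log ‖σ D‖ + Real.posLog ‖σ (jA hN M τ)‖ / 2 ≤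
        Real.posLog ‖σ (jInv τ)‖ + 6 * Real.log N + C := by
  obtain ⟨C₂, hC, hC₂⟩ := exists_C2
  refine ⟨2 * C₂, by positivity, fun N hN M τ => ⟨Dfun hN M τ, Dfun_ne_zero hN M τ, ?_, ?_, ?_⟩⟩
  · intro hx
    obtain ⟨Ψ, hΨ, hΨτ⟩ := Dfun_integral hN M
    exact algebraic_of_root hx hΨ (hΨτ τ)
  · intro p _ φ
    exact comparison_padic φ hN M τ
  · intro σ
    exact comparison_arch hC₂ σ hN M τ

/-- `j(Mτ)` is algebraic if `j(τ)` is -/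
theorem algebraic_jA {N : ℕ} (hN : 0 < N) (M : DD N) {τ : ℍ} (h : IsAlgebraic ℚ (jInv τ)) :
    IsAlgebraic ℚ (jA hN M τ) := by
  obtain ⟨Φ, hΦ, hΦτ⟩ := modular_eq hN M
  exact algebraic_of_root h hΦ (hΦτ τ)

end Pool.Agent.ZPS
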