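import Pool.Agent.ZPS.Series

/-!
# ZPS module 02: the general conjugation lemma

`X` is a finite set permuted by the bijections `ρ γ` (`γ ∈ SL₂(ℤ)`, not necessarily an action),
`F x s ∈ RR N` (holomorphic with `q_N`-expansion with algebraic integer coefficients and finite pole
order) with `F (ρ γ x) s τ = F x s (γ τ)`; `Φ x s` is the expansion of `F x s * q_N ^ k`.
Let `σ : ℂ → K` be a field embedding, `K` a complete normed field, and `t ∈ K`, `t ≠ 0`, such that
`t ^ N` is the parameter `q` of `σ (j τ₀)`. Then for every `x₀` there is ONE `x` such that for ALL `s`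
`σ (F x₀ s τ₀) = (the value at `t` of the conjugated expansion of F x s)`.

Proof (as `ZP2/Hecke.lean`, `tate_of_hecke`, with `QQ N` replaced by `X`).
* For `w : ℕ` put `G_x = ∑_s w ^ e(s) F x s`, `e : S ≃ Fin (card S)`, `y = G_{x₀}(τ₀)`. The polynomial
  `∏_x (T - G_x)` over `RR N` has `SL₂(ℤ)`-invariant coefficients (bijectivity of `ρ γ`), so by
  `exists_poly_of_mem` they are polynomials in `j`; evaluating at `T = y` gives `P ∈ ℂ[X]` with
  `P.eval (jInv τ) = ∏_x (y - G_x τ)` for all `τ`; in particular `P.eval (jInv τ₀) = 0`.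
* Formal identity (by `eq_zero_of_ev`), `Ψ_x = ∑_s w^e(s) Φ x s`, `M = P.natDegree`, `f` the series of
  `q j`: `(∑_{i ≤ M} C(P_i) (powComp 1 N f)^i X^{N(M-i)}) * X^{k |X|} = X^{N M} ∏_x (C y X^k - Ψ_x)`.
* Apply `PowerSeries.map σ` and evaluate at `t`; the left side is `t^{N M} σ(P.eval (j τ₀)) .. = 0`,
  so some factor vanishes: there is `x = x(w)` with `∑_s w^e(s) (σ(F x₀ s τ₀) t^k - v x s) = 0`.
* Pigeonhole: one `x` works for infinitely many `w : ℕ`; the polynomial
  `∑_s (σ(F x₀ s τ₀) t^k - v x s) T^e(s)` over `K` (characteristic zero as `σ` is injective) has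
  infinitely many roots, so all its coefficients vanish.
-/

set_option linter.all false

namespace Pool.Agent.ZPS

open UpperHalfPlane ModularForm MatrixGroups Function PowerSeries Pool.Agent.Hhelper14.ZP

/-- the polynomial `∏ (T - G x)` over `RR N` -/
noncomputable def cP {N : ℕ} {X : Type} [Fintype X] (G : X → RR N) : Polynomial (RR N) :=
  ∏ x : X, (Polynomial.X - Polynomial.C (G x))

theorem cP_map {N : ℕ} {X : Type} [Fintype X] (G : X → RR N) (τ : ℍ) :
    (cP G).map (evalAt N τ) = ∏ x : X, (Polynomial.X - Polynomial.C ((G x : ℍ → ℂ) τ)) := by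
  rw [cP, Polynomial.map_prod]
  refine Finset.prod_congr rfl fun q _ => ?_
  rw [Polynomial.map_sub, Polynomial.map_X, Polynomial.map_C]
  rfl

theorem cP_inv {N : ℕ} {X : Type} [Fintype X] (G : X → RR N) {ρ : SL(2, ℤ) → X → X}
    (hρ : ∀ γ, Function.Bijective (ρ γ))
    (hG : ∀ γ x τ, (G (ρ γ x) : ℍ → ℂ) τ = (G x : ℍ → ℂ) (γ • τ)) (γ : SL(2, ℤ)) (τ : ℍ) :
    (cP G).map (evalAt N (γ • τ)) = (cP G).map (evalAt N τ) := by
  rw [cP_map, cP_map]
  have h := Function.Bijective.prod_comp (hρ γ)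
    (fun x => (Polynomial.X - Polynomial.C ((G x : ℍ → ℂ) τ)))
  rw [← h]
  refine Finset.prod_congr rfl fun q _ => ?_
  rw [hG]

theorem cP_coeff {N : ℕ} (hN : 0 < N) {X : Type} [Fintype X] (G : X → RR N)
    {ρ : SL(2, ℤ) → X → X} (hρ : ∀ γ, Function.Bijective (ρ γ))
    (hG : ∀ γ x τ, (G (ρ γ x) : ℍ → ℂ) τ = (G x : ℍ → ℂ) (γ • τ)) (k : ℕ) :
    ∃ P : Polynomial OO, ∀ τ : ℍ, evalAt N τ ((cP G).coeff k) =
      P.eval₂ OO.subtype (jInv τ) := by
  refine exists_poly_of_mem hN ((cP G).coeff k).2 fun γ τ => ?_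
  have h := congrArg (fun p => p.coeff k) (cP_inv G hρ hG γ τ)
  simp only [Polynomial.coeff_map] at h
  exact h

theorem exists_P {N : ℕ} (hN : 0 < N) {X : Type} [Fintype X] (G : X → RR N)
    {ρ : SL(2, ℤ) → X → X} (hρ : ∀ γ, Function.Bijective (ρ γ))
    (hG : ∀ γ x τ, (G (ρ γ x) : ℍ → ℂ) τ = (G x : ℍ → ℂ) (γ • τ)) (y : ℂ) :
    ∃ P : Polynomial ℂ, ∀ τ : ℍ, P.eval (jInv τ) = ∏ x : X, (y - (G x : ℍ → ℂ) τ) := by
  choose Pk hPk using cP_coeff hN G hρ hG
  refine ⟨∑ k ∈ Finset.range ((cP G).natDegree + 1),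
    Polynomial.C (y ^ k) * (Pk k).map OO.subtype, fun τ => ?_⟩
  have h1 : ((cP G).map (evalAt N τ)).eval y = ∏ x : X, (y - (G x : ℍ → ℂ) τ) := by
    rw [cP_map, Polynomial.eval_prod]
    refine Finset.prod_congr rfl fun q _ => ?_
    rw [Polynomial.eval_sub, Polynomial.eval_X, Polynomial.eval_C]
  rw [← h1, Polynomial.eval_map, Polynomial.eval₂_eq_sum_range, Polynomial.eval_finsetSum]
  refine Finset.sum_congr rfl fun k _ => ?_
  rw [Polynomial.eval_mul, Polynomial.eval_C, Polynomial.eval_map, ← hPk k τ, mul_comm]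

theorem sum_pow_eq {K : Type*} [Field K] (q : K) (N : ℕ) (P : Polynomial K) (j : K) :
    ∑ i ∈ Finset.range (P.natDegree + 1), P.coeff i * (q ^ N * j) ^ i *
      q ^ (N * (P.natDegree - i)) = q ^ (N * P.natDegree) * P.eval j := by
  rw [Polynomial.eval_eq_sum_range, Finset.mul_sum]
  refine Finset.sum_congr rfl fun k hk => ?_
  have hk' : k ≤ P.natDegree := by
    have := Finset.mem_range.mp hk
    omega
  have e2 : N * P.natDegree = N * k + N * (P.natDegree - k) := by
    rw [← mul_add, Nat.add_sub_cancel' hk']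
  rw [e2, pow_add, mul_pow, ← pow_mul]
  ring

/-- the formal identity -/
theorem formal_id {N : ℕ} (hN : 0 < N) {X : Type} [Fintype X] (G : X → ℍ → ℂ) (k : ℕ)
    (Ψ : X → PowerSeries ℂ) (hΨ : ∀ x (τ : ℍ), Ev (qN N τ) (Ψ x) (G x τ * qN N τ ^ k)) (y : ℂ)
    (P : Polynomial ℂ) (hP : ∀ τ : ℍ, P.eval (jInv τ) = ∏ x : X, (y - G x τ)) :
    (∑ i ∈ Finset.range (P.natDegree + 1), PowerSeries.C (P.coeff i) *
      powComp 1 N (PowerSeries.map (Int.castRingHom ℂ) JZ) ^ i *
      PowerSeries.X ^ (N * (P.natDegree - i))) * PowerSeries.X ^ (k * Fintype.card X) =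
    PowerSeries.X ^ (N * P.natDegree) *
      ∏ x : X, (PowerSeries.C y * PowerSeries.X ^ k - Ψ x) := by
  rw [← sub_eq_zero]
  apply eq_zero_of_ev hN
  intro τ
  set s := qN N τ with hs
  have h1 : Ev s (powComp 1 N (PowerSeries.map (Int.castRingHom ℂ) JZ)) (s ^ N * jInv τ) := by
    have h2 : Ev (Periodic.qParam 1 (τ : ℂ)) (PowerSeries.map (Int.castRingHom ℂ) JZ)
      (Periodic.qParam 1 (τ : ℂ) * jInv τ) := evZ_J τ
    rw [← qN_pow hN] at h2
    have h3 : Ev (1 * s ^ N) (PowerSeries.map (Int.castRingHom ℂ) JZ) (s ^ N * jInv τ) := by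
      rwa [one_mul]
    exact h3.powComp hN
  have hL := (Ev.sum (s := s) (Finset.range (P.natDegree + 1)) _ _ fun i _ =>
    ((Ev.C s (P.coeff i)).mul (h1.pow i)).mul ((Ev.X s).pow (N * (P.natDegree - i)))).mul
    ((Ev.X s).pow (k * Fintype.card X))
  have hR := ((Ev.X s).pow (N * P.natDegree)).mul
    (Ev.prod (s := s) Finset.univ _ _ fun (x : X) _ =>
      ((Ev.C s y).mul ((Ev.X s).pow k)).sub (hΨ x τ))
  have h := hL.sub hR
  have e2 : ∏ x : X, (y * s ^ k - G x τ * s ^ k) =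
      (∏ x : X, (y - G x τ)) * s ^ (k * Fintype.card X) := by
    rw [pow_mul, ← Finset.card_univ, ← Finset.prod_const, ← Finset.prod_mul_distrib]
    refine Finset.prod_congr rfl fun q _ => ?_
    ring
  rw [sum_pow_eq, e2, hP τ] at h
  have e3 : s ^ (N * P.natDegree) * (∏ x : X, (y - G x τ)) * s ^ (k * Fintype.card X) -
      s ^ (N * P.natDegree) * ((∏ x : X, (y - G x τ)) * s ^ (k * Fintype.card X)) = 0 := by ring
  rw [e3] at h
  exact h

theorem conj_lemma {N : ℕ} (hN : 0 < N) {X S : Type} [Finite X] [Finite S]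
    (ρ : SL(2, ℤ) → X → X) (hρ : ∀ γ, Function.Bijective (ρ γ))
    (F : X → S → ℍ → ℂ) (hF : ∀ x s, F x s ∈ RR N)
    (hFρ : ∀ γ x s τ, F (ρ γ x) s τ = F x s (γ • τ))
    (k : ℕ) (Φ : X → S → PowerSeries ℂ)
    (hΦ : ∀ x s (τ : ℍ), Ev (qN N τ) (Φ x s) (F x s τ * qN N τ ^ k))
    {K : Type} [NormedField K] [CompleteSpace K] (σ : ℂ →+* K) (τ₀ : ℍ) (t : K) (ht : t ≠ 0)
    (hft : EvZ JZ (t ^ N) (t ^ N * σ (jInv τ₀)))
    (v : X → S → K) (hv : ∀ x s, Ev t (PowerSeries.map σ (Φ x s)) (v x s)) (x₀ : X) :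
    ∃ x : X, ∀ s, v x s = σ (F x₀ s τ₀) * t ^ k := by
  classical
  have : Fintype X := Fintype.ofFinite X
  have : Fintype S := Fintype.ofFinite S
  have hchar : CharZero K := charZero_of_injective_ringHom σ.injective
  let e : S → ℕ := fun s => (Finite.equivFin S s : ℕ)
  have he : Function.Injective e := fun a b hab =>
    (Finite.equivFin S).injective (Fin.ext hab)
  -- for each weight there is an `x`
  have key : ∀ w : ℕ, ∃ x : X, ∑ s : S, (σ (F x₀ s τ₀) * t ^ k - v x s) * (w : K) ^ (e s) = 0 := by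
    intro w
    let G : X → RR N := fun x => ⟨∑ s : S, ((w : ℍ → ℂ) ^ (e s)) * F x s,
      Subring.sum_mem _ fun s _ => Subring.mul_mem _
        (Subring.pow_mem _ (natCast_mem (RR N) w) _) (hF x s)⟩
    have hGv : ∀ x τ, (G x : ℍ → ℂ) τ = ∑ s : S, (w : ℂ) ^ (e s) * F x s τ := by
      intro x τ
      change (∑ s : S, ((w : ℍ → ℂ) ^ (e s)) * F x s) τ = _
      rw [Finset.sum_apply]
      rfl
    have hG : ∀ γ x τ, (G (ρ γ x) : ℍ → ℂ) τ = (G x : ℍ → ℂ) (γ • τ) := by
      intro γ x τ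
      rw [hGv, hGv]
      exact Finset.sum_congr rfl fun s _ => by rw [hFρ]
    set y : ℂ := (G x₀ : ℍ → ℂ) τ₀ with hy
    obtain ⟨P, hP⟩ := exists_P hN G hρ hG y
    have hP0 : P.eval (jInv τ₀) = 0 := by
      rw [hP τ₀]
      exact Finset.prod_eq_zero (Finset.mem_univ x₀) (sub_self _)
    let Ψ : X → PowerSeries ℂ := fun x => ∑ s : S, PowerSeries.C ((w : ℂ) ^ (e s)) * Φ x s
    have hΨ : ∀ x (τ : ℍ), Ev (qN N τ) (Ψ x) ((G x : ℍ → ℂ) τ * qN N τ ^ k) := by
      intro x τ
      have h1 := Ev.sum (s := qN N τ) Finset.univ (fun s : S =>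
        PowerSeries.C ((w : ℂ) ^ (e s)) * Φ x s) _
        (fun s _ => (Ev.C (qN N τ) ((w : ℂ) ^ (e s))).mul (hΦ x s τ))
      rw [hGv, Finset.sum_mul]
      have h2 : ∑ s : S, (w : ℂ) ^ (e s) * F x s τ * qN N τ ^ k =
          ∑ s : S, (w : ℂ) ^ (e s) * (F x s τ * qN N τ ^ k) :=
        Finset.sum_congr rfl fun s _ => mul_assoc _ _ _
      rw [h2]
      exact h1
    have hid := congrArg (PowerSeries.map σ)
      (formal_id hN (fun x => (G x : ℍ → ℂ)) k Ψ hΨ y P hP)
    simp only [map_mul, map_sum, map_prod, map_pow, map_sub, PowerSeries.map_C, PowerSeries.map_X,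
      map_powComp, map_one, map_map_Z] at hid
    -- evaluate at `t`
    have h1 : Ev t (powComp 1 N (PowerSeries.map (Int.castRingHom K) JZ))
        (t ^ N * σ (jInv τ₀)) := by
      have h3 : Ev (1 * t ^ N) (PowerSeries.map (Int.castRingHom K) JZ)
          (t ^ N * σ (jInv τ₀)) := by
        rw [one_mul]
        exact hft
      exact h3.powComp hN
    have hΨt : ∀ x : X, Ev t (PowerSeries.map σ (Ψ x)) (∑ s : S, (w : K) ^ (e s) * v x s) := by
      intro x
      have h2 := Ev.sum (s := t) Finset.univ (fun s : S =>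
        PowerSeries.C ((w : K) ^ (e s)) * PowerSeries.map σ (Φ x s)) _
        (fun s _ => (Ev.C t ((w : K) ^ (e s))).mul (hv x s))
      have h3 : PowerSeries.map σ (Ψ x) = ∑ s : S,
          PowerSeries.C ((w : K) ^ (e s)) * PowerSeries.map σ (Φ x s) := by
        simp only [Ψ, map_sum, map_mul, PowerSeries.map_C, map_pow, map_natCast]
      rw [h3]
      exact h2
    have hL := (Ev.sum (s := t) (Finset.range (P.natDegree + 1)) _ _ fun i _ =>
      ((Ev.C t (σ (P.coeff i))).mul (h1.pow i)).mul ((Ev.X t).pow (N * (P.natDegree - i)))).mul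
      ((Ev.X t).pow (k * Fintype.card X))
    have hR := ((Ev.X t).pow (N * P.natDegree)).mul
      (Ev.prod (s := t) Finset.univ _ _ fun (x : X) _ =>
        ((Ev.C t (σ y)).mul ((Ev.X t).pow k)).sub (hΨt x))
    rw [hid] at hL
    have hval := hR.unique hL
    have e1 : ∑ i ∈ Finset.range (P.natDegree + 1), σ (P.coeff i) * (t ^ N * σ (jInv τ₀)) ^ i *
        t ^ (N * (P.natDegree - i)) = 0 := by
      have h4 := sum_pow_eq t N (P.map σ) (σ (jInv τ₀))
      rw [Polynomial.natDegree_map_eq_of_injective σ.injective] at h4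
      simp only [Polynomial.coeff_map] at h4
      rw [h4, Polynomial.eval_map, Polynomial.eval₂_at_apply, hP0, map_zero, mul_zero]
    rw [e1, zero_mul] at hval
    have hne : t ^ (N * P.natDegree) ≠ 0 := pow_ne_zero _ ht
    have hprod := (mul_eq_zero.mp hval).resolve_left hne
    obtain ⟨x, -, hx⟩ := Finset.prod_eq_zero_iff.mp hprod
    refine ⟨x, ?_⟩
    rw [hy, hGv, map_sum, Finset.sum_mul, ← Finset.sum_sub_distrib] at hx
    rw [← hx]
    refine Finset.sum_congr rfl fun s _ => ?_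
    rw [map_mul, map_pow, map_natCast]
    ring
  -- pigeonhole
  let Q : X → Polynomial K := fun x => ∑ s : S,
    Polynomial.C (σ (F x₀ s τ₀) * t ^ k - v x s) * Polynomial.X ^ (e s)
  have hQ : ∀ x (w : ℕ), (Q x).eval (w : K) =
      ∑ s : S, (σ (F x₀ s τ₀) * t ^ k - v x s) * (w : K) ^ (e s) := by
    intro x w
    simp only [Q, Polynomial.eval_finsetSum, Polynomial.eval_mul, Polynomial.eval_C,
      Polynomial.eval_pow, Polynomial.eval_X]
  have hinf : ∃ x, {w : ℕ | (Q x).eval (w : K) = 0}.Infinite := by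
    by_contra hcon
    push Not at hcon
    have h1 : (⋃ x : X, {w : ℕ | (Q x).eval (w : K) = 0}).Finite :=
      Set.finite_iUnion fun x => hcon x
    have h2 : (⋃ x : X, {w : ℕ | (Q x).eval (w : K) = 0}) = Set.univ := by
      rw [Set.eq_univ_iff_forall]
      intro w
      obtain ⟨x, hx⟩ := key w
      rw [Set.mem_iUnion]
      refine ⟨x, ?_⟩
      change (Q x).eval (w : K) = 0
      rw [hQ]
      exact hx
    rw [h2] at h1
    exact Set.infinite_univ h1
  obtain ⟨x, hx⟩ := hinf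
  refine ⟨x, fun s => ?_⟩
  have hQ0 : Q x = 0 := by
    refine Polynomial.eq_zero_of_infinite_isRoot _ ?_
    have h1 : ((fun w : ℕ => (w : K)) '' {w : ℕ | (Q x).eval (w : K) = 0}).Infinite :=
      hx.image Nat.cast_injective.injOn
    refine h1.mono ?_
    rintro _ ⟨w, hw, rfl⟩
    exact hw
  have h1 := congrArg (fun p => p.coeff (e s)) hQ0
  simp only [Q, Polynomial.finsetSum_coeff, Polynomial.coeff_C_mul_X_pow,
    Polynomial.coeff_zero] at h1
  rw [Finset.sum_eq_single s] at h1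
  · rw [if_pos rfl] at h1
    exact (sub_eq_zero.1 h1).symm
  · intro b _ hb
    rw [if_neg]
    intro h
    exact hb (he h).symm
  · intro h
    exact absurd (Finset.mem_univ s) h

end Pool.Agent.ZPS
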