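import Pool.Agent.ZPS.CoreDefs

/-!
# ZPS module 15: the total height is bounded by the bad archimedean places

For a finite place `v` with `La v > Rv v (≥ 0)`: `#{i | l_i ≥ La/2} > n - d ≥ r` (`hL1f`), these `i` have
`l_i > 0`, so `block i ≠ none` (`hJ`); by the pigeonhole principle two of them, `i ≠ k`, are in the same
block, and `v ∈ Gf i k`, `La v ≤ 2 l_i(v)`. So `∑_v La v ≤ ∑ Rv + 2 ∑_{(i,k) SB} ∑_{Gf i k} l_i ≤
m R + ...`. For an archimedean place `v` which is not bad and has `Mu v > max R (2C)` there is a pair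
`SB i k` with `lam_i, lam_k ≥ Mu/2` and `v ∈ Gi i k`: `Mu v ≤ 2 lam_i(v)`. So `∑_v Mu v ≤
m max(R, 2C) + 2 ∑_{(i,k)} ∑_{Gi i k} lam_i + ∑_{bad} Mu`. There are at most `n²` pairs.
-/

namespace Pool.Agent.ZPS

open Finset

/-- finite places: pigeonhole -/
theorem core_height_pair {n r d : ℕ} (hr1 : r + d + 1 ≤ n) {R C κ : ℝ}
    (X : CoreData n r d R C κ) (v : X.Vf) (hv : X.Rv v < X.La v) :
    ∃ i k, X.SB i k ∧ v ∈ X.Gf i k ∧ X.La v ≤ 2 * X.l i v := by
  classical
  have hpos : 0 < X.La v := (X.hRv v).trans_lt hv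
  have hcard := X.hL1f v hv
  set S : Finset (Fin n) := Finset.univ.filter fun i => X.La v / 2 ≤ X.l i v with hS
  have hSc : r < S.card := by
    have h1 := Finset.card_filter_add_card_filter_not (s := (Finset.univ : Finset (Fin n)))
      (fun i => X.l i v < X.La v / 2)
    have h2 : (Finset.univ.filter fun i => ¬ X.l i v < X.La v / 2) = S := by
      rw [hS]
      apply Finset.filter_congr
      intro i _
      exact not_lt
    rw [h2, Finset.card_univ, Fintype.card_fin] at h1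
    have h3 : (Finset.univ.filter fun i => X.l i v < X.La v / 2).card < d := by
      convert hcard
    omega
  have hmem : ∀ i ∈ S, X.La v / 2 ≤ X.l i v := by
    intro i hi
    exact (Finset.mem_filter.1 hi).2
  have hblock : ∀ i ∈ S, X.block i ≠ none := by
    intro i hi h0
    have h1 := X.hJ i h0 v
    have h2 := hmem i hi
    rw [h1] at h2
    linarith
  have hmaps : ∀ i ∈ S, X.block i ∈ (Finset.univ : Finset (Fin r)).image some := by
    intro i hi
    obtain ⟨b, hb⟩ := Option.ne_none_iff_exists.1 (hblock i hi)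
    exact Finset.mem_image.2 ⟨b, Finset.mem_univ _, hb⟩
  have hT : ((Finset.univ : Finset (Fin r)).image some).card < S.card := by
    refine lt_of_le_of_lt Finset.card_image_le ?_
    rw [Finset.card_univ, Fintype.card_fin]
    exact hSc
  obtain ⟨i, hi, k, hk, hik, hb⟩ := Finset.exists_ne_map_eq_of_card_lt_of_maps_to hT hmaps
  have hi1 := hmem i hi
  have hk1 := hmem k hk
  have hi2 := X.hLa i v
  have hk2 := X.hLa k v
  refine ⟨i, k, ⟨hik, hb, hblock i hi⟩, ?_, by linarith⟩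
  rw [CoreData.Gf, Finset.mem_filter]
  exact ⟨Finset.mem_univ _, by linarith, by linarith, by linarith⟩

theorem core_height {n r d : ℕ} (hr1 : r + d + 1 ≤ n) {R C κ : ℝ} (hR : 0 ≤ R) (hC : 0 ≤ C)
    (X : CoreData n r d R C κ) {η : ℝ} (hη : 0 ≤ η)
    (hw : ∀ i k, X.SB i k → ∑ v ∈ X.Gf i k, X.l i v + ∑ v ∈ X.Gi i k, X.lam i v ≤
      η * (X.H + X.m)) :
    X.H ≤ X.m * (R + max R (2 * C)) + 2 * (n : ℝ) ^ 2 * (η * (X.H + X.m)) + ∑ v ∈ X.bad, X.Mu v := by
  classical
  have hLa0 : ∀ v, 0 ≤ X.La v := by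
    intro v
    obtain ⟨i, hi⟩ := X.hLa' v
    rw [← hi]
    exact X.hl i v
  have hMu0 : ∀ v, 0 ≤ X.Mu v := by
    intro v
    obtain ⟨i, hi⟩ := X.hMu' v
    rw [← hi]
    exact X.hlam i v
  have hH0 : 0 ≤ X.H := by
    rw [CoreData.H]
    exact add_nonneg (Finset.sum_nonneg fun v _ => hLa0 v) (Finset.sum_nonneg fun v _ => hMu0 v)
  have hE0 : 0 ≤ η * (X.H + X.m) := mul_nonneg hη (add_nonneg hH0 (Nat.cast_nonneg _))
  have hM0 : 0 ≤ max R (2 * C) := hR.trans (le_max_left _ _)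
  set P : Finset (Fin n × Fin n) := Finset.univ.filter fun q => X.SB q.1 q.2 with hP
  -- finite places
  have hF : ∀ v, X.La v ≤ X.Rv v + 2 * ∑ q ∈ P, (if v ∈ X.Gf q.1 q.2 then X.l q.1 v else 0) := by
    intro v
    have hnn : ∀ q ∈ P, 0 ≤ (if v ∈ X.Gf q.1 q.2 then X.l q.1 v else 0) := by
      intro q _
      split_ifs
      · exact X.hl _ _
      · exact le_refl _
    rcases le_or_gt (X.La v) (X.Rv v) with h | h
    · have := Finset.sum_nonneg hnn
      linarith
    · obtain ⟨i, k, hik, hG, hle⟩ := core_height_pair hr1 X v h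
      have h1 := Finset.single_le_sum hnn
        (show (i, k) ∈ P from Finset.mem_filter.2 ⟨Finset.mem_univ _, hik⟩)
      rw [if_pos hG] at h1
      have h2 := X.hRv v
      have h3 : X.l i v ≤ ∑ q ∈ P, (if v ∈ X.Gf q.1 q.2 then X.l q.1 v else 0) := h1
      linarith
  -- archimedean places
  have hI : ∀ v, X.Mu v ≤ max R (2 * C) +
      2 * ∑ q ∈ P, (if v ∈ X.Gi q.1 q.2 then X.lam q.1 v else 0) +
      (if v ∈ X.bad then X.Mu v else 0) := by
    intro v
    have hnn : ∀ q ∈ P, 0 ≤ (if v ∈ X.Gi q.1 q.2 then X.lam q.1 v else 0) := by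
      intro q _
      split_ifs
      · exact X.hlam _ _
      · exact le_refl _
    have hs := Finset.sum_nonneg hnn
    by_cases hb : v ∈ X.bad
    · rw [if_pos hb]
      linarith
    · rw [if_neg hb]
      rcases le_or_gt (X.Mu v) (max R (2 * C)) with h | h
      · linarith
      · have h1 : ∃ i k, X.SB i k ∧ X.Mu v / 2 ≤ X.lam i v ∧ v ∈ X.Gi i k := by
          by_contra hcon
          apply hb
          rw [CoreData.bad, Finset.mem_filter]
          refine ⟨Finset.mem_univ _, h, ?_⟩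
          intro i k hik h1 _ h3
          exact hcon ⟨i, k, hik, h1, h3⟩
        obtain ⟨i, k, hik, h2, h3⟩ := h1
        have h4 := Finset.single_le_sum hnn
          (show (i, k) ∈ P from Finset.mem_filter.2 ⟨Finset.mem_univ _, hik⟩)
        rw [if_pos h3] at h4
        have h5 : X.lam i v ≤ ∑ q ∈ P, (if v ∈ X.Gi q.1 q.2 then X.lam q.1 v else 0) := h4
        linarith
  have hF' : ∑ v, X.La v ≤ X.m * R + 2 * ∑ q ∈ P, ∑ v ∈ X.Gf q.1 q.2, X.l q.1 v := by
    calc ∑ v, X.La v ≤ ∑ v, (X.Rv v + 2 * ∑ q ∈ P, (if v ∈ X.Gf q.1 q.2 then X.l q.1 v else 0)) :=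
          Finset.sum_le_sum fun v _ => hF v
      _ = ∑ v, X.Rv v + 2 * ∑ q ∈ P, ∑ v ∈ X.Gf q.1 q.2, X.l q.1 v := by
          rw [Finset.sum_add_distrib, ← Finset.mul_sum, Finset.sum_comm]
          congr 2
          apply Finset.sum_congr rfl
          intro q _
          rw [← Finset.sum_filter, Finset.filter_mem_eq_inter, Finset.univ_inter]
      _ ≤ _ := by
          have := X.hRs
          linarith
  have hI' : ∑ v, X.Mu v ≤ X.m * max R (2 * C) +
      2 * ∑ q ∈ P, ∑ v ∈ X.Gi q.1 q.2, X.lam q.1 v + ∑ v ∈ X.bad, X.Mu v := by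
    calc ∑ v, X.Mu v ≤ ∑ v, (max R (2 * C) +
          2 * ∑ q ∈ P, (if v ∈ X.Gi q.1 q.2 then X.lam q.1 v else 0) +
          (if v ∈ X.bad then X.Mu v else 0)) := Finset.sum_le_sum fun v _ => hI v
      _ = X.m * max R (2 * C) + 2 * ∑ q ∈ P, ∑ v ∈ X.Gi q.1 q.2, X.lam q.1 v +
          ∑ v ∈ X.bad, X.Mu v := by
          rw [Finset.sum_add_distrib, Finset.sum_add_distrib, ← Finset.mul_sum, Finset.sum_comm,
            Finset.sum_const, Finset.card_univ, X.hVi, nsmul_eq_mul]
          congr 1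
          · congr 2
            apply Finset.sum_congr rfl
            intro q _
            rw [← Finset.sum_filter, Finset.filter_mem_eq_inter, Finset.univ_inter]
          · rw [← Finset.sum_filter, Finset.filter_mem_eq_inter, Finset.univ_inter]
  have hW : ∑ q ∈ P, ∑ v ∈ X.Gf q.1 q.2, X.l q.1 v + ∑ q ∈ P, ∑ v ∈ X.Gi q.1 q.2, X.lam q.1 v ≤
      (n : ℝ) ^ 2 * (η * (X.H + X.m)) := by
    rw [← Finset.sum_add_distrib]
    calc ∑ q ∈ P, (∑ v ∈ X.Gf q.1 q.2, X.l q.1 v + ∑ v ∈ X.Gi q.1 q.2, X.lam q.1 v)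
        ≤ ∑ q ∈ P, η * (X.H + X.m) :=
          Finset.sum_le_sum fun q hq => hw q.1 q.2 (Finset.mem_filter.1 hq).2
      _ = P.card * (η * (X.H + X.m)) := by rw [Finset.sum_const, nsmul_eq_mul]
      _ ≤ (n : ℝ) ^ 2 * (η * (X.H + X.m)) := by
          apply mul_le_mul_of_nonneg_right _ hE0
          have h1 : P.card ≤ n ^ 2 := by
            calc P.card ≤ (Finset.univ : Finset (Fin n × Fin n)).card := Finset.card_le_univ _
              _ = n ^ 2 := by
                rw [Finset.card_univ, Fintype.card_prod, Fintype.card_fin, sq]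
          exact_mod_cast h1
  have hHdef : X.H = ∑ v, X.La v + ∑ v, X.Mu v := rfl
  have e1 : X.m * (R + max R (2 * C)) = X.m * R + X.m * max R (2 * C) := by ring
  rw [e1]
  nlinarith [hF', hI', hW, hHdef]

end Pool.Agent.ZPS
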