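import Pool.Agent.ZPS.CoreA
import Pool.Agent.ZPS.CoreB

/-!
# ZPS module 16: the abstract inequality

Take `η` with `2 n² η = 1/2` (`η = 1/(4 n²)`), `N₁` from `core_weights`, and suppose all `SB` pairs have
`Nn i k > N₂ ≥ N₁`. By `core_height`, `H ≤ 2 m (R + max R (2C)) + m + 2 ∑_{bad} Mu`.
* `#{i | block i = none} < d`: at `v ∈ Vp` (nonempty, as `m > 0`) they have `l_i = 0 < κ ≤ La v`.
* Case `bad ≠ ∅`: let `v*` be a bad place with maximal `Mu*= Mu v*`; `∑_{bad} Mu ≤ m Mu*`. Let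
  `B = {i | block i ≠ none}`, `T = {i ∈ B | lam_i(v*) ≥ Mu*/2}`. By `hL1i`, `#(B \ T) ≤ d - 1`. For a pair
  `SB i k` in `T`: `v* ∉ Gi i k`, `lam_i, lam_k ≥ Mu*/2 ≥ C` are comparable, so by `hTi`
  `(Mu*/2)² ≤ lam_i lam_k ≤ 16π² Nn i k`, i.e. `Mu* ≤ 8π √(Nn i k)`.
  For `v ∈ Vp` let `E_v = {i | l_i(v) = La v} ⊆ B`; its complement has at most `d - 1` elements and
  contains `{block = none}`, so `#(E_v ∩ T) ≥ #B - (d-1) - (d-1-#{none}) = n - 2d + 2 > r`, and there is a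
  pair `SB i k` in `E_v ∩ T`; `l_i = l_k = La v ≥ κ > 0`, so by `hTf` `a = e`, `Nn i k = a²`,
  `Lf i k a v = a l_i ≥ a κ`.
  By the pigeonhole principle there is one pair `SB i k` in `T` which occurs for at least `m/n²` of the
  `v ∈ Vp`; with `a = √(Nn i k)`: `(m/n²) a κ ≤ ∑_v Lf i k a v ≤ H + m (6 log a + C)` (`hH`)
  `≤ 2m(R + max R (2C)) + m + 2 m · 8π a + m (6 log a + C)`. As `κ ≥ n² (16π + 1)`,
  `a ≤ 6 log a + C'`, `C' = 2(R + max R (2C)) + 1 + C`, so `a` is bounded; a contradiction if `N₂` is large.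
* Case `bad = ∅`: the same with `T` replaced by `B`: `#E_v ≥ n - d + 1 > r`, and
  `(m/n²) a κ ≤ 2m(...) + m + m(6 log a + C)`.
-/

namespace Pool.Agent.ZPS

namespace CoreFinal

variable {n r d : ℕ} {R C κ : ℝ} (X : CoreData n r d R C κ)

/-- Pigeonhole principle: more than `r` indices in blocks contain two in the same block. -/
theorem exists_SB {S : Finset (Fin n)} (hS : r < S.card) (hb : ∀ i ∈ S, X.block i ≠ none) :
    ∃ i ∈ S, ∃ k ∈ S, X.SB i k := by
  classical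
  have hmaps : ∀ i ∈ S, X.block i ∈
      (Finset.univ.map Function.Embedding.some : Finset (Option (Fin r))) := by
    intro i hi
    obtain ⟨b, hb'⟩ := Option.ne_none_iff_exists'.1 (hb i hi)
    rw [hb']
    exact Finset.mem_map_of_mem Function.Embedding.some (Finset.mem_univ b)
  have hcard : (Finset.univ.map Function.Embedding.some : Finset (Option (Fin r))).card < S.card := by
    rw [Finset.card_map, Finset.card_univ, Fintype.card_fin]
    exact hS
  obtain ⟨i, hi, k, hk, hne, heq⟩ := Finset.exists_ne_map_eq_of_card_lt_of_maps_to hcard hmaps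
  exact ⟨i, hi, k, hk, hne, heq, hb i hi⟩

theorem Mu_nonneg (v : X.Vi) : 0 ≤ X.Mu v := by
  obtain ⟨i, hi⟩ := X.hMu' v
  rw [← hi]
  exact X.hlam i v

/-- `a ≤ 6 log a + c` bounds `a`. -/
theorem le_of_le_log {a c : ℝ} (ha : 1 ≤ a) (h : a ≤ 6 * Real.log a + c) : a ≤ 144 + 2 * c := by
  have hs : 0 < √a := Real.sqrt_pos.2 (by linarith)
  have h1 : Real.log a = 2 * Real.log (√a) := by
    rw [Real.log_sqrt (by linarith)]
    ring
  have h2 : Real.log (√a) ≤ √a := by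
    have := Real.log_le_sub_one_of_pos hs
    linarith
  have h3 : √a ^ 2 = a := Real.sq_sqrt (by linarith)
  nlinarith [sq_nonneg (√a - 12)]

/-- The final argument, for a set `T` of indices. -/
theorem final (hn : 0 < n)
    (hκ : (n : ℝ) ^ 2 * (16 * Real.pi + 1) ≤ κ) (T : Finset (Fin n)) (S : ℝ)
    (hT1 : ∀ v ∈ X.Vp, r < ((Finset.univ.filter fun i => ¬ X.l i v < X.La v) ∩ T).card)
    (hT2 : ∀ i ∈ T, ∀ k ∈ T, X.SB i k → S ≤ 8 * Real.pi * √(X.Nn i k))
    (hH : X.H ≤ 2 * (X.m * (R + max R (2 * C))) + X.m + 2 * (X.m * S)) :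
    ∃ i k, X.SB i k ∧ (X.Nn i k : ℝ) ≤ (144 + 2 * (2 * (R + max R (2 * C)) + 1 + C)) ^ 2 := by
  classical
  have hm : (0 : ℝ) < X.m := by exact_mod_cast X.hm
  have hn' : (0 : ℝ) < (n : ℝ) ^ 2 := by positivity
  have hpi := Real.pi_pos
  have hκ0 : 0 < κ := lt_of_lt_of_le (by positivity) hκ
  -- the pair attached to a place
  have hpair : ∀ v : X.Vf, ∃ p : Fin n × Fin n, v ∈ X.Vp →
      (p.1 ∈ T ∧ p.2 ∈ T ∧ X.SB p.1 p.2 ∧ X.l p.1 v = X.La v ∧ X.l p.2 v = X.La v) := by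
    intro v
    by_cases hv : v ∈ X.Vp
    · have hκv := (X.hp v hv).1
      obtain ⟨i, hi, k, hk, hSB⟩ := exists_SB X (hT1 v hv) (fun i hi hnone => by
        have h1 := (Finset.mem_filter.1 (Finset.mem_inter.1 hi).1).2
        have h2 := X.hJ i hnone v
        rw [h2] at h1
        linarith)
      have h1 := (Finset.mem_filter.1 (Finset.mem_inter.1 hi).1).2
      have h2 := (Finset.mem_filter.1 (Finset.mem_inter.1 hk).1).2
      exact ⟨(i, k), fun _ => ⟨(Finset.mem_inter.1 hi).2, (Finset.mem_inter.1 hk).2, hSB,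
        le_antisymm (X.hLa i v) (not_lt.1 h1), le_antisymm (X.hLa k v) (not_lt.1 h2)⟩⟩
    · exact ⟨(⟨0, hn⟩, ⟨0, hn⟩), fun h => absurd h hv⟩
  choose f hf using hpair
  -- the pigeonhole principle over the places
  obtain ⟨p, -, hp⟩ : ∃ p ∈ (Finset.univ : Finset (Fin n × Fin n)),
      (X.m : ℝ) / (n : ℝ) ^ 2 ≤ ((X.Vp.filter fun v => f v = p).card : ℝ) := by
    by_contra hcon
    push Not at hcon
    have h1 : (X.Vp.card : ℝ) = ∑ p : Fin n × Fin n, ((X.Vp.filter fun v => f v = p).card : ℝ) := by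
      rw [Finset.card_eq_sum_card_fiberwise (f := f) (t := Finset.univ)
        (fun v _ => Finset.mem_coe.2 (Finset.mem_univ _))]
      push_cast
      rfl
    have hne : (Finset.univ : Finset (Fin n × Fin n)).Nonempty :=
      ⟨(⟨0, hn⟩, ⟨0, hn⟩), Finset.mem_univ _⟩
    have h2 : ∑ p : Fin n × Fin n, ((X.Vp.filter fun v => f v = p).card : ℝ) <
        ∑ _p : Fin n × Fin n, (X.m : ℝ) / (n : ℝ) ^ 2 :=
      Finset.sum_lt_sum_of_nonempty hne fun p hp => hcon p hp
    rw [← h1, X.hVp, Finset.sum_const, Finset.card_univ, Fintype.card_prod, Fintype.card_fin,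
      nsmul_eq_mul] at h2
    have h3 : ((n * n : ℕ) : ℝ) * ((X.m : ℝ) / (n : ℝ) ^ 2) = X.m := by
      push_cast
      field_simp
    rw [h3] at h2
    exact lt_irrefl _ h2
  have hpos : 0 < (X.Vp.filter fun v => f v = p).card := by
    have h1 : (0 : ℝ) < (X.m : ℝ) / (n : ℝ) ^ 2 := div_pos hm hn'
    have h2 := lt_of_lt_of_le h1 hp
    exact_mod_cast h2
  obtain ⟨v₀, hv₀⟩ := Finset.card_pos.1 hpos
  rw [Finset.mem_filter] at hv₀
  obtain ⟨hiT, hkT, hSB, hl1, hl2⟩ := hf v₀ hv₀.1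
  rw [hv₀.2] at hiT hkT hSB hl1 hl2
  refine ⟨p.1, p.2, hSB, ?_⟩
  have hLa0 : 0 < X.La v₀ := lt_of_lt_of_le hκ0 (X.hp v₀ hv₀.1).1
  obtain ⟨a, e, ha, he, hae, hel, -⟩ := X.hTf p.1 p.2 hSB.1 hSB.2.1 hSB.2.2 v₀ (by rw [hl1]; exact hLa0)
  have hea : e = a := by
    rw [hl1, hl2] at hel
    have := mul_right_cancel₀ hLa0.ne' hel
    exact_mod_cast this
  subst hea
  have hNn : (X.Nn p.1 p.2 : ℝ) = (e : ℝ) ^ 2 := by
    rw [← hae]; push_cast; ring
  have hae' : e ∣ X.Nn p.1 p.2 := ⟨e, hae.symm⟩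
  -- the lower bound
  have hLf : ∀ v ∈ X.Vp.filter (fun v => f v = p), (e : ℝ) * κ ≤ X.Lf p.1 p.2 e v := by
    intro v hv
    rw [Finset.mem_filter] at hv
    obtain ⟨-, -, -, hl1', hl2'⟩ := hf v hv.1
    rw [hv.2] at hl1' hl2'
    have hκv := (X.hp v hv.1).1
    have hLa' : 0 < X.La v := lt_of_lt_of_le hκ0 hκv
    obtain ⟨a', e', ha', he', hae'', hel', hLf'⟩ := X.hTf p.1 p.2 hSB.1 hSB.2.1 hSB.2.2 v
      (by rw [hl1']; exact hLa')
    have h1 : e' = a' := by
      rw [hl1', hl2'] at hel'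
      have := mul_right_cancel₀ hLa'.ne' hel'
      exact_mod_cast this
    subst h1
    have h2 : e' = e := by
      have : e' * e' = e * e := by rw [hae'', hae]
      exact Nat.mul_self_inj.1 this
    subst h2
    rw [hLf', hl1']
    gcongr
  have hsumLf : (X.m : ℝ) / (n : ℝ) ^ 2 * ((e : ℝ) * κ) ≤ ∑ v, X.Lf p.1 p.2 e v := by
    have h1 : ((X.Vp.filter fun v => f v = p).card : ℝ) * ((e : ℝ) * κ) ≤
        ∑ v ∈ X.Vp.filter (fun v => f v = p), X.Lf p.1 p.2 e v := by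
      rw [← nsmul_eq_mul]
      exact Finset.card_nsmul_le_sum _ _ _ hLf
    have h2 : ∑ v ∈ X.Vp.filter (fun v => f v = p), X.Lf p.1 p.2 e v ≤ ∑ v, X.Lf p.1 p.2 e v :=
      Finset.sum_le_sum_of_subset_of_nonneg (Finset.subset_univ _) fun v _ _ => X.hLf _ _ _ _
    have h3 : (X.m : ℝ) / (n : ℝ) ^ 2 * ((e : ℝ) * κ) ≤
        ((X.Vp.filter fun v => f v = p).card : ℝ) * ((e : ℝ) * κ) := by
      have : 0 ≤ (e : ℝ) * κ := by positivity
      gcongr
    linarith
  have hHt := (X.hH p.1 p.2 hSB.1 hSB.2.1 hSB.2.2).2 e ha hae'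
  have hLi0 : 0 ≤ ∑ v, X.Li p.1 p.2 e v := Finset.sum_nonneg fun v _ => X.hLi _ _ _ _
  have hlH : ∑ v, X.l p.1 v + ∑ v, X.lam p.1 v ≤ X.H :=
    add_le_add (Finset.sum_le_sum fun v _ => X.hLa _ v) (Finset.sum_le_sum fun v _ => X.hMu _ v)
  have hSle := hT2 p.1 hiT p.2 hkT hSB
  have he1 : (1 : ℝ) ≤ e := by exact_mod_cast he
  have hsq : √(X.Nn p.1 p.2 : ℝ) = e := by
    rw [hNn, Real.sqrt_sq (by linarith)]
  rw [hsq] at hSle
  -- everything divided by `m`
  set c : ℝ := 2 * (R + max R (2 * C)) + 1 + C with hc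
  have h1 : (X.m : ℝ) * ((e : ℝ) * (16 * Real.pi + 1)) ≤ (X.m : ℝ) / (n : ℝ) ^ 2 * ((e : ℝ) * κ) := by
    have h2 : (X.m : ℝ) * ((e : ℝ) * (16 * Real.pi + 1)) =
        (X.m : ℝ) / (n : ℝ) ^ 2 * ((e : ℝ) * ((n : ℝ) ^ 2 * (16 * Real.pi + 1))) := by
      field_simp
    rw [h2]
    gcongr
  have h3 : (X.m : ℝ) * S ≤ X.m * (8 * Real.pi * e) := by gcongr
  have h4 : (X.m : ℝ) * ((e : ℝ) * (16 * Real.pi + 1)) ≤
      X.m * (c + 16 * Real.pi * e + 6 * Real.log e) := by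
    rw [hc]
    nlinarith
  have h5 : (e : ℝ) * (16 * Real.pi + 1) ≤ c + 16 * Real.pi * e + 6 * Real.log e :=
    le_of_mul_le_mul_left h4 hm
  have h6 : (e : ℝ) ≤ 6 * Real.log e + c := by nlinarith
  have h7 := le_of_le_log he1 h6
  rw [hNn]
  gcongr

end CoreFinal

theorem core {n r d : ℕ} (hd : 1 ≤ d) (hr1 : r + d + 1 ≤ n) (hr2 : r + 2 * d ≤ n + 1)
    {R C κ : ℝ} (hR : 0 ≤ R) (hC : 0 ≤ C) (hκ : (n : ℝ) ^ 2 * (16 * Real.pi + 1) ≤ κ) :
    ∃ N₂ : ℕ, ∀ X : CoreData n r d R C κ, ∃ i k, X.SB i k ∧ X.Nn i k ≤ N₂ := by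
  classical
  have hn : 0 < n := by omega
  have hn' : (0 : ℝ) < n := by exact_mod_cast hn
  have hpi := Real.pi_pos
  set η : ℝ := 1 / (4 * (n : ℝ) ^ 2) with hη
  have hη0 : 0 < η := by positivity
  obtain ⟨N₁, hN₁⟩ := core_weights (n := n) (r := r) (d := d) (R := R) (C := C) (κ := κ) hC hη0
  set B : ℝ := (144 + 2 * (2 * (R + max R (2 * C)) + 1 + C)) ^ 2 with hB
  refine ⟨max N₁ ⌈B⌉₊, fun X => ?_⟩
  by_contra hcon
  push Not at hcon
  have hκ0 : 0 < κ := lt_of_lt_of_le (by positivity) hκ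
  have hm : (0 : ℝ) < X.m := by exact_mod_cast X.hm
  have hH := core_height hr1 hR hC X hη0.le (fun i k hik =>
    hN₁ X i k hik (lt_of_le_of_lt (le_max_left _ _) (hcon i k hik)))
  have hH2 : X.H ≤ 2 * (X.m * (R + max R (2 * C))) + X.m + 2 * ∑ v ∈ X.bad, X.Mu v := by
    have h1 : 2 * (n : ℝ) ^ 2 * (η * (X.H + X.m)) = (X.H + X.m) / 2 := by
      rw [hη]
      field_simp
      ring
    rw [h1] at hH
    linarith
  suffices hfin : ∃ i k, X.SB i k ∧ (X.Nn i k : ℝ) ≤ B by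
    obtain ⟨i, k, hik, hle⟩ := hfin
    have h1 := hcon i k hik
    have h2 : (X.Nn i k : ℝ) ≤ ((⌈B⌉₊ : ℕ) : ℝ) := hle.trans (Nat.le_ceil B)
    have h3 : X.Nn i k ≤ ⌈B⌉₊ := by exact_mod_cast h2
    exact absurd (lt_of_le_of_lt (le_max_right N₁ ⌈B⌉₊) h1) (not_lt.2 h3)
  -- the complement of the set of maximal indices
  have hcompl : ∀ v ∈ X.Vp, ∀ i, ¬ X.l i v < X.La v → X.block i ≠ none := by
    intro v hv i hi hnone
    have h1 := (X.hp v hv).1
    have h2 := X.hJ i hnone v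
    rw [h2] at hi
    exact hi (lt_of_lt_of_le hκ0 h1)
  rcases X.bad.eq_empty_or_nonempty with hbad | hbad
  · refine CoreFinal.final X hn hκ Finset.univ 0 (fun v hv => ?_) (fun i _ k _ _ => ?_) ?_
    · rw [Finset.inter_univ]
      have h1 := (X.hp v hv).2
      have h2 := Finset.card_filter_add_card_filter_not (s := (Finset.univ : Finset (Fin n)))
        (fun i => X.l i v < X.La v)
      rw [Finset.card_univ, Fintype.card_fin] at h2
      omega
    · positivity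
    · rw [hbad, Finset.sum_empty] at hH2
      linarith
  · obtain ⟨vs, hvs, hmax⟩ := Finset.exists_max_image X.bad X.Mu hbad
    set T : Finset (Fin n) := Finset.univ.filter fun i => ¬ X.lam i vs < X.Mu vs / 2 with hT
    have hvs' : max R (2 * C) < X.Mu vs ∧
        ∀ i k, X.SB i k → X.Mu vs / 2 ≤ X.lam i vs → X.Mu vs / 2 ≤ X.lam k vs →
          vs ∉ X.Gi i k := by
      have := hvs
      unfold CoreData.bad at this
      exact (Finset.mem_filter.1 this).2
    have hRM : R < X.Mu vs := lt_of_le_of_lt (le_max_left _ _) hvs'.1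
    have hCM : 2 * C < X.Mu vs := lt_of_le_of_lt (le_max_right _ _) hvs'.1
    refine CoreFinal.final X hn hκ T (X.Mu vs) (fun v hv => ?_) (fun i hi k hk hSB => ?_) ?_
    · have h1 := (X.hp v hv).2
      have h2 := X.hL1i vs hRM
      have h3 : ((Finset.univ.filter fun i => ¬ X.l i v < X.La v) ∩ T)ᶜ ⊆
          (Finset.univ.filter fun i => X.l i v < X.La v) ∪
            (Finset.univ.filter fun i => X.lam i vs < X.Mu vs / 2) := by
        intro i hi
        rw [Finset.mem_compl, Finset.mem_inter, hT, Finset.mem_filter, Finset.mem_filter] at hi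
        rw [Finset.mem_union, Finset.mem_filter, Finset.mem_filter]
        by_contra hno
        push Not at hno
        apply hi
        exact ⟨⟨Finset.mem_univ _, not_lt.2 (hno.1 (Finset.mem_univ _))⟩,
          ⟨Finset.mem_univ _, not_lt.2 (hno.2 (Finset.mem_univ _))⟩⟩
      have h4 := (Finset.card_le_card h3).trans (Finset.card_union_le _ _)
      rw [Finset.card_compl, Fintype.card_fin] at h4
      have h5 : ((Finset.univ.filter fun i => ¬ X.l i v < X.La v) ∩ T).card ≤ n := by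
        have := Finset.card_le_univ ((Finset.univ.filter fun i => ¬ X.l i v < X.La v) ∩ T)
        rwa [Fintype.card_fin] at this
      omega
    · have hi' : X.Mu vs / 2 ≤ X.lam i vs := not_lt.1 (Finset.mem_filter.1 hi).2
      have hk' : X.Mu vs / 2 ≤ X.lam k vs := not_lt.1 (Finset.mem_filter.1 hk).2
      have hiM := X.hMu i vs
      have hkM := X.hMu k vs
      have hG := hvs'.2 i k hSB hi' hk'
      have hMu0 : 0 < X.Mu vs := lt_of_le_of_lt (by positivity) hCM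
      rcases X.hTi i k hSB.1 hSB.2.1 hSB.2.2 vs (by linarith) (by linarith) (by linarith)
        (by linarith) with h1 | h1
      · have h2 : (X.Mu vs / 2) ^ 2 ≤ 16 * Real.pi ^ 2 * X.Nn i k := by
          refine le_trans ?_ h1
          rw [sq]
          exact mul_le_mul hi' hk' (by linarith) (by linarith)
        have h3 : X.Mu vs ^ 2 ≤ (8 * Real.pi * √(X.Nn i k)) ^ 2 := by
          rw [mul_pow, mul_pow, Real.sq_sqrt (Nat.cast_nonneg _)]
          nlinarith
        exact le_of_sq_le_sq h3 (by positivity)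
      · exfalso
        apply hG
        unfold CoreData.Gi
        rw [Finset.mem_filter]
        exact ⟨Finset.mem_univ _, by linarith, by linarith, by linarith, by linarith, h1⟩
    · have h1 : ∑ v ∈ X.bad, X.Mu v ≤ X.m * X.Mu vs := by
        have h2 : ∑ v ∈ X.bad, X.Mu v ≤ X.bad.card • X.Mu vs :=
          Finset.sum_le_card_nsmul _ _ _ hmax
        rw [nsmul_eq_mul] at h2
        have h3 : X.bad.card ≤ X.m := by
          rw [← X.hVi]
          exact Finset.card_le_univ _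
        have h4 : (X.bad.card : ℝ) ≤ X.m := by exact_mod_cast h3
        have h5 := CoreFinal.Mu_nonneg X vs
        have h6 : (X.bad.card : ℝ) * X.Mu vs ≤ X.m * X.Mu vs := by gcongr
        linarith
      linarith

end Pool.Agent.ZPS
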