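import Mathlib
import Pool.Agent.Hhelper87.SigmaTwo.DivBound

/-!
# ZPS module 13: the number of divisors

`τ(N) ≤ C N^{1/4}`: multiplicativity; for a prime power `p^k`: `(k+1) ≤ C_p p^{k/4}` with `C_p = 1` for
`p ≥ 16` (`k + 1 ≤ 2^k ≤ p^{k/4}`). And `log N = o(N^{1/4})`.
-/

namespace Pool.Agent.ZPS

theorem div_bound {A B ε : ℝ} (hA : 0 ≤ A) (hB : 0 ≤ B) (hε : 0 < ε) :
    ∃ N₀ : ℕ, ∀ N : ℕ, N₀ ≤ N → (N.divisors.card : ℝ) * (A + B * Real.log N) ≤ ε * √N := by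
  obtain ⟨C, hC1, hC⟩ := Pool.Agent.Hhelper87.divisor_bound (1 / 4 : ℝ) (by norm_num)
  set D : ℝ := C * (A + 8 * B) / ε with hD
  have hD0 : 0 ≤ D := by positivity
  refine ⟨⌈D ^ 8⌉₊ + 1, ?_⟩
  intro N hN
  have hN1 : 1 ≤ N := by omega
  have hN0 : N ≠ 0 := by omega
  have hx1 : (1 : ℝ) ≤ N := by exact_mod_cast hN1
  have hx0 : (0 : ℝ) < N := by linarith
  have hDN : D ^ 8 ≤ N := by
    have h1 : D ^ 8 ≤ (⌈D ^ 8⌉₊ : ℝ) := Nat.le_ceil _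
    have h2 : ((⌈D ^ 8⌉₊ : ℕ) : ℝ) ≤ N := by exact_mod_cast (by omega : ⌈D ^ 8⌉₊ ≤ N)
    linarith
  set y : ℝ := (N : ℝ) ^ (1 / 8 : ℝ) with hy
  have hy1 : 1 ≤ y := Real.one_le_rpow hx1 (by norm_num)
  have hyD : D ≤ y := by
    have h1 : D = (D ^ 8) ^ (1 / 8 : ℝ) := by
      rw [← Real.rpow_natCast, ← Real.rpow_mul hD0]
      norm_num
    rw [h1]
    exact Real.rpow_le_rpow (by positivity) hDN (by norm_num)
  have hlog : Real.log N ≤ 8 * y := by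
    have h1 := Real.log_le_rpow_div hx0.le (by norm_num : (0 : ℝ) < 1 / 8)
    rw [hy]
    linarith
  have hdiv := hC N hN0
  have h4 : (N : ℝ) ^ (1 / 4 : ℝ) = y ^ 2 := by
    rw [hy, ← Real.rpow_natCast, ← Real.rpow_mul hx0.le]
    norm_num
  have h2 : √(N : ℝ) = y ^ 4 := by
    rw [hy, ← Real.rpow_natCast, ← Real.rpow_mul hx0.le, Real.sqrt_eq_rpow]
    norm_num
  rw [h4] at hdiv
  rw [h2]
  have hlog0 : 0 ≤ Real.log N := Real.log_nonneg hx1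
  have h5 : A + B * Real.log N ≤ (A + 8 * B) * y := by nlinarith
  calc (N.divisors.card : ℝ) * (A + B * Real.log N) ≤ (C * y ^ 2) * ((A + 8 * B) * y) :=
        mul_le_mul hdiv h5 (by positivity) (by positivity)
    _ = D * ε * y ^ 3 := by rw [hD]; field_simp
    _ ≤ y * ε * y ^ 3 := by gcongr
    _ = ε * y ^ 4 := by ring

end Pool.Agent.ZPS
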