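import Pool.Agent.ZPS.CoreDefs
import Pool.Agent.ZPS.DivBound

/-!
# ZPS module 14: the weight of the comparable places is small

Let `N = Nn i k`. For `v ∈ Gf i k`: `hTf` gives `a e = N`, `e l_k = a l_i`, so (`l_k ≥ l_i/2 > 0`)
`2a ≥ e`, `N ≤ 2 a²`, and `l_i(v) = Lf_a(v)/a ≤ √(6/N) Lf_a(v) ≤ √(6/N) ∑_{a ∣ N} Lf_a(v)`. For
`v ∈ Gi i k`: `lam_i ≤ (2/a)(Li_a + C) ≤ 2 √(6/N) (Li_a + C)`. Sum over `v` and use `hH`:
`∑_v Lf_a + (1/2)∑_v Li_a ≤ H + m (6 log N + C)` (`l_i ≤ La`, `lam_i ≤ Mu`), so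
`∑_v Lf_a + 2 ∑_v Li_a ≤ 4 (H + m (6 log N + C))`. Hence
`∑_{Gf} l_i + ∑_{Gi} lam_i ≤ √(6/N) τ(N) (4 H + 24 m log N + 6 m C)`, and `div_bound` makes
`√(6/N) τ(N) (4 + 24 log N + 6 C) ≤ η` for `N > N₁`.
-/

namespace Pool.Agent.ZPS

open CoreData

private lemma ca_inv {N a : ℕ} (hN : 0 < N) (ha : 0 < a) (h : N ≤ 6 * a ^ 2) :
    1 / (a : ℝ) ≤ √6 / √(N : ℝ) := by
  have hN' : (0 : ℝ) < N := by exact_mod_cast hN
  have ha' : (0 : ℝ) < a := by exact_mod_cast ha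
  rw [div_le_div_iff₀ ha' (Real.sqrt_pos.2 hN'), one_mul]
  have h1 : (N : ℝ) ≤ 6 * (a : ℝ) ^ 2 := by exact_mod_cast h
  calc √(N : ℝ) ≤ √(6 * (a : ℝ) ^ 2) := Real.sqrt_le_sqrt h1
    _ = √6 * a := by rw [Real.sqrt_mul (by norm_num), Real.sqrt_sq ha'.le]

theorem core_weights {n r d : ℕ} {R C κ : ℝ} (hC : 0 ≤ C) {η : ℝ} (hη : 0 < η) :
    ∃ N₁ : ℕ, ∀ (X : CoreData n r d R C κ) (i k : Fin n), X.SB i k → N₁ < X.Nn i k →
      ∑ v ∈ X.Gf i k, X.l i v + ∑ v ∈ X.Gi i k, X.lam i v ≤ η * (X.H + X.m) := by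
  classical
  obtain ⟨N₀, hN₀⟩ := div_bound (A := 4 + 6 * C) (B := 24) (ε := η / √6) (by positivity)
    (by norm_num) (by positivity)
  refine ⟨N₀, ?_⟩
  intro X i k hSB hN
  obtain ⟨hik, hbl, hbn⟩ := hSB
  obtain ⟨hNpos, hHt⟩ := X.hH i k hik hbl hbn
  have hdiv := hN₀ (X.Nn i k) hN.le
  set N : ℕ := X.Nn i k with hNdef
  have hNr : (1 : ℝ) ≤ N := by exact_mod_cast hNpos
  have hN0 : (0 : ℝ) < N := by linarith
  set u : ℝ := √6 / √(N : ℝ) with hu
  have hu0 : 0 < u := by positivity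
  have hlog : 0 ≤ Real.log N := Real.log_nonneg hNr
  have hm0 : (0 : ℝ) ≤ X.m := Nat.cast_nonneg _
  have hLa0 : ∀ v, 0 ≤ X.La v := fun v => (X.hl i v).trans (X.hLa i v)
  have hMu0 : ∀ v, 0 ≤ X.Mu v := fun v => (X.hlam i v).trans (X.hMu i v)
  have hH0 : 0 ≤ X.H := add_nonneg (Finset.sum_nonneg fun v _ => hLa0 v)
    (Finset.sum_nonneg fun v _ => hMu0 v)
  -- pointwise, finite places
  have hf : ∀ v ∈ X.Gf i k, X.l i v ≤ u * ∑ a ∈ N.divisors, X.Lf i k a v := by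
    intro v hv
    unfold CoreData.Gf at hv
    rw [Finset.mem_filter] at hv
    obtain ⟨-, h0, h1, h2⟩ := hv
    obtain ⟨a, e, ha, he, hae, hel, hL⟩ := X.hTf i k hik hbl hbn v h0
    rw [← hNdef] at hae
    have ha' : (0 : ℝ) < a := by exact_mod_cast ha
    have he' : (0 : ℝ) < e := by exact_mod_cast he
    have hea : (e : ℝ) ≤ 2 * a := by
      have h3 : (e : ℝ) * X.l i v ≤ 2 * a * X.l i v := by
        calc (e : ℝ) * X.l i v ≤ e * (2 * X.l k v) := mul_le_mul_of_nonneg_left h1 he'.le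
          _ = 2 * (e * X.l k v) := by ring
          _ = 2 * a * X.l i v := by rw [hel]; ring
      exact le_of_mul_le_mul_right h3 h0
    have hea' : e ≤ 2 * a := by exact_mod_cast hea
    have hNa : N ≤ 6 * a ^ 2 := by
      rw [← hae]
      nlinarith
    have h4 := ca_inv hNpos ha hNa
    have h5 : X.l i v = (1 / (a : ℝ)) * X.Lf i k a v := by
      rw [hL]
      field_simp
    have h6 : X.Lf i k a v ≤ ∑ a ∈ N.divisors, X.Lf i k a v :=
      Finset.single_le_sum (f := fun a => X.Lf i k a v) (fun b _ => X.hLf i k b v)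
        (Nat.mem_divisors.2 ⟨⟨e, hae.symm⟩, hNpos.ne'⟩)
    rw [h5]
    exact mul_le_mul h4 h6 (X.hLf i k a v) hu0.le
  -- pointwise, archimedean places
  have hi : ∀ v ∈ X.Gi i k, X.lam i v ≤ 2 * u * ∑ a ∈ N.divisors, (X.Li i k a v + C) := by
    intro v hv
    unfold CoreData.Gi at hv
    rw [Finset.mem_filter] at hv
    obtain ⟨-, -, -, -, -, a, ha, had, hNa, hL⟩ := hv
    rw [← hNdef] at had hNa
    have ha' : (0 : ℝ) < a := by exact_mod_cast ha
    have h4 := ca_inv hNpos ha hNa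
    have h5 : X.lam i v ≤ 2 * (1 / (a : ℝ)) * (X.Li i k a v + C) := by
      have : (a : ℝ) * X.lam i v ≤ 2 * (X.Li i k a v + C) := by linarith
      calc X.lam i v = (1 / (a : ℝ)) * (a * X.lam i v) := by field_simp
        _ ≤ (1 / (a : ℝ)) * (2 * (X.Li i k a v + C)) :=
          mul_le_mul_of_nonneg_left this (by positivity)
        _ = _ := by ring
    have h6 : X.Li i k a v + C ≤ ∑ a ∈ N.divisors, (X.Li i k a v + C) :=
      Finset.single_le_sum (f := fun a => X.Li i k a v + C)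
        (fun b _ => add_nonneg (X.hLi i k b v) hC) (Nat.mem_divisors.2 ⟨had, hNpos.ne'⟩)
    have h7 : 0 ≤ X.Li i k a v + C := add_nonneg (X.hLi i k a v) hC
    calc X.lam i v ≤ 2 * (1 / (a : ℝ)) * (X.Li i k a v + C) := h5
      _ ≤ 2 * u * ∑ a ∈ N.divisors, (X.Li i k a v + C) := by
        apply mul_le_mul _ h6 h7 (by positivity)
        exact mul_le_mul_of_nonneg_left h4 (by norm_num)
  -- sums
  have sf : ∑ v ∈ X.Gf i k, X.l i v ≤ u * ∑ a ∈ N.divisors, ∑ v, X.Lf i k a v := by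
    calc ∑ v ∈ X.Gf i k, X.l i v ≤ ∑ v ∈ X.Gf i k, u * ∑ a ∈ N.divisors, X.Lf i k a v :=
          Finset.sum_le_sum hf
      _ ≤ ∑ v, u * ∑ a ∈ N.divisors, X.Lf i k a v :=
          Finset.sum_le_sum_of_subset_of_nonneg (Finset.subset_univ _) fun v _ _ =>
            mul_nonneg hu0.le (Finset.sum_nonneg fun a _ => X.hLf i k a v)
      _ = _ := by rw [← Finset.mul_sum, Finset.sum_comm]
  have si : ∑ v ∈ X.Gi i k, X.lam i v ≤
      2 * u * ∑ a ∈ N.divisors, (∑ v, X.Li i k a v + X.m * C) := by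
    calc ∑ v ∈ X.Gi i k, X.lam i v ≤
          ∑ v ∈ X.Gi i k, 2 * u * ∑ a ∈ N.divisors, (X.Li i k a v + C) := Finset.sum_le_sum hi
      _ ≤ ∑ v, 2 * u * ∑ a ∈ N.divisors, (X.Li i k a v + C) :=
          Finset.sum_le_sum_of_subset_of_nonneg (Finset.subset_univ _) fun v _ _ =>
            mul_nonneg (by positivity) (Finset.sum_nonneg fun a _ => add_nonneg (X.hLi i k a v) hC)
      _ = _ := by
        rw [← Finset.mul_sum, Finset.sum_comm]
        congr 1
        apply Finset.sum_congr rfl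
        intro a _
        rw [Finset.sum_add_distrib, Finset.sum_const, Finset.card_univ, X.hVi, nsmul_eq_mul]
  -- the height comparison
  have hcomp : ∀ a ∈ N.divisors, ∑ v, X.Lf i k a v + 2 * (∑ v, X.Li i k a v + X.m * C) ≤
      4 * X.H + X.m * (24 * Real.log N + 6 * C) := by
    intro a ha
    rw [Nat.mem_divisors] at ha
    have ha0 : 0 < a := Nat.pos_of_dvd_of_pos ha.1 hNpos
    have h1 := hHt a ha0 ha.1
    have h2 : ∑ v, X.l i v ≤ ∑ v, X.La v := Finset.sum_le_sum fun v _ => X.hLa i v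
    have h3 : ∑ v, X.lam i v ≤ ∑ v, X.Mu v := Finset.sum_le_sum fun v _ => X.hMu i v
    have h4 : Real.log a ≤ Real.log N :=
      Real.log_le_log (by exact_mod_cast ha0) (by exact_mod_cast Nat.le_of_dvd hNpos ha.1)
    have h5 : 0 ≤ ∑ v, X.Lf i k a v := Finset.sum_nonneg fun v _ => X.hLf i k a v
    have h6 : (X.m : ℝ) * (6 * Real.log a + C) ≤ X.m * (6 * Real.log N + C) :=
      mul_le_mul_of_nonneg_left (by linarith) hm0
    have h7 : X.H = ∑ v, X.La v + ∑ v, X.Mu v := rfl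
    rw [h7]
    nlinarith
  calc ∑ v ∈ X.Gf i k, X.l i v + ∑ v ∈ X.Gi i k, X.lam i v
      ≤ u * ∑ a ∈ N.divisors, ∑ v, X.Lf i k a v +
        2 * u * ∑ a ∈ N.divisors, (∑ v, X.Li i k a v + X.m * C) := add_le_add sf si
    _ = u * ∑ a ∈ N.divisors, (∑ v, X.Lf i k a v + 2 * (∑ v, X.Li i k a v + X.m * C)) := by
        have e1 : ∑ a ∈ N.divisors, (∑ v, X.Lf i k a v + 2 * (∑ v, X.Li i k a v + X.m * C)) =
            ∑ a ∈ N.divisors, ∑ v, X.Lf i k a v +
              2 * ∑ a ∈ N.divisors, (∑ v, X.Li i k a v + X.m * C) := by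
          rw [Finset.sum_add_distrib, Finset.mul_sum]
        rw [e1]
        ring
    _ ≤ u * ∑ _a ∈ N.divisors, (4 * X.H + X.m * (24 * Real.log N + 6 * C)) :=
        mul_le_mul_of_nonneg_left (Finset.sum_le_sum hcomp) hu0.le
    _ = u * N.divisors.card * (4 * X.H + X.m * (24 * Real.log N + 6 * C)) := by
        rw [Finset.sum_const, nsmul_eq_mul]
        ring
    _ ≤ u * N.divisors.card * ((4 + 6 * C + 24 * Real.log N) * (X.H + X.m)) := by
        apply mul_le_mul_of_nonneg_left _ (by positivity)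
        nlinarith [mul_nonneg hC hH0, mul_nonneg hlog hH0]
    _ = u * (N.divisors.card * (4 + 6 * C + 24 * Real.log N)) * (X.H + X.m) := by ring
    _ ≤ u * (η / √6 * √(N : ℝ)) * (X.H + X.m) := by
        apply mul_le_mul_of_nonneg_right _ (by positivity)
        exact mul_le_mul_of_nonneg_left hdiv hu0.le
    _ = η * (X.H + X.m) := by
        have h8 : u * (η / √6 * √(N : ℝ)) = η := by
          rw [hu]
          have h9 : √(N : ℝ) ≠ 0 := (Real.sqrt_pos.2 hN0).ne'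
          have h10 : √(6 : ℝ) ≠ 0 := by positivity
          field_simp
        rw [h8]

end Pool.Agent.ZPS
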