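import Pool.Agent.ZPS.GP
import Pool.Agent.Hhelper14.ZP2.Tate

/-!
# ZPS module 12b: the primes dividing the denominator of the shift exactly once

(L2) Let `X = m x`, `Y = m y = X - u` (`y = x - u/m`); `‖m‖ = 1/p`. Multiplying the relation by `m^K`:
`Y_k^K + ∑_s a_s^{[m]}(Y_L) Y_k^{K-s} = 0` with `a_s^{[m]}(Y) = ∑_α a_{s,α} m^{s-|α|} Y^α`, `p`-integral
and congruent to the homogeneous component of degree `s` of `a_s`, modulo `m`. Let `|X| = max‖X_i‖`.
* `|X| ≥ 1`: otherwise `Y ≡ -u` and `G_{L,k}(-u) ≡ 0 (mod 𝔪)` for any `L`, `k ∉ L` (exists as `d < n`);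
  `G` is homogeneous of degree `K`, so `G_{L,k}(u) ≡ 0`, contradiction. So `max ‖x_i‖ = p |X| ≥ p`.
* If `|X| > 1` and `#{i | ‖X_i‖ < |X|} ≥ d`, choose `L` in it, `k` with `‖X_k‖ = |X|`: `‖Y_k‖ = |X|`,
  `‖Y_l‖ ≤ max(‖X_l‖, 1) < |X|`, so every term of the sum is `< |X|^K`, contradiction.
* If `|X| = 1`, let `E' = {i | ‖X_i‖ < 1}`, suppose `#E' ≥ d`, `L ⊆ E'` with `d` elements: `Y_L ≡ -u_L`. If
  there is `k ∈ E' \ L`, then `Y_k ≡ -u_k` and `G_{L,k}(u) ≡ 0`, contradiction. So `#E' = d`, `L = E'`, and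
  for `k ∉ L` the residue of `Y_k = X_k - u_k` is a root of a monic polynomial of degree `K` over `𝔽_p`;
  so the residue of `X_k`, which is nonzero, lies in `𝔽_{p^e}`, `e ≤ K`, `e ∣ D`, and
  `X_k^{p^D - 1} ≡ 1`. Then `x_i / x_k = X_i / X_k`.
  (Residue field: of the valuation ring `{‖x‖ ≤ 1}` of `ℂ_p`; it is a field of characteristic `p`.)
-/

namespace Pool.Agent.ZPS

open MvPolynomial Pool.Agent.Hhelper14.ZP

variable {n d : ℕ}

namespace L2aux

section basic

variable {p : ℕ} [hp : Fact p.Prime]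

theorem sum_lt {ι : Type*} (s : Finset ι) (f : ι → PadicComplex p) {r : ℝ} (hr : 0 < r)
    (h : ∀ i ∈ s, ‖f i‖ < r) : ‖∑ i ∈ s, f i‖ < r := by
  classical
  induction s using Finset.induction_on with
  | empty => simpa using hr
  | insert a s ha ih =>
    rw [Finset.sum_insert ha]
    refine lt_of_le_of_lt (IsUltrametricDist.norm_add_le_max _ _) (max_lt ?_ ?_)
    · exact h a (Finset.mem_insert_self _ _)
    · exact ih fun i hi => h i (Finset.mem_insert_of_mem hi)

theorem norm_sub_le' (a b : PadicComplex p) : ‖a - b‖ ≤ max ‖a‖ ‖b‖ := by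
  rw [sub_eq_add_neg, ← norm_neg b]
  exact IsUltrametricDist.norm_add_le_max _ _

theorem mul_cong {a a' b b' : PadicComplex p} (ha' : ‖a'‖ ≤ 1) (hb : ‖b‖ ≤ 1)
    (h1 : ‖a - a'‖ < 1) (h2 : ‖b - b'‖ < 1) : ‖a * b - a' * b'‖ < 1 := by
  have e : a * b - a' * b' = (a - a') * b + a' * (b - b') := by ring
  rw [e]
  refine lt_of_le_of_lt (IsUltrametricDist.norm_add_le_max _ _) (max_lt ?_ ?_)
  · rw [norm_mul]
    calc ‖a - a'‖ * ‖b‖ ≤ ‖a - a'‖ * 1 := mul_le_mul_of_nonneg_left hb (norm_nonneg _)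
      _ < 1 := by rw [mul_one]; exact h1
  · rw [norm_mul]
    calc ‖a'‖ * ‖b - b'‖ ≤ 1 * ‖b - b'‖ := mul_le_mul_of_nonneg_right ha' (norm_nonneg _)
      _ < 1 := by rw [one_mul]; exact h2

theorem norm_of_cong {a a' : PadicComplex p} (ha' : ‖a'‖ ≤ 1) (h1 : ‖a - a'‖ < 1) : ‖a‖ ≤ 1 := by
  have e : a = (a - a') + a' := by ring
  rw [e]
  exact (IsUltrametricDist.norm_add_le_max _ _).trans (max_le h1.le ha')

theorem pow_cong {a a' : PadicComplex p} (ha' : ‖a'‖ ≤ 1) (h1 : ‖a - a'‖ < 1) (k : ℕ) :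
    ‖a ^ k - a' ^ k‖ < 1 := by
  induction k with
  | zero => simp
  | succ k ih =>
    rw [pow_succ, pow_succ]
    refine mul_cong ?_ (norm_of_cong ha' h1) ih h1
    rw [norm_pow]
    exact pow_le_one₀ (norm_nonneg _) ha'

theorem prod_cong {ι : Type*} (s : Finset ι) (f g : ι → PadicComplex p)
    (hg : ∀ i ∈ s, ‖g i‖ ≤ 1) (h : ∀ i ∈ s, ‖f i - g i‖ < 1) :
    ‖∏ i ∈ s, f i - ∏ i ∈ s, g i‖ < 1 := by
  classical
  induction s using Finset.induction_on with
  | empty => simp
  | insert a s ha ih =>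
    rw [Finset.prod_insert ha, Finset.prod_insert ha]
    refine mul_cong (hg a (Finset.mem_insert_self _ _)) ?_ (h a (Finset.mem_insert_self _ _))
      (ih (fun i hi => hg i (Finset.mem_insert_of_mem hi))
        (fun i hi => h i (Finset.mem_insert_of_mem hi)))
    rw [norm_prod]
    refine Finset.prod_le_one (fun i _ => norm_nonneg _) fun i hi => ?_
    exact norm_of_cong (hg i (Finset.mem_insert_of_mem hi)) (h i (Finset.mem_insert_of_mem hi))

theorem norm_ratCast_eq (q : ℚ) : ‖(q : PadicComplex p)‖ = ((padicNorm p q : ℚ) : ℝ) := by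
  have h1 : (q : PadicComplex p) = (q.num : PadicComplex p) / (q.den : PadicComplex p) := by
    exact_mod_cast (congrArg (fun t : ℚ => (t : PadicComplex p)) (Rat.num_div_den q)).symm
  rw [h1, norm_div, norm_natCast_eq, norm_intCast_eq, ← norm_div]
  have h2 : ((q.num : ℚ_[p]) / (q.den : ℚ_[p])) = (q : ℚ_[p]) := by
    exact_mod_cast (congrArg (fun t : ℚ => (t : ℚ_[p])) (Rat.num_div_den q))
  rw [h2, Padic.eq_padicNorm]

/-- a `p`-integral rational number is congruent to an integer -/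
theorem exists_int (q : ℚ) (hq : padicNorm p q ≤ 1) :
    ∃ j : ℤ, ‖(q : PadicComplex p) - (j : PadicComplex p)‖ < 1 := by
  have hq' : ‖(q : ℚ_[p])‖ ≤ 1 := by
    rw [Padic.eq_padicNorm]
    exact_mod_cast hq
  set z : ℤ_[p] := ⟨(q : ℚ_[p]), hq'⟩ with hz
  have hzq : (z : ℚ_[p]) = (q : ℚ_[p]) := rfl
  obtain ⟨j, -, hj⟩ := PadicInt.exists_mem_range (p := p) z
  refine ⟨j, ?_⟩
  have hj1 : ‖z - (j : ℤ_[p])‖ < 1 := by
    rw [← PadicInt.mem_nonunits]
    exact (IsLocalRing.mem_maximalIdeal _).mp hj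
  have e : (q : PadicComplex p) - ((j : ℤ) : PadicComplex p) = ((q - j : ℚ) : PadicComplex p) := by
    push_cast
    ring
  rw [e, norm_ratCast_eq]
  have h3 : ‖z - (j : ℤ_[p])‖ = ‖((q - j : ℚ) : ℚ_[p])‖ := by
    rw [PadicInt.norm_def]
    push_cast
    rw [hzq]
  rw [h3, Padic.eq_padicNorm] at hj1
  exact hj1

theorem aeval_expand (f : MvPolynomial (Fin n) ℚ) (M : PadicComplex p) (y : Fin n → PadicComplex p)
    {s : ℕ} (hs : f.totalDegree ≤ s) :
    M ^ s * aeval y f = ∑ α ∈ f.support, ((coeff α f : ℚ) : PadicComplex p) *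
      (M ^ (s - α.degree) * ∏ i, (M * y i) ^ α i) := by
  rw [aeval_def, eval₂_eq', Finset.mul_sum]
  refine Finset.sum_congr rfl fun α hα => ?_
  have h1 : α.degree ≤ s := by
    refine le_trans ?_ hs
    exact le_totalDegree hα
  have h2 : ∏ i, (M * y i) ^ α i = M ^ α.degree * ∏ i, y i ^ α i := by
    rw [Finsupp.degree_eq_sum, ← Finset.prod_pow_eq_pow_sum, ← Finset.prod_mul_distrib]
    exact Finset.prod_congr rfl fun i _ => mul_pow _ _ _
  rw [h2]
  have h3 : M ^ s = M ^ (s - α.degree) * M ^ α.degree := by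
    rw [← pow_add, Nat.sub_add_cancel h1]
  rw [h3]
  have h4 : (algebraMap ℚ (PadicComplex p)) (coeff α f) = ((coeff α f : ℚ) : PadicComplex p) := by
    simp
  rw [h4]
  ring

theorem eval_hom_expand (f : MvPolynomial (Fin n) ℚ) (u : Fin n → ℤ) (s : ℕ) :
    (-1) ^ s * ((eval (fun i => (u i : ℚ)) (homogeneousComponent s f) : ℚ) : PadicComplex p) =
      ∑ α ∈ f.support, ((coeff α f : ℚ) : PadicComplex p) *
        (if α.degree = s then ∏ i, (-(u i : PadicComplex p)) ^ α i else 0) := by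
  rw [homogeneousComponent_apply, map_sum, Rat.cast_sum, Finset.mul_sum, Finset.sum_filter]
  refine Finset.sum_congr rfl fun α hα => ?_
  split_ifs with h
  · rw [eval_monomial]
    have h2 : ∏ i, (-(u i : PadicComplex p)) ^ α i = (-1) ^ s * ∏ i, (u i : PadicComplex p) ^ α i := by
      rw [← h, Finsupp.degree_eq_sum, ← Finset.prod_pow_eq_pow_sum, ← Finset.prod_mul_distrib]
      refine Finset.prod_congr rfl fun i _ => ?_
      rw [← mul_pow, neg_one_mul]
    rw [h2, Finsupp.prod_fintype _ _ (fun _ => pow_zero _)]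
    push_cast
    ring
  · simp

theorem top_cong (f : MvPolynomial (Fin n) ℚ) {s : ℕ} (hs : f.totalDegree ≤ s)
    {L : Finset (Fin n)} (hv : f.vars ⊆ L) (hc : ∀ α, padicNorm p (coeff α f) ≤ 1)
    {M : PadicComplex p} (hM : ‖M‖ < 1) (y : Fin n → PadicComplex p) (u : Fin n → ℤ)
    (h : ∀ l ∈ L, ‖M * y l + u l‖ < 1) :
    ‖M ^ s * aeval y f - (-1) ^ s *
      ((eval (fun i => (u i : ℚ)) (homogeneousComponent s f) : ℚ) : PadicComplex p)‖ < 1 := by
  rw [aeval_expand f M y hs, eval_hom_expand, ← Finset.sum_sub_distrib]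
  refine sum_lt _ _ one_pos fun α hα => ?_
  rw [← mul_sub, norm_mul]
  have h1 : ‖((coeff α f : ℚ) : PadicComplex p)‖ ≤ 1 := by
    rw [norm_ratCast_eq]
    exact_mod_cast hc α
  refine lt_of_le_of_lt (mul_le_of_le_one_left (norm_nonneg _) h1) ?_
  have h0 : ∀ i, i ∉ L → α i = 0 := by
    intro i hi
    by_contra hne
    exact hi (hv ((mem_vars_iff_mem_support i).mpr ⟨α, hα, Finsupp.mem_support_iff.mpr hne⟩))
  have hfac : ∀ i, ‖(M * y i) ^ α i - (-(u i : PadicComplex p)) ^ α i‖ < 1 := by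
    intro i
    by_cases hi : i ∈ L
    · refine pow_cong ?_ ?_ _
      · rw [norm_neg]
        exact norm_intCast_le _
      · rw [sub_neg_eq_add]
        exact h i hi
    · rw [h0 i hi]
      simp
  have hle : ∀ i, ‖(-(u i : PadicComplex p)) ^ α i‖ ≤ 1 := by
    intro i
    rw [norm_pow, norm_neg]
    exact pow_le_one₀ (norm_nonneg _) (norm_intCast_le _)
  have hprod := prod_cong Finset.univ (fun i => (M * y i) ^ α i)
    (fun i => (-(u i : PadicComplex p)) ^ α i) (fun i _ => hle i) (fun i _ => hfac i)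
  have h2 : α.degree ≤ s := by
    refine le_trans ?_ hs
    exact le_totalDegree hα
  split_ifs with hd
  · rw [hd, Nat.sub_self, pow_zero, one_mul]
    exact hprod
  · rw [sub_zero, norm_mul, norm_pow]
    have h3 : ‖∏ i, (M * y i) ^ α i‖ ≤ 1 := by
      refine norm_of_cong ?_ hprod
      rw [norm_prod]
      exact Finset.prod_le_one (fun i _ => norm_nonneg _) fun i _ => hle i
    have h4 : ‖M‖ ^ (s - α.degree) < 1 := by
      refine pow_lt_one₀ (norm_nonneg _) hM ?_
      omega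
    calc ‖M‖ ^ (s - α.degree) * ‖∏ i, (M * y i) ^ α i‖ ≤ ‖M‖ ^ (s - α.degree) * 1 :=
          mul_le_mul_of_nonneg_left h3 (pow_nonneg (norm_nonneg _) _)
      _ < 1 := by rw [mul_one]; exact h4

/-- size bound -/
theorem top_le (f : MvPolynomial (Fin n) ℚ) {s : ℕ} (hs : f.totalDegree ≤ s)
    {L : Finset (Fin n)} (hv : f.vars ⊆ L) (hc : ∀ α, padicNorm p (coeff α f) ≤ 1)
    {M : PadicComplex p} (hM : ‖M‖ < 1) (y : Fin n → PadicComplex p) {R : ℝ} (hR : 1 ≤ R)
    (h : ∀ l ∈ L, ‖M * y l‖ ≤ R) :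
    ‖M ^ s * aeval y f‖ ≤ R ^ s := by
  rw [aeval_expand f M y hs]
  refine IsUltrametricDist.norm_sum_le_of_forall_le_of_nonneg (by positivity) fun α hα => ?_
  have h1 : ‖((coeff α f : ℚ) : PadicComplex p)‖ ≤ 1 := by
    rw [norm_ratCast_eq]
    exact_mod_cast hc α
  have h0 : ∀ i, i ∉ L → α i = 0 := by
    intro i hi
    by_contra hne
    exact hi (hv ((mem_vars_iff_mem_support i).mpr ⟨α, hα, Finsupp.mem_support_iff.mpr hne⟩))
  have h2 : α.degree ≤ s := by
    refine le_trans ?_ hs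
    exact le_totalDegree hα
  rw [norm_mul, norm_mul, norm_pow, norm_prod]
  have h3 : ∏ i, ‖(M * y i) ^ α i‖ ≤ R ^ α.degree := by
    rw [Finsupp.degree_eq_sum, ← Finset.prod_pow_eq_pow_sum]
    refine Finset.prod_le_prod (fun i _ => norm_nonneg _) fun i _ => ?_
    rw [norm_pow]
    by_cases hi : i ∈ L
    · exact pow_le_pow_left₀ (norm_nonneg _) (h i hi) _
    · rw [h0 i hi, pow_zero, pow_zero]
  calc ‖((coeff α f : ℚ) : PadicComplex p)‖ *
        (‖M‖ ^ (s - α.degree) * ∏ i, ‖(M * y i) ^ α i‖)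
      ≤ 1 * (1 * R ^ α.degree) := by
        refine mul_le_mul h1 (mul_le_mul (pow_le_one₀ (norm_nonneg _) hM.le) h3 ?_ one_pos.le) ?_
          one_pos.le
        · exact Finset.prod_nonneg fun i _ => norm_nonneg _
        · exact mul_nonneg (pow_nonneg (norm_nonneg _) _) (Finset.prod_nonneg fun i _ => norm_nonneg _)
    _ ≤ R ^ s := by
        rw [one_mul, one_mul]
        exact pow_le_pow_right₀ hR h2

variable (p) in
/-- the valuation ring of `ℂ_p` -/
def cpVal : ValuationSubring (PadicComplex p) where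
  carrier := {z | ‖z‖ ≤ 1}
  mul_mem' {a b} ha hb := by
    simp only [Set.mem_ofPred_eq] at *
    rw [norm_mul]
    exact mul_le_one₀ ha (norm_nonneg _) hb
  one_mem' := by simp
  add_mem' {a b} ha hb :=
    (IsUltrametricDist.norm_add_le_max _ _).trans (max_le ha hb)
  zero_mem' := by simp
  neg_mem' {a} ha := by
    simp only [Set.mem_ofPred_eq] at *
    rwa [norm_neg]
  mem_or_inv_mem' a := by
    simp only [Set.mem_ofPred_eq, norm_inv]
    rcases le_total ‖a‖ 1 with h | h
    · exact Or.inl h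
    · exact Or.inr (inv_le_one_of_one_le₀ h)

theorem mem_cpVal (z : PadicComplex p) : z ∈ cpVal p ↔ ‖z‖ ≤ 1 := Iff.rfl

theorem residue_eq_zero_iff (z : cpVal p) :
    IsLocalRing.residue (cpVal p) z = 0 ↔ ‖(z : PadicComplex p)‖ < 1 := by
  rw [IsLocalRing.residue_eq_zero_iff, IsLocalRing.mem_maximalIdeal, mem_nonunits_iff]
  constructor
  · intro h
    by_contra h1
    have h2 : ‖(z : PadicComplex p)‖ = 1 := le_antisymm z.2 (not_lt.mp h1)
    have h3 : (z : PadicComplex p) ≠ 0 := by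
      intro h0
      rw [h0, norm_zero] at h2
      exact zero_ne_one h2
    apply h
    refine IsUnit.of_mul_eq_one (⟨(z : PadicComplex p)⁻¹, ?_⟩ : cpVal p) ?_
    · rw [mem_cpVal, norm_inv, h2, inv_one]
    · ext
      simp [h3]
  · intro h hu
    obtain ⟨w, hw⟩ := hu.exists_right_inv
    have h1 := congrArg (fun t : cpVal p => ‖(t : PadicComplex p)‖) hw
    simp only [MulMemClass.coe_mul, norm_mul, OneMemClass.coe_one, norm_one] at h1
    have h2 : ‖(w : PadicComplex p)‖ ≤ 1 := w.2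
    have h3 : ‖(z : PadicComplex p)‖ * ‖(w : PadicComplex p)‖ < 1 := by
      calc ‖(z : PadicComplex p)‖ * ‖(w : PadicComplex p)‖ ≤ ‖(z : PadicComplex p)‖ * 1 :=
            mul_le_mul_of_nonneg_left h2 (norm_nonneg _)
        _ < 1 := by rw [mul_one]; exact h
    linarith

/-- elements of degree at most `K` over `𝔽_p` -/
theorem frob_fixed {κ : Type*} [Field κ] [CharP κ p] (P : Polynomial ℤ) (hP : P.Monic)
    (z : κ) (hz : Polynomial.aeval z P = 0) :
    ∃ e, 1 ≤ e ∧ e ≤ P.natDegree ∧ ∀ u : ℤ, (z + u) ^ p ^ e = z + u := by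
  let _ : Algebra (ZMod p) κ := ZMod.algebra κ p
  have hz' : Polynomial.aeval z (P.map (Int.castRingHom (ZMod p))) = 0 := by
    rw [Polynomial.aeval_def, Polynomial.eval₂_map]
    rw [Polynomial.aeval_def] at hz
    rw [← hz]
    congr 1
    exact Subsingleton.elim _ _
  have hm : (P.map (Int.castRingHom (ZMod p))).Monic := hP.map _
  have hint : IsIntegral (ZMod p) z := ⟨_, hm, hz'⟩
  set E := IntermediateField.adjoin (ZMod p) {z} with hE
  have hfd : FiniteDimensional (ZMod p) E := IntermediateField.adjoin.finiteDimensional hint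
  have hfin : Finite E := Module.finite_of_finite (ZMod p)
  let _ : Fintype E := Fintype.ofFinite E
  have hcard : Fintype.card E = p ^ (minpoly (ZMod p) z).natDegree := by
    rw [← IntermediateField.adjoin.finrank hint, ← hE, Module.card_eq_pow_finrank (K := ZMod p),
      ZMod.card]
  refine ⟨(minpoly (ZMod p) z).natDegree, minpoly.natDegree_pos hint, ?_, fun u => ?_⟩
  · have h2 : (minpoly (ZMod p) z) ∣ P.map (Int.castRingHom (ZMod p)) := minpoly.dvd _ _ hz'
    refine (Polynomial.natDegree_le_of_dvd h2 hm.ne_zero).trans ?_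
    exact Polynomial.natDegree_map_le
  · have hzE : z ∈ E := IntermediateField.mem_adjoin_simple_self _ z
    have huE : (u : κ) ∈ E := intCast_mem E u
    have h3 := FiniteField.pow_card (⟨z + u, add_mem hzE huE⟩ : E)
    rw [hcard] at h3
    exact congrArg (fun t : E => (t : κ)) h3

instance charP_residue : CharP (IsLocalRing.ResidueField (cpVal p)) p := by
  have h : ((p : ℕ) : IsLocalRing.ResidueField (cpVal p)) = 0 := by
    have h1 : ((p : ℕ) : IsLocalRing.ResidueField (cpVal p)) =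
        IsLocalRing.residue (cpVal p) ((p : ℕ) : cpVal p) := by simp
    rw [h1, residue_eq_zero_iff]
    have h2 : (((p : ℕ) : cpVal p) : PadicComplex p) = (p : PadicComplex p) := by simp
    rw [h2, norm_p_eq]
    exact inv_lt_one_of_one_lt₀ (by exact_mod_cast hp.out.one_lt)
  exact (CharP.charP_iff_prime_eq_zero hp.out).mpr h

theorem root_unity (P : Polynomial ℤ) (hP : P.Monic) {D : ℕ}
    (hD : ∀ e, 1 ≤ e → e ≤ P.natDegree → e ∣ D) {z : PadicComplex p} (hz : ‖z‖ ≤ 1)
    (hr : ‖Polynomial.aeval z P‖ < 1) (u : ℤ) (hu : ‖z + u‖ = 1) :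
    ‖(z + u) ^ (p ^ D - 1) - 1‖ < 1 := by
  set z' : cpVal p := ⟨z, hz⟩ with hz'
  have h1 : ((Polynomial.aeval z' P : cpVal p) : PadicComplex p) = Polynomial.aeval z P := by
    have h := Polynomial.hom_eval₂ P (algebraMap ℤ (cpVal p)) (cpVal p).subtype z'
    have hc : (cpVal p).subtype.comp (algebraMap ℤ (cpVal p)) =
        algebraMap ℤ (PadicComplex p) := Subsingleton.elim _ _
    rw [hc] at h
    rw [Polynomial.aeval_def, Polynomial.aeval_def]
    exact h
  have h2 : IsLocalRing.residue (cpVal p) (Polynomial.aeval z' P) = 0 := by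
    rw [residue_eq_zero_iff, h1]
    exact hr
  have h3 : Polynomial.aeval (IsLocalRing.residue (cpVal p) z') P = 0 := by
    rw [← h2, Polynomial.aeval_def, Polynomial.aeval_def]
    have h := Polynomial.hom_eval₂ P (Int.castRingHom (cpVal p)) (IsLocalRing.residue (cpVal p)) z'
    have hc : (IsLocalRing.residue (cpVal p)).comp (Int.castRingHom (cpVal p)) =
        Int.castRingHom (IsLocalRing.ResidueField (cpVal p)) := Subsingleton.elim _ _
    rw [hc] at h
    exact h.symm
  obtain ⟨e, he1, he2, he⟩ := frob_fixed P hP _ h3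
  obtain ⟨f, rfl⟩ := hD e he1 he2
  have he' := he u
  have hit : ∀ f : ℕ, (IsLocalRing.residue (cpVal p) z' + u) ^ p ^ (e * f) =
      IsLocalRing.residue (cpVal p) z' + u := by
    intro f
    induction f with
    | zero => simp
    | succ f ih =>
      rw [Nat.mul_succ, pow_add, pow_mul, ih, he']
  have h4 := hit f
  set w : cpVal p := z' + (u : cpVal p) with hw
  have hwc : (w : PadicComplex p) = z + u := by
    rw [hw]
    simp [hz']
  have h5 : IsLocalRing.residue (cpVal p) (w ^ p ^ (e * f) - w) = 0 := by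
    rw [map_sub, map_pow, hw, map_add, map_intCast, h4, sub_self]
  rw [residue_eq_zero_iff] at h5
  have h6 : ((w ^ p ^ (e * f) - w : cpVal p) : PadicComplex p) =
      (z + u) * ((z + u) ^ (p ^ (e * f) - 1) - 1) := by
    have hp1 : 1 ≤ p ^ (e * f) := Nat.one_le_pow _ _ hp.out.pos
    have h7 : (z + u) ^ p ^ (e * f) = (z + u) ^ (p ^ (e * f) - 1) * (z + u) := by
      rw [← pow_succ, Nat.sub_add_cancel hp1]
    push_cast
    rw [hwc, h7]
    ring
  rw [h6, norm_mul, hu, one_mul] at h5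
  exact h5

theorem exists_bound {ι : Type*} (L : Finset ι) (f : ι → ℝ) {T : ℝ} (h1 : 1 < T)
    (h : ∀ l ∈ L, f l < T) : ∃ R, 1 ≤ R ∧ R < T ∧ ∀ l ∈ L, f l ≤ R := by
  classical
  induction L using Finset.induction_on with
  | empty => exact ⟨1, le_rfl, h1, by simp⟩
  | insert a s ha ih =>
    obtain ⟨R, hR1, hR2, hR3⟩ := ih fun l hl => h l (Finset.mem_insert_of_mem hl)
    refine ⟨max R (f a), le_max_of_le_left hR1, max_lt hR2 (h a (Finset.mem_insert_self _ _)), ?_⟩
    intro l hl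
    rcases Finset.mem_insert.mp hl with rfl | hl
    · exact le_max_right _ _
    · exact (hR3 l hl).trans (le_max_left _ _)

/-- the integral polynomial of the relation -/
theorem exists_poly (K : ℕ) (j : ℕ → ℤ) : ∃ P : Polynomial ℤ, P.Monic ∧ P.natDegree = K ∧
    ∀ z : PadicComplex p, Polynomial.aeval z P = z ^ K + ∑ s ∈ Finset.Icc 1 K,
      ((-1) ^ s * (j s : PadicComplex p)) * z ^ (K - s) := by
  set Q : Polynomial ℤ := ∑ s ∈ Finset.Icc 1 K,
    Polynomial.C ((-1) ^ s * j s) * Polynomial.X ^ (K - s) with hQ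
  have hdeg : Q.degree < K := by
    rw [← Polynomial.mem_degreeLT, hQ]
    refine Submodule.sum_mem _ fun s hs => ?_
    rw [Polynomial.mem_degreeLT]
    refine lt_of_le_of_lt (Polynomial.degree_C_mul_X_pow_le _ _) ?_
    rw [Finset.mem_Icc] at hs
    exact_mod_cast (by omega : K - s < K)
  refine ⟨Polynomial.X ^ K + Q, Polynomial.monic_X_pow_add hdeg, ?_, fun z => ?_⟩
  · refine Polynomial.natDegree_eq_of_degree_eq_some ?_
    rw [Polynomial.degree_add_eq_left_of_degree_lt (by rwa [Polynomial.degree_X_pow]),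
      Polynomial.degree_X_pow]
  · rw [map_add, map_pow, Polynomial.aeval_X, hQ, map_sum]
    congr 1
    refine Finset.sum_congr rfl fun s _ => ?_
    rw [map_mul, map_pow, Polynomial.aeval_X, Polynomial.aeval_C]
    congr 1
    simp

end basic

end L2aux

theorem L2 (A : GPData n d) (hdn : d < n) {D : ℕ} (hD : ∀ L k e, 1 ≤ e → e ≤ A.K L k → e ∣ D)
    {p : ℕ} [Fact p.Prime] (hgood : A.GoodAt p) (u : Fin n → ℤ) {m : ℕ} (hm : 0 < m)
    (hpm : p ∣ m) (hpm2 : ¬ p ^ 2 ∣ m)
    (hG : ∀ L : Finset (Fin n), L.card = d → ∀ k, k ∉ L →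
      padicNorm p (eval (fun i => (u i : ℚ)) (A.G L k)) = 1)
    (x : Fin n → PadicComplex p) (hx : A.Holds (fun i => x i - (u i : PadicComplex p) / m))
    {Λ : ℝ} (hΛ : ∀ i, Real.posLog ‖x i‖ ≤ Λ) (hΛ' : ∃ i, Real.posLog ‖x i‖ = Λ) :
    Real.log p ≤ Λ ∧ ((Finset.univ.filter fun i => Real.posLog ‖x i‖ < Λ).card < d ∨
      ((Finset.univ.filter fun i => Real.posLog ‖x i‖ < Λ).card = d ∧
        ∀ i k, Real.posLog ‖x i‖ = Λ → Real.posLog ‖x k‖ = Λ →
          ‖(x i / x k) ^ (p ^ D - 1) - 1‖ < 1)) := by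
  have hp : p.Prime := Fact.out
  have hp1 : (1 : ℝ) < p := by exact_mod_cast hp.one_lt
  have hp0 : (0 : ℝ) < p := by linarith
  set M : PadicComplex p := (m : PadicComplex p) with hMdef
  have hMn : ‖M‖ = (p : ℝ)⁻¹ := by
    obtain ⟨m', rfl⟩ := hpm
    have hm' : ¬ p ∣ m' := by
      rintro ⟨q, rfl⟩
      exact hpm2 ⟨q, by ring⟩
    rw [hMdef]
    push_cast
    rw [norm_mul, norm_p_eq, norm_natCast_eq, (Padic.norm_natCast_eq_one_iff).mpr
      ((Nat.Prime.coprime_iff_not_dvd hp).mpr hm'), mul_one]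
  have hM1 : ‖M‖ < 1 := by rw [hMn]; exact inv_lt_one_of_one_lt₀ hp1
  have hM0 : M ≠ 0 := by
    rw [← norm_pos_iff, hMn]
    positivity
  set y : Fin n → PadicComplex p := fun i => x i - (u i : PadicComplex p) / m with hy
  have hY : ∀ i, M * y i = M * x i - u i := by
    intro i
    rw [hy]
    simp only
    rw [mul_sub, mul_div_cancel₀ _ hM0]
  -- the relation multiplied by `M ^ K`
  have hrel : ∀ L : Finset (Fin n), L.card = d → ∀ k,
      (M * y k) ^ A.K L k + ∑ s ∈ Finset.Icc 1 (A.K L k),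
        (M ^ s * aeval y (A.a L k s)) * (M * y k) ^ (A.K L k - s) = 0 := by
    intro L hL k
    have h := congrArg (fun t => M ^ A.K L k * t) (hx L hL k)
    simp only [mul_zero] at h
    rw [← h, mul_add, Finset.mul_sum, mul_pow]
    congr 1
    refine Finset.sum_congr rfl fun s hs => ?_
    have h1 : M ^ A.K L k = M ^ s * M ^ (A.K L k - s) := by
      rw [← pow_add, Nat.add_sub_cancel' (Finset.mem_Icc.mp hs).2]
    rw [mul_pow, h1]
    ring
  have hcoef : ∀ L : Finset (Fin n), L.card = d → ∀ k, ∀ s ∈ Finset.Icc 1 (A.K L k), ∀ α,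
      padicNorm p (coeff α (A.a L k s)) ≤ 1 := fun L hL k s hs =>
    hgood L hL k s (Finset.mem_Icc.mp hs).2
  -- the coefficients modulo the maximal ideal
  set c : Finset (Fin n) → Fin n → ℕ → PadicComplex p := fun L k s =>
    ((eval (fun i => (u i : ℚ)) (homogeneousComponent s (A.a L k s)) : ℚ) : PadicComplex p) with hc
  have hcong : ∀ L : Finset (Fin n), L.card = d → (∀ l ∈ L, ‖M * x l‖ < 1) → ∀ k,
      ∀ s ∈ Finset.Icc 1 (A.K L k), ‖M ^ s * aeval y (A.a L k s) - (-1) ^ s * c L k s‖ < 1 := by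
    intro L hL hs k s hsK
    refine L2aux.top_cong _ (A.hdeg L k s) (A.hvars L k s) (hcoef L hL k s hsK) hM1 y u ?_
    intro l hl
    rw [hY, sub_add_cancel]
    exact hs l hl
  have hcn : ∀ L : Finset (Fin n), L.card = d → ∀ k, ∀ s ∈ Finset.Icc 1 (A.K L k),
      padicNorm p (eval (fun i => (u i : ℚ)) (homogeneousComponent s (A.a L k s))) ≤ 1 := by
    intro L hL k s hs
    have h := L2aux.eval_hom_expand (p := p) (A.a L k s) u s
    have h1 : ‖(-1) ^ s * ((eval (fun i => (u i : ℚ)) (homogeneousComponent s (A.a L k s)) : ℚ) :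
        PadicComplex p)‖ ≤ 1 := by
      rw [h]
      refine IsUltrametricDist.norm_sum_le_of_forall_le_of_nonneg zero_le_one fun α hα => ?_
      rw [norm_mul]
      have h2 : ‖((coeff α (A.a L k s) : ℚ) : PadicComplex p)‖ ≤ 1 := by
        rw [L2aux.norm_ratCast_eq]
        exact_mod_cast hcoef L hL k s hs α
      refine mul_le_one₀ h2 (norm_nonneg _) ?_
      split_ifs
      · rw [norm_prod]
        refine Finset.prod_le_one (fun i _ => norm_nonneg _) fun i _ => ?_
        rw [norm_pow, norm_neg]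
        exact pow_le_one₀ (norm_nonneg _) (norm_intCast_le _)
      · simp
    rw [norm_mul, norm_pow, norm_neg, norm_one, one_pow, one_mul, L2aux.norm_ratCast_eq] at h1
    exact_mod_cast h1
  -- the values of `G`
  have hGval : ∀ L : Finset (Fin n), ∀ k,
      ((eval (fun i => (u i : ℚ)) (A.G L k) : ℚ) : PadicComplex p) =
        (u k : PadicComplex p) ^ A.K L k + ∑ s ∈ Finset.Icc 1 (A.K L k),
          c L k s * (u k : PadicComplex p) ^ (A.K L k - s) := by
    intro L k
    rw [GPData.G, map_add, map_pow, map_sum, eval_X]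
    push_cast
    congr 1
    refine Finset.sum_congr rfl fun s _ => ?_
    rw [map_mul, map_pow, eval_X]
    push_cast
    rfl
  -- general principle
  have hcontra : ∀ L : Finset (Fin n), L.card = d → (∀ l ∈ L, ‖M * x l‖ < 1) → ∀ k, k ∉ L →
      ‖M * x k‖ < 1 → False := by
    intro L hL hl k hk hxk
    have h1 : ‖M * y k - (-(u k : PadicComplex p))‖ < 1 := by
      rw [hY, sub_neg_eq_add, sub_add_cancel]
      exact hxk
    have huk : ‖(-(u k : PadicComplex p))‖ ≤ 1 := by
      rw [norm_neg]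
      exact norm_intCast_le _
    have h2 : ‖((M * y k) ^ A.K L k + ∑ s ∈ Finset.Icc 1 (A.K L k),
        (M ^ s * aeval y (A.a L k s)) * (M * y k) ^ (A.K L k - s)) -
        ((-(u k : PadicComplex p)) ^ A.K L k + ∑ s ∈ Finset.Icc 1 (A.K L k),
          ((-1) ^ s * c L k s) * (-(u k : PadicComplex p)) ^ (A.K L k - s))‖ < 1 := by
      rw [add_sub_add_comm, ← Finset.sum_sub_distrib]
      refine lt_of_le_of_lt (IsUltrametricDist.norm_add_le_max _ _) (max_lt ?_ ?_)
      · exact L2aux.pow_cong huk h1 _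
      · refine L2aux.sum_lt _ _ one_pos fun s hs => ?_
        refine L2aux.mul_cong ?_ ?_ (hcong L hL hl k s hs) (L2aux.pow_cong huk h1 _)
        · rw [norm_mul, norm_pow, norm_neg, norm_one, one_pow, one_mul, hc]
          simp only
          rw [L2aux.norm_ratCast_eq]
          exact_mod_cast hcn L hL k s hs
        · rw [norm_pow]
          exact pow_le_one₀ (norm_nonneg _) (L2aux.norm_of_cong huk h1)
    rw [hrel L hL k, zero_sub, norm_neg] at h2
    have h3 : (-(u k : PadicComplex p)) ^ A.K L k + ∑ s ∈ Finset.Icc 1 (A.K L k),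
          ((-1) ^ s * c L k s) * (-(u k : PadicComplex p)) ^ (A.K L k - s) =
        (-1) ^ A.K L k * ((eval (fun i => (u i : ℚ)) (A.G L k) : ℚ) : PadicComplex p) := by
      rw [hGval, mul_add, Finset.mul_sum]
      congr 1
      · rw [neg_pow]
      · refine Finset.sum_congr rfl fun s hs => ?_
        rw [neg_pow (u k : PadicComplex p)]
        have h4 : (-1 : PadicComplex p) ^ A.K L k = (-1) ^ s * (-1) ^ (A.K L k - s) := by
          rw [← pow_add, Nat.add_sub_cancel' (Finset.mem_Icc.mp hs).2]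
        rw [h4]
        ring
    rw [h3, norm_mul, norm_pow, norm_neg, norm_one, one_pow, one_mul, L2aux.norm_ratCast_eq,
      hG L hL k hk] at h2
    norm_num at h2
  -- step 1
  have hstep1 : ∃ i, 1 ≤ ‖M * x i‖ := by
    by_contra hcon
    push Not at hcon
    obtain ⟨L, -, hL⟩ := Finset.exists_subset_card_eq (s := (Finset.univ : Finset (Fin n)))
      (n := d) (by rw [Finset.card_univ, Fintype.card_fin]; exact hdn.le)
    obtain ⟨k, hk⟩ : ∃ k, k ∉ L := by
      by_contra hall
      push Not at hall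
      have : L = Finset.univ := Finset.eq_univ_of_forall hall
      rw [this, Finset.card_univ, Fintype.card_fin] at hL
      omega
    exact hcontra L hL (fun l _ => hcon l) k hk (hcon k)
  have hlogp : Real.log p ≤ Λ := by
    obtain ⟨i, hi⟩ := hstep1
    rw [norm_mul, hMn] at hi
    have h1 : (p : ℝ) ≤ ‖x i‖ := by
      rw [inv_mul_eq_div, le_div_iff₀ hp0, one_mul] at hi
      exact hi
    calc Real.log p ≤ Real.log ‖x i‖ := Real.log_le_log hp0 h1
      _ ≤ Real.posLog ‖x i‖ := le_max_right _ _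
      _ ≤ Λ := hΛ i
  have hΛ0 : 0 < Λ := lt_of_lt_of_le (Real.log_pos hp1) hlogp
  refine ⟨hlogp, ?_⟩
  -- `posLog` versus norms
  have hexp : 1 < Real.exp Λ := by
    rw [← Real.exp_zero]
    exact Real.exp_lt_exp.mpr hΛ0
  have hpl : ∀ i, Real.posLog ‖x i‖ = Real.log (max 1 ‖x i‖) := fun i =>
    Real.posLog_eq_log_max_one (norm_nonneg _)
  have hmx : ∀ i, (0 : ℝ) < max 1 ‖x i‖ := fun i => lt_max_of_lt_left one_pos
  have hlt : ∀ i, Real.posLog ‖x i‖ < Λ ↔ ‖x i‖ < Real.exp Λ := by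
    intro i
    rw [hpl, Real.log_lt_iff_lt_exp (hmx i), max_lt_iff]
    exact ⟨fun h => h.2, fun h => ⟨hexp, h⟩⟩
  have hle : ∀ i, ‖x i‖ ≤ Real.exp Λ := by
    intro i
    have h := hΛ i
    rw [hpl, Real.log_le_iff_le_exp (hmx i), max_le_iff] at h
    exact h.2
  have heq : ∀ i, Real.posLog ‖x i‖ = Λ ↔ ‖x i‖ = Real.exp Λ := by
    intro i
    constructor
    · intro h
      refine le_antisymm (hle i) (not_lt.mp fun h1 => ?_)
      rw [← hlt, h] at h1
      exact lt_irrefl _ h1
    · intro h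
      refine le_antisymm (hΛ i) (not_lt.mp fun h1 => ?_)
      rw [hlt, h] at h1
      exact lt_irrefl _ h1
  set T : ℝ := Real.exp Λ / p with hT
  have hT1 : 1 ≤ T := by
    rw [hT, le_div_iff₀ hp0, one_mul]
    rw [← Real.log_le_iff_le_exp hp0]
    exact hlogp
  have hMx : ∀ i, ‖M * x i‖ = ‖x i‖ / p := by
    intro i
    rw [norm_mul, hMn, inv_mul_eq_div]
  have hMxle : ∀ i, ‖M * x i‖ ≤ T := by
    intro i
    rw [hMx, hT]
    exact div_le_div_of_nonneg_right (hle i) hp0.le
  have hMxlt : ∀ i, Real.posLog ‖x i‖ < Λ ↔ ‖M * x i‖ < T := by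
    intro i
    rw [hlt, hMx, hT, div_lt_div_iff_of_pos_right hp0]
  have hMxeq : ∀ i, Real.posLog ‖x i‖ = Λ ↔ ‖M * x i‖ = T := by
    intro i
    rw [heq, hMx, hT, div_left_inj' hp0.ne']
  obtain ⟨k0, hk0⟩ := hΛ'
  set E := Finset.univ.filter fun i => Real.posLog ‖x i‖ < Λ with hE
  by_cases hcard : E.card < d
  · exact Or.inl hcard
  push Not at hcard
  obtain ⟨L, hLE, hL⟩ := Finset.exists_subset_card_eq hcard
  have hLT : ∀ l ∈ L, ‖M * x l‖ < T := by
    intro l hl
    have := hLE hl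
    rw [hE, Finset.mem_filter] at this
    exact (hMxlt l).mp this.2
  right
  rcases hT1.lt_or_eq with hT1 | hT1
  · -- `T > 1`
    exfalso
    have hYk : ‖M * y k0‖ = T := by
      rw [hY]
      have h1 : ‖M * x k0‖ = T := (hMxeq k0).mp hk0
      have h2 : ‖(u k0 : PadicComplex p)‖ ≤ 1 := norm_intCast_le _
      refine le_antisymm ((L2aux.norm_sub_le' _ _).trans (max_le h1.le (h2.trans hT1.le))) ?_
      by_contra hcon
      push Not at hcon
      have h3 : ‖M * x k0‖ ≤ max ‖M * x k0 - u k0‖ ‖(u k0 : PadicComplex p)‖ := by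
        have e : M * x k0 = (M * x k0 - u k0) + u k0 := by ring
        calc ‖M * x k0‖ = ‖(M * x k0 - u k0) + u k0‖ := by rw [← e]
          _ ≤ _ := IsUltrametricDist.norm_add_le_max _ _
      rw [h1] at h3
      exact absurd h3 (not_le.mpr (max_lt hcon (h2.trans_lt hT1)))
    obtain ⟨R, hR1, hRT, hR⟩ := L2aux.exists_bound L (fun l => ‖M * y l‖) hT1 (fun l hl => by
      rw [hY]
      exact lt_of_le_of_lt (L2aux.norm_sub_le' _ _)
        (max_lt (hLT l hl) ((norm_intCast_le _).trans_lt hT1)))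
    have hT0 : 0 < T := by linarith
    have hsum : ‖∑ s ∈ Finset.Icc 1 (A.K L k0),
        (M ^ s * aeval y (A.a L k0 s)) * (M * y k0) ^ (A.K L k0 - s)‖ < T ^ A.K L k0 := by
      refine L2aux.sum_lt _ _ (by positivity) fun s hs => ?_
      have hs' := Finset.mem_Icc.mp hs
      rw [norm_mul, norm_pow, hYk]
      have h1 := L2aux.top_le (A.a L k0 s) (A.hdeg L k0 s) (A.hvars L k0 s) (hcoef L hL k0 s hs)
        hM1 y hR1 hR
      have h2 : R ^ s < T ^ s := pow_lt_pow_left₀ hRT (by linarith) (by omega)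
      calc ‖M ^ s * aeval y (A.a L k0 s)‖ * T ^ (A.K L k0 - s)
          ≤ R ^ s * T ^ (A.K L k0 - s) := mul_le_mul_of_nonneg_right h1 (by positivity)
        _ < T ^ s * T ^ (A.K L k0 - s) := mul_lt_mul_of_pos_right h2 (by positivity)
        _ = T ^ A.K L k0 := by rw [← pow_add, Nat.add_sub_cancel' hs'.2]
    have h3 := hrel L hL k0
    rw [add_eq_zero_iff_eq_neg] at h3
    have h4 := congrArg (fun t => ‖t‖) h3
    simp only [norm_neg, norm_pow, hYk] at h4
    linarith
  · -- `T = 1`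
    rw [← hT1] at hLT hMxlt hMxeq hMxle
    have hEL : E = L := by
      refine Finset.Subset.antisymm (fun k hk => ?_) hLE
      by_contra hkL
      rw [hE, Finset.mem_filter] at hk
      exact hcontra L hL hLT k hkL ((hMxlt k).mp hk.2)
    refine ⟨by rw [hEL, hL], ?_⟩
    have hclaim : ∀ i, Real.posLog ‖x i‖ = Λ → ‖(M * x i) ^ (p ^ D - 1) - 1‖ < 1 := by
      intro i hi
      have hj : ∀ s, ∃ j : ℤ, s ∈ Finset.Icc 1 (A.K L i) →
          ‖c L i s - (j : PadicComplex p)‖ < 1 := by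
        intro s
        by_cases hs : s ∈ Finset.Icc 1 (A.K L i)
        · obtain ⟨j, hj⟩ := L2aux.exists_int (p := p) _ (hcn L hL i s hs)
          exact ⟨j, fun _ => hj⟩
        · exact ⟨0, fun h => absurd h hs⟩
      choose j hj using hj
      obtain ⟨P, hP1, hP2, hP3⟩ := L2aux.exists_poly (p := p) (A.K L i) j
      have hYi : ‖M * y i‖ ≤ 1 := by
        rw [hY]
        exact (L2aux.norm_sub_le' _ _).trans (max_le (hMxle i) (norm_intCast_le _))
      have hval : ‖Polynomial.aeval (M * y i) P‖ < 1 := by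
        have h1 := hrel L hL i
        have h2 : Polynomial.aeval (M * y i) P = ∑ s ∈ Finset.Icc 1 (A.K L i),
            ((-1) ^ s * (j s : PadicComplex p) - M ^ s * aeval y (A.a L i s)) *
              (M * y i) ^ (A.K L i - s) := by
          rw [hP3, ← sub_zero ((M * y i) ^ A.K L i + _), ← h1, add_sub_add_comm, sub_self, zero_add,
            ← Finset.sum_sub_distrib]
          exact Finset.sum_congr rfl fun s _ => by ring
        rw [h2]
        refine L2aux.sum_lt _ _ one_pos fun s hs => ?_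
        rw [norm_mul]
        have h3 : ‖(-1) ^ s * (j s : PadicComplex p) - M ^ s * aeval y (A.a L i s)‖ < 1 := by
          have e : (-1) ^ s * (j s : PadicComplex p) - M ^ s * aeval y (A.a L i s) =
              -((-1) ^ s * (c L i s - j s)) -
                (M ^ s * aeval y (A.a L i s) - (-1) ^ s * c L i s) := by ring
          rw [e]
          refine lt_of_le_of_lt (L2aux.norm_sub_le' _ _) (max_lt ?_ (hcong L hL hLT i s hs))
          rw [norm_neg, norm_mul, norm_pow, norm_neg, norm_one, one_pow, one_mul]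
          exact hj s hs
        have h4 : ‖(M * y i) ^ (A.K L i - s)‖ ≤ 1 := by
          rw [norm_pow]
          exact pow_le_one₀ (norm_nonneg _) hYi
        calc _ ≤ ‖(-1) ^ s * (j s : PadicComplex p) - M ^ s * aeval y (A.a L i s)‖ * 1 :=
              mul_le_mul_of_nonneg_left h4 (norm_nonneg _)
          _ < 1 := by rw [mul_one]; exact h3
      have h5 := L2aux.root_unity P hP1
        (fun e he1 he2 => hD L i e he1 (by rw [← hP2]; exact he2)) hYi hval (u i)
      rw [hY, sub_add_cancel] at h5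
      exact h5 ((hMxeq i).mp hi)
    intro i k hi hk
    have h1 := hclaim i hi
    have h2 := hclaim k hk
    have hk1 : ‖M * x k‖ = 1 := (hMxeq k).mp hk
    have hk0' : M * x k ≠ 0 := by
      intro h0
      rw [h0, norm_zero] at hk1
      exact zero_ne_one hk1
    have e : x i / x k = (M * x i) / (M * x k) := (mul_div_mul_left _ _ hM0).symm
    rw [e, div_pow]
    have hpw : (M * x k) ^ (p ^ D - 1) ≠ 0 := pow_ne_zero _ hk0'
    have e2 : (M * x i) ^ (p ^ D - 1) / (M * x k) ^ (p ^ D - 1) - 1 =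
        (((M * x i) ^ (p ^ D - 1) - 1) - ((M * x k) ^ (p ^ D - 1) - 1)) /
          (M * x k) ^ (p ^ D - 1) := by
      field_simp
      ring
    rw [e2, norm_div, norm_pow, hk1, one_pow, div_one]
    exact lt_of_le_of_lt (L2aux.norm_sub_le' _ _) (max_lt h1 h2)

end Pool.Agent.ZPS
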