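import Pool.Agent.Hhelper14.ZP2.Tate

/-!
# ZPS module 12c: roots of unity congruent to 1

`root_of_unity`: `η = ζ^e` has order `m' = m / gcd(m, e)`; if a prime `ℓ ≠ p` divides `m'`, then
`η' = η^{m'/ℓ}` is a primitive `ℓ`-th root of unity with `‖η' - 1‖ < 1`, but `∏_{i=1}^{ℓ-1} (1 - η'^i) = ℓ`
has norm `1`. So `m'` is a power of `p`.
-/

namespace Pool.Agent.ZPS

open Pool.Agent.Hhelper14.ZP

theorem norm_pow_sub_one_le {K : Type*} [NormedField K] [IsUltrametricDist K] {x : K}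
    (hx : ‖x‖ ≤ 1) (j : ℕ) : ‖x ^ j - 1‖ ≤ ‖x - 1‖ := by
  induction j with
  | zero => simp
  | succ j ih =>
    have e : x ^ (j + 1) - 1 = x ^ j * (x - 1) + (x ^ j - 1) := by ring
    rw [e]
    refine (IsUltrametricDist.norm_add_le_max _ _).trans (max_le ?_ ih)
    rw [norm_mul, norm_pow]
    exact mul_le_of_le_one_left (norm_nonneg _) (pow_le_one₀ (norm_nonneg _) hx)

theorem root_of_unity {p : ℕ} [Fact p.Prime] {m : ℕ} (hm : 0 < m) {ζ : PadicComplex p}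
    (hζ : IsPrimitiveRoot ζ m) {e : ℕ} (h : ‖ζ ^ e - 1‖ < 1) : ∃ s : ℕ, m ∣ p ^ s * e := by
  obtain ⟨a, k, hk, hmk⟩ := Nat.exists_eq_pow_mul_and_not_dvd hm.ne' p
    (Fact.out : p.Prime).ne_one
  refine ⟨a, ?_⟩
  obtain ⟨η, hη⟩ : ∃ η, η = ζ ^ e := ⟨_, rfl⟩
  rw [← hη] at h
  have hζ1 : ζ ^ m = 1 := hζ.pow_eq_one
  have hn : ‖ζ‖ = 1 := by
    have h1 : ‖ζ‖ ^ m = 1 := by rw [← norm_pow, hζ1, norm_one]
    exact (pow_eq_one_iff_of_nonneg (norm_nonneg _) hm.ne').1 h1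
  have hη1 : ‖η‖ ≤ 1 := by rw [hη, norm_pow, hn, one_pow]
  obtain ⟨θ, hθ⟩ : ∃ θ, θ = η ^ (p ^ a) := ⟨_, rfl⟩
  have hθ1 : ‖θ‖ ≤ 1 := by
    rw [hθ, norm_pow]
    exact pow_le_one₀ (norm_nonneg _) hη1
  have hθ2 : ‖θ - 1‖ < 1 := by
    rw [hθ]
    exact (norm_pow_sub_one_le hη1 _).trans_lt h
  have hθk : θ ^ k = 1 := by
    rw [hθ, hη, ← pow_mul, ← pow_mul]
    have e1 : e * (p ^ a * k) = m * e := by rw [hmk]; ring
    rw [e1, pow_mul, hζ1, one_pow]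
  have hθe : θ = 1 := by
    by_contra hne
    have h1 := geom_sum_mul θ k
    rw [hθk, sub_self] at h1
    have h2 := (mul_eq_zero.1 h1).resolve_right (sub_ne_zero.2 hne)
    have h3 : ((k : ℕ) : PadicComplex p) = -∑ i ∈ Finset.range k, (θ ^ i - 1) := by
      rw [Finset.sum_sub_distrib, h2]
      simp
    have h4 : ‖((k : ℕ) : PadicComplex p)‖ ≤ ‖θ - 1‖ := by
      rw [h3, norm_neg]
      exact IsUltrametricDist.norm_sum_le_of_forall_le_of_nonneg (norm_nonneg _)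
        fun i _ => norm_pow_sub_one_le hθ1 i
    have h5 : ‖((k : ℕ) : PadicComplex p)‖ = 1 := by
      have h6 := norm_algebraMap' (PadicComplex p) ((k : ℕ) : ℚ_[p])
      rw [map_natCast] at h6
      rw [h6]
      exact Padic.norm_natCast_eq_one_iff.2
        (((Nat.Prime.coprime_iff_not_dvd (Fact.out : p.Prime)).2 hk))
    linarith
  have h7 : ζ ^ (p ^ a * e) = 1 := by
    rw [mul_comm, pow_mul, ← hη, ← hθ, hθe]
  exact (hζ.pow_eq_one_iff_dvd _).1 h7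

end Pool.Agent.ZPS
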