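import Pool.Agent.ZPS.Extend
import Pool.Agent.Hhelper14.ZP2.Hecke
import Pool.Agent.Hhelper14.ZP2.Tate

/-!
# ZPS module 11b: places of a number field as embeddings of `ℂ`, and the product formula

Let `K = ℚ(T) ⊆ ℂ`, a number field, `m = [K : ℚ]`. For an algebraically closed `L` of characteristic
zero there are exactly `m` embeddings `K → L` and `∏_φ φ(α) = N_{K/ℚ}(α)`
(`Algebra.norm_eq_prod_embeddings`, `AlgHom.card`).

The extension of the embeddings of `K` to `ℂ` is in `Extend.lean`.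

Product formula: for `α ≠ 0` in `K`, `ν = N_{K/ℚ}(α) ∈ ℚ`, `∑_i log‖Φ p i α‖ = log‖ν‖_p`
(`p`-adic norm), `∑_i log‖Ψ i α‖ = log|ν|`; if `‖ν‖_p ≤ 1` for `p ∉ S`, then
`log|ν| + ∑_{p ∈ S} log‖ν‖_p = -∑_{p ∉ S} log‖ν‖_p ≥ 0`: write `ν = a / b` in lowest terms, the primes
dividing `b` are in `S`; `|a| = ∏_p p^{v_p(a)}` etc.
-/

namespace Pool.Agent.ZPS

open Pool.Agent.Hhelper14.ZP

namespace PlacesAux

theorem log_norm_nat (p : Nat.Primes) {k : ℕ} (hk : k ≠ 0) :
    Real.log ‖((k : ℕ) : ℚ_[p])‖ = -(k.factorization p * Real.log p) := by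
  have h1 : ((k : ℕ) : ℚ_[p]) = ((k : ℚ) : ℚ_[p]) := by push_cast; rfl
  have hk' : (k : ℚ) ≠ 0 := by exact_mod_cast hk
  rw [h1, Padic.eq_padicNorm, padicNorm.eq_zpow_of_nonzero hk', padicValRat.of_nat, Rat.cast_zpow,
    Rat.cast_natCast, Real.log_zpow, Nat.factorization_def k p.2, Int.cast_neg, Int.cast_natCast]
  ring

theorem sum_log_eq {k : ℕ} :
    Real.log k = ∑ p ∈ k.primeFactors, (k.factorization p : ℝ) * Real.log p := by
  rw [Real.log_nat_eq_sum_factorization, Finsupp.sum, Nat.support_factorization]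

/-- the coercion as an embedding -/
def coePrimes : Nat.Primes ↪ ℕ := ⟨fun p => (p : ℕ), fun _ _ h => Subtype.ext h⟩

theorem sum_nat_le {k : ℕ} (S : Finset Nat.Primes) :
    ∑ p ∈ S, (k.factorization p : ℝ) * Real.log p ≤ Real.log k := by
  classical
  have h1 : ∑ p ∈ S, (k.factorization p : ℝ) * Real.log p =
      ∑ q ∈ S.map coePrimes, (k.factorization q : ℝ) * Real.log q := by
    rw [Finset.sum_map]
    rfl
  rw [h1, sum_log_eq]
  have hnn : ∀ q : ℕ, 0 ≤ (k.factorization q : ℝ) * Real.log q := fun q =>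
    mul_nonneg (Nat.cast_nonneg _) (Real.log_natCast_nonneg _)
  calc ∑ q ∈ S.map coePrimes, (k.factorization q : ℝ) * Real.log q
      = ∑ q ∈ (S.map coePrimes).filter (fun q => q ∈ k.primeFactors),
          (k.factorization q : ℝ) * Real.log q := by
        rw [Finset.sum_filter]
        refine Finset.sum_congr rfl fun q _ => ?_
        split_ifs with h
        · rfl
        · have h2 : k.factorization q = 0 := by
            rw [← Finsupp.notMem_support_iff, Nat.support_factorization]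
            exact h
          rw [h2, Nat.cast_zero, zero_mul]
    _ ≤ ∑ p ∈ k.primeFactors, (k.factorization p : ℝ) * Real.log p := by
        apply Finset.sum_le_sum_of_subset_of_nonneg
        · intro q hq
          exact (Finset.mem_filter.mp hq).2
        · intro q _ _
          exact hnn q

theorem sum_nat_eq {k : ℕ} (S : Finset Nat.Primes)
    (hS : ∀ p : Nat.Primes, (p : ℕ) ∣ k → p ∈ S) :
    ∑ p ∈ S, (k.factorization p : ℝ) * Real.log p = Real.log k := by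
  classical
  have h1 : ∑ p ∈ S, (k.factorization p : ℝ) * Real.log p =
      ∑ q ∈ S.map coePrimes, (k.factorization q : ℝ) * Real.log q := by
    rw [Finset.sum_map]
    rfl
  rw [h1, sum_log_eq]
  symm
  apply Finset.sum_subset
  · intro q hq
    rw [Finset.mem_map]
    have hq1 := Nat.prime_of_mem_primeFactors hq
    exact ⟨⟨q, hq1⟩, hS ⟨q, hq1⟩ (Nat.dvd_of_mem_primeFactors hq), rfl⟩
  · intro q _ hq
    have h2 : k.factorization q = 0 := by
      rw [← Finsupp.notMem_support_iff, Nat.support_factorization]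
      exact hq
    rw [h2, Nat.cast_zero, zero_mul]

theorem log_norm_rat (p : Nat.Primes) {ν : ℚ} (hν : ν ≠ 0) :
    Real.log ‖(ν : ℚ_[p])‖ = -((ν.num.natAbs).factorization p * Real.log p) +
      (ν.den.factorization p * Real.log p) := by
  have h1 : (ν : ℚ_[p]) = (ν.num : ℚ_[p]) / (ν.den : ℚ_[p]) := by
    rw [← Rat.cast_def]
  have h2 : ‖(ν.num : ℚ_[p])‖ = ‖((ν.num.natAbs : ℕ) : ℚ_[p])‖ := by
    obtain ⟨a, ha | ha⟩ := ν.num.eq_nat_or_neg
    · rw [ha]; simp
    · rw [ha]; simp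
  have h3 : ν.num.natAbs ≠ 0 := by
    rw [Int.natAbs_ne_zero]
    exact Rat.num_ne_zero.mpr hν
  have h4 : ((ν.num.natAbs : ℕ) : ℚ_[p]) ≠ 0 := by exact_mod_cast h3
  have h5 : ((ν.den : ℕ) : ℚ_[p]) ≠ 0 := by exact_mod_cast ν.den_nz
  rw [h1, norm_div, h2, Real.log_div (norm_ne_zero_iff.mpr h4) (norm_ne_zero_iff.mpr h5),
    log_norm_nat p h3, log_norm_nat p ν.den_nz]
  ring

theorem norm_rat_eq (p : Nat.Primes) (ν : ℚ) :
    ‖(algebraMap ℚ (PadicComplex p) ν)‖ = ‖(ν : ℚ_[p])‖ := by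
  rw [eq_ratCast, Rat.cast_def, Rat.cast_def, norm_div, norm_div, norm_intCast_eq, norm_natCast_eq]

end PlacesAux

open PlacesAux

/-- the product formula over `ℚ`, as an inequality -/
theorem rat_product {ν : ℚ} (hν : ν ≠ 0) (S : Finset Nat.Primes)
    (hS : ∀ p : Nat.Primes, p ∉ S → ‖(ν : ℚ_[p])‖ ≤ 1) :
    0 ≤ ∑ p ∈ S, Real.log ‖(ν : ℚ_[p])‖ + Real.log |(ν : ℝ)| := by
  have h3 : ν.num.natAbs ≠ 0 := by
    rw [Int.natAbs_ne_zero]
    exact Rat.num_ne_zero.mpr hν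
  have hden : ∀ p : Nat.Primes, (p : ℕ) ∣ ν.den → p ∈ S := by
    intro p hp
    by_contra hpS
    have h1 := hS p hpS
    have h2 := log_norm_rat p hν
    have h4 : ν.num.natAbs.factorization p = 0 := by
      apply Nat.factorization_eq_zero_of_not_dvd
      intro hd
      have h5 := Nat.dvd_gcd hd hp
      rw [Nat.Coprime.gcd_eq_one ν.reduced] at h5
      exact p.2.one_lt.ne' (Nat.dvd_one.mp h5)
    have h6 : 0 < ν.den.factorization p := p.2.factorization_pos_of_dvd ν.den_nz hp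
    have h7 : 0 < Real.log ‖(ν : ℚ_[p])‖ := by
      rw [h2, h4]
      have h8 : 0 < Real.log (p : ℕ) := Real.log_pos (by exact_mod_cast p.2.one_lt)
      have h9 : (0 : ℝ) < ν.den.factorization p := by exact_mod_cast h6
      push_cast
      have := mul_pos h9 h8
      linarith
    have h10 := Real.log_nonpos (norm_nonneg _) h1
    linarith
  have h4 : Real.log |(ν : ℝ)| = Real.log (ν.num.natAbs : ℕ) - Real.log (ν.den : ℕ) := by
    have h5 : |(ν : ℝ)| = ((ν.num.natAbs : ℕ) : ℝ) / ((ν.den : ℕ) : ℝ) := by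
      rw [Rat.cast_def, abs_div, Nat.abs_cast, Nat.cast_natAbs]
      push_cast
      rfl
    rw [h5, Real.log_div]
    · exact_mod_cast h3
    · exact_mod_cast ν.den_nz
  have h5 : ∑ p ∈ S, Real.log ‖(ν : ℚ_[p])‖ =
      -(∑ p ∈ S, (ν.num.natAbs.factorization p : ℝ) * Real.log p) +
        ∑ p ∈ S, (ν.den.factorization p : ℝ) * Real.log p := by
    rw [← Finset.sum_neg_distrib, ← Finset.sum_add_distrib]
    exact Finset.sum_congr rfl fun p _ => log_norm_rat p hν
  rw [h5, h4, sum_nat_eq S hden]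
  have h6 := sum_nat_le (k := ν.num.natAbs) S
  linarith

theorem exists_places (T : Finset ℂ) (hT : ∀ α ∈ T, IsAlgebraic ℚ α) :
    ∃ (m : ℕ) (_ : 0 < m) (Φ : ∀ p : Nat.Primes, Fin m → (ℂ →+* PadicComplex p))
      (Ψ : Fin m → (ℂ →+* ℂ)), ∀ α ∈ T, α ≠ 0 → ∀ S : Finset Nat.Primes,
        (∀ p : Nat.Primes, p ∉ S → ∀ i, ‖Φ p i α‖ ≤ 1) →
          0 ≤ ∑ p ∈ S, ∑ i, Real.log ‖Φ p i α‖ + ∑ i, Real.log ‖Ψ i α‖ := by
  classical
  let K : IntermediateField ℚ ℂ := IntermediateField.adjoin ℚ (T : Set ℂ)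
  have hfd : FiniteDimensional ℚ K :=
    IntermediateField.finiteDimensional_adjoin fun x hx => (hT x hx).isIntegral
  have hp : ∀ p : Nat.Primes, ∃ Φ : Fin (Module.finrank ℚ K) → (ℂ →+* PadicComplex p),
      ∀ x : K, ∏ i, Φ i x = algebraMap ℚ (PadicComplex p) (Algebra.norm ℚ x) := by
    intro p
    have hcard : Fintype.card (K →ₐ[ℚ] PadicComplex p) = Module.finrank ℚ K :=
      AlgHom.card ℚ K (PadicComplex p)
    let e := (Fintype.equivFinOfCardEq hcard).symm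
    have hext := fun i => extend_padic (p : ℕ) K ((e i : K →ₐ[ℚ] PadicComplex p) : K →+* PadicComplex p)
    choose ψ hψ using hext
    refine ⟨ψ, fun x => ?_⟩
    rw [Algebra.norm_eq_prod_embeddings ℚ (PadicComplex p) x]
    rw [← Equiv.prod_comp e]
    refine Finset.prod_congr rfl fun i _ => ?_
    exact hψ i x
  have hi : ∃ Ψ : Fin (Module.finrank ℚ K) → (ℂ →+* ℂ),
      ∀ x : K, ∏ i, Ψ i x = algebraMap ℚ ℂ (Algebra.norm ℚ x) := by
    have hcard : Fintype.card (K →ₐ[ℚ] ℂ) = Module.finrank ℚ K := AlgHom.card ℚ K ℂ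
    let e := (Fintype.equivFinOfCardEq hcard).symm
    have hext := fun i => extend_complex K ((e i : K →ₐ[ℚ] ℂ) : K →+* ℂ)
    choose ψ hψ using hext
    refine ⟨ψ, fun x => ?_⟩
    rw [Algebra.norm_eq_prod_embeddings ℚ ℂ x]
    rw [← Equiv.prod_comp e]
    refine Finset.prod_congr rfl fun i _ => ?_
    exact hψ i x
  choose Φ hΦ using hp
  obtain ⟨Ψ, hΨ⟩ := hi
  refine ⟨Module.finrank ℚ K, Module.finrank_pos, Φ, Ψ, fun α hα hα0 S hS => ?_⟩
  have hαK : α ∈ K := IntermediateField.subset_adjoin ℚ _ hα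
  let x : K := ⟨α, hαK⟩
  have hx0 : x ≠ 0 := fun h => hα0 (congrArg Subtype.val h)
  have hν : Algebra.norm ℚ x ≠ 0 := by
    rw [Algebra.norm_ne_zero_iff]
    exact hx0
  have h1 : ∀ p : Nat.Primes, ∏ i, ‖Φ p i α‖ = ‖((Algebra.norm ℚ x : ℚ) : ℚ_[p])‖ := by
    intro p
    rw [← norm_rat_eq, ← hΦ p x, norm_prod]
  have h2 : ∏ i, ‖Ψ i α‖ = |((Algebra.norm ℚ x : ℚ) : ℝ)| := by
    rw [← norm_prod]
    have h3 := hΨ x
    have h4 : ∏ i, (Ψ i) α = ∏ i, (Ψ i) (x : ℂ) := rfl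
    rw [h4, h3, eq_ratCast, ← Complex.ofReal_ratCast, Complex.norm_real, Real.norm_eq_abs]
  have h3 : ∀ p : Nat.Primes, ∑ i, Real.log ‖Φ p i α‖ =
      Real.log ‖((Algebra.norm ℚ x : ℚ) : ℚ_[p])‖ := by
    intro p
    rw [← h1 p, Real.log_prod]
    intro i _
    exact norm_ne_zero_iff.mpr ((map_ne_zero _).mpr hα0)
  have h4 : ∑ i, Real.log ‖Ψ i α‖ = Real.log |((Algebra.norm ℚ x : ℚ) : ℝ)| := by
    rw [← h2, Real.log_prod]
    intro i _
    exact norm_ne_zero_iff.mpr ((map_ne_zero _).mpr hα0)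
  rw [h4]
  simp only [h3]
  apply rat_product hν S
  intro p hpS
  rw [← h1 p]
  exact Finset.prod_le_one (fun i _ => norm_nonneg _) fun i _ => hS p hpS i

/-- algebraic numbers are integral outside finitely many primes -/
theorem exists_bad_primes (T : Finset ℂ) (hT : ∀ α ∈ T, IsAlgebraic ℚ α) :
    ∃ S : Finset Nat.Primes, ∀ p : Nat.Primes, p ∉ S → ∀ (φ : ℂ →+* PadicComplex p),
      ∀ α ∈ T, ‖φ α‖ ≤ 1 := by
  classical
  have h1 : ∀ α : ℂ, ∃ c : ℤ, α ∈ T → c ≠ 0 ∧ IsIntegral ℤ (c • α) := by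
    intro α
    by_cases hα : α ∈ T
    · have h2 : IsAlgebraic ℤ α := (IsFractionRing.isAlgebraic_iff ℤ ℚ ℂ).mpr (hT α hα)
      obtain ⟨c, hc, hc2⟩ := h2.exists_integral_multiple
      exact ⟨c, fun _ => ⟨hc, hc2⟩⟩
    · exact ⟨0, fun h => absurd h hα⟩
  choose c hc using h1
  let P : ℕ := ∏ α ∈ T, (c α).natAbs
  have hP : P ≠ 0 := Finset.prod_ne_zero_iff.mpr fun α hα => Int.natAbs_ne_zero.mpr (hc α hα).1
  have hfin : {p : Nat.Primes | (p : ℕ) ∣ P}.Finite := by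
    apply Set.Finite.of_injOn (t := {q : ℕ | q ∣ P}) (f := fun p : Nat.Primes => (p : ℕ))
    · intro p hp
      exact hp
    · intro p _ q _ h
      exact Subtype.ext h
    · exact (Nat.divisors P).finite_toSet.subset fun q hq => by
        rw [Finset.mem_coe, Nat.mem_divisors]
        exact ⟨hq, hP⟩
  refine ⟨hfin.toFinset, fun p hp φ α hα => ?_⟩
  have hp' : ¬ (p : ℕ) ∣ P := by
    intro h
    exact hp (hfin.mem_toFinset.mpr h)
  have hpc : ¬ (p : ℕ) ∣ (c α).natAbs := fun h => hp' (h.trans (Finset.dvd_prod_of_mem _ hα))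
  have h3 : ‖((c α : ℤ) : PadicComplex p)‖ = 1 := by
    rw [norm_intCast_eq]
    refine le_antisymm (Padic.norm_int_le_one _) ?_
    by_contra hlt
    rw [not_le] at hlt
    have h4 := Padic.norm_intCast_lt_one_iff.mp hlt
    exact hpc (Int.natCast_dvd.mp h4)
  have h5 : ‖φ ((c α) • α)‖ ≤ 1 := norm_OO_le norm_intCast_le φ (hc α hα).2
  rw [zsmul_eq_mul, map_mul, map_intCast, norm_mul, h3, one_mul] at h5
  exact h5

end Pool.Agent.ZPS
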