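import Pool.Agent.ZPS.PointDefs
import Pool.Agent.ZPS.Comparison
import Pool.Agent.ZPS.Places
import Pool.Agent.ZPS.Local
import Pool.Agent.ZPS.Core

/-!
# ZPS module 18: application of the abstract inequality
-/

namespace Pool.Agent.ZPS

open UpperHalfPlane Pool.Agent.Hhelper14.ZP

variable {n d : ℕ}

namespace CoreApplyAux

theorem posLog_eq_log {x : ℝ} (hx : 1 ≤ x) : Real.posLog x = Real.log x := by
  show max 0 (Real.log x) = Real.log x
  exact max_eq_right (Real.log_nonneg hx)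

theorem one_lt_of_posLog {x : ℝ} (hx : 0 ≤ x) (h : 0 < Real.posLog x) : 1 < x := by
  replace h : 0 < max 0 (Real.log x) := h
  have h1 : 0 < Real.log x := by
    rcases lt_max_iff.mp h with h2 | h2
    · exact absurd h2 (lt_irrefl _)
    · exact h2
  by_contra hle
  rw [not_lt] at hle
  exact absurd (Real.log_nonpos hx hle) (not_le.mpr h1)

theorem posLog_eq_zero {x : ℝ} (hx : 0 ≤ x) (h : x ≤ 1) : Real.posLog x = 0 := by
  show max 0 (Real.log x) = 0
  exact max_eq_left (Real.log_nonpos hx h)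

theorem log_max_one {x : ℝ} (hx : 0 ≤ x) : Real.log (max 1 x) = Real.posLog x := by
  rcases le_total 1 x with h | h
  · rw [max_eq_right h, posLog_eq_log h]
  · rw [max_eq_left h, posLog_eq_zero hx h, Real.log_one]

theorem log_le_of_mul_le {D x y : ℝ} (hD : 0 < D) (hx : 0 ≤ x) (hy : 0 ≤ y)
    (h : D * max 1 y ≤ max 1 x) : Real.log D ≤ Real.posLog x - Real.posLog y := by
  have h1 : 0 < max 1 y := lt_of_lt_of_le one_pos (le_max_left _ _)
  have h2 := Real.log_le_log (mul_pos hD h1) h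
  rw [Real.log_mul hD.ne' h1.ne', log_max_one hx, log_max_one hy] at h2
  linarith

theorem sum_places {S : Finset Nat.Primes} {m : ℕ} (F : Nat.Primes → Fin m → ℝ) :
    ∑ v : {p // p ∈ S} × Fin m, F v.1 v.2 = ∑ p ∈ S, ∑ j, F p j := by
  rw [Fintype.sum_prod_type, ← Finset.sum_coe_sort S]

end CoreApplyAux

open CoreApplyAux

/-- **Step 2.** For a prime `q` all of whose places are nonrigid, `core` applies.

Proof. Let `X : PtData n r`. For each pair `(i,k)` in the same block, `exists_chain` gives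
`y i k a` (`a ∣ N i k`), with `y i k a = jA _ (A_a) (t i)`, and `exists_comparison` for `A_a` and `t i`
gives `Dd i k a ≠ 0`. Let `T` be the finite set of all `x i`, `y i k a`, `Dd i k a` (`a ∣ N i k`,
same-block pairs), all algebraic (`algebraic_jA`). `exists_places` for `T` gives `m', Φ, Ψ`;
`exists_bad_primes` gives `S`; enlarge `S` by `q`. Put `Vf = S × Fin m'`, `Vi = Fin m'`,
`Vp = {(q, ·)}`, `l i (p,j) = log⁺‖Φ p j (x i)‖`, `lam i j = log⁺‖Ψ j (x i)‖`, `La`, `Mu` the maxima,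
`Nn = N`, `Lf i k a = log⁺‖Φ (y i k a)‖` (`0` if `a ∤ N i k`), the same for `Li`; `Rv (p,j) = R_p` from `L1_padic`
(`b = u/m`), `R = max (∑_{p : R_p ≠ 0} R_p) (the constant of L1_arch)`. `hH`: the product formula
for `Dd i k a` with `log‖φ D‖ ≤ log⁺‖φ x_i‖ - log⁺‖φ y‖` (finite places) and
`log‖σ D‖ ≤ log⁺‖σ x_i‖ - log⁺‖σ y‖/2 + 6 log a + C`. `hTf`: the chain at `φ`; `l i v > 0` iff
`‖φ x_i‖ > 1`. `C` = the maximum of the constants of `exists_chain` and `exists_comparison`.
`hL1f`, `hL1i`: `L1_padic`, `L1_arch` (`Holds.map`). -/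
theorem core_apply (A : GPData n d) (hd : 1 ≤ d) (u : Fin n → ℤ) {m : ℕ} (hm : 0 < m)
    {κ : ℝ} (hκ : (n : ℝ) ^ 2 * (16 * Real.pi + 1) ≤ κ) :
    ∃ N₂ : ℕ, ∀ (r : ℕ) (X : PtData n r), r + d + 1 ≤ n → r + 2 * d ≤ n + 1 →
      A.Holds (fun i => X.x i - (u i : ℂ) / m) → ∀ q : Nat.Primes,
      (∀ (φ : ℂ →+* PadicComplex q) (Λ : ℝ), (∀ i, Real.posLog ‖φ (X.x i)‖ ≤ Λ) →
        (∃ i, Real.posLog ‖φ (X.x i)‖ = Λ) →
          κ ≤ Λ ∧ (Finset.univ.filter fun i => Real.posLog ‖φ (X.x i)‖ < Λ).card < d) →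
      ∃ i k, i ≠ k ∧ X.block i = X.block k ∧ X.block i ≠ none ∧ X.N i k ≤ N₂ := by
  classical
  obtain ⟨C1, hC1, hchain⟩ := exists_chain
  obtain ⟨C2, hC2, hcomp⟩ := exists_comparison
  obtain ⟨Rp, hRp0, hRpf, hL1p⟩ := L1_padic A (fun i => (u i : ℚ) / (m : ℚ))
  obtain ⟨Ra, hRa0, hL1a⟩ := L1_arch A (fun i => (u i : ℚ) / (m : ℚ))
  set R : ℝ := ∑ p ∈ hRpf.toFinset, Rp p + Ra with hR
  have hRs0 : 0 ≤ ∑ p ∈ hRpf.toFinset, Rp p := Finset.sum_nonneg fun p _ => hRp0 p
  have hR0 : 0 ≤ R := by linarith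
  set C : ℝ := C1 + C2 with hC
  have hC0 : 0 ≤ C := by linarith
  have hex : ∀ r : ℕ, ∃ N₂ : ℕ, r + d + 1 ≤ n → r + 2 * d ≤ n + 1 →
      ∀ X : CoreData n r d R C κ, ∃ i k, X.SB i k ∧ X.Nn i k ≤ N₂ := by
    intro r
    by_cases h1 : r + d + 1 ≤ n
    · by_cases h2 : r + 2 * d ≤ n + 1
      · obtain ⟨N₂, h⟩ := core hd h1 h2 hR0 hC0 hκ
        exact ⟨N₂, fun _ _ => h⟩
      · exact ⟨0, fun _ h => absurd h h2⟩
    · exact ⟨0, fun h => absurd h h1⟩
  choose NN hNN using hex
  refine ⟨∑ r ∈ Finset.range (n + 1), NN r, fun r X hr1 hr2 hH q hq => ?_⟩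
  have hn : 0 < n := by omega
  have hle : NN r ≤ ∑ r ∈ Finset.range (n + 1), NN r :=
    Finset.single_le_sum (f := NN) (fun _ _ => Nat.zero_le _) (Finset.mem_range.mpr (by omega))
  -- the chains
  choose y hy1 hy2 hy3 using fun i k => hchain (X.N i k) (X.hN i k) (X.M i k) (X.hM i k) (X.t i)
  -- the comparison functions
  have hDex : ∀ i k (a : ℕ), ∃ D : ℂ, 0 < a → a ∣ X.N i k → D ≠ 0 ∧
      (IsAlgebraic ℚ (jInv (X.t i)) → IsAlgebraic ℚ D ∧ IsAlgebraic ℚ (y i k a)) ∧
      (∀ (p : ℕ) [Fact p.Prime] (φ : ℂ →+* PadicComplex p),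
        ‖φ D‖ * max 1 ‖φ (y i k a)‖ ≤ max 1 ‖φ (jInv (X.t i))‖) ∧
      ∀ σ : ℂ →+* ℂ, Real.log ‖σ D‖ + Real.posLog ‖σ (y i k a)‖ / 2 ≤
        Real.posLog ‖σ (jInv (X.t i))‖ + 6 * Real.log a + C2 := by
    intro i k a
    by_cases h : 0 < a ∧ a ∣ X.N i k
    · obtain ⟨B, hB⟩ := hy1 i k a h.1 h.2
      obtain ⟨D, hD0, hDalg, hDp, hDa⟩ := hcomp a h.1 B (X.t i)
      refine ⟨D, fun _ _ => ⟨hD0, fun halg => ⟨hDalg halg, ?_⟩, ?_, ?_⟩⟩
      · rw [hB]
        exact algebraic_jA h.1 B halg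
      · intro p _ φ
        rw [hB]
        exact hDp p φ
      · intro σ
        rw [hB]
        exact hDa σ
    · exact ⟨0, fun h1 h2 => absurd ⟨h1, h2⟩ h⟩
  choose D hD using hDex
  -- the finite set of numbers
  let P : Finset (Fin n × Fin n) :=
    Finset.univ.filter fun q => X.block q.1 = X.block q.2 ∧ X.block q.1 ≠ none
  let T : Finset ℂ := Finset.univ.image X.x ∪ P.biUnion fun q =>
    (X.N q.1 q.2).divisors.image (D q.1 q.2)
  have hTx : ∀ i, X.x i ∈ T := fun i =>
    Finset.mem_union_left _ (Finset.mem_image_of_mem _ (Finset.mem_univ i))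
  have hTD : ∀ i k, X.block i = X.block k → X.block i ≠ none → ∀ a, a ∣ X.N i k → D i k a ∈ T := by
    intro i k h1 h2 a ha
    apply Finset.mem_union_right
    rw [Finset.mem_biUnion]
    refine ⟨(i, k), Finset.mem_filter.mpr ⟨Finset.mem_univ _, h1, h2⟩, ?_⟩
    exact Finset.mem_image_of_mem _ (Nat.mem_divisors.mpr ⟨ha, (X.hN i k).ne'⟩)
  have hTalg : ∀ α ∈ T, IsAlgebraic ℚ α := by
    intro α hα
    rcases Finset.mem_union.mp hα with h | h
    · obtain ⟨i, _, rfl⟩ := Finset.mem_image.mp h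
      exact X.hx i
    · rw [Finset.mem_biUnion] at h
      obtain ⟨⟨i, k⟩, hq1, hq2⟩ := h
      obtain ⟨a, ha, rfl⟩ := Finset.mem_image.mp hq2
      have h1 := (Finset.mem_filter.mp hq1).2
      have ha' := (Nat.mem_divisors.mp ha).1
      have ha0 : 0 < a := Nat.pos_of_mem_divisors ha
      refine ((hD i k a ha0 ha').2.1 ?_).1
      have := X.ht i h1.2
      rw [← this]
      exact X.hx i
  obtain ⟨m', hm', Φ, Ψ, hprod⟩ := exists_places T hTalg
  obtain ⟨S0, hS0⟩ := exists_bad_primes T hTalg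
  let S : Finset Nat.Primes := insert q S0
  have hqS : q ∈ S := Finset.mem_insert_self _ _
  have hne : (Finset.univ : Finset (Fin n)).Nonempty := ⟨⟨0, hn⟩, Finset.mem_univ _⟩
  have hHol : ∀ {F : Type} [Field F] [Algebra ℚ F] (φ : ℂ →+* F) [CharZero F],
      A.Holds (fun i => φ (X.x i) - (((u i : ℚ) / (m : ℚ) : ℚ) : F)) := by
    intro F _ _ φ _
    have h := hH.map φ
    have h2 : (fun i => φ (X.x i - (u i : ℂ) / m)) =
        fun i => φ (X.x i) - (((u i : ℚ) / (m : ℚ) : ℚ) : F) := by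
      funext i
      rw [map_sub, map_div₀, map_intCast, map_natCast]
      push_cast
      rfl
    rwa [h2] at h
  let Y : CoreData n r d R C κ :=
    { m := m'
      hm := hm'
      Vf := {p // p ∈ S} × Fin m'
      Vi := Fin m'
      fVf := inferInstance
      fVi := inferInstance
      hVi := Fintype.card_fin m'
      Vp := Finset.univ.map ⟨fun j => ((⟨q, hqS⟩, j) : {p // p ∈ S} × Fin m'),
        fun _ _ h => (Prod.mk.inj h).2⟩
      hVp := by rw [Finset.card_map, Finset.card_univ, Fintype.card_fin]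
      block := X.block
      l := fun i v => Real.posLog ‖Φ v.1 v.2 (X.x i)‖
      lam := fun i j => Real.posLog ‖Ψ j (X.x i)‖
      hl := fun i v => Real.posLog_nonneg
      hlam := fun i v => Real.posLog_nonneg
      La := fun v => Finset.univ.sup' hne fun i => Real.posLog ‖Φ v.1 v.2 (X.x i)‖
      hLa := fun i v => Finset.le_sup' (fun i => Real.posLog ‖Φ v.1 v.2 (X.x i)‖) (Finset.mem_univ i)
      hLa' := fun v => by
        obtain ⟨i, _, hi⟩ := Finset.exists_mem_eq_sup' hne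
          (fun i => Real.posLog ‖Φ v.1 v.2 (X.x i)‖)
        exact ⟨i, hi.symm⟩
      Mu := fun j => Finset.univ.sup' hne fun i => Real.posLog ‖Ψ j (X.x i)‖
      hMu := fun i j => Finset.le_sup' (fun i => Real.posLog ‖Ψ j (X.x i)‖) (Finset.mem_univ i)
      hMu' := fun j => by
        obtain ⟨i, _, hi⟩ := Finset.exists_mem_eq_sup' hne (fun i => Real.posLog ‖Ψ j (X.x i)‖)
        exact ⟨i, hi.symm⟩
      Nn := X.N
      Lf := fun i k a v => Real.posLog ‖Φ v.1 v.2 (y i k a)‖
      Li := fun i k a j => Real.posLog ‖Ψ j (y i k a)‖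
      hLf := fun _ _ _ _ => Real.posLog_nonneg
      hLi := fun _ _ _ _ => Real.posLog_nonneg
      Rv := fun v => Rp v.1
      hRv := fun v => hRp0 _
      hRs := by
        rw [sum_places (fun p _ => Rp p)]
        simp only [Finset.sum_const, Finset.card_univ, Fintype.card_fin, nsmul_eq_mul]
        rw [← Finset.mul_sum]
        apply mul_le_mul_of_nonneg_left _ (Nat.cast_nonneg _)
        have h1 : ∑ p ∈ S, Rp p ≤ ∑ p ∈ hRpf.toFinset, Rp p := by
          calc ∑ p ∈ S, Rp p = ∑ p ∈ S.filter (fun p => p ∈ hRpf.toFinset), Rp p := by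
                rw [Finset.sum_filter]
                refine Finset.sum_congr rfl fun p _ => ?_
                split_ifs with h
                · rfl
                · by_contra hne
                  exact h (hRpf.mem_toFinset.mpr hne)
            _ ≤ _ := Finset.sum_le_sum_of_subset_of_nonneg
                (fun p hp => (Finset.mem_filter.mp hp).2) fun p _ _ => hRp0 p
        linarith
      hJ := fun i hi v => posLog_eq_zero (norm_nonneg _)
        (norm_OO_le norm_intCast_le (Φ v.1 v.2) (X.hnone i hi))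
      hL1f := fun v hv => by
        refine hL1p v.1 (fun i => Φ v.1 v.2 (X.x i)) (hHol (Φ v.1 v.2)) _
          (fun i => Finset.le_sup' (fun i => Real.posLog ‖Φ v.1 v.2 (X.x i)‖) (Finset.mem_univ i))
          ?_ hv
        obtain ⟨i, _, hi⟩ := Finset.exists_mem_eq_sup' hne
          (fun i => Real.posLog ‖Φ v.1 v.2 (X.x i)‖)
        exact ⟨i, hi.symm⟩
      hL1i := fun j hj => by
        refine hL1a (fun i => Ψ j (X.x i)) (hHol (Ψ j)) _
          (fun i => Finset.le_sup' (fun i => Real.posLog ‖Ψ j (X.x i)‖) (Finset.mem_univ i))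
          ?_ (lt_of_le_of_lt (by linarith) hj)
        obtain ⟨i, _, hi⟩ := Finset.exists_mem_eq_sup' hne (fun i => Real.posLog ‖Ψ j (X.x i)‖)
        exact ⟨i, hi.symm⟩
      hTf := fun i k hik hb hnn v hv => by
        have hxi := X.ht i hnn
        have hxk := X.hk i k hb hnn
        have h1 : 1 < ‖Φ v.1 v.2 (jInv (X.t i))‖ := by
          rw [← hxi]
          exact one_lt_of_posLog (norm_nonneg _) hv
        obtain ⟨a, e, ha, he, hae, h2, h3, _⟩ := hy2 i k (v.1 : Nat.Primes) (Φ v.1 v.2) h1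
        rw [← hxi, ← hxk] at h2
        rw [← hxi] at h1 h3
        have h4 : 1 < ‖Φ v.1 v.2 (X.x k)‖ := by
          by_contra hle
          rw [not_lt] at hle
          have h5 := pow_le_one₀ (n := e) (norm_nonneg _) hle
          rw [h2] at h5
          exact absurd (one_lt_pow₀ h1 ha.ne') (not_lt.mpr h5)
        refine ⟨a, e, ha, he, hae, ?_, ?_⟩
        · show (e : ℝ) * Real.posLog ‖Φ v.1 v.2 (X.x k)‖ = a * Real.posLog ‖Φ v.1 v.2 (X.x i)‖
          rw [posLog_eq_log h4.le, posLog_eq_log h1.le, ← Real.log_pow, ← Real.log_pow, h2]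
        · show Real.posLog ‖Φ v.1 v.2 (y i k a)‖ = a * Real.posLog ‖Φ v.1 v.2 (X.x i)‖
          rw [h3, posLog_eq_log (one_le_pow₀ h1.le), posLog_eq_log h1.le, Real.log_pow]
      hTi := fun i k hik hb hnn j h1 h2 h3 h4 => by
        have hxi := X.ht i hnn
        have hxk := X.hk i k hb hnn
        have h5 := hy3 i k (Ψ j)
        rw [← hxi, ← hxk] at h5
        rcases h5 (by linarith) (by linarith) h3 h4 with h6 | ⟨a, h6, h7, h8, h9⟩
        · exact Or.inl h6
        · exact Or.inr ⟨a, h6, h7, h8, by linarith⟩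
      hH := fun i k hik hb hnn => by
        refine ⟨X.hN i k, fun a ha hak => ?_⟩
        have hxi := X.ht i hnn
        obtain ⟨hD0, _, hDp, hDa⟩ := hD i k a ha hak
        have hDT := hTD i k hb hnn a hak
        have h1 := hprod (D i k a) hDT hD0 S (fun p hp j =>
          hS0 p (fun h => hp (Finset.mem_insert_of_mem h)) (Φ p j) _ hDT)
        have h2 : ∀ p j, Real.log ‖Φ p j (D i k a)‖ ≤
            Real.posLog ‖Φ p j (X.x i)‖ - Real.posLog ‖Φ p j (y i k a)‖ := by
          intro p j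
          have h3 := hDp p (Φ p j)
          rw [← hxi] at h3
          exact log_le_of_mul_le (norm_pos_iff.mpr ((map_ne_zero _).mpr hD0)) (norm_nonneg _)
            (norm_nonneg _) h3
        have h4 : ∑ p ∈ S, ∑ j, Real.log ‖Φ p j (D i k a)‖ ≤
            ∑ p ∈ S, ∑ j, Real.posLog ‖Φ p j (X.x i)‖ -
              ∑ p ∈ S, ∑ j, Real.posLog ‖Φ p j (y i k a)‖ := by
          rw [← Finset.sum_sub_distrib]
          refine Finset.sum_le_sum fun p _ => ?_
          rw [← Finset.sum_sub_distrib]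
          exact Finset.sum_le_sum fun j _ => h2 p j
        have h5 : ∑ j, Real.log ‖Ψ j (D i k a)‖ ≤
            ∑ j, Real.posLog ‖Ψ j (X.x i)‖ - (∑ j, Real.posLog ‖Ψ j (y i k a)‖) / 2 +
              m' * (6 * Real.log a + C) := by
          have h6 : ∀ j, Real.log ‖Ψ j (D i k a)‖ ≤ Real.posLog ‖Ψ j (X.x i)‖ -
              Real.posLog ‖Ψ j (y i k a)‖ / 2 + (6 * Real.log a + C) := by
            intro j
            have h7 := hDa (Ψ j)
            rw [← hxi] at h7
            linarith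
          calc ∑ j, Real.log ‖Ψ j (D i k a)‖ ≤ ∑ j, (Real.posLog ‖Ψ j (X.x i)‖ -
              Real.posLog ‖Ψ j (y i k a)‖ / 2 + (6 * Real.log a + C)) :=
                Finset.sum_le_sum fun j _ => h6 j
            _ = _ := by
                rw [Finset.sum_add_distrib, Finset.sum_sub_distrib, Finset.sum_const,
                  Finset.card_univ, Fintype.card_fin, nsmul_eq_mul, Finset.sum_div]
        show ∑ v : {p // p ∈ S} × Fin m', Real.posLog ‖Φ v.1 v.2 (y i k a)‖ +
            (∑ j, Real.posLog ‖Ψ j (y i k a)‖) / 2 ≤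
          ∑ v : {p // p ∈ S} × Fin m', Real.posLog ‖Φ v.1 v.2 (X.x i)‖ +
            ∑ j, Real.posLog ‖Ψ j (X.x i)‖ + m' * (6 * Real.log a + C)
        rw [sum_places (fun p j => Real.posLog ‖Φ p j (y i k a)‖),
          sum_places (fun p j => Real.posLog ‖Φ p j (X.x i)‖)]
        linarith
      hp := fun v hv => by
        obtain ⟨j, _, rfl⟩ := Finset.mem_map.mp hv
        refine hq (Φ q j) _ (fun i => Finset.le_sup' (fun i => Real.posLog ‖Φ q j (X.x i)‖)
          (Finset.mem_univ i)) ?_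
        obtain ⟨i, _, hi⟩ := Finset.exists_mem_eq_sup' hne
          (fun i => Real.posLog ‖Φ q j (X.x i)‖)
        exact ⟨i, hi.symm⟩ }
  obtain ⟨i, k, hSB, hNle⟩ := hNN r hr1 hr2 Y
  exact ⟨i, k, hSB.1, hSB.2.1, hSB.2.2, le_trans hNle hle⟩

end Pool.Agent.ZPS
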