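import Mathlib

/-!
# The abstract inequality: definitions

`Vf`, `Vi`: the finite and the archimedean places (embeddings), all of weight `1/m`; `Vp`: the places
above one prime `p`. `l i v`, `lam i v`: the numbers `log⁺‖x_i‖` at the places, `La`, `Mu` their maxima
over `i`. `block`: the block structure (`none`: algebraic integers). `Nn i k`: degree of the cyclic
isogeny between `x_i` and `x_k` (same block), `Lf i k a`, `Li i k a`: `log⁺` of the intermediate
`j`-invariant at distance `a` from `x_i`.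
-/

namespace Pool.Agent.ZPS

structure CoreData (n r d : ℕ) (R C κ : ℝ) where
  m : ℕ
  hm : 0 < m
  Vf : Type
  Vi : Type
  fVf : Fintype Vf
  fVi : Fintype Vi
  hVi : Fintype.card Vi = m
  Vp : Finset Vf
  hVp : Vp.card = m
  block : Fin n → Option (Fin r)
  l : Fin n → Vf → ℝ
  lam : Fin n → Vi → ℝ
  hl : ∀ i v, 0 ≤ l i v
  hlam : ∀ i v, 0 ≤ lam i v
  La : Vf → ℝ
  hLa : ∀ i v, l i v ≤ La v
  hLa' : ∀ v, ∃ i, l i v = La v
  Mu : Vi → ℝ
  hMu : ∀ i v, lam i v ≤ Mu v
  hMu' : ∀ v, ∃ i, lam i v = Mu v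
  Nn : Fin n → Fin n → ℕ
  Lf : Fin n → Fin n → ℕ → Vf → ℝ
  Li : Fin n → Fin n → ℕ → Vi → ℝ
  hLf : ∀ i k a v, 0 ≤ Lf i k a v
  hLi : ∀ i k a v, 0 ≤ Li i k a v
  Rv : Vf → ℝ
  hRv : ∀ v, 0 ≤ Rv v
  hRs : ∑ v, Rv v ≤ m * R
  /-- the coordinates outside the blocks are integral -/
  hJ : ∀ i, block i = none → ∀ v, l i v = 0
  /-- general position at the finite places -/
  hL1f : ∀ v, Rv v < La v → (Finset.univ.filter fun i => l i v < La v / 2).card < d
  /-- general position at the archimedean places -/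
  hL1i : ∀ v, R < Mu v → (Finset.univ.filter fun i => lam i v < Mu v / 2).card < d
  /-- isogenies at finite places -/
  hTf : ∀ i k, i ≠ k → block i = block k → block i ≠ none → ∀ v, 0 < l i v →
    ∃ a e : ℕ, 0 < a ∧ 0 < e ∧ a * e = Nn i k ∧ e * l k v = a * l i v ∧ Lf i k a v = a * l i v
  /-- isogenies at archimedean places -/
  hTi : ∀ i k, i ≠ k → block i = block k → block i ≠ none → ∀ v, C ≤ lam i v → C ≤ lam k v →
    lam i v ≤ 2 * lam k v → lam k v ≤ 2 * lam i v →
      lam i v * lam k v ≤ 16 * Real.pi ^ 2 * Nn i k ∨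
      ∃ a : ℕ, 0 < a ∧ a ∣ Nn i k ∧ Nn i k ≤ 6 * a ^ 2 ∧ a * lam i v / 2 - C ≤ Li i k a v
  /-- comparison of heights -/
  hH : ∀ i k, i ≠ k → block i = block k → block i ≠ none → 0 < Nn i k ∧ ∀ a, 0 < a → a ∣ Nn i k →
    ∑ v, Lf i k a v + (∑ v, Li i k a v) / 2 ≤
      ∑ v, l i v + ∑ v, lam i v + m * (6 * Real.log a + C)
  /-- the places above `p` -/
  hp : ∀ v ∈ Vp, κ ≤ La v ∧ (Finset.univ.filter fun i => l i v < La v).card < d

attribute [instance] CoreData.fVf CoreData.fVi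

namespace CoreData

variable {n r d : ℕ} {R C κ : ℝ} (X : CoreData n r d R C κ)

/-- `i ≠ k` in the same block -/
def SB (i k : Fin n) : Prop := i ≠ k ∧ X.block i = X.block k ∧ X.block i ≠ none

/-- `m` times the total height -/
noncomputable def H : ℝ := ∑ v, X.La v + ∑ v, X.Mu v

open Classical in
/-- finite places where `x_i` and `x_k` are comparable and nonintegral -/
noncomputable def Gf (i k : Fin n) : Finset X.Vf :=
  Finset.univ.filter fun v => 0 < X.l i v ∧ X.l i v ≤ 2 * X.l k v ∧ X.l k v ≤ 2 * X.l i v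

open Classical in
/-- archimedean places where `x_i` and `x_k` are comparable, large, and at the same cusp -/
noncomputable def Gi (i k : Fin n) : Finset X.Vi :=
  Finset.univ.filter fun v => C ≤ X.lam i v ∧ C ≤ X.lam k v ∧
    X.lam i v ≤ 2 * X.lam k v ∧ X.lam k v ≤ 2 * X.lam i v ∧
    ∃ a : ℕ, 0 < a ∧ a ∣ X.Nn i k ∧ X.Nn i k ≤ 6 * a ^ 2 ∧ a * X.lam i v / 2 - C ≤ X.Li i k a v

open Classical in
/-- the bad archimedean places -/
noncomputable def bad : Finset X.Vi :=
  Finset.univ.filter fun v => max R (2 * C) < X.Mu v ∧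
    ∀ i k, X.SB i k → X.Mu v / 2 ≤ X.lam i v → X.Mu v / 2 ≤ X.lam k v → v ∉ X.Gi i k

end CoreData

end Pool.Agent.ZPS
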