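import Pool.Agent.ZPS.Series

/-!
# ZPS module 05: the functions `D_M(τ) = N¹² (cτ+d)⁻¹² Δ(Mτ)/Δ(τ)`

Invariance: `D_{γM} = D_M`, `D_{Mγ}(τ) = D_M(γτ)` (`disc_smul`, cocycle property of `denom`; here
`cτ+d` is `denom (toGL hN M) τ`). For a representative `B = (a b; 0 d)`: `N¹² d⁻¹² = a¹²`, so
`D_B(τ) = a¹² Δ(Bτ)/Δ(τ)`, and with `u = c qN^{a²}` (`c = exp(2πi/d)^b`) the `q` of `Bτ`:
`D_B(τ) qN^N = a¹² u D(u) E(qN^N)`; this gives membership in `RR N` (with `MDiff`) and the expansion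
`C(a¹² c) X^{a²} powComp c (a²) D * powComp 1 N E`.
-/

namespace Pool.Agent.ZPS

open UpperHalfPlane ModularForm MatrixGroups Function PowerSeries Pool.Agent.Hhelper14.ZP

variable {N : ℕ}

/-- `D_M(τ) = N¹² (cτ+d)⁻¹² Δ(Mτ)/Δ(τ)` -/
noncomputable def Dfun (hN : 0 < N) (M : DD N) (τ : ℍ) : ℂ :=
  (N : ℂ) ^ 12 * (((M.1 1 0 : ℤ) : ℂ) * τ + ((M.1 1 1 : ℤ) : ℂ))⁻¹ ^ 12 *
    ModularForm.discriminant (act hN M τ) / ModularForm.discriminant τ

theorem dfun_denom (hN : 0 < N) (M : DD N) (τ : ℍ) :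
    denom (toGL hN M) τ = ((M.1 1 0 : ℤ) : ℂ) * τ + ((M.1 1 1 : ℤ) : ℂ) := by
  simp [denom, toGL_val]

theorem dfun_eq (hN : 0 < N) (M : DD N) (τ : ℍ) :
    Dfun hN M τ = (N : ℂ) ^ 12 * (denom (toGL hN M) τ)⁻¹ ^ 12 *
      ModularForm.discriminant (act hN M τ) / ModularForm.discriminant τ := by
  rw [dfun_denom]
  rfl

theorem Dfun_ne_zero (hN : 0 < N) (M : DD N) (τ : ℍ) : Dfun hN M τ ≠ 0 := by
  have hN' : (N : ℂ) ≠ 0 := by exact_mod_cast hN.ne'
  rw [dfun_eq]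
  exact div_ne_zero (mul_ne_zero (mul_ne_zero (pow_ne_zero _ hN')
    (pow_ne_zero _ (inv_ne_zero (denom_ne_zero _ _)))) (discriminant_ne_zero _))
    (discriminant_ne_zero _)

theorem dfun_toGL_smul (hN : 0 < N) (γ : SL(2, ℤ)) (A : DD N) :
    toGL hN (γ • A) = (γ : GL (Fin 2) ℝ) * toGL hN A := by
  ext i j
  simp [toGL_val, FixedDetMatrices.smul_coe, Matrix.mul_apply]

theorem dfun_toGL_rmul (hN : 0 < N) (γ : SL(2, ℤ)) (A : DD N) :
    toGL hN (rmul A γ) = toGL hN A * (γ : GL (Fin 2) ℝ) := by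
  ext i j
  simp [toGL_val, rmul_val, Matrix.mul_apply]

theorem dfun_denom_mul {g h : GL (Fin 2) ℝ} (hh : 0 < h.det.val) (τ : ℍ) :
    denom (g * h) τ = denom g (h • τ : ℍ) * denom h τ := by
  rw [denom_cocycle g h τ.im_ne_zero, coe_smul_of_det_pos hh]

theorem Dfun_smul (hN : 0 < N) (γ : SL(2, ℤ)) (M : DD N) : Dfun hN (γ • M) = Dfun hN M := by
  funext τ
  rw [dfun_eq, dfun_eq, act_smul, disc_smul, dfun_toGL_smul,
    dfun_denom_mul (toGL_det hN M)]
  have h1 : denom (γ : GL (Fin 2) ℝ) (act hN M τ) ≠ 0 := denom_ne_zero _ _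
  have h2 : denom (toGL hN M) τ ≠ 0 := denom_ne_zero _ _
  have h3 : ((toGL hN M • τ : ℍ) : ℂ) = act hN M τ := rfl
  rw [h3]
  have h4 := discriminant_ne_zero τ
  have h5 : denom (γ : GL (Fin 2) ℝ) (act hN M τ) ^ (12 : ℤ) =
    denom (γ : GL (Fin 2) ℝ) (act hN M τ) ^ 12 := by norm_cast
  rw [h5]
  field_simp

theorem Dfun_rmul (hN : 0 < N) (γ : SL(2, ℤ)) (M : DD N) (τ : ℍ) :
    Dfun hN (rmul M γ) τ = Dfun hN M (γ • τ) := by
  have h0 : 0 < (γ : GL (Fin 2) ℝ).det.val := by simp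
  rw [dfun_eq, dfun_eq, act_rmul, disc_smul, dfun_toGL_rmul, dfun_denom_mul h0]
  have h1 : denom (γ : GL (Fin 2) ℝ) τ ≠ 0 := denom_ne_zero _ _
  have h2 : denom (toGL hN M) ((γ : GL (Fin 2) ℝ) • τ : ℍ) ≠ 0 := denom_ne_zero _ _
  have h3 : (((γ : GL (Fin 2) ℝ) • τ : ℍ) : ℂ) = (γ • τ : ℍ) := rfl
  rw [h3] at h2 ⊢
  have h4 := discriminant_ne_zero τ
  have h5 : denom (γ : GL (Fin 2) ℝ) τ ^ (12 : ℤ) = denom (γ : GL (Fin 2) ℝ) τ ^ 12 := by
    norm_cast
  rw [h5]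
  field_simp

/-- shape of the representatives, with the function `D` -/
theorem dfun_rep (hN : 0 < N) {B : DD N} (hB : B ∈ FixedDetMatrices.reps (N : ℤ)) :
    ∃ (a d : ℕ) (c : ℂ), 0 < a ∧ 0 < d ∧ a * d = N ∧ c ^ d = 1 ∧
      (∀ τ : ℍ, Periodic.qParam 1 (act hN B τ : ℂ) = c * qN N τ ^ (a ^ 2)) ∧
      ∀ τ : ℍ, Dfun hN B τ = (a : ℂ) ^ 12 * ModularForm.discriminant (act hN B τ) /
        ModularForm.discriminant τ := by
  obtain ⟨h10, h00, -, -⟩ := hB
  have hdet : B.1 0 0 * B.1 1 1 = N := by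
    have h := B.2
    rw [Matrix.det_fin_two, h10, mul_zero, sub_zero] at h
    exact h
  have h11 : 0 < B.1 1 1 := by
    by_contra hcon
    push Not at hcon
    have h1 : B.1 0 0 * B.1 1 1 ≤ 0 := mul_nonpos_of_nonneg_of_nonpos h00.le hcon
    rw [hdet] at h1
    have : (0 : ℤ) < N := by exact_mod_cast hN
    omega
  obtain ⟨a, ha⟩ := Int.eq_ofNat_of_zero_le h00.le
  obtain ⟨d, hd⟩ := Int.eq_ofNat_of_zero_le h11.le
  have ha0 : 0 < a := by omega
  have hd0 : 0 < d := by omega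
  have had : a * d = N := by
    rw [ha, hd] at hdet
    exact_mod_cast hdet
  have hd' : (d : ℂ) ≠ 0 := by exact_mod_cast hd0.ne'
  have ha' : (a : ℂ) ≠ 0 := by exact_mod_cast ha0.ne'
  have hNc : (N : ℂ) = a * d := by rw [← had]; push_cast; ring
  set ζ := Complex.exp (2 * Real.pi * Complex.I / d) with hζ
  have hζ1 : ζ ^ d = 1 := (exp_pow_eq_one_iff hd0 d).mpr dvd_rfl
  refine ⟨a, d, ζ ^ (B.1 0 1), ha0, hd0, had, ?_, fun τ => ?_, fun τ => ?_⟩
  · rw [← zpow_natCast, ← zpow_mul, mul_comm, zpow_mul, zpow_natCast, hζ1, one_zpow]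
  · rw [coe_act, h10, ha, hd, hζ]
    simp only [qN, Periodic.qParam]
    rw [← Complex.exp_int_mul, ← Complex.exp_nat_mul, ← Complex.exp_add]
    congr 1
    push_cast
    rw [hNc, zero_mul, zero_add]
    field_simp
    exact add_comm _ _
  · rw [Dfun, h10, hd, hNc]
    push_cast
    rw [zero_mul, zero_add]
    field_simp

/-- expansion at infinity for representatives; `class_expansion` style -/
theorem Dfun_expansion (hN : 0 < N) (M : DD N) :
    ∃ (a d : ℕ) (c : ℂ), 0 < a ∧ 0 < d ∧ a * d = N ∧ c ^ d = 1 ∧ ∀ τ : ℍ,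
      Ev (qN N τ) (powComp c (a ^ 2) (PowerSeries.map (Int.castRingHom ℂ) JZ))
        (c * qN N τ ^ (a ^ 2) * jA hN M τ) ∧
      Ev (qN N τ) (PowerSeries.C ((a : ℂ) ^ 12 * c) * PowerSeries.X ^ (a ^ 2) *
          powComp c (a ^ 2) (PowerSeries.map (Int.castRingHom ℂ) DZ) *
          powComp 1 N (PowerSeries.map (Int.castRingHom ℂ) EZ))
        (Dfun hN M τ * qN N τ ^ N) := by
  obtain ⟨B, hB, γ, rfl⟩ := exists_rep hN M
  obtain ⟨a, d, c, ha, hd, had, hc, hq, hD⟩ := dfun_rep hN hB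
  refine ⟨a, d, c, ha, hd, had, hc, fun τ => ⟨?_, ?_⟩⟩
  · rw [jA_smul]
    have h1 := evZ_J (act hN B τ)
    rw [EvZ, hq τ] at h1
    exact h1.powComp (by positivity)
  · rw [Dfun_smul, hD τ]
    obtain ⟨v, -, h1, -, h2, hv⟩ := spec_series.2.2.2 (act hN B τ)
    obtain ⟨w, -, -, h3, h4, hw⟩ := spec_series.2.2.2 τ
    rw [hq τ] at h1 h2
    rw [← qN_pow hN] at h3 h4
    have h5 : Ev (1 * qN N τ ^ N) (PowerSeries.map (Int.castRingHom ℂ) EZ) w⁻¹ := by
      rw [one_mul]; exact h3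
    have h6 := (((Ev.C (qN N τ) ((a : ℂ) ^ 12 * c)).mul ((Ev.X (qN N τ)).pow (a ^ 2))).mul
      (h1.powComp (m := a ^ 2) (by positivity))).mul (h5.powComp hN)
    have h7 : (a : ℂ) ^ 12 * ModularForm.discriminant (act hN B τ) /
        ModularForm.discriminant τ * qN N τ ^ N =
        (a : ℂ) ^ 12 * c * qN N τ ^ (a ^ 2) * v * w⁻¹ := by
      rw [h2, h4]
      have h8 := qN_ne_zero N τ
      field_simp
    rw [h7]
    exact h6

/-- power series with coefficients in a subring -/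
theorem dfun_coeff_mul {F G : PowerSeries ℂ} (hF : ∀ n, coeff n F ∈ OO)
    (hG : ∀ n, coeff n G ∈ OO) (n : ℕ) : coeff n (F * G) ∈ OO := by
  rw [PowerSeries.coeff_mul]
  exact OO.sum_mem fun kl _ => OO.mul_mem (hF _) (hG _)

theorem dfun_coeff_powComp {F : PowerSeries ℂ} (hF : ∀ n, coeff n F ∈ OO) {c : ℂ} (hc : c ∈ OO)
    (m n : ℕ) : coeff n (powComp c m F) ∈ OO := by
  rw [powComp, PowerSeries.coeff_mk]
  split_ifs
  · exact OO.mul_mem (hF _) (OO.pow_mem hc _)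
  · exact OO.zero_mem

theorem dfun_coeff_map (F : PowerSeries ℤ) (n : ℕ) :
    coeff n (PowerSeries.map (Int.castRingHom ℂ) F) ∈ OO := by
  rw [PowerSeries.coeff_map]
  exact intCast_mem_OO _

theorem dfun_coeff_C {c : ℂ} (hc : c ∈ OO) (n : ℕ) : coeff n (PowerSeries.C c) ∈ OO := by
  rw [PowerSeries.coeff_C]
  split_ifs
  · exact hc
  · exact OO.zero_mem

theorem dfun_coeff_X (m n : ℕ) : coeff n (PowerSeries.X ^ m : PowerSeries ℂ) ∈ OO := by
  rw [PowerSeries.coeff_X_pow]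
  split_ifs
  · exact OO.one_mem
  · exact OO.zero_mem

/-- expansions in terms of `Ev` give `HasQ` -/
theorem dfun_hasQ (hN : 0 < N) {P : PowerSeries ℂ} (hP : ∀ n, coeff n P ∈ OO) {f : ℍ → ℂ} {K : ℕ}
    (h : ∀ τ : ℍ, Ev (qN N τ) P (f τ * qN N τ ^ K)) : ∃ u, HasQ N K u f := by
  refine ⟨_, fun z => ∑' n, coeff n P * z ^ n, ⟨fun n => coeff n P, hP, fun z hz => ?_⟩, rfl,
    fun τ => (h τ).2.tsum_eq.symm⟩
  rcases eq_or_ne z 0 with rfl | hz0
  · exact (hasSum_single (f := fun n : ℕ => coeff n P * (0 : ℂ) ^ n) 0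
      (fun n hn => by simp [hn])).summable.hasSum
  · obtain ⟨τ, rfl⟩ := exists_qN hN hz hz0
    exact (h τ).2.summable.hasSum

open scoped Manifold in
theorem Dfun_mem (hN : 0 < N) (M : DD N) : Dfun hN M ∈ RR N := by
  constructor
  · obtain ⟨B, hB, γ, rfl⟩ := exists_rep hN M
    obtain ⟨a, d, c, ha, hd, had, hc, hq, hD⟩ := dfun_rep hN hB
    rw [Dfun_smul]
    have h1 : MDiff (discriminant : ℍ → ℂ) := CuspForm.discriminant.holo'
    have h2 : MDiff (fun τ : ℍ => discriminant (act hN B τ)) :=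
      h1.comp (mdifferentiable_smul (toGL_det hN B))
    have h3 : Dfun hN B = fun τ => (a : ℂ) ^ 12 * discriminant (act hN B τ) / discriminant τ := by
      funext τ
      exact hD τ
    rw [h3]
    exact (h2.const_smul ((a : ℂ) ^ 12)).div h1 discriminant_ne_zero
  · obtain ⟨a, d, c, ha, hd, had, hc, h⟩ := Dfun_expansion hN M
    have hcO : c ∈ OO := by
      change IsIntegral ℤ _
      refine IsIntegral.of_pow hd ?_
      rw [hc]
      exact isIntegral_one
    refine ⟨N, dfun_hasQ hN (P := PowerSeries.C ((a : ℂ) ^ 12 * c) * PowerSeries.X ^ (a ^ 2) *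
          powComp c (a ^ 2) (PowerSeries.map (Int.castRingHom ℂ) DZ) *
          powComp 1 N (PowerSeries.map (Int.castRingHom ℂ) EZ)) ?_ fun τ => (h τ).2⟩
    exact dfun_coeff_mul (dfun_coeff_mul (dfun_coeff_mul
      (dfun_coeff_C (OO.mul_mem (OO.pow_mem (natCast_mem_OO a) _) hcO)) (dfun_coeff_X _))
      (dfun_coeff_powComp (dfun_coeff_map _) hcO _))
      (dfun_coeff_powComp (dfun_coeff_map _) OO.one_mem _)

/-- the function of a class -/
noncomputable def dfunCls (hN : 0 < N) (q : QQ N) : ℍ → ℂ :=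
  Quotient.liftOn' q (Dfun hN) (by
    rintro A B ⟨γ, rfl⟩
    exact Dfun_smul hN γ B)

theorem dfunCls_rQ (hN : 0 < N) (γ : SL(2, ℤ)) (q : QQ N) (τ : ℍ) :
    dfunCls hN (rQ γ q) τ = dfunCls hN q (γ • τ) := by
  induction q using Quotient.inductionOn' with
  | h A => exact Dfun_rmul hN γ A τ

theorem dfunCls_mem (hN : 0 < N) (q : QQ N) : dfunCls hN q ∈ RR N := by
  induction q using Quotient.inductionOn' with
  | h A => exact Dfun_mem hN A

open Polynomial in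
/-- `D_M` is integral over `ℤ̄[j]`, as in `modular_eq` -/
theorem Dfun_integral (hN : 0 < N) (M : DD N) :
    ∃ Φ : Polynomial (Polynomial OO), Φ.Monic ∧ ∀ τ : ℍ,
      (Φ.map (Polynomial.eval₂RingHom OO.subtype (jInv τ))).eval (Dfun hN M τ) = 0 := by
  have := finite_QQ hN
  have : Fintype (QQ N) := Fintype.ofFinite _
  let cP : Polynomial (RR N) :=
    ∏ q : QQ N, (Polynomial.X - Polynomial.C ⟨dfunCls hN q, dfunCls_mem hN q⟩)
  have hmap : ∀ τ : ℍ, cP.map (evalAt N τ) =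
      ∏ q : QQ N, (Polynomial.X - Polynomial.C (dfunCls hN q τ)) := by
    intro τ
    rw [Polynomial.map_prod]
    refine Finset.prod_congr rfl fun q _ => ?_
    rw [Polynomial.map_sub, Polynomial.map_X, Polynomial.map_C]
    rfl
  have hinv : ∀ (γ : SL(2, ℤ)) (τ : ℍ), cP.map (evalAt N (γ • τ)) = cP.map (evalAt N τ) := by
    intro γ τ
    rw [hmap, hmap]
    have h := Function.Bijective.prod_comp (rQ_bijective hN γ)
      (fun q => (Polynomial.X - Polynomial.C (dfunCls hN q τ)))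
    rw [← h]
    refine Finset.prod_congr rfl fun q _ => ?_
    rw [dfunCls_rQ]
  have hco : ∀ k : ℕ, ∃ P : Polynomial OO, ∀ τ : ℍ, evalAt N τ (cP.coeff k) =
      P.eval₂ OO.subtype (jInv τ) := by
    intro k
    refine exists_poly_of_mem hN (cP.coeff k).2 fun γ τ => ?_
    have h := congrArg (fun p => p.coeff k) (hinv γ τ)
    simp only [Polynomial.coeff_map] at h
    exact h
  choose P hP using hco
  set d := cP.natDegree with hd
  have hmonic : cP.Monic := Polynomial.monic_prod_of_monic _ _ fun q _ =>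
    Polynomial.monic_X_sub_C _
  let Φ : Polynomial (Polynomial OO) := Polynomial.X ^ d +
    ∑ k ∈ Finset.range d, Polynomial.C (P k) * Polynomial.X ^ k
  refine ⟨Φ, ?_, fun τ => ?_⟩
  · refine Polynomial.monic_X_pow_add ?_
    rw [Polynomial.degree_lt_iff_coeff_zero]
    intro m hm
    rw [Polynomial.finsetSum_coeff]
    refine Finset.sum_eq_zero fun k hk => ?_
    rw [Polynomial.coeff_C_mul_X_pow, if_neg]
    have := Finset.mem_range.mp hk
    omega
  · have h1 : (Φ.map (Polynomial.eval₂RingHom OO.subtype (jInv τ))) = cP.map (evalAt N τ) := by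
      rw [hmonic.as_sum]
      simp only [Φ, Polynomial.map_add, Polynomial.map_pow, Polynomial.map_X, Polynomial.map_sum,
        Polynomial.map_mul, Polynomial.map_C]
      congr 1
      refine Finset.sum_congr rfl fun k _ => ?_
      rw [hP k τ]
      rfl
    rw [h1, hmap, Polynomial.eval_prod]
    refine Finset.prod_eq_zero (Finset.mem_univ (Quotient.mk'' M)) ?_
    rw [Polynomial.eval_sub, Polynomial.eval_X, Polynomial.eval_C]
    exact sub_self _

end Pool.Agent.ZPS
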