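import Pool.Agent.ZPS.ConjLemma
import Pool.Agent.ZPS.DFun

/-!
# ZPS module 06: conjugates of the pair `(j(Mτ₀), D_M(τ₀))`

`conj_lemma` with `X = QQ N`, `ρ γ = rQ γ`, `S = Bool` (or `Fin 2`), `F q 0 = jQ hN q`,
`F q 1 = ` the function of the class induced by `Dfun` (`Dfun_smul`), exponent `k = N² + N`, the
expansions from `Dfun_expansion` (for a representative, `C(c⁻¹) X^{k-a²} powComp c (a²) J` and
`X^{k-N} * (the expansion of D_M qN^N)`). Evaluation at `t`: `Ev.powComp`, `hconv` (values `u`, `v`,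
`w` at `σ c * t^{a²}` and at `t ^ N`); the value of `E` is the inverse of the value of `D`
(`DZ * EZ = 1`, `Ev.mul`, `Ev.unique`). Cancel powers of `t ≠ 0`.
-/

namespace Pool.Agent.ZPS

open UpperHalfPlane ModularForm MatrixGroups Function PowerSeries Pool.Agent.Hhelper14.ZP

/-- the function of the class induced by `Dfun` -/
noncomputable def DQ {N : ℕ} (hN : 0 < N) (q : QQ N) : ℍ → ℂ :=
  Quotient.liftOn' q (Dfun hN) (by
    rintro A B ⟨γ, rfl⟩
    exact Dfun_smul hN γ B)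

theorem DQ_mk {N : ℕ} (hN : 0 < N) (A : DD N) : DQ hN (Quotient.mk'' A) = Dfun hN A := rfl

theorem DQ_rQ {N : ℕ} (hN : 0 < N) (γ : SL(2, ℤ)) (q : QQ N) (τ : ℍ) :
    DQ hN (rQ γ q) τ = DQ hN q (γ • τ) := by
  induction q using Quotient.inductionOn' with
  | h A => exact Dfun_rmul hN γ A τ

theorem DQ_mem {N : ℕ} (hN : 0 < N) (q : QQ N) : DQ hN q ∈ RR N := by
  induction q using Quotient.inductionOn' with
  | h A => exact Dfun_mem hN A

theorem DQ_expansion {N : ℕ} (hN : 0 < N) (q : QQ N) :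
    ∃ (a d : ℕ) (c : ℂ), 0 < a ∧ 0 < d ∧ a * d = N ∧ c ^ d = 1 ∧ ∀ τ : ℍ,
      Ev (qN N τ) (powComp c (a ^ 2) (PowerSeries.map (Int.castRingHom ℂ) JZ))
        (c * qN N τ ^ (a ^ 2) * jQ hN q τ) ∧
      Ev (qN N τ) (PowerSeries.C ((a : ℂ) ^ 12 * c) * PowerSeries.X ^ (a ^ 2) *
          powComp c (a ^ 2) (PowerSeries.map (Int.castRingHom ℂ) DZ) *
          powComp 1 N (PowerSeries.map (Int.castRingHom ℂ) EZ))
        (DQ hN q τ * qN N τ ^ N) := by
  induction q using Quotient.inductionOn' with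
  | h A => exact Dfun_expansion hN A

theorem D_conj {N : ℕ} (hN : 0 < N) (M : DD N) (τ₀ : ℍ)
    {K : Type} [NormedField K] [CompleteSpace K] (σ : ℂ →+* K) (t : K) (ht : t ≠ 0)
    (ht1 : ‖t‖ < 1)
    (hconv : ∀ z : K, ‖z‖ < 1 → (∃ v, EvZ JZ z v) ∧ (∃ v, EvZ DZ z v) ∧ ∃ v, EvZ EZ z v)
    (hx : EvZ JZ (t ^ N) (t ^ N * σ (jInv τ₀))) :
    ∃ (a d : ℕ) (c : ℂ) (v w : K), 0 < a ∧ 0 < d ∧ a * d = N ∧ c ^ d = 1 ∧
      EvZ JZ (σ c * t ^ a ^ 2) (σ c * t ^ a ^ 2 * σ (jA hN M τ₀)) ∧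
      EvZ DZ (σ c * t ^ a ^ 2) v ∧ EvZ DZ (t ^ N) w ∧
      σ (Dfun hN M τ₀) * (t ^ N * w) = (a : K) ^ 12 * (σ c * t ^ a ^ 2 * v) := by
  classical
  have := finite_QQ hN
  choose a d c ha hd had hc hac using DQ_expansion hN
  set k : ℕ := N ^ 2 + N with hk
  have haN : ∀ q, a q ≤ N := fun q => by
    rw [← had q]
    exact Nat.le_mul_of_pos_right _ (hd q)
  have hak : ∀ q, a q ^ 2 ≤ k := fun q => by
    have h1 : a q ^ 2 ≤ N ^ 2 := Nat.pow_le_pow_left (haN q) 2
    omega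
  have hNk : N ≤ k := by omega
  have hc0 : ∀ q, c q ≠ 0 := fun q h0 => by
    have h1 := hc q
    rw [h0, zero_pow (hd q).ne'] at h1
    exact zero_ne_one h1
  have hcn : ∀ q, ‖σ (c q)‖ = 1 := by
    intro q
    have h2 := congrArg (fun z => ‖σ z‖) (hc q)
    simp only [map_pow, norm_pow, map_one, norm_one] at h2
    exact (pow_eq_one_iff_of_nonneg (norm_nonneg _) (hd q).ne').mp h2
  have hz : ∀ q, ‖σ (c q) * t ^ (a q ^ 2)‖ < 1 := by
    intro q
    rw [norm_mul, hcn, one_mul, norm_pow]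
    exact pow_lt_one₀ (norm_nonneg _) ht1 (pow_pos (ha q) 2).ne'
  have htN : ‖t ^ N‖ < 1 := by
    rw [norm_pow]
    exact pow_lt_one₀ (norm_nonneg _) ht1 hN.ne'
  choose jv hjv using fun q => (hconv _ (hz q)).1
  choose dv hdv using fun q => (hconv _ (hz q)).2.1
  obtain ⟨w, hw⟩ := (hconv _ htN).2.1
  obtain ⟨w', hw'⟩ := (hconv _ htN).2.2
  have hww : w * w' = 1 := by
    have h1 := Ev.mul hw hw'
    rw [← map_mul, spec_series.2.2.1, map_one] at h1
    exact h1.unique (Ev.one _)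
  -- the expansions
  let F : QQ N → Bool → ℍ → ℂ := fun q s => if s then DQ hN q else jQ hN q
  let Φ : QQ N → Bool → PowerSeries ℂ := fun q s => if s then
      PowerSeries.X ^ (k - N) * (PowerSeries.C ((a q : ℂ) ^ 12 * c q) * PowerSeries.X ^ (a q ^ 2) *
          powComp (c q) (a q ^ 2) (PowerSeries.map (Int.castRingHom ℂ) DZ) *
          powComp 1 N (PowerSeries.map (Int.castRingHom ℂ) EZ))
    else PowerSeries.C (c q)⁻¹ * PowerSeries.X ^ (k - a q ^ 2) *
      powComp (c q) (a q ^ 2) (PowerSeries.map (Int.castRingHom ℂ) JZ)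
  let v : QQ N → Bool → K := fun q s => if s then
      t ^ (k - N) * (((a q : K) ^ 12 * σ (c q)) * t ^ (a q ^ 2) * dv q * w')
    else (σ (c q))⁻¹ * t ^ (k - a q ^ 2) * jv q
  have hF : ∀ q s, F q s ∈ RR N := by
    intro q s
    cases s
    · exact jQ_mem hN q
    · exact DQ_mem hN q
  have hFρ : ∀ γ q s τ, F (rQ γ q) s τ = F q s (γ • τ) := by
    intro γ q s τ
    cases s
    · exact jQ_rQ hN γ q τ
    · exact DQ_rQ hN γ q τ
  have hΦ : ∀ q s (τ : ℍ), Ev (qN N τ) (Φ q s) (F q s τ * qN N τ ^ k) := by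
    intro q s τ
    cases s
    · have h1 := ((Ev.C (qN N τ) (c q)⁻¹).mul ((Ev.X (qN N τ)).pow (k - a q ^ 2))).mul (hac q τ).1
      have e1 : (c q)⁻¹ * qN N τ ^ (k - a q ^ 2) * (c q * qN N τ ^ (a q ^ 2) * jQ hN q τ) =
          jQ hN q τ * qN N τ ^ k := by
        have e2 : qN N τ ^ k = qN N τ ^ (k - a q ^ 2) * qN N τ ^ (a q ^ 2) := by
          rw [← pow_add, Nat.sub_add_cancel (hak q)]
        rw [e2]
        have := hc0 q
        field_simp
      rw [e1] at h1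
      exact h1
    · have h1 := ((Ev.X (qN N τ)).pow (k - N)).mul (hac q τ).2
      have e1 : qN N τ ^ (k - N) * (DQ hN q τ * qN N τ ^ N) = DQ hN q τ * qN N τ ^ k := by
        have e2 : qN N τ ^ k = qN N τ ^ (k - N) * qN N τ ^ N := by
          rw [← pow_add, Nat.sub_add_cancel hNk]
        rw [e2]
        ring
      rw [e1] at h1
      exact h1
  have hv : ∀ q s, Ev t (PowerSeries.map σ (Φ q s)) (v q s) := by
    intro q s
    cases s
    · have h1 := ((Ev.C t (σ (c q))⁻¹).mul ((Ev.X t).pow (k - a q ^ 2))).mul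
        (Ev.powComp (pow_pos (ha q) 2) (hjv q))
      have e1 : PowerSeries.map σ (Φ q false) = PowerSeries.C (σ (c q))⁻¹ *
          PowerSeries.X ^ (k - a q ^ 2) *
          powComp (σ (c q)) (a q ^ 2) (PowerSeries.map (Int.castRingHom K) JZ) := by
        change PowerSeries.map σ (PowerSeries.C (c q)⁻¹ * PowerSeries.X ^ (k - a q ^ 2) *
          powComp (c q) (a q ^ 2) (PowerSeries.map (Int.castRingHom ℂ) JZ)) = _
        simp only [map_mul, map_pow, PowerSeries.map_C, PowerSeries.map_X, map_powComp, map_map_Z,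
          map_inv₀]
      rw [e1]
      exact h1
    · have h1 := ((Ev.X t).pow (k - N)).mul
        ((((Ev.C t ((a q : K) ^ 12 * σ (c q))).mul ((Ev.X t).pow (a q ^ 2))).mul
        (Ev.powComp (pow_pos (ha q) 2) (hdv q))).mul
        (Ev.powComp (c := (1 : K)) hN (by rw [one_mul]; exact hw')))
      have e1 : PowerSeries.map σ (Φ q true) = PowerSeries.X ^ (k - N) *
          (PowerSeries.C ((a q : K) ^ 12 * σ (c q)) * PowerSeries.X ^ (a q ^ 2) *
          powComp (σ (c q)) (a q ^ 2) (PowerSeries.map (Int.castRingHom K) DZ) *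
          powComp 1 N (PowerSeries.map (Int.castRingHom K) EZ)) := by
        change PowerSeries.map σ (PowerSeries.X ^ (k - N) * (PowerSeries.C ((a q : ℂ) ^ 12 * c q) *
          PowerSeries.X ^ (a q ^ 2) *
          powComp (c q) (a q ^ 2) (PowerSeries.map (Int.castRingHom ℂ) DZ) *
          powComp 1 N (PowerSeries.map (Int.castRingHom ℂ) EZ))) = _
        simp only [map_mul, map_pow, PowerSeries.map_C, PowerSeries.map_X, map_powComp, map_map_Z,
          map_one, map_natCast]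
      rw [e1]
      exact h1
  obtain ⟨q, hq⟩ := conj_lemma hN rQ (rQ_bijective hN) F hF hFρ k Φ hΦ σ τ₀ t ht hx v hv
    (Quotient.mk'' M)
  have hσc : σ (c q) ≠ 0 := by
    rw [map_ne_zero]
    exact hc0 q
  refine ⟨a q, d q, c q, dv q, w, ha q, hd q, had q, hc q, ?_, hdv q, hw, ?_⟩
  · have h1 : (σ (c q))⁻¹ * t ^ (k - a q ^ 2) * jv q = σ (jA hN M τ₀) * t ^ k := hq false
    have e2 : t ^ k = t ^ (k - a q ^ 2) * t ^ (a q ^ 2) := by
      rw [← pow_add, Nat.sub_add_cancel (hak q)]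
    rw [e2] at h1
    have ht' : t ^ (k - a q ^ 2) ≠ 0 := pow_ne_zero _ ht
    have e3 : jv q = σ (c q) * t ^ a q ^ 2 * σ (jA hN M τ₀) := by
      apply mul_left_cancel₀ (mul_ne_zero (inv_ne_zero hσc) ht')
      rw [h1]
      field_simp
    rw [← e3]
    exact hjv q
  · have h1 : t ^ (k - N) * (((a q : K) ^ 12 * σ (c q)) * t ^ (a q ^ 2) * dv q * w') =
        σ (Dfun hN M τ₀) * t ^ k := hq true
    have e2 : t ^ k = t ^ (k - N) * t ^ N := by
      rw [← pow_add, Nat.sub_add_cancel hNk]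
    rw [e2] at h1
    have ht' : t ^ (k - N) ≠ 0 := pow_ne_zero _ ht
    have e3 : ((a q : K) ^ 12 * σ (c q)) * t ^ (a q ^ 2) * dv q * w' =
        σ (Dfun hN M τ₀) * t ^ N := by
      apply mul_left_cancel₀ ht'
      rw [h1]
      ring
    calc σ (Dfun hN M τ₀) * (t ^ N * w) = (σ (Dfun hN M τ₀) * t ^ N) * w := by ring
      _ = ((a q : K) ^ 12 * σ (c q)) * t ^ (a q ^ 2) * dv q * w' * w := by rw [e3]
      _ = ((a q : K) ^ 12 * σ (c q)) * t ^ (a q ^ 2) * dv q * (w * w') := by ring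
      _ = (a q : K) ^ 12 * (σ (c q) * t ^ a q ^ 2 * dv q) := by rw [hww]; ring

end Pool.Agent.ZPS
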