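import Pool.Agent.ZPS.GP

/-!
# ZPS module 22: counting the zeros of `G_{L,k}` modulo `p` in a box

`goodAt_large`: finitely many coefficients.

`count_zero`: let `k ∉ L`, `p` good. `G_{L,k}` has `p`-integral coefficients, so `padicNorm p (G(u)) ≤ 1`
for integers `u`, and it is `≠ 1` iff `G(u) ≡ 0 (mod p)`. Fix all coordinates of `u` except `u_k`: as `k ∉ L`
and the `a_{L,k,s}` only involve the variables in `L`, `G(u)` is a MONIC polynomial in `u_k` of degree
`K = A.K L k` with `p`-integral coefficients, so modulo `p` it has at most `K` roots in `ZMod p`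
(`Polynomial.card_roots'`), and each residue class has at most `(2H+1)/p + 1 ≤ 2 (2H+1)/p` representatives
in `[-H, H]` (`Int.Ico_filter_modEq_card` or similar). Sum over the other coordinates
(`(2H+1)^{n-1}` choices).
-/

namespace Pool.Agent.ZPS

open MvPolynomial

variable {n d : ℕ}

theorem goodAt_large (A : GPData n d) : ∃ P₀ : ℕ, ∀ p : ℕ, p.Prime → P₀ ≤ p → A.GoodAt p := by
  classical
  refine ⟨1 + ∑ L : Finset (Fin n), ∑ k : Fin n, ∑ s ∈ Finset.range (A.K L k + 1),
    ∑ α ∈ (A.a L k s).support, (coeff α (A.a L k s)).den, ?_⟩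
  intro p hp hP L _ k s hs α
  have : Fact p.Prime := ⟨hp⟩
  by_cases hα : α ∈ (A.a L k s).support
  · have h1 : (coeff α (A.a L k s)).den < p := by
      have e1 : (coeff α (A.a L k s)).den ≤ ∑ α ∈ (A.a L k s).support, (coeff α (A.a L k s)).den :=
        Finset.single_le_sum (f := fun α => (coeff α (A.a L k s)).den)
          (fun _ _ => Nat.zero_le _) hα
      have e2 : ∑ α ∈ (A.a L k s).support, (coeff α (A.a L k s)).den ≤
          ∑ s ∈ Finset.range (A.K L k + 1),
            ∑ α ∈ (A.a L k s).support, (coeff α (A.a L k s)).den :=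
        Finset.single_le_sum
          (f := fun s => ∑ α ∈ (A.a L k s).support, (coeff α (A.a L k s)).den)
          (fun _ _ => Nat.zero_le _) (Finset.mem_range.2 (Nat.lt_succ_of_le hs))
      have e3 : ∑ s ∈ Finset.range (A.K L k + 1),
            ∑ α ∈ (A.a L k s).support, (coeff α (A.a L k s)).den ≤
          ∑ k : Fin n, ∑ s ∈ Finset.range (A.K L k + 1),
            ∑ α ∈ (A.a L k s).support, (coeff α (A.a L k s)).den :=
        Finset.single_le_sum
          (f := fun k => ∑ s ∈ Finset.range (A.K L k + 1),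
            ∑ α ∈ (A.a L k s).support, (coeff α (A.a L k s)).den)
          (fun _ _ => Nat.zero_le _) (Finset.mem_univ k)
      have e4 : ∑ k : Fin n, ∑ s ∈ Finset.range (A.K L k + 1),
            ∑ α ∈ (A.a L k s).support, (coeff α (A.a L k s)).den ≤
          ∑ L : Finset (Fin n), ∑ k : Fin n, ∑ s ∈ Finset.range (A.K L k + 1),
            ∑ α ∈ (A.a L k s).support, (coeff α (A.a L k s)).den :=
        Finset.single_le_sum
          (f := fun L => ∑ k : Fin n, ∑ s ∈ Finset.range (A.K L k + 1),
            ∑ α ∈ (A.a L k s).support, (coeff α (A.a L k s)).den)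
          (fun _ _ => Nat.zero_le _) (Finset.mem_univ L)
      omega
    have h2 : ‖((coeff α (A.a L k s) : ℚ) : ℚ_[p])‖ ≤ 1 := by
      apply Padic.norm_rat_le_one
      intro h
      exact absurd (Nat.le_of_dvd (Rat.den_pos _) h) (not_le.2 h1)
    rw [Padic.eq_padicNorm] at h2
    exact_mod_cast h2
  · rw [notMem_support_iff.1 hα]
    simp

/-- Number of elements of a residue class in `[-H, H]`. -/
private theorem card_class (p : ℕ) [Fact p.Prime] (H : ℕ) (r : ZMod p) :
    ((Finset.Icc (-(H : ℤ)) H).filter fun t => ((t : ℤ) : ZMod p) = r).card ≤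
      ⌈(2 * (H : ℝ) + 1) / p⌉₊ := by
  obtain ⟨v, rfl⟩ := ZMod.intCast_surjective r
  have hp : 0 < (p : ℤ) := by exact_mod_cast (Fact.out : p.Prime).pos
  have h1 : (Finset.Icc (-(H : ℤ)) H).filter (fun t => ((t : ℤ) : ZMod p) = (v : ZMod p)) =
      (Finset.Ico (-(H : ℤ)) (H + 1)).filter (fun t => t ≡ v [ZMOD p]) := by
    ext t
    simp only [Finset.mem_filter, Finset.mem_Icc, Finset.mem_Ico, ZMod.intCast_eq_intCast_iff,
      Int.lt_add_one_iff]
  rw [h1]
  have h2 := Int.Ico_filter_modEq_card (-(H : ℤ)) (H + 1) hp v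
  have h3 : (⌈(((H + 1 : ℤ) : ℚ) - v) / ((p : ℤ) : ℚ)⌉ - ⌈(((-(H : ℤ) : ℤ) : ℚ) - v) / ((p : ℤ) : ℚ)⌉) ≤
      (⌈(2 * (H : ℝ) + 1) / p⌉₊ : ℤ) := by
    have h4 : (2 * (H : ℝ) + 1) / p ≤ (⌈(2 * (H : ℝ) + 1) / p⌉₊ : ℝ) := Nat.le_ceil _
    have h5 : (2 * (H : ℚ) + 1) / p ≤ (⌈(2 * (H : ℝ) + 1) / p⌉₊ : ℚ) := by
      have h5' : (((2 * (H : ℚ) + 1) / p : ℚ) : ℝ) ≤ ((⌈(2 * (H : ℝ) + 1) / p⌉₊ : ℚ) : ℝ) := by
        push_cast
        exact h4
      exact Rat.cast_le.1 h5'
    rw [sub_le_iff_le_add, Int.ceil_le]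
    push_cast
    have h6 := Int.le_ceil ((((-(H : ℤ) : ℤ) : ℚ) - v) / ((p : ℤ) : ℚ))
    push_cast at h6
    have h7 : ((H : ℚ) + 1 - v) / p = (2 * (H : ℚ) + 1) / p + (-H - v) / p := by
      rw [← add_div]; congr 1; ring
    rw [h7]
    exact add_le_add h5 h6
  have h8 : (((Finset.Ico (-(H : ℤ)) (H + 1)).filter (fun t => t ≡ v [ZMOD p])).card : ℤ) ≤
      (⌈(2 * (H : ℝ) + 1) / p⌉₊ : ℤ) := by
    rw [h2]
    exact max_le h3 (by positivity)
  exact_mod_cast h8

/-- A polynomial whose variables avoid `k` does not see the coordinate `k`. -/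
private theorem eval_update {L : Finset (Fin n)} {k : Fin n} (hk : k ∉ L)
    (P : MvPolynomial (Fin n) ℚ) (hP : P.vars ⊆ L) (s : ℕ) (u w : Fin n → ℤ)
    (huw : ∀ i, i ≠ k → u i = w i) :
    eval (fun i => (u i : ℚ)) (homogeneousComponent s P) =
      eval (fun i => (w i : ℚ)) (homogeneousComponent s P) := by
  classical
  rw [eval_eq', eval_eq']
  apply Finset.sum_congr rfl
  intro α hα
  congr 1
  apply Finset.prod_congr rfl
  intro i _
  by_cases hi : i = k
  · subst hi
    have h1 : α i = 0 := by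
      by_contra hne
      apply hk
      apply hP
      rw [mem_vars_iff_mem_support]
      refine ⟨α, ?_, Finsupp.mem_support_iff.2 hne⟩
      rw [mem_support_iff, coeff_homogeneousComponent] at hα
      rw [mem_support_iff]
      intro h0
      apply hα
      simp [h0]
    simp [h1]
  · rw [huw i hi]

/-- The values of the homogeneous components at integer points are `p`-integral. -/
private theorem norm_eval_le {p : ℕ} [Fact p.Prime] (P : MvPolynomial (Fin n) ℚ)
    (hP : ∀ α, padicNorm p (coeff α P) ≤ 1) (s : ℕ) (w : Fin n → ℤ) :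
    ‖((eval (fun i => (w i : ℚ)) (homogeneousComponent s P) : ℚ) : ℚ_[p])‖ ≤ 1 := by
  classical
  rw [Padic.eq_padicNorm, eval_eq']
  have h0 : ∀ α ∈ (homogeneousComponent s P).support,
      padicNorm p (coeff α (homogeneousComponent s P) * ∏ i, (w i : ℚ) ^ α i) ≤ 1 := by
    intro α _
    rw [padicNorm.mul]
    have h1 : padicNorm p (coeff α (homogeneousComponent s P)) ≤ 1 := by
      rw [coeff_homogeneousComponent]
      split_ifs
      · exact hP α
      · simp
    have h2 : padicNorm p (∏ i, (w i : ℚ) ^ α i) ≤ 1 := by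
      have h3 : (∏ i, (w i : ℚ) ^ α i) = ((∏ i, (w i) ^ α i : ℤ) : ℚ) := by push_cast; rfl
      rw [h3]
      exact padicNorm.of_int _
    calc _ ≤ (1 : ℚ) * 1 := mul_le_mul h1 h2 (padicNorm.nonneg _) zero_le_one
      _ = 1 := one_mul 1
  exact_mod_cast padicNorm.sum_le' h0 zero_le_one

theorem count_zero (A : GPData n d) {p : ℕ} (hp : p.Prime) (hg : A.GoodAt p)
    {L : Finset (Fin n)} (hL : L.card = d) {k : Fin n} (hk : k ∉ L) {H : ℕ}
    (hH : p ≤ 2 * H + 1) :
    (((Fintype.piFinset fun _ : Fin n => Finset.Icc (-(H : ℤ)) H).filter fun u =>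
      padicNorm p (eval (fun i => (u i : ℚ)) (A.G L k)) ≠ 1).card : ℝ) ≤
      2 * A.K L k * (2 * (H : ℝ) + 1) ^ n / p := by
  classical
  have : Fact p.Prime := ⟨hp⟩
  set K := A.K L k with hK
  set m := ⌈(2 * (H : ℝ) + 1) / p⌉₊ with hm
  set S := (Fintype.piFinset fun _ : Fin n => Finset.Icc (-(H : ℤ)) H).filter fun u =>
      padicNorm p (eval (fun i => (u i : ℚ)) (A.G L k)) ≠ 1 with hS
  set T : Finset (Fin n → ℤ) := Fintype.piFinset fun i : Fin n =>
    if i = k then ({0} : Finset ℤ) else Finset.Icc (-(H : ℤ)) H with hT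
  have hn : 1 ≤ n := Nat.one_le_iff_ne_zero.2 (by rintro rfl; exact k.elim0)
  have hTcard : (T.card : ℝ) * (2 * (H : ℝ) + 1) = (2 * (H : ℝ) + 1) ^ n := by
    rw [hT, Fintype.card_piFinset]
    have h1 : ∀ i : Fin n, (if i = k then ({0} : Finset ℤ) else Finset.Icc (-(H : ℤ)) H).card =
        if i = k then 1 else 2 * H + 1 := by
      intro i
      split_ifs
      · simp
      · rw [Int.card_Icc]; omega
    simp_rw [h1]
    rw [Finset.prod_ite]
    simp only [Finset.prod_const_one, Finset.prod_const, one_mul]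
    have h2 : (Finset.univ.filter fun i : Fin n => ¬ i = k).card = n - 1 := by
      rw [Finset.filter_not, Finset.filter_eq' , if_pos (Finset.mem_univ k),
        Finset.card_sdiff_of_subset (Finset.subset_univ _)]
      simp
    rw [h2]
    push_cast
    rw [← pow_succ]
    congr 1
    omega
  have hmaps : ∀ u ∈ S, Function.update u k 0 ∈ T := by
    intro u hu
    rw [hS, Finset.mem_filter, Fintype.mem_piFinset] at hu
    rw [hT, Fintype.mem_piFinset]
    intro i
    by_cases hi : i = k
    · subst hi; simp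
    · rw [if_neg hi, Function.update_of_ne hi]
      exact hu.1 i
  have hfib : ∀ w ∈ T, (S.filter fun u => Function.update u k 0 = w).card ≤ K * m := by
    intro w _
    set e : ℕ → ℤ_[p] := fun s =>
      if h : ‖((eval (fun i => (w i : ℚ)) (homogeneousComponent s (A.a L k s)) : ℚ) : ℚ_[p])‖ ≤ 1
      then ⟨_, h⟩ else 0 with he
    set f : Polynomial (ZMod p) := Polynomial.X ^ K + ∑ s ∈ Finset.Icc 1 K,
      Polynomial.C (PadicInt.toZMod (e s)) * Polynomial.X ^ (K - s) with hf
    have hfmonic : f.Monic := by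
      apply Polynomial.monic_X_pow_add
      refine lt_of_le_of_lt (Polynomial.degree_sum_le _ _) ?_
      rw [Finset.sup_lt_iff (WithBot.bot_lt_coe _)]
      intro s hs
      rw [Finset.mem_Icc] at hs
      refine lt_of_le_of_lt (Polynomial.degree_C_mul_X_pow_le _ _) ?_
      exact_mod_cast (by omega : K - s < K)
    have hfdeg : f.natDegree ≤ K := by
      apply Polynomial.natDegree_add_le_of_degree_le (Polynomial.natDegree_X_pow_le _)
      apply Polynomial.natDegree_sum_le_of_forall_le
      intro s _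
      exact (Polynomial.natDegree_C_mul_X_pow_le _ _).trans (Nat.sub_le _ _)
    have hroots : f.roots.toFinset.card ≤ K :=
      (Multiset.toFinset_card_le _).trans ((Polynomial.card_roots' f).trans hfdeg)
    have hinj : (S.filter fun u => Function.update u k 0 = w).card ≤
        ((Finset.Icc (-(H : ℤ)) H).filter fun t => ((t : ℤ) : ZMod p) ∈ f.roots.toFinset).card := by
      apply Finset.card_le_card_of_injOn (fun u => u k)
      · intro u hu
        rw [Finset.mem_coe, Finset.mem_filter, hS, Finset.mem_filter, Fintype.mem_piFinset] at hu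
        obtain ⟨⟨hu1, hu2⟩, hu3⟩ := hu
        rw [Finset.mem_coe, Finset.mem_filter]
        refine ⟨hu1 k, ?_⟩
        rw [Multiset.mem_toFinset, Polynomial.mem_roots hfmonic.ne_zero, Polynomial.IsRoot.def]
        -- the p-adic integer
        have huw : ∀ i, i ≠ k → u i = w i := by
          intro i hi
          rw [← hu3, Function.update_of_ne hi]
        set g : ℤ_[p] := ((u k : ℤ) : ℤ_[p]) ^ K +
          ∑ s ∈ Finset.Icc 1 K, e s * ((u k : ℤ) : ℤ_[p]) ^ (K - s) with hgdef
        have hgval : (g : ℚ_[p]) = ((eval (fun i => (u i : ℚ)) (A.G L k) : ℚ) : ℚ_[p]) := by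
          rw [hgdef, GPData.G]
          simp only [map_add, map_pow, map_sum, map_mul, eval_X]
          push_cast
          congr 1
          rw [PadicInt.coe_sum]
          apply Finset.sum_congr rfl
          intro s hs
          rw [Finset.mem_Icc] at hs
          rw [PadicInt.coe_mul, PadicInt.coe_pow, PadicInt.coe_intCast]
          congr 1
          have h1 : ‖((eval (fun i => (w i : ℚ)) (homogeneousComponent s (A.a L k s)) : ℚ) :
              ℚ_[p])‖ ≤ 1 := norm_eval_le _ (fun α => hg L hL k s hs.2 α) s w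
          rw [he]
          simp only [h1, dif_pos]
          rw [eval_update hk (A.a L k s) (A.hvars L k s) s u w huw]
        have hgnorm : ‖g‖ ≠ 1 := by
          rw [PadicInt.norm_def, hgval, Padic.eq_padicNorm]
          exact_mod_cast hu2
        have hg0 : PadicInt.toZMod g = 0 := by
          have h1 : ‖g‖ < 1 := lt_of_le_of_ne (PadicInt.norm_le_one g) hgnorm
          rw [← RingHom.mem_ker, PadicInt.ker_toZMod, IsLocalRing.mem_maximalIdeal,
            PadicInt.mem_nonunits]
          exact h1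
        rw [hf, ← hg0, hgdef]
        simp only [Polynomial.eval_add, Polynomial.eval_pow, Polynomial.eval_X,
          Polynomial.eval_finsetSum, Polynomial.eval_mul, Polynomial.eval_C, map_add, map_pow,
          map_sum, map_mul, map_intCast]
      · intro u hu u' hu' huu
        rw [Finset.mem_coe, Finset.mem_filter] at hu hu'
        funext i
        by_cases hi : i = k
        · subst hi; exact huu
        · have h1 := congrFun (hu.2.trans hu'.2.symm) i
          rwa [Function.update_of_ne hi, Function.update_of_ne hi] at h1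
    refine hinj.trans ?_
    calc ((Finset.Icc (-(H : ℤ)) H).filter fun t => ((t : ℤ) : ZMod p) ∈ f.roots.toFinset).card
        ≤ (f.roots.toFinset.biUnion fun r =>
            (Finset.Icc (-(H : ℤ)) H).filter fun t => ((t : ℤ) : ZMod p) = r).card := by
          apply Finset.card_le_card
          intro t ht
          rw [Finset.mem_filter] at ht
          rw [Finset.mem_biUnion]
          exact ⟨_, ht.2, Finset.mem_filter.2 ⟨ht.1, rfl⟩⟩
      _ ≤ f.roots.toFinset.card * m :=
          Finset.card_biUnion_le_card_mul _ _ _ fun r _ => card_class p H r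
      _ ≤ K * m := Nat.mul_le_mul_right _ hroots
  have hcard : S.card ≤ (K * m) * T.card :=
    Finset.card_le_mul_card_image_of_maps_to hmaps (K * m) hfib
  have hp0 : (0 : ℝ) < p := by exact_mod_cast hp.pos
  have hm2 : (m : ℝ) ≤ 2 * ((2 * (H : ℝ) + 1) / p) := by
    have h1 : (m : ℝ) < (2 * (H : ℝ) + 1) / p + 1 := Nat.ceil_lt_add_one (by positivity)
    have h2 : (1 : ℝ) ≤ (2 * (H : ℝ) + 1) / p := by
      rw [one_le_div hp0]
      exact_mod_cast hH
    linarith
  calc (S.card : ℝ) ≤ ((K * m * T.card : ℕ) : ℝ) := by exact_mod_cast hcard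
    _ = K * m * T.card := by push_cast; ring
    _ ≤ K * (2 * ((2 * (H : ℝ) + 1) / p)) * T.card := by gcongr
    _ = 2 * K * (T.card * (2 * (H : ℝ) + 1)) / p := by ring
    _ = 2 * K * (2 * (H : ℝ) + 1) ^ n / p := by rw [hTcard]

end Pool.Agent.ZPS
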