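import Mathlib

/-!
# ZPS module 23: windows of primes

`φ(M)/M = ∏_{p ∣ M} (1 - 1/p) ≤ exp(-∑_{p ∣ M} 1/p)` for a product `M` of distinct primes, and
`∑ 1/p` diverges (`Nat.Primes.not_summable_one_div`). Induction on `k` for the windows.
-/

namespace Pool.Agent.ZPS

/-- the totient of a product of distinct primes -/
lemma totient_prod_primes (W : Finset ℕ) (hW : ∀ p ∈ W, p.Prime) :
    (∏ p ∈ W, p).totient = ∏ p ∈ W, (p - 1) := by
  classical
  induction W using Finset.induction_on with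
  | empty => simp
  | insert a s ha ih =>
    rw [Finset.prod_insert ha, Finset.prod_insert ha, Nat.totient_mul, ih fun p hp =>
      hW p (Finset.mem_insert_of_mem hp), Nat.totient_prime (hW a (Finset.mem_insert_self _ _))]
    refine Nat.Coprime.prod_right fun p hp => ?_
    refine (Nat.coprime_primes (hW a (Finset.mem_insert_self _ _))
      (hW p (Finset.mem_insert_of_mem hp))).2 ?_
    rintro rfl
    exact ha hp

/-- finite sums of reciprocals of primes beyond any bound -/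
lemma exists_sum_ge (P₀ : ℕ) (B : ℝ) : ∃ W : Finset ℕ,
    (∀ p ∈ W, p.Prime ∧ P₀ ≤ p) ∧ B ≤ ∑ p ∈ W, (1 : ℝ) / p := by
  classical
  by_contra hcon
  push Not at hcon
  apply not_summable_one_div_on_primes
  have hnn : ∀ n : ℕ, 0 ≤ Set.indicator {p : ℕ | p.Prime} (fun n : ℕ => (1 : ℝ) / n) n := by
    intro n
    apply Set.indicator_nonneg
    intro x _
    positivity
  refine summable_of_sum_le (c := (∑ p ∈ Finset.range P₀,
    Set.indicator {p : ℕ | p.Prime} (fun n : ℕ => (1 : ℝ) / n) p) + B) hnn fun u => ?_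
  rw [← Finset.sum_filter_add_sum_filter_not u (fun n => n < P₀)]
  apply add_le_add
  · apply Finset.sum_le_sum_of_subset_of_nonneg
    · intro n hn
      rw [Finset.mem_filter] at hn
      exact Finset.mem_range.2 hn.2
    · intro i _ _
      exact hnn i
  · have h1 := hcon ((u.filter fun n => ¬ n < P₀).filter fun n => n.Prime) (by
      intro p hp
      rw [Finset.mem_filter, Finset.mem_filter] at hp
      exact ⟨hp.2, not_lt.1 hp.1.2⟩)
    refine le_trans (le_of_eq ?_) h1.le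
    rw [Finset.sum_filter (s := u.filter fun n => ¬ n < P₀) (fun n : ℕ => n.Prime)]
    apply Finset.sum_congr rfl
    intro n _
    by_cases hn : n.Prime
    · rw [Set.indicator_of_mem (show n ∈ {p : ℕ | p.Prime} from hn), if_pos hn]
    · rw [Set.indicator_of_notMem (show n ∉ {p : ℕ | p.Prime} from hn), if_neg hn]

theorem exists_window (P₀ : ℕ) {δ : ℝ} (hδ : 0 < δ) : ∃ W : Finset ℕ,
    (∀ p ∈ W, p.Prime ∧ P₀ ≤ p) ∧ ((∏ p ∈ W, p).totient : ℝ) ≤ δ * ∏ p ∈ W, (p : ℝ) := by
  obtain ⟨W, hW, hB⟩ := exists_sum_ge P₀ (-Real.log δ)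
  refine ⟨W, hW, ?_⟩
  rw [totient_prod_primes W fun p hp => (hW p hp).1, Nat.cast_prod]
  have h1 : ∏ p ∈ W, (((p - 1 : ℕ) : ℕ) : ℝ) ≤ ∏ p ∈ W, (Real.exp (-(1 / (p : ℝ))) * (p : ℝ)) := by
    apply Finset.prod_le_prod
    · intro i _
      positivity
    · intro p hp
      have hp1 : 1 ≤ p := (hW p hp).1.one_lt.le
      have hp0 : (0 : ℝ) < p := by exact_mod_cast hp1
      rw [Nat.cast_sub hp1, Nat.cast_one]
      have h2 := Real.add_one_le_exp (-(1 / (p : ℝ)))
      calc (p : ℝ) - 1 = (-(1 / (p : ℝ)) + 1) * p := by field_simp; ring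
        _ ≤ Real.exp (-(1 / (p : ℝ))) * p := mul_le_mul_of_nonneg_right h2 hp0.le
  refine h1.trans ?_
  rw [Finset.prod_mul_distrib, ← Real.exp_sum]
  apply mul_le_mul_of_nonneg_right _ (Finset.prod_nonneg fun i _ => Nat.cast_nonneg i)
  rw [Finset.sum_neg_distrib]
  calc Real.exp (-∑ p ∈ W, 1 / (p : ℝ)) ≤ Real.exp (Real.log δ) := by
        apply Real.exp_le_exp.2
        linarith
    _ = δ := Real.exp_log hδ

theorem exists_windows (k D P₀ : ℕ) {δ : ℝ} (hδ : 0 < δ) : ∃ W : Fin k → Finset ℕ,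
    (∀ j, ∀ p ∈ W j, p.Prime ∧ P₀ ≤ p) ∧
    (∀ j, ((∏ p ∈ W j, p).totient : ℝ) ≤ δ * ∏ p ∈ W j, (p : ℝ)) ∧
    ∀ i j, i < j → ∀ p ∈ W i, ∀ q ∈ W j, p ^ D < q := by
  induction k with
  | zero => exact ⟨fun i => i.elim0, fun i => i.elim0, fun i => i.elim0, fun i => i.elim0⟩
  | succ k ih =>
    obtain ⟨W, h1, h2, h3⟩ := ih
    obtain ⟨V, hV1, hV2⟩ := exists_window
      (P₀ + 1 + ∑ i : Fin k, ∑ p ∈ W i, p ^ D) hδ
    refine ⟨Fin.snoc W V, ?_, ?_, ?_⟩
    · intro j
      refine Fin.lastCases ?_ (fun i => ?_) j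
      · intro p hp
        rw [Fin.snoc_last] at hp
        exact ⟨(hV1 p hp).1, by have := (hV1 p hp).2; omega⟩
      · intro p hp
        rw [Fin.snoc_castSucc] at hp
        exact h1 i p hp
    · intro j
      refine Fin.lastCases ?_ (fun i => ?_) j
      · rw [Fin.snoc_last]
        exact hV2
      · rw [Fin.snoc_castSucc]
        exact h2 i
    · intro i j
      refine Fin.lastCases ?_ (fun j' => ?_) j
      · intro hij p hp q hq
        rw [Fin.snoc_last] at hq
        obtain ⟨i', rfl⟩ : ∃ i' : Fin k, i = i'.castSucc :=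
          ⟨i.castLT hij, (Fin.castSucc_castLT i hij).symm⟩
        rw [Fin.snoc_castSucc] at hp
        have h4 := (hV1 q hq).2
        have h5 : p ^ D ≤ ∑ p ∈ W i', p ^ D :=
          Finset.single_le_sum (f := fun p => p ^ D) (fun _ _ => Nat.zero_le _) hp
        have h6 : ∑ p ∈ W i', p ^ D ≤ ∑ i : Fin k, ∑ p ∈ W i, p ^ D :=
          Finset.single_le_sum (f := fun i => ∑ p ∈ W i, p ^ D) (fun _ _ => Nat.zero_le _)
            (Finset.mem_univ i')
        omega
      · intro hij p hp q hq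
        rw [Fin.snoc_castSucc] at hq
        obtain ⟨i', rfl⟩ : ∃ i' : Fin k, i = i'.castSucc := by
          have : (i : ℕ) < k := lt_trans hij j'.isLt
          exact ⟨i.castLT this, (Fin.castSucc_castLT i this).symm⟩
        rw [Fin.snoc_castSucc] at hp
        exact h3 i' j' (Fin.castSucc_lt_castSucc_iff.1 hij) p hp q hq

/-- tails of `∑ 1/p²` -/
theorem exists_tail {δ : ℝ} (hδ : 0 < δ) : ∃ P₀ : ℕ, ∀ W : Finset ℕ, (∀ p ∈ W, P₀ ≤ p) →
    ∑ p ∈ W, (1 : ℝ) / (p : ℝ) ^ 2 ≤ δ := by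
  classical
  have hs : Summable fun n : ℕ => (1 : ℝ) / (n : ℝ) ^ 2 :=
    Real.summable_one_div_nat_pow.2 (by norm_num)
  have h1 := hs.vanishing (Metric.ball_mem_nhds (0 : ℝ) hδ)
  obtain ⟨s, hs'⟩ := h1
  refine ⟨s.sup id + 1, fun W hW => ?_⟩
  have h2 : Disjoint W s := by
    rw [Finset.disjoint_left]
    intro p hp hps
    have h3 := hW p hp
    have h4 : p ≤ s.sup id := Finset.le_sup (f := id) hps
    omega
  have h3 := hs' W h2
  rw [Metric.mem_ball, dist_zero_right, Real.norm_eq_abs] at h3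
  exact (le_abs_self _).trans h3.le

end Pool.Agent.ZPS
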