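import Pool.Agent.ZPS.DensA
import Pool.Agent.ZPS.DensB

/-!
# ZPS module 25: for a fixed direction `u` almost all denominators `m` are good

Simpler than `density`: `u` is fixed and the rational numbers `G_{L,k}(u)` (`L.card = d`, `k ∉ L`) are
nonzero, so `padicNorm p (G_{L,k}(u)) = 1` for all but finitely many `p`. Choose `P₀` such that for all
primes `p ≥ P₀`: this holds, `p` is good for `A` (`goodAt_large`), `log p ≥ B`, and
`∑_{p ∈ W} 1/p² ≤ ε/3` for finite sets `W` of numbers `≥ P₀` (`exists_tail`). Windows `W_j` from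
`exists_windows` with `δ = ε / (3 (k+1))`. If `1 ≤ m ≤ H` is not good then `p² ∣ m` for some `p ∈ ∪ W_j`
(at most `H/p²` such `m`) or `m` is coprime to `M_j = ∏_{p ∈ W_j} p` for some `j` (at most
`φ(M_j) (H/M_j + 1)` such `m`, `Nat.Ico_filter_coprime_le`).
-/

namespace Pool.Agent.ZPS

open MvPolynomial

variable {n d : ℕ}

/-- a homogeneous component of positive degree vanishes where the variables vanish -/
private theorem eval_comp_zero {L : Finset (Fin n)} (P : MvPolynomial (Fin n) ℚ) (hP : P.vars ⊆ L)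
    {s : ℕ} (hs : 1 ≤ s) (y : Fin n → ℚ) (hy : ∀ i ∈ L, y i = 0) :
    eval y (homogeneousComponent s P) = 0 := by
  classical
  rw [eval_eq']
  refine Finset.sum_eq_zero fun α hα => ?_
  have h1 : coeff α (homogeneousComponent s P) ≠ 0 := mem_support_iff.1 hα
  rw [coeff_homogeneousComponent] at h1
  have h2 : α.degree = s := by
    by_contra h
    exact h1 (if_neg h)
  have h3 : coeff α P ≠ 0 := by
    intro h
    rw [if_pos h2] at h1
    exact h1 h
  have h4 : α ≠ 0 := by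
    rintro rfl
    rw [map_zero] at h2
    omega
  obtain ⟨i, hi⟩ := Finsupp.ne_iff.1 h4
  have hi' : α i ≠ 0 := by simpa using hi
  have h5 : i ∈ L := by
    apply hP
    rw [mem_vars_iff_mem_support]
    exact ⟨α, mem_support_iff.2 h3, Finsupp.mem_support_iff.2 hi'⟩
  have h6 : ∏ i, y i ^ α i = 0 :=
    Finset.prod_eq_zero (Finset.mem_univ i) (by rw [hy i h5, zero_pow hi'])
  rw [h6, mul_zero]

/-- `G_{L,k} ≠ 0` for `k ∉ L`: it is monic in `X_k` -/
theorem G_ne_zero (A : GPData n d) {L : Finset (Fin n)} {k : Fin n} (hk : k ∉ L) :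
    A.G L k ≠ 0 := by
  classical
  intro h
  have h1 : eval (Pi.single k (1 : ℚ)) (A.G L k) = 1 := by
    rw [GPData.G, map_add, map_pow, eval_X, Pi.single_eq_same, one_pow, map_sum]
    rw [Finset.sum_eq_zero, add_zero]
    intro s hs
    rw [Finset.mem_Icc] at hs
    rw [map_mul, eval_comp_zero (A.a L k s) (A.hvars L k s) hs.1, zero_mul]
    intro i hi
    exact Pi.single_eq_of_ne (by rintro rfl; exact hk hi) _
  rw [h, map_zero] at h1
  exact zero_ne_one h1

/-- the `p`-adic norm of a nonzero rational number is one for large `p` -/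
private theorem padicNorm_large (q : ℚ) (hq : q ≠ 0) {p : ℕ} (hp : p.Prime)
    (h : q.num.natAbs + q.den < p) : padicNorm p q = 1 := by
  have : Fact p.Prime := ⟨hp⟩
  have h1 : ¬ p ∣ q.num.natAbs := by
    intro hd
    have := Nat.le_of_dvd (Int.natAbs_pos.2 (Rat.num_ne_zero.2 hq)) hd
    omega
  have h2 : ¬ p ∣ q.den := by
    intro hd
    have := Nat.le_of_dvd q.den_pos hd
    omega
  rw [padicNorm.eq_zpow_of_nonzero hq, padicValRat]
  rw [show padicValInt p q.num = 0 from padicValNat.eq_zero_of_not_dvd h1,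
    padicValNat.eq_zero_of_not_dvd h2]
  simp

private theorem exists_bound_G (A : GPData n d) (u : Fin n → ℤ)
    (hu : ∀ L : Finset (Fin n), L.card = d → ∀ k', k' ∉ L →
      eval (fun i => (u i : ℚ)) (A.G L k') ≠ 0) :
    ∃ P₁ : ℕ, ∀ p : ℕ, p.Prime → P₁ ≤ p → ∀ L : Finset (Fin n), L.card = d → ∀ k', k' ∉ L →
        padicNorm p (eval (fun i => (u i : ℚ)) (A.G L k')) = 1 := by
  classical
  set q : Finset (Fin n) → Fin n → ℚ := fun L k' => eval (fun i => (u i : ℚ)) (A.G L k') with hq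
  refine ⟨1 + ∑ L : Finset (Fin n), ∑ k : Fin n, ((q L k).num.natAbs + (q L k).den), ?_⟩
  intro p hp hP L hL k hk
  apply padicNorm_large _ (hu L hL k hk) hp
  have e1 : (q L k).num.natAbs + (q L k).den ≤
      ∑ k : Fin n, ((q L k).num.natAbs + (q L k).den) :=
    Finset.single_le_sum (f := fun k => (q L k).num.natAbs + (q L k).den)
      (fun _ _ => Nat.zero_le _) (Finset.mem_univ k)
  have e2 : ∑ k : Fin n, ((q L k).num.natAbs + (q L k).den) ≤
      ∑ L : Finset (Fin n), ∑ k : Fin n, ((q L k).num.natAbs + (q L k).den) :=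
    Finset.single_le_sum (f := fun L => ∑ k : Fin n, ((q L k).num.natAbs + (q L k).den))
      (fun _ _ => Nat.zero_le _) (Finset.mem_univ L)
  change (q L k).num.natAbs + (q L k).den < p
  omega

theorem density_fixed (A : GPData n d) (D k : ℕ) (B : ℝ) (u : Fin n → ℤ)
    (hu : ∀ L : Finset (Fin n), L.card = d → ∀ k', k' ∉ L →
      eval (fun i => (u i : ℚ)) (A.G L k') ≠ 0) {ε : ℝ} (hε : 0 < ε) :
    ∀ᶠ H : ℕ in Filter.atTop,
      (Set.ncard {m : ℕ | 1 ≤ m ∧ m ≤ H ∧ ¬ A.GoodShift D k B u m} : ℝ) ≤ ε * H := by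
  classical
  obtain ⟨Pa, hPa⟩ := goodAt_large A
  obtain ⟨Pb, hPb⟩ := exists_bound_G A u hu
  obtain ⟨Pc, hPc⟩ := exists_tail (δ := ε / 3) (by positivity)
  set P₀ : ℕ := Pa + Pb + Pc + ⌈Real.exp B⌉₊ with hP₀
  have hδ : 0 < ε / (3 * ((k : ℝ) + 1)) := by positivity
  obtain ⟨W, hW1, hW2, hW3⟩ := exists_windows k D P₀ hδ
  set M : Fin k → ℕ := fun j => ∏ p ∈ W j, p with hM
  have hMpos : ∀ j, 0 < M j := fun j => Finset.prod_pos fun p hp => (hW1 j p hp).1.pos
  set U : Finset ℕ := Finset.univ.biUnion W with hU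
  set c : ℝ := ∑ j : Fin k, ((M j).totient : ℝ) with hc
  have hev : ∀ᶠ H : ℕ in Filter.atTop, 3 * c / ε ≤ (H : ℝ) :=
    tendsto_natCast_atTop_atTop.eventually_ge_atTop _
  filter_upwards [hev] with H hH
  have hcH : c ≤ ε / 3 * H := by
    rw [div_le_iff₀ hε] at hH
    linarith
  -- the covering set
  set T : Finset ℕ := (U.biUnion fun p => (Finset.Ioc 0 H).filter fun m => p ^ 2 ∣ m) ∪
    (Finset.univ.biUnion fun j : Fin k => (Finset.Ico 1 (1 + H)).filter fun m =>
      (M j).Coprime m) with hT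
  have hsub : {m : ℕ | 1 ≤ m ∧ m ≤ H ∧ ¬ A.GoodShift D k B u m} ⊆ (T : Set ℕ) := by
    rintro m ⟨hm1, hmH, hbad⟩
    by_contra hmT
    apply hbad
    rw [Finset.mem_coe, hT, Finset.mem_union, not_or, Finset.mem_biUnion, Finset.mem_biUnion] at hmT
    obtain ⟨hA, hB⟩ := hmT
    have hsq : ∀ j, ∀ p ∈ W j, ¬ p ^ 2 ∣ m := by
      intro j p hp hd
      exact hA ⟨p, Finset.mem_biUnion.2 ⟨j, Finset.mem_univ j, hp⟩,
        Finset.mem_filter.2 ⟨Finset.mem_Ioc.2 ⟨hm1, hmH⟩, hd⟩⟩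
    have hdv : ∀ j : Fin k, ∃ p ∈ W j, p ∣ m := by
      intro j
      by_contra hcon
      push Not at hcon
      apply hB
      refine ⟨j, Finset.mem_univ j, Finset.mem_filter.2 ⟨Finset.mem_Ico.2 ⟨hm1, by omega⟩, ?_⟩⟩
      exact Nat.Coprime.prod_left fun p hp => ((hW1 j p hp).1.coprime_iff_not_dvd).2 (hcon p hp)
    choose p hp hpm using hdv
    refine ⟨p, fun j => ?_, fun i j hij => hW3 i j hij _ (hp i) _ (hp j)⟩
    obtain ⟨hpp, hpP⟩ := hW1 j (p j) (hp j)
    refine ⟨hpp, ?_, hpm j, hsq j _ (hp j), hPa _ hpp (by omega), hPb _ hpp (by omega)⟩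
    rw [Real.le_log_iff_exp_le (by exact_mod_cast hpp.pos)]
    calc Real.exp B ≤ (⌈Real.exp B⌉₊ : ℝ) := Nat.le_ceil _
      _ ≤ (p j : ℝ) := by exact_mod_cast (by omega : ⌈Real.exp B⌉₊ ≤ p j)
  have hcard1 : Set.ncard {m : ℕ | 1 ≤ m ∧ m ≤ H ∧ ¬ A.GoodShift D k B u m} ≤ T.card := by
    rw [← Set.ncard_coe_finset]
    exact Set.ncard_le_ncard hsub T.finite_toSet
  have hT1 : (((U.biUnion fun p => (Finset.Ioc 0 H).filter fun m => p ^ 2 ∣ m)).card : ℝ) ≤
      ε / 3 * H := by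
    have h1 : (U.biUnion fun p => (Finset.Ioc 0 H).filter fun m => p ^ 2 ∣ m).card ≤
        ∑ p ∈ U, H / p ^ 2 := by
      refine Finset.card_biUnion_le.trans (le_of_eq ?_)
      refine Finset.sum_congr rfl fun p _ => ?_
      rw [Nat.Ioc_filter_dvd_card_eq_div]
    have h2 : ((∑ p ∈ U, H / p ^ 2 : ℕ) : ℝ) ≤ ∑ p ∈ U, (H : ℝ) * (1 / (p : ℝ) ^ 2) := by
      rw [Nat.cast_sum]
      refine Finset.sum_le_sum fun p _ => ?_
      refine (Nat.cast_div_le).trans (le_of_eq ?_)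
      push_cast
      ring
    have h3 : ∑ p ∈ U, (1 : ℝ) / (p : ℝ) ^ 2 ≤ ε / 3 := by
      apply hPc
      intro p hp
      obtain ⟨j, _, hj⟩ := Finset.mem_biUnion.1 hp
      have := (hW1 j p hj).2
      omega
    calc (((U.biUnion fun p => (Finset.Ioc 0 H).filter fun m => p ^ 2 ∣ m)).card : ℝ)
        ≤ ((∑ p ∈ U, H / p ^ 2 : ℕ) : ℝ) := by exact_mod_cast h1
      _ ≤ ∑ p ∈ U, (H : ℝ) * (1 / (p : ℝ) ^ 2) := h2
      _ = (H : ℝ) * ∑ p ∈ U, (1 : ℝ) / (p : ℝ) ^ 2 := by rw [Finset.mul_sum]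
      _ ≤ (H : ℝ) * (ε / 3) := by gcongr
      _ = ε / 3 * H := by ring
  have hT2 : (((Finset.univ.biUnion fun j : Fin k => (Finset.Ico 1 (1 + H)).filter fun m =>
      (M j).Coprime m)).card : ℝ) ≤ ε / 3 * H + ε / 3 * H := by
    have h1 : (Finset.univ.biUnion fun j : Fin k => (Finset.Ico 1 (1 + H)).filter fun m =>
      (M j).Coprime m).card ≤ ∑ j : Fin k, (M j).totient * (H / M j + 1) := by
      refine Finset.card_biUnion_le.trans (Finset.sum_le_sum fun j _ => ?_)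
      exact Nat.Ico_filter_coprime_le 1 H (hMpos j).ne'
    have h2 : ((∑ j : Fin k, (M j).totient * (H / M j + 1) : ℕ) : ℝ) ≤
        ∑ j : Fin k, (ε / (3 * ((k : ℝ) + 1)) * H + ((M j).totient : ℝ)) := by
      rw [Nat.cast_sum]
      refine Finset.sum_le_sum fun j _ => ?_
      have hMj : (0 : ℝ) < M j := by exact_mod_cast hMpos j
      have h3 : ((M j).totient : ℝ) ≤ ε / (3 * ((k : ℝ) + 1)) * M j := by
        have := hW2 j
        rw [← Nat.cast_prod] at this
        exact this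
      have h4 : ((H / M j : ℕ) : ℝ) ≤ (H : ℝ) / M j := Nat.cast_div_le
      push_cast
      calc ((M j).totient : ℝ) * (((H / M j : ℕ) : ℝ) + 1)
          = ((M j).totient : ℝ) * ((H / M j : ℕ) : ℝ) + ((M j).totient : ℝ) := by ring
        _ ≤ (ε / (3 * ((k : ℝ) + 1)) * M j) * ((H : ℝ) / M j) + ((M j).totient : ℝ) := by
            gcongr
        _ = ε / (3 * ((k : ℝ) + 1)) * H + ((M j).totient : ℝ) := by field_simp
    have h5 : ∑ j : Fin k, (ε / (3 * ((k : ℝ) + 1)) * H + ((M j).totient : ℝ)) ≤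
        ε / 3 * H + ε / 3 * H := by
      rw [Finset.sum_add_distrib, ← hc, Finset.sum_const, Finset.card_univ, Fintype.card_fin,
        nsmul_eq_mul]
      have h6 : (k : ℝ) * (ε / (3 * ((k : ℝ) + 1)) * H) ≤ ε / 3 * H := by
        have h7 : (k : ℝ) * (ε / (3 * ((k : ℝ) + 1)) * H) =
            ε / 3 * H * ((k : ℝ) / ((k : ℝ) + 1)) := by field_simp
        rw [h7]
        have h8 : (k : ℝ) / ((k : ℝ) + 1) ≤ 1 := by
          rw [div_le_one (by positivity)]; linarith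
        calc ε / 3 * H * ((k : ℝ) / ((k : ℝ) + 1)) ≤ ε / 3 * H * 1 := by gcongr
          _ = ε / 3 * H := mul_one _
      exact add_le_add h6 hcH
    calc (((Finset.univ.biUnion fun j : Fin k => (Finset.Ico 1 (1 + H)).filter fun m =>
        (M j).Coprime m)).card : ℝ)
        ≤ ((∑ j : Fin k, (M j).totient * (H / M j + 1) : ℕ) : ℝ) := by exact_mod_cast h1
      _ ≤ _ := h2
      _ ≤ _ := h5
  have hTc : (T.card : ℝ) ≤ ε / 3 * H + (ε / 3 * H + ε / 3 * H) := by
    calc (T.card : ℝ) ≤ (((U.biUnion fun p => (Finset.Ioc 0 H).filter fun m => p ^ 2 ∣ m)).card +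
        ((Finset.univ.biUnion fun j : Fin k => (Finset.Ico 1 (1 + H)).filter fun m =>
          (M j).Coprime m)).card : ℕ) := by exact_mod_cast Finset.card_union_le _ _
      _ ≤ _ := by push_cast; exact add_le_add hT1 hT2
  calc (Set.ncard {m : ℕ | 1 ≤ m ∧ m ≤ H ∧ ¬ A.GoodShift D k B u m} : ℝ) ≤ T.card := by
        exact_mod_cast hcard1
    _ ≤ _ := hTc
    _ = ε * H := by ring

end Pool.Agent.ZPS
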