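import Pool.Agent.ZPS.DensA
import Pool.Agent.ZPS.DensB

/-!
# ZPS module 24: almost all shifts are good

Choose `P₀` such that all primes `p ≥ P₀` are good for `A` and satisfy `log p ≥ B`, and
`(1 + 2 C) ∑_{p ∈ W} 1/p² ≤ ε/4` for all finite sets `W` of numbers `≥ P₀` (`exists_tail`), with
`C = ∑_{L,k} A.K L k`; windows `W_j` from `exists_windows` with `δ = ε / (4 (k+1))`, `M_j = ∏_{p ∈ W_j} p`,
`W = ∪ W_j`. If `(u,m)` (in the box) is not a good shift, then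
* `p² ∣ m` for some `p ∈ W` (at most `H/p²` values of `m`), or
* `p ∣ m` and `padicNorm p (G_{L,k}(u)) ≠ 1` for some `p ∈ W`, `L`, `k ∉ L` (at most
  `(H/p) · 2 K (2H+1)^n/p` pairs, `count_zero`), or
* `m` is coprime to `M_j` for some `j` (`Nat.Ico_filter_coprime_le`: at most `φ(M_j) (H/M_j + 1)` values
  of `m`).
Indeed otherwise choose for each `j` a prime `p_j ∈ W_j` dividing `m`. The total is at most
`(2H+1)^n H (∑_{p ∈ W} (1 + 2C)/p² + ∑_j φ(M_j)/M_j + ∑_j φ(M_j)/H)`, and `∑_j φ(M_j)/H ≤ ε/4` for `H` large.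
-/

namespace Pool.Agent.ZPS

open MvPolynomial

variable {n d : ℕ}

/-- number of multiples -/
lemma dens_card_dvd (H q : ℕ) : (((Finset.Ioc 0 H).filter fun m => q ∣ m).card : ℝ) ≤ H / q := by
  rw [Nat.Ioc_filter_dvd_card_eq_div]
  exact Nat.cast_div_le

/-- number of integers coprime to `M` -/
lemma dens_card_coprime (H : ℕ) {M : ℕ} (hM : 0 < M) :
    (((Finset.Ioc 0 H).filter fun m => M.Coprime m).card : ℝ) ≤
      M.totient * ((H : ℝ) / M + 1) := by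
  have h1 := Nat.Ico_filter_coprime_le 1 H hM.ne'
  have h2 : Finset.Ico 1 (1 + H) = Finset.Ioc 0 H := by
    ext x
    simp only [Finset.mem_Ico, Finset.mem_Ioc]
    omega
  rw [h2] at h1
  have h3 : (((Finset.Ioc 0 H).filter fun m => M.Coprime m).card : ℝ) ≤
      ((M.totient * (H / M + 1) : ℕ) : ℝ) := by exact_mod_cast h1
  refine h3.trans ?_
  push_cast
  gcongr
  exact Nat.cast_div_le

/-- number of points of the box -/
lemma dens_card_box (n H : ℕ) :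
    ((Fintype.piFinset fun _ : Fin n => Finset.Icc (-(H : ℤ)) H).card : ℝ) =
      (2 * (H : ℝ) + 1) ^ n := by
  rw [Fintype.card_piFinset]
  simp only [Int.card_Icc, Finset.prod_const, Finset.card_univ, Fintype.card_fin]
  have h : ((H : ℤ) + 1 - -(H : ℤ)).toNat = 2 * H + 1 := by omega
  rw [h]
  push_cast
  ring

theorem density (A : GPData n d) (D k : ℕ) (B : ℝ) {ε : ℝ} (hε : 0 < ε) :
    ∀ᶠ H : ℕ in Filter.atTop,
      (Set.ncard {um : (Fin n → ℤ) × ℕ | (∀ i, |um.1 i| ≤ (H : ℤ)) ∧ 1 ≤ um.2 ∧ um.2 ≤ H ∧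
        ¬ A.GoodShift D k B um.1 um.2} : ℝ) ≤ ε * ((2 * (H : ℝ) + 1) ^ n * H) := by
  classical
  obtain ⟨P₁, hP₁⟩ := goodAt_large A
  set C : ℝ := ∑ L : Finset (Fin n), ∑ k' : Fin n, (A.K L k' : ℝ) with hC
  have hC0 : 0 ≤ C := Finset.sum_nonneg fun L _ => Finset.sum_nonneg fun k' _ => Nat.cast_nonneg _
  obtain ⟨P₃, hP₃⟩ := exists_tail (δ := ε / (4 * (1 + 2 * C))) (by positivity)
  obtain ⟨P₀, hP₀1, hP₀2, hP₀3⟩ : ∃ P₀ : ℕ, P₁ ≤ P₀ ∧ P₃ ≤ P₀ ∧ ⌈Real.exp B⌉₊ ≤ P₀ :=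
    ⟨max (max P₁ P₃) ⌈Real.exp B⌉₊, (le_max_left _ _).trans (le_max_left _ _),
      (le_max_right _ _).trans (le_max_left _ _), le_max_right _ _⟩
  obtain ⟨W, hW1, hW2, hW3⟩ := exists_windows k D P₀ (δ := ε / (4 * (k + 1))) (by positivity)
  set WW : Finset ℕ := Finset.univ.biUnion W with hWW
  have hWW1 : ∀ p ∈ WW, p.Prime ∧ P₀ ≤ p := by
    intro p hp
    rw [hWW, Finset.mem_biUnion] at hp
    obtain ⟨j, _, hj⟩ := hp
    exact hW1 j p hj
  set M : Fin k → ℕ := fun j => ∏ p ∈ W j, p with hM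
  have hMpos : ∀ j, 0 < M j := fun j => Finset.prod_pos fun p hp => (hW1 j p hp).1.pos
  filter_upwards [Filter.eventually_ge_atTop (1 + WW.sup id +
    ⌈4 / ε * ∑ j, ((M j).totient : ℝ)⌉₊)] with H hH
  have hH1 : 1 ≤ H := by omega
  have hHR : (1 : ℝ) ≤ H := by exact_mod_cast hH1
  have hH2 : ∀ p ∈ WW, p ≤ 2 * H + 1 := by
    intro p hp
    have : p ≤ WW.sup id := Finset.le_sup (f := id) hp
    omega
  have hH3 : ∑ j, ((M j).totient : ℝ) ≤ ε / 4 * H := by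
    have h1 : 4 / ε * ∑ j, ((M j).totient : ℝ) ≤ (⌈4 / ε * ∑ j, ((M j).totient : ℝ)⌉₊ : ℝ) :=
      Nat.le_ceil _
    have h2 : (⌈4 / ε * ∑ j, ((M j).totient : ℝ)⌉₊ : ℝ) ≤ H := by exact_mod_cast (by omega :
      ⌈4 / ε * ∑ j, ((M j).totient : ℝ)⌉₊ ≤ H)
    have h3 := h1.trans h2
    calc ∑ j, ((M j).totient : ℝ) = ε / 4 * (4 / ε * ∑ j, ((M j).totient : ℝ)) := by
          field_simp
      _ ≤ ε / 4 * H := mul_le_mul_of_nonneg_left h3 (by positivity)
  set U : Finset (Fin n → ℤ) := Fintype.piFinset fun _ : Fin n => Finset.Icc (-(H : ℤ)) H with hU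
  set V : ℝ := (2 * (H : ℝ) + 1) ^ n with hV
  have hV0 : 0 ≤ V := by positivity
  have hUc : (U.card : ℝ) = V := dens_card_box n H
  set F1 : Finset ((Fin n → ℤ) × ℕ) := WW.biUnion fun p =>
    U ×ˢ (Finset.Ioc 0 H).filter fun m => p ^ 2 ∣ m with hF1
  set F2 : Finset ((Fin n → ℤ) × ℕ) := WW.biUnion fun p =>
    (Finset.univ.filter fun L : Finset (Fin n) => L.card = d).biUnion fun L =>
      (Finset.univ.filter fun k' : Fin n => k' ∉ L).biUnion fun k' =>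
        (U.filter fun u => padicNorm p (eval (fun i => (u i : ℚ)) (A.G L k')) ≠ 1) ×ˢ
          (Finset.Ioc 0 H).filter fun m => p ∣ m with hF2
  set F3 : Finset ((Fin n → ℤ) × ℕ) := Finset.univ.biUnion fun j =>
    U ×ˢ (Finset.Ioc 0 H).filter fun m => (M j).Coprime m with hF3
  have hsub : {um : (Fin n → ℤ) × ℕ | (∀ i, |um.1 i| ≤ (H : ℤ)) ∧ 1 ≤ um.2 ∧ um.2 ≤ H ∧
        ¬ A.GoodShift D k B um.1 um.2} ⊆ ((F1 ∪ F2 ∪ F3 : Finset ((Fin n → ℤ) × ℕ)) :
          Set ((Fin n → ℤ) × ℕ)) := by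
    rintro ⟨u, m⟩ ⟨h1, h2, h3, h4⟩
    by_contra hF
    apply h4
    rw [Finset.mem_coe, Finset.mem_union, Finset.mem_union, not_or, not_or] at hF
    obtain ⟨⟨hFa, hFb⟩, hFc⟩ := hF
    have hu : u ∈ U := by
      rw [hU, Fintype.mem_piFinset]
      intro i
      rw [Finset.mem_Icc]
      exact abs_le.1 (h1 i)
    have hm : m ∈ Finset.Ioc 0 H := Finset.mem_Ioc.2 ⟨h2, h3⟩
    have hn1 : ∀ p ∈ WW, ¬ p ^ 2 ∣ m := by
      intro p hp hpm
      apply hFa
      rw [hF1, Finset.mem_biUnion]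
      exact ⟨p, hp, Finset.mem_product.2 ⟨hu, Finset.mem_filter.2 ⟨hm, hpm⟩⟩⟩
    have hn2 : ∀ p ∈ WW, p ∣ m → ∀ L : Finset (Fin n), L.card = d → ∀ k', k' ∉ L →
        padicNorm p (eval (fun i => (u i : ℚ)) (A.G L k')) = 1 := by
      intro p hp hpm L hL k' hk'
      by_contra hne
      apply hFb
      rw [hF2, Finset.mem_biUnion]
      refine ⟨p, hp, ?_⟩
      rw [Finset.mem_biUnion]
      refine ⟨L, Finset.mem_filter.2 ⟨Finset.mem_univ _, hL⟩, ?_⟩
      rw [Finset.mem_biUnion]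
      exact ⟨k', Finset.mem_filter.2 ⟨Finset.mem_univ _, hk'⟩,
        Finset.mem_product.2 ⟨Finset.mem_filter.2 ⟨hu, hne⟩, Finset.mem_filter.2 ⟨hm, hpm⟩⟩⟩
    have hn3 : ∀ j, ∃ p ∈ W j, p ∣ m := by
      intro j
      by_contra hc
      push Not at hc
      apply hFc
      rw [hF3, Finset.mem_biUnion]
      refine ⟨j, Finset.mem_univ _, Finset.mem_product.2 ⟨hu, Finset.mem_filter.2 ⟨hm, ?_⟩⟩⟩
      exact Nat.Coprime.prod_left fun p hp =>
        ((Nat.Prime.coprime_iff_not_dvd (hW1 j p hp).1).2 (hc p hp))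
    choose p hp hpm using hn3
    refine ⟨p, fun j => ?_, fun i j hij => hW3 i j hij _ (hp i) _ (hp j)⟩
    have hpW : p j ∈ WW := Finset.mem_biUnion.2 ⟨j, Finset.mem_univ _, hp j⟩
    have hpp := hWW1 _ hpW
    refine ⟨hpp.1, ?_, hpm j, hn1 _ hpW, hP₁ _ hpp.1 (hP₀1.trans hpp.2), hn2 _ hpW (hpm j)⟩
    have hp0 : (0 : ℝ) < p j := by exact_mod_cast hpp.1.pos
    rw [Real.le_log_iff_exp_le hp0]
    calc Real.exp B ≤ (⌈Real.exp B⌉₊ : ℝ) := Nat.le_ceil _
      _ ≤ p j := by exact_mod_cast hP₀3.trans hpp.2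
  have hcard : (Set.ncard {um : (Fin n → ℤ) × ℕ | (∀ i, |um.1 i| ≤ (H : ℤ)) ∧ 1 ≤ um.2 ∧
      um.2 ≤ H ∧ ¬ A.GoodShift D k B um.1 um.2} : ℝ) ≤ F1.card + F2.card + F3.card := by
    have h1 := Set.ncard_le_ncard hsub (Finset.finite_toSet _)
    rw [Set.ncard_coe_finset] at h1
    have h2 : (F1 ∪ F2 ∪ F3).card ≤ F1.card + F2.card + F3.card :=
      (Finset.card_union_le _ _).trans (Nat.add_le_add_right (Finset.card_union_le _ _) _)
    exact_mod_cast h1.trans h2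
  have hc1 : (F1.card : ℝ) ≤ ∑ p ∈ WW, (1 : ℝ) / (p : ℝ) ^ 2 * (V * H) := by
    have h1 : F1.card ≤ ∑ p ∈ WW, (U ×ˢ (Finset.Ioc 0 H).filter fun m => p ^ 2 ∣ m).card :=
      Finset.card_biUnion_le
    have h2 : (F1.card : ℝ) ≤ ∑ p ∈ WW, ((U ×ˢ (Finset.Ioc 0 H).filter fun m => p ^ 2 ∣ m).card :
        ℝ) := by exact_mod_cast h1
    refine h2.trans (Finset.sum_le_sum fun p _ => ?_)
    rw [Finset.card_product, Nat.cast_mul, hUc]
    have h3 := dens_card_dvd H (p ^ 2)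
    calc V * (((Finset.Ioc 0 H).filter fun m => p ^ 2 ∣ m).card : ℝ)
        ≤ V * ((H : ℝ) / ((p ^ 2 : ℕ) : ℝ)) := mul_le_mul_of_nonneg_left h3 hV0
      _ = 1 / (p : ℝ) ^ 2 * (V * H) := by push_cast; ring
  have hc2 : (F2.card : ℝ) ≤ ∑ p ∈ WW, 2 * C * ((1 : ℝ) / (p : ℝ) ^ 2 * (V * H)) := by
    have h1 : F2.card ≤ ∑ p ∈ WW, ∑ L ∈ Finset.univ.filter fun L : Finset (Fin n) => L.card = d,
        ∑ k' ∈ Finset.univ.filter fun k' : Fin n => k' ∉ L,
          ((U.filter fun u => padicNorm p (eval (fun i => (u i : ℚ)) (A.G L k')) ≠ 1) ×ˢ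
          (Finset.Ioc 0 H).filter fun m => p ∣ m).card := by
      refine Finset.card_biUnion_le.trans (Finset.sum_le_sum fun p _ => ?_)
      refine Finset.card_biUnion_le.trans (Finset.sum_le_sum fun L _ => ?_)
      exact Finset.card_biUnion_le
    have h2 : (F2.card : ℝ) ≤ ∑ p ∈ WW, ∑ L ∈ Finset.univ.filter fun L : Finset (Fin n) =>
        L.card = d, ∑ k' ∈ Finset.univ.filter fun k' : Fin n => k' ∉ L,
          (((U.filter fun u => padicNorm p (eval (fun i => (u i : ℚ)) (A.G L k')) ≠ 1) ×ˢ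
          (Finset.Ioc 0 H).filter fun m => p ∣ m).card : ℝ) := by exact_mod_cast h1
    refine h2.trans (Finset.sum_le_sum fun p hp => ?_)
    have hpp := hWW1 p hp
    have hp0 : (0 : ℝ) < p := by exact_mod_cast hpp.1.pos
    have h3 : ∀ L ∈ Finset.univ.filter fun L : Finset (Fin n) => L.card = d,
        ∀ k' ∈ Finset.univ.filter fun k' : Fin n => k' ∉ L,
          (((U.filter fun u => padicNorm p (eval (fun i => (u i : ℚ)) (A.G L k')) ≠ 1) ×ˢ
          (Finset.Ioc 0 H).filter fun m => p ∣ m).card : ℝ) ≤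
            (A.K L k' : ℝ) * (2 * ((1 : ℝ) / (p : ℝ) ^ 2 * (V * H))) := by
      intro L hL k' hk'
      rw [Finset.mem_filter] at hL hk'
      rw [Finset.card_product, Nat.cast_mul]
      have h4 := count_zero A hpp.1 (hP₁ _ hpp.1 (hP₀1.trans hpp.2)) hL.2 hk'.2 (hH2 p hp)
      have h5 := dens_card_dvd H p
      calc _ ≤ (2 * A.K L k' * V / p) * ((H : ℝ) / p) :=
            mul_le_mul h4 h5 (Nat.cast_nonneg _) (by positivity)
        _ = _ := by ring
    calc _ ≤ ∑ L ∈ Finset.univ.filter fun L : Finset (Fin n) => L.card = d,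
          ∑ k' ∈ Finset.univ.filter fun k' : Fin n => k' ∉ L,
            (A.K L k' : ℝ) * (2 * ((1 : ℝ) / (p : ℝ) ^ 2 * (V * H))) :=
          Finset.sum_le_sum fun L hL => Finset.sum_le_sum fun k' hk' => h3 L hL k' hk'
      _ ≤ ∑ L : Finset (Fin n), ∑ k' : Fin n,
            (A.K L k' : ℝ) * (2 * ((1 : ℝ) / (p : ℝ) ^ 2 * (V * H))) := by
          refine (Finset.sum_le_sum fun L _ => Finset.sum_le_sum_of_subset_of_nonneg
            (Finset.filter_subset _ _) fun k' _ _ => by positivity).trans ?_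
          exact Finset.sum_le_sum_of_subset_of_nonneg (Finset.filter_subset _ _)
            fun L _ _ => Finset.sum_nonneg fun k' _ => by positivity
      _ = 2 * C * ((1 : ℝ) / (p : ℝ) ^ 2 * (V * H)) := by
          simp only [← Finset.sum_mul]
          rw [← hC]
          ring
  have hc3 : (F3.card : ℝ) ≤ ∑ j : Fin k, (ε / (4 * (k + 1)) * (V * H) +
      V * ((M j).totient : ℝ)) := by
    have h1 : F3.card ≤ ∑ j, (U ×ˢ (Finset.Ioc 0 H).filter fun m => (M j).Coprime m).card :=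
      Finset.card_biUnion_le
    have h2 : (F3.card : ℝ) ≤ ∑ j, ((U ×ˢ (Finset.Ioc 0 H).filter fun m =>
        (M j).Coprime m).card : ℝ) := by exact_mod_cast h1
    refine h2.trans (Finset.sum_le_sum fun j _ => ?_)
    rw [Finset.card_product, Nat.cast_mul, hUc]
    have h3 := dens_card_coprime H (hMpos j)
    have hMR : (0 : ℝ) < M j := by exact_mod_cast hMpos j
    have h4 : ((M j).totient : ℝ) ≤ ε / (4 * (k + 1)) * M j := by
      have := hW2 j
      rw [← Nat.cast_prod] at this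
      exact this
    have h5 : ((M j).totient : ℝ) / M j ≤ ε / (4 * (k + 1)) := (div_le_iff₀ hMR).2 h4
    calc V * (((Finset.Ioc 0 H).filter fun m => (M j).Coprime m).card : ℝ)
        ≤ V * ((M j).totient * ((H : ℝ) / M j + 1)) := mul_le_mul_of_nonneg_left h3 hV0
      _ = ((M j).totient : ℝ) / M j * (V * H) + V * ((M j).totient : ℝ) := by ring
      _ ≤ _ := add_le_add (mul_le_mul_of_nonneg_right h5 (by positivity)) le_rfl
  have ht1 : ∑ p ∈ WW, (1 : ℝ) / (p : ℝ) ^ 2 ≤ ε / (4 * (1 + 2 * C)) :=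
    hP₃ WW fun p hp => hP₀2.trans (hWW1 p hp).2
  have hVH : 0 ≤ V * H := by positivity
  have hs1 : (F1.card : ℝ) + F2.card ≤ ε / 4 * (V * H) := by
    calc (F1.card : ℝ) + F2.card ≤ ∑ p ∈ WW, (1 : ℝ) / (p : ℝ) ^ 2 * (V * H) +
          ∑ p ∈ WW, 2 * C * ((1 : ℝ) / (p : ℝ) ^ 2 * (V * H)) := add_le_add hc1 hc2
      _ = (1 + 2 * C) * ((∑ p ∈ WW, (1 : ℝ) / (p : ℝ) ^ 2) * (V * H)) := by
          rw [← Finset.mul_sum, ← Finset.sum_mul]
          ring
      _ ≤ (1 + 2 * C) * (ε / (4 * (1 + 2 * C)) * (V * H)) := by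
          gcongr
      _ = ε / 4 * (V * H) := by
          have : (1 + 2 * C) ≠ 0 := by positivity
          field_simp
  have hs2 : (F3.card : ℝ) ≤ ε / 2 * (V * H) := by
    refine hc3.trans ?_
    rw [Finset.sum_add_distrib, Finset.sum_const, Finset.card_univ, Fintype.card_fin,
      nsmul_eq_mul, ← Finset.mul_sum]
    have h1 : (k : ℝ) * (ε / (4 * (k + 1)) * (V * H)) ≤ ε / 4 * (V * H) := by
      have h2 : (k : ℝ) * (ε / (4 * (k + 1))) ≤ ε / 4 := by
        rw [mul_div_assoc', div_le_div_iff₀ (by positivity) (by norm_num)]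
        nlinarith
      calc (k : ℝ) * (ε / (4 * (k + 1)) * (V * H)) = (k : ℝ) * (ε / (4 * (k + 1))) * (V * H) := by
            ring
        _ ≤ _ := mul_le_mul_of_nonneg_right h2 hVH
    have h3 : V * ∑ j, ((M j).totient : ℝ) ≤ ε / 4 * (V * H) := by
      calc V * ∑ j, ((M j).totient : ℝ) ≤ V * (ε / 4 * H) := mul_le_mul_of_nonneg_left hH3 hV0
        _ = _ := by ring
    linarith
  nlinarith

end Pool.Agent.ZPS
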