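import Pool.Agent.ZPS.GNDefs

/-!
# ZPS module GN2: making the relation monic by genericity

Let `D` = the total degree of `Φ` (in `z`). If `D = 0`, `Φ = C φ` and `φ(A) = 0` for all `A` (as `V` is
nonempty), so `φ = 0`, contradiction. So `D ≥ 1`; the homogeneous part `Φ_D ≠ 0`; choose
`A' ∈ Mat_n(ℂ)`, `v ∈ ℂⁿ` with `v_l = 0` outside `insert k L`, `Φ_D(A'; v) ≠ 0` (so `v ≠ 0` as `D ≥ 1`) (infinite
fields: `MvPolynomial.funext`). Choose an invertible `g` acting on the coordinates in `insert k L`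
(identity on the others, preserving the span of `e_l`, `l ∈ insert k L`) with `g e_k = v`: e.g. if
`v_k ≠ 0`, `g` = the identity with `k`-th column replaced by `v`; otherwise compose with a transvection /
swap with some `l` with `v_l ≠ 0`. Put `Ψ(A; z) = Φ(g A; g z)`: for `y ∈ V`, `z = A y`: `g z = (gA) y`, so
`Ψ(A; A y) = 0`. `Ψ` has variables in `insert k L`, total degree `≤ D`, and the coefficient of `z_k^D` is
`c(A) = Φ_D(gA; g e_k) = Φ_D(gA; v)`, nonzero at `A = g⁻¹A'`. Write `Ψ = ∑_j b_j(A; z_L) z_k^j`,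
`deg b_j ≤ D - j`, `b_D = c(A)`. (`MvPolynomial` bookkeeping: split the support by the exponent of `k`.)
-/

namespace Pool.Agent.ZPS

open MvPolynomial

variable {n : ℕ}

namespace GN2

/-- the linear forms `(g z)_i` -/
noncomputable def lin (v : Fin n → ℂ) (k i : Fin n) :
    MvPolynomial (Fin n) (MvPolynomial (Fin n × Fin n) ℂ) :=
  (if i = k then 0 else X i) + C (C (v i)) * X k

/-- the substitution `A ↦ g A` -/
noncomputable def tht (v : Fin n → ℂ) (k : Fin n) :
    MvPolynomial (Fin n × Fin n) ℂ →+* MvPolynomial (Fin n × Fin n) ℂ :=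
  eval₂Hom C (fun ij : Fin n × Fin n => (if ij.1 = k then 0 else X ij) + C (v ij.1) * X (k, ij.2))

/-- the substitution `(A, z) ↦ (g A, g z)` -/
noncomputable def sg (v : Fin n → ℂ) (k : Fin n) :
    MvPolynomial (Fin n) (MvPolynomial (Fin n × Fin n) ℂ) →+*
      MvPolynomial (Fin n) (MvPolynomial (Fin n × Fin n) ℂ) :=
  eval₂Hom (C.comp (tht v k)) (lin v k)

/-- `g A` -/
def gMat (v : Fin n → ℂ) (k : Fin n) (A : Matrix (Fin n) (Fin n) ℂ) : Matrix (Fin n) (Fin n) ℂ :=
  Matrix.of fun i j => (if i = k then 0 else A i j) + v i * A k j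

/-- `g z` -/
def gVec (v : Fin n → ℂ) (k : Fin n) (z : Fin n → ℂ) : Fin n → ℂ :=
  fun i => (if i = k then 0 else z i) + v i * z k

/-- evaluation at a matrix -/
noncomputable abbrev evA (A : Matrix (Fin n) (Fin n) ℂ) : MvPolynomial (Fin n × Fin n) ℂ →+* ℂ :=
  eval (fun ij : Fin n × Fin n => A ij.1 ij.2)

lemma evA_tht (v : Fin n → ℂ) (k : Fin n) (A : Matrix (Fin n) (Fin n) ℂ)
    (r : MvPolynomial (Fin n × Fin n) ℂ) : evA A (tht v k r) = evA (gMat v k A) r := by
  have h : (evA A).comp (tht v k) = evA (gMat v k A) := by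
    apply MvPolynomial.ringHom_ext
    · intro r
      simp [tht]
    · rintro ⟨i, j⟩
      simp only [RingHom.comp_apply, tht, coe_eval₂Hom, eval₂_X, gMat, Matrix.of_apply, eval_X,
        map_add, map_mul, eval_C]
      split_ifs <;> simp
  exact congrArg (fun f : MvPolynomial (Fin n × Fin n) ℂ →+* ℂ => f r) h

lemma eval_sg (v : Fin n → ℂ) (k : Fin n) (A : Matrix (Fin n) (Fin n) ℂ) (z : Fin n → ℂ)
    (Φ : MvPolynomial (Fin n) (MvPolynomial (Fin n × Fin n) ℂ)) :
    eval z (map (evA A) (sg v k Φ)) = eval (gVec v k z) (map (evA (gMat v k A)) Φ) := by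
  have h : ((eval z).comp (map (evA A))).comp (sg v k) =
      (eval (gVec v k z)).comp (map (evA (gMat v k A))) := by
    apply MvPolynomial.ringHom_ext
    · intro r
      have h1 : sg v k (C r) = C (tht v k r) := by simp [sg]
      rw [RingHom.comp_apply, RingHom.comp_apply, RingHom.comp_apply, h1, map_C, map_C, eval_C,
        eval_C]
      exact evA_tht v k A r
    · intro i
      have h1 : sg v k (X i) = lin v k i := by simp [sg]
      rw [RingHom.comp_apply, RingHom.comp_apply, RingHom.comp_apply, h1, map_X, eval_X]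
      simp only [lin, gVec]
      split_ifs <;> simp
  exact congrArg (fun f : MvPolynomial (Fin n) (MvPolynomial (Fin n × Fin n) ℂ) →+* ℂ => f Φ) h

/-- restriction to the `k`-th coordinate axis -/
noncomputable def tau (k : Fin n) : MvPolynomial (Fin n) (MvPolynomial (Fin n × Fin n) ℂ) →+*
    Polynomial (MvPolynomial (Fin n × Fin n) ℂ) :=
  eval₂Hom Polynomial.C (fun i => if i = k then Polynomial.X else 0)

lemma tau_coeff (k : Fin n) (D : ℕ) (P : MvPolynomial (Fin n) (MvPolynomial (Fin n × Fin n) ℂ)) :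
    (tau k P).coeff D = coeff (Finsupp.single k D) P := by
  induction P using MvPolynomial.induction_on' with
  | monomial u a =>
    rw [tau, coe_eval₂Hom, eval₂_monomial, coeff_monomial, Polynomial.coeff_C_mul,
      Finsupp.prod_fintype _ _ (fun i => pow_zero _)]
    by_cases hu : u = Finsupp.single k (u k)
    · have h1 : ∏ i, (if i = k then (Polynomial.X : Polynomial (MvPolynomial (Fin n × Fin n) ℂ))
          else 0) ^ u i = Polynomial.X ^ u k := by
        rw [Finset.prod_eq_single k]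
        · rw [if_pos rfl]
        · intro i _ hi
          rw [hu, Finsupp.single_apply, if_neg (Ne.symm hi), pow_zero]
        · intro h
          exact absurd (Finset.mem_univ _) h
      rw [h1, Polynomial.coeff_X_pow]
      by_cases hD : D = u k
      · rw [if_pos hD, mul_one, if_pos]
        rw [hD]
        exact hu
      · rw [if_neg hD, mul_zero, if_neg]
        intro h
        apply hD
        rw [h]
        simp
    · obtain ⟨i, hi, hui⟩ : ∃ i, i ≠ k ∧ u i ≠ 0 := by
        by_contra hcon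
        push Not at hcon
        apply hu
        ext i
        by_cases h : i = k
        · subst h
          simp
        · rw [hcon i h, Finsupp.single_apply, if_neg (Ne.symm h)]
      rw [Finset.prod_eq_zero (Finset.mem_univ i), Polynomial.coeff_zero, mul_zero, if_neg]
      · intro h
        rw [h, Finsupp.single_apply, if_neg (Ne.symm hi)] at hui
        exact hui rfl
      · rw [if_neg hi, zero_pow hui]
  | add p q hp hq => rw [map_add, Polynomial.coeff_add, hp, hq, coeff_add]

lemma coeff_sg (v : Fin n → ℂ) (k : Fin n) (D : ℕ)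
    (Φ : MvPolynomial (Fin n) (MvPolynomial (Fin n × Fin n) ℂ)) :
    coeff (Finsupp.single k D) (sg v k Φ) =
      ∑ m ∈ Φ.support, if ∑ i, m i = D then tht v k (coeff m Φ) * ∏ i, C (v i) ^ m i else 0 := by
  have h : (tau k).comp (sg v k) = eval₂Hom (Polynomial.C.comp (tht v k))
      (fun i => Polynomial.C (C (v i)) * Polynomial.X) := by
    apply MvPolynomial.ringHom_ext
    · intro r
      simp [tau, sg]
    · intro i
      have h1 : sg v k (X i) = lin v k i := by simp [sg]
      rw [RingHom.comp_apply, h1, coe_eval₂Hom, eval₂_X, lin, map_add, map_mul]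
      by_cases hi : i = k
      · rw [if_pos hi]
        simp [tau]
      · rw [if_neg hi]
        simp [tau, hi]
  have h2 : tau k (sg v k Φ) = ∑ m ∈ Φ.support,
      Polynomial.C (tht v k (coeff m Φ) * ∏ i, C (v i) ^ m i) * Polynomial.X ^ (∑ i, m i) := by
    have h3 := congrArg (fun f : MvPolynomial (Fin n) (MvPolynomial (Fin n × Fin n) ℂ) →+*
      Polynomial (MvPolynomial (Fin n × Fin n) ℂ) => f Φ) h
    simp only [RingHom.comp_apply, coe_eval₂Hom] at h3
    rw [h3, eval₂_eq']
    refine Finset.sum_congr rfl fun m _ => ?_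
    simp only [mul_pow]
    rw [Finset.prod_mul_distrib, Finset.prod_pow_eq_pow_sum, map_mul, map_prod]
    simp only [map_pow, RingHom.comp_apply]
    ring
  rw [← tau_coeff, h2, Polynomial.finsetSum_coeff]
  refine Finset.sum_congr rfl fun m _ => ?_
  rw [Polynomial.coeff_C_mul, Polynomial.coeff_X_pow, mul_ite, mul_one, mul_zero]
  by_cases hD : ∑ i, m i = D
  · rw [if_pos hD, if_pos hD.symm]
  · rw [if_neg hD, if_neg (Ne.symm hD)]

lemma totalDegree_lin (v : Fin n → ℂ) (k i : Fin n) : (lin v k i).totalDegree ≤ 1 := by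
  unfold lin
  refine (totalDegree_add _ _).trans (max_le ?_ ?_)
  · split_ifs
    · simp
    · exact (totalDegree_X i).le
  · refine (totalDegree_mul _ _).trans ?_
    rw [totalDegree_C, totalDegree_X]

lemma sum_le_of_mem {R : Type*} [CommRing R] {P : MvPolynomial (Fin n) R} {m : Fin n →₀ ℕ}
    (hm : m ∈ P.support) : ∑ i, m i ≤ P.totalDegree := by
  have h := le_totalDegree hm
  rwa [Finsupp.sum_fintype _ _ (fun _ => rfl)] at h

lemma totalDegree_sg (v : Fin n → ℂ) (k : Fin n)
    (Φ : MvPolynomial (Fin n) (MvPolynomial (Fin n × Fin n) ℂ)) :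
    (sg v k Φ).totalDegree ≤ Φ.totalDegree := by
  rw [sg, coe_eval₂Hom, eval₂_eq']
  refine (totalDegree_finsetSum _ _).trans (Finset.sup_le fun m hm => ?_)
  refine (totalDegree_mul _ _).trans ?_
  rw [RingHom.comp_apply, totalDegree_C, zero_add]
  refine (totalDegree_finsetProd _ _).trans ?_
  refine le_trans (Finset.sum_le_sum fun i _ => ?_) (sum_le_of_mem hm)
  refine (totalDegree_pow _ _).trans ?_
  exact (Nat.mul_le_mul_left _ (totalDegree_lin v k i)).trans (by rw [mul_one])

lemma vars_sg (v : Fin n → ℂ) (k : Fin n) {L : Finset (Fin n)}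
    {Φ : MvPolynomial (Fin n) (MvPolynomial (Fin n × Fin n) ℂ)} (h : Φ.vars ⊆ insert k L) :
    (sg v k Φ).vars ⊆ insert k L := by
  have h1 : sg v k Φ ∈ supported (MvPolynomial (Fin n × Fin n) ℂ)
      ((insert k L : Finset (Fin n)) : Set (Fin n)) := by
    rw [sg, coe_eval₂Hom, eval₂_eq']
    refine Subalgebra.sum_mem _ fun m hm => Subalgebra.mul_mem _ ?_ ?_
    · exact Subalgebra.algebraMap_mem _ (tht v k (coeff m Φ))
    · refine Subalgebra.prod_mem _ fun i _ => ?_
      by_cases hi : m i = 0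
      · rw [hi, pow_zero]
        exact Subalgebra.one_mem _
      · have hiL : i ∈ insert k L := h ((mem_vars_iff_mem_support _).2 ⟨m, hm, Finsupp.mem_support_iff.2 hi⟩)
        refine Subalgebra.pow_mem _ ?_ _
        unfold lin
        refine Subalgebra.add_mem _ ?_ (Subalgebra.mul_mem _ ?_ ?_)
        · split_ifs
          · exact Subalgebra.zero_mem _
          · exact X_mem_supported.2 (Finset.mem_coe.2 hiL)
        · exact Subalgebra.algebraMap_mem _ (C (v i))
        · exact X_mem_supported.2 (Finset.mem_coe.2 (Finset.mem_insert_self _ _))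
  exact Finset.coe_subset.1 (mem_supported.1 h1)

lemma exists_eval_ne {σ : Type*} {p : MvPolynomial σ ℂ} (hp : p ≠ 0) : ∃ x, eval x p ≠ 0 := by
  by_contra hcon
  push Not at hcon
  exact hp (MvPolynomial.funext fun x => by rw [hcon x, map_zero])

lemma gMat_mulVec (v : Fin n → ℂ) (k : Fin n) (A : Matrix (Fin n) (Fin n) ℂ) (y : Fin n → ℂ) :
    (gMat v k A).mulVec y = gVec v k (A.mulVec y) := by
  funext i
  simp only [Matrix.mulVec, dotProduct, gMat, gVec, Matrix.of_apply, add_mul,
    Finset.sum_add_distrib]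
  congr 1
  · by_cases h : i = k
    · simp [h]
    · simp [h]
  · rw [Finset.mul_sum]
    exact Finset.sum_congr rfl fun j _ => by ring

/-- the part of `Ψ` with exponent `D - s` at `k`, without the variable `k` -/
noncomputable def part (k : Fin n) (D : ℕ)
    (Ψ : MvPolynomial (Fin n) (MvPolynomial (Fin n × Fin n) ℂ)) (s : ℕ) :
    MvPolynomial (Fin n) (MvPolynomial (Fin n × Fin n) ℂ) :=
  ∑ m ∈ Ψ.support.filter (fun m => D - m k = s), monomial (m.erase k) (coeff m Ψ)

lemma sum_erase (k : Fin n) (m : Fin n →₀ ℕ) : ∑ i, (m.erase k) i + m k = ∑ i, m i := by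
  rw [← Finset.add_sum_erase _ _ (Finset.mem_univ k), ← Finset.add_sum_erase (a := k) _ (fun i => m i)
    (Finset.mem_univ k), Finsupp.erase_same, zero_add, add_comm]
  congr 1
  refine Finset.sum_congr rfl fun i hi => ?_
  exact Finsupp.erase_ne (Finset.ne_of_mem_erase hi)

lemma totalDegree_part (k : Fin n) {D : ℕ}
    {Ψ : MvPolynomial (Fin n) (MvPolynomial (Fin n × Fin n) ℂ)} (hD : Ψ.totalDegree ≤ D) (s : ℕ) :
    (part k D Ψ s).totalDegree ≤ s := by
  refine (totalDegree_finsetSum _ _).trans (Finset.sup_le fun m hm => ?_)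
  rw [Finset.mem_filter] at hm
  refine (totalDegree_monomial_le _ _).trans ?_
  rw [Finsupp.sum_fintype _ _ (fun _ => rfl)]
  have h1 := sum_le_of_mem hm.1
  have h2 := sum_erase k m
  have h3 := hm.2
  simp only [id]
  omega

lemma vars_part (k : Fin n) {D : ℕ} {L : Finset (Fin n)}
    {Ψ : MvPolynomial (Fin n) (MvPolynomial (Fin n × Fin n) ℂ)} (h : Ψ.vars ⊆ insert k L) (s : ℕ) :
    (part k D Ψ s).vars ⊆ L := by
  refine (vars_sum_subset _ _).trans ?_
  rw [Finset.biUnion_subset]
  intro m hm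
  rw [Finset.mem_filter] at hm
  rw [vars_monomial (mem_support_iff.1 hm.1)]
  intro i hi
  rw [Finsupp.support_erase, Finset.mem_erase] at hi
  have h1 := h ((mem_vars_iff_mem_support _).2 ⟨m, hm.1, hi.2⟩)
  exact (Finset.mem_insert.1 h1).resolve_left hi.1

lemma eval_part (k : Fin n) {D : ℕ} (A : Matrix (Fin n) (Fin n) ℂ) (z : Fin n → ℂ)
    {Ψ : MvPolynomial (Fin n) (MvPolynomial (Fin n × Fin n) ℂ)} (hD : Ψ.totalDegree ≤ D) (s : ℕ)
    (hs : s ≤ D) :
    eval z (map (evA A) (part k D Ψ s)) * z k ^ (D - s) =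
      ∑ m ∈ Ψ.support.filter (fun m => D - m k = s), evA A (coeff m Ψ) * ∏ i, z i ^ m i := by
  rw [part, map_sum, map_sum, Finset.sum_mul]
  refine Finset.sum_congr rfl fun m hm => ?_
  rw [Finset.mem_filter] at hm
  have h1 := sum_le_of_mem hm.1
  have h2 := sum_erase k m
  have h3 : D - s = m k := by omega
  rw [map_monomial, eval_monomial, Finsupp.prod_fintype _ _ (fun i => pow_zero _), h3, mul_assoc]
  congr 1
  rw [← Finset.mul_prod_erase _ _ (Finset.mem_univ k),
    ← Finset.mul_prod_erase (a := k) _ (fun i => z i ^ m i) (Finset.mem_univ k),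
    Finsupp.erase_same, pow_zero, one_mul, mul_comm]
  congr 1
  refine Finset.prod_congr rfl fun i hi => ?_
  rw [Finsupp.erase_ne (Finset.ne_of_mem_erase hi)]

lemma eval_eq_parts (k : Fin n) {D : ℕ} (A : Matrix (Fin n) (Fin n) ℂ) (z : Fin n → ℂ)
    {Ψ : MvPolynomial (Fin n) (MvPolynomial (Fin n × Fin n) ℂ)} (hD : Ψ.totalDegree ≤ D) :
    eval z (map (evA A) Ψ) = ∑ s ∈ Finset.range (D + 1),
      eval z (map (evA A) (part k D Ψ s)) * z k ^ (D - s) := by
  rw [eval_map, eval₂_eq']
  rw [← Finset.sum_fiberwise_of_maps_to (s := Ψ.support) (t := Finset.range (D + 1))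
    (g := fun m => D - m k) (fun m _ => Finset.mem_range.2 (by omega))]
  refine Finset.sum_congr rfl fun s hs => ?_
  rw [eval_part k A z hD s (by have := Finset.mem_range.1 hs; omega)]

lemma part_zero (k : Fin n) {D : ℕ}
    {Ψ : MvPolynomial (Fin n) (MvPolynomial (Fin n × Fin n) ℂ)} (hD : Ψ.totalDegree ≤ D)
    (hc : coeff (Finsupp.single k D) Ψ ≠ 0) :
    part k D Ψ 0 = C (coeff (Finsupp.single k D) Ψ) := by
  have h1 : Ψ.support.filter (fun m => D - m k = 0) = {Finsupp.single k D} := by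
    ext m
    rw [Finset.mem_filter, Finset.mem_singleton]
    constructor
    · rintro ⟨hm, h2⟩
      have h3 := sum_le_of_mem hm
      have h4 := sum_erase k m
      have h5 : ∑ i, (m.erase k) i = 0 := by omega
      have h6 : m k = D := by omega
      have h7 : m.erase k = 0 := by
        ext i
        exact (Finset.sum_eq_zero_iff.1 h5) i (Finset.mem_univ i)
      rw [← Finsupp.single_add_erase k m, h7, h6, add_zero]
    · rintro rfl
      refine ⟨mem_support_iff.2 hc, ?_⟩
      simp
  rw [part, h1, Finset.sum_singleton, Finsupp.erase_single]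
  rfl

end GN2

open GN2

theorem monic_of_dep {V : Set (Fin n → ℂ)} (hVne : V.Nonempty)
    {L : Finset (Fin n)} {k : Fin n} (hk : k ∉ L)
    {Φ : MvPolynomial (Fin n) (MvPolynomial (Fin n × Fin n) ℂ)} (hΦ : Φ ≠ 0)
    (hvars : Φ.vars ⊆ insert k L)
    (h : ∀ (A : Matrix (Fin n) (Fin n) ℂ), ∀ y ∈ V,
        eval (A.mulVec y) (map (eval (fun ij : Fin n × Fin n => A ij.1 ij.2)) Φ) = 0) :
    ∃ (D : ℕ) (c : MvPolynomial (Fin n × Fin n) ℂ)
      (a : ℕ → MvPolynomial (Fin n) (MvPolynomial (Fin n × Fin n) ℂ)), 1 ≤ D ∧ c ≠ 0 ∧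
      (∀ s, (a s).totalDegree ≤ s ∧ (a s).vars ⊆ L) ∧
      ∀ (A : Matrix (Fin n) (Fin n) ℂ), ∀ y ∈ V,
        eval (fun ij : Fin n × Fin n => A ij.1 ij.2) c * (A.mulVec y) k ^ D +
          ∑ s ∈ Finset.Icc 1 D,
            eval (A.mulVec y) (map (eval (fun ij : Fin n × Fin n => A ij.1 ij.2)) (a s)) *
              (A.mulVec y) k ^ (D - s) = 0 := by
  classical
  obtain ⟨D, hD⟩ : ∃ D, D = Φ.totalDegree := ⟨_, rfl⟩
  -- the degree is positive
  have hD1 : 1 ≤ D := by
    by_contra hcon
    have h0 : Φ.totalDegree = 0 := by omega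
    obtain ⟨y, hy⟩ := hVne
    rw [totalDegree_eq_zero_iff_eq_C] at h0
    apply hΦ
    rw [h0]
    have h1 : coeff 0 Φ = 0 := by
      by_contra hne
      obtain ⟨x, hx⟩ := exists_eval_ne hne
      have h2 := h (Matrix.of fun i j => x (i, j)) y hy
      rw [h0, map_C, eval_C] at h2
      exact hx h2
    rw [h1, map_zero]
  -- a monomial of top degree
  obtain ⟨m₀, hm₀, hm₀D⟩ : ∃ m ∈ Φ.support, ∑ i, m i = D := by
    obtain ⟨m, hm, h1⟩ := Finset.exists_mem_eq_sup Φ.support (support_nonempty.2 hΦ)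
      (fun m => m.sum fun _ e => e)
    refine ⟨m, hm, ?_⟩
    rw [hD, totalDegree, h1, Finsupp.sum_fintype _ _ (fun _ => rfl)]
  obtain ⟨x, hx⟩ := exists_eval_ne (mem_support_iff.1 hm₀)
  obtain ⟨A', hA'⟩ : ∃ A' : Matrix (Fin n) (Fin n) ℂ, A' = Matrix.of fun i j => x (i, j) :=
    ⟨_, rfl⟩
  have hx' : evA A' (coeff m₀ Φ) ≠ 0 := by
    rw [hA']
    exact hx
  obtain ⟨q, hq⟩ : ∃ q : MvPolynomial (Fin n) ℂ, q = ∑ m ∈ Φ.support,
    if ∑ i, m i = D then monomial m (evA A' (coeff m Φ)) else 0 := ⟨_, rfl⟩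
  have hq0 : q ≠ 0 := by
    intro h0
    have h1 : coeff m₀ q = evA A' (coeff m₀ Φ) := by
      rw [hq, coeff_sum, Finset.sum_eq_single m₀]
      · rw [if_pos hm₀D, coeff_monomial, if_pos rfl]
      · intro m _ hne
        split_ifs
        · rw [coeff_monomial, if_neg hne]
        · rw [coeff_zero]
      · intro h2
        exact absurd hm₀ h2
    rw [h0, coeff_zero] at h1
    exact hx' h1.symm
  obtain ⟨v, hv⟩ := exists_eval_ne (mul_ne_zero hq0 (X_ne_zero k))
  rw [map_mul, eval_X] at hv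
  have hvk : v k ≠ 0 := right_ne_zero_of_mul hv
  have hvq : eval v q ≠ 0 := left_ne_zero_of_mul hv
  obtain ⟨Ψ, hΨ⟩ : ∃ Ψ, Ψ = sg v k Φ := ⟨_, rfl⟩
  have hΨD : Ψ.totalDegree ≤ D := by
    rw [hΨ, hD]
    exact totalDegree_sg v k Φ
  have hΨv : Ψ.vars ⊆ insert k L := by
    rw [hΨ]
    exact vars_sg v k hvars
  have hc : coeff (Finsupp.single k D) Ψ ≠ 0 := by
    intro h0
    obtain ⟨A, hA⟩ : ∃ A : Matrix (Fin n) (Fin n) ℂ, A = Matrix.of fun i j =>
      if i = k then A' k j / v k else A' i j - v i * (A' k j / v k) := ⟨_, rfl⟩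
    have hgA : gMat v k A = A' := by
      ext i j
      rw [gMat, Matrix.of_apply, hA, Matrix.of_apply, Matrix.of_apply, if_pos rfl]
      by_cases hi : i = k
      · rw [if_pos hi, hi]
        field_simp
        ring
      · rw [if_neg hi, if_neg hi]
        ring
    have h1 := congrArg (evA A) h0
    rw [hΨ, coeff_sg, map_zero, map_sum] at h1
    apply hvq
    rw [← h1, hq, map_sum]
    refine Finset.sum_congr rfl fun m _ => ?_
    split_ifs
    · rw [eval_monomial, Finsupp.prod_fintype _ _ (fun i => pow_zero _), map_mul, evA_tht, hgA,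
        map_prod]
      congr 1
      refine Finset.prod_congr rfl fun i _ => ?_
      rw [map_pow, eval_C]
    · rw [map_zero, map_zero]
  refine ⟨D, coeff (Finsupp.single k D) Ψ, part k D Ψ, hD1, hc, fun s =>
    ⟨totalDegree_part k hΨD s, vars_part k hΨv s⟩, ?_⟩
  intro A y hy
  have h1 := eval_eq_parts k A (A.mulVec y) hΨD
  rw [Finset.sum_range_succ', part_zero k hΨD hc, map_C, eval_C, Nat.sub_zero] at h1
  have h2 : eval (A.mulVec y) (map (evA A) Ψ) = 0 := by
    rw [hΨ, eval_sg, ← gMat_mulVec]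
    exact h (gMat v k A) y hy
  rw [h2] at h1
  have h3 : ∑ s ∈ Finset.Icc 1 D, eval (A.mulVec y) (map (evA A) (part k D Ψ s)) *
      (A.mulVec y) k ^ (D - s) = ∑ s ∈ Finset.range D, eval (A.mulVec y) (map (evA A)
        (part k D Ψ (s + 1))) * (A.mulVec y) k ^ (D - (s + 1)) := by
    rw [Finset.range_eq_Ico, Finset.sum_Ico_add' (fun s => eval (A.mulVec y) (map (evA A)
        (part k D Ψ s)) * (A.mulVec y) k ^ (D - s)) 0 D 1]
    rfl
  rw [h3, add_comm]
  exact h1.symm

end Pool.Agent.ZPS
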