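import Pool.Agent.ZPS.GNDefs

/-!
# ZPS module GN3: descent of the relation from `ℂ` to `ℚ`

(`ℂ` to `Qb`.) Choose a `Qb`-linear `π : ℂ → Qb` with `π 1 = 1`. At a `Qb`-point `y ∈ V`, `z = A y` is a
`Qb`-point (`A` rational); applying `π` to the relation gives the relation with the coefficients of the
`a_s` replaced by their images under `π` (leading coefficient `1`). It is a polynomial relation in `y` with
coefficients in `Qb` which holds at all `Qb`-points of `V`, so on `V` (`exists_Qb_point`, contrapositive).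

(`Qb` to `ℚ`.) In the commutative ring `R` of all functions `V × ℂ → ℂ` let `t(y, t) = t`,
`w_l(y, t) = z_l t` (`z = A y`), `R₀ = ℚ[t, w_l : l ∈ L]`, `R₁ = Qb[t, w_l : l ∈ L]` (`Algebra.adjoin`). The
relation over `Qb` multiplied by `t^K` says that `w_k` is integral over `R₁` (`a_s(z_L) t^s ∈ R₁` because
`deg a_s ≤ s`). `R₁` is integral over `R₀` (generated by `R₀` and the constants in `Qb`, which are integral
over `ℚ`), so `w_k` is integral over `R₀`: `w_k^K + ∑_{s=1}^K b_s w_k^{K-s} = 0`, `b_s = B_s(t, w_L)`,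
`B_s ∈ ℚ[T, Z_L]` (one may arrange `K ≥ 1`). For fixed `y` compare the coefficients of `t^K`:
`z_k^K + ∑_s B_{s,s}(z_L) z_k^{K-s} = 0`, `B_{s,s}(Z_L) = ` the coefficient of `t^s` in `B_s(t, Z_L t)`, of
degree `≤ s`, with rational coefficients.
-/

namespace Pool.Agent.ZPS

open MvPolynomial Pool.Agent.Hhelper14.ZPL

variable {n : ℕ}

/-- coefficientwise application of a function preserving zero -/
noncomputable def cmap (π : ℂ →ₗ[Qb] Qb) (p : MvPolynomial (Fin n) ℂ) : MvPolynomial (Fin n) Qb :=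
  ∑ α ∈ p.support, monomial α (π (coeff α p))

theorem coeff_cmap (π : ℂ →ₗ[Qb] Qb) (p : MvPolynomial (Fin n) ℂ) (α : Fin n →₀ ℕ) :
    coeff α (cmap π p) = π (coeff α p) := by
  classical
  rw [cmap, coeff_sum]
  simp only [coeff_monomial]
  rw [Finset.sum_ite_eq' p.support α (fun β => π (coeff β p))]
  split_ifs with h
  · rfl
  · rw [notMem_support_iff.mp h, map_zero]

theorem support_cmap (π : ℂ →ₗ[Qb] Qb) (p : MvPolynomial (Fin n) ℂ) :
    (cmap π p).support ⊆ p.support := by
  intro α hα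
  rw [mem_support_iff, coeff_cmap] at hα
  rw [mem_support_iff]
  intro h0
  exact hα (by rw [h0, map_zero])

theorem totalDegree_cmap (π : ℂ →ₗ[Qb] Qb) (p : MvPolynomial (Fin n) ℂ) :
    (cmap π p).totalDegree ≤ p.totalDegree := by
  rw [totalDegree, totalDegree]
  exact Finset.sup_mono (support_cmap π p)

theorem vars_cmap (π : ℂ →ₗ[Qb] Qb) (p : MvPolynomial (Fin n) ℂ) :
    (cmap π p).vars ⊆ p.vars := by
  intro i hi
  rw [mem_vars_iff_mem_support] at hi ⊢
  obtain ⟨α, hα, hi⟩ := hi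
  exact ⟨α, support_cmap π p hα, hi⟩

theorem aeval_cmap (π : ℂ →ₗ[Qb] Qb) (p : MvPolynomial (Fin n) ℂ) (z : Fin n → Qb) (c : Qb) :
    π ((aeval (fun i => (z i : ℂ)) p : ℂ) * (c : ℂ)) = (aeval z (cmap π p) : Qb) * c := by
  have h1 : (aeval (fun i => (z i : ℂ)) p : ℂ) =
      ∑ α ∈ p.support, coeff α p * ∏ i ∈ α.support, (z i : ℂ) ^ α i := by
    rw [aeval_def, eval₂_eq]
    rfl
  have h2 : (aeval z (cmap π p) : Qb) =
      ∑ α ∈ p.support, π (coeff α p) * ∏ i ∈ α.support, (z i) ^ α i := by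
    rw [cmap, map_sum]
    refine Finset.sum_congr rfl fun α _ => ?_
    rw [aeval_monomial]
    rfl
  rw [h1, h2, Finset.sum_mul, Finset.sum_mul, map_sum]
  refine Finset.sum_congr rfl fun α _ => ?_
  have h3 : coeff α p * (∏ i ∈ α.support, (z i : ℂ) ^ α i) * (c : ℂ) =
      ((∏ i ∈ α.support, (z i) ^ α i) * c : Qb) • coeff α p := by
    rw [Algebra.smul_def, map_mul, map_prod]
    simp only [map_pow]
    change _ = ((∏ i ∈ α.support, (z i : ℂ) ^ α i) * (c : ℂ)) * coeff α p
    ring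
  rw [h3, map_smul, smul_eq_mul]
  ring

theorem rel_Qb_of_C {V : Set (Fin n → ℂ)} (hV : KClosed V) (A : Matrix (Fin n) (Fin n) ℚ)
    {L : Finset (Fin n)} {k : Fin n} (h : RelOver ℂ L k (linImage A V)) :
    RelOver Qb L k (linImage A V) := by
  classical
  obtain ⟨K, a, hK, ha, hrel⟩ := h
  obtain ⟨π, hπ⟩ := LinearMap.exists_leftInverse_of_injective (Algebra.linearMap Qb ℂ)
    (LinearMap.ker_eq_bot.mpr (algebraMap Qb ℂ).injective)
  have hπ1 : ∀ c : Qb, π (c : ℂ) = c := by
    intro c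
    exact LinearMap.congr_fun hπ c
  refine ⟨K, fun s => cmap π (a s), hK, fun s => ⟨(totalDegree_cmap π _).trans (ha s).1,
    (vars_cmap π _).trans (ha s).2⟩, ?_⟩
  -- the linear forms
  let lin : Fin n → MvPolynomial (Fin n) Qb := fun i =>
    ∑ j, C (algebraMap ℚ Qb (A i j)) * X j
  have hlin : ∀ (y : Fin n → ℂ) (i : Fin n), (aeval y (lin i) : ℂ) = ∑ j, (A i j : ℂ) * y j := by
    intro y i
    simp only [lin, map_sum, map_mul, aeval_X, aeval_C]
    refine Finset.sum_congr rfl fun j _ => ?_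
    congr 1
  let p : MvPolynomial (Fin n) Qb := lin k ^ K +
    ∑ s ∈ Finset.Icc 1 K, bind₁ lin (cmap π (a s)) * lin k ^ (K - s)
  have hp : ∀ y : Fin n → ℂ, (aeval y p : ℂ) = (∑ j, (A k j : ℂ) * y j) ^ K +
      ∑ s ∈ Finset.Icc 1 K, (aeval (fun i => ∑ j, (A i j : ℂ) * y j) (cmap π (a s)) : ℂ) *
        (∑ j, (A k j : ℂ) * y j) ^ (K - s) := by
    intro y
    simp only [p, map_add, map_sum, map_mul, map_pow, aeval_bind₁, hlin]
  have hmem : p ∈ (vanishingIdeal Qb V : Ideal (MvPolynomial (Fin n) Qb)) := by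
    by_contra hcon
    obtain ⟨y, hy, hne⟩ := exists_Qb_point hV hcon
    apply hne
    -- the point `z = A y`
    let z : Fin n → Qb := fun i => ∑ j, algebraMap ℚ Qb (A i j) * y j
    have hz : ∀ i, (z i : ℂ) = ∑ j, (A i j : ℂ) * (y j : ℂ) := by
      intro i
      have h1 : (z i : ℂ) = algebraMap Qb ℂ (z i) := rfl
      rw [h1]
      simp only [z, map_sum, map_mul]
      refine Finset.sum_congr rfl fun j _ => ?_
      congr 1
    have h2 := hrel (fun i => (z i : ℂ)) ⟨fun j => (y j : ℂ), hy, hz⟩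
    have h3 := congrArg π h2
    rw [map_zero, map_add, map_sum] at h3
    have h4 : π ((z k : ℂ) ^ K) = z k ^ K := by
      have : ((z k : ℂ) ^ K) = ((z k ^ K : Qb) : ℂ) := by push_cast; rfl
      rw [this, hπ1]
    have h5 : ∀ s, π ((aeval (fun i => (z i : ℂ)) (a s) : ℂ) * (z k : ℂ) ^ (K - s)) =
        (aeval z (cmap π (a s)) : Qb) * z k ^ (K - s) := by
      intro s
      have : ((z k : ℂ) ^ (K - s)) = ((z k ^ (K - s) : Qb) : ℂ) := by push_cast; rfl
      rw [this, aeval_cmap]
    simp only [h4, h5] at h3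
    have h6 : ((aeval y p : Qb) : ℂ) = 0 := by
      have h7 := congrArg (algebraMap Qb ℂ) h3
      rw [map_zero, map_add, map_sum] at h7
      have hzk : (∑ j, (A k j : ℂ) * (y j : ℂ)) = (z k : ℂ) := (hz k).symm
      have hzf : (fun i => ∑ j, (A i j : ℂ) * (y j : ℂ)) = fun i => (z i : ℂ) :=
        funext fun i => (hz i).symm
      rw [← aeval_coe, hp, hzk, hzf]
      simp only [aeval_coe]
      rw [map_pow] at h7
      simp only [map_mul, map_pow] at h7
      exact h7
    exact_mod_cast h6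
  rintro x ⟨y, hy, hx⟩
  have h9 := (mem_vanishingIdeal_iff.mp hmem) y hy
  rw [hp] at h9
  have h10 : x = fun i => ∑ j, (A i j : ℂ) * y j := funext hx
  rw [h10]
  exact h9

/-- the graded algebra of polynomial functions: the coefficient of `X ^ j` is a polynomial in the
coordinates in `L` of degree at most `j` -/
noncomputable def SQ (L : Finset (Fin n)) (Z : Set (Fin n → ℂ)) :
    Subalgebra ℚ (Polynomial (Z → ℂ)) where
  carrier := {r | ∀ j, ∃ b : MvPolynomial (Fin n) ℚ, b.totalDegree ≤ j ∧ b.vars ⊆ L ∧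
    ∀ z : Z, (r.coeff j) z = aeval (z : Fin n → ℂ) b}
  mul_mem' := by
    classical
    intro r r' hr hr' j
    choose b hb1 hb2 hb3 using hr
    choose b' hb1' hb2' hb3' using hr'
    refine ⟨∑ x ∈ Finset.HasAntidiagonal.antidiagonal j, b x.1 * b' x.2, ?_, ?_, ?_⟩
    · refine totalDegree_finsetSum_le fun x hx => ?_
      refine (totalDegree_mul _ _).trans ?_
      have h1 := Finset.HasAntidiagonal.mem_antidiagonal.mp hx
      have h2 := hb1 x.1
      have h3 := hb1' x.2
      omega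
    · intro i hi
      obtain ⟨x, -, hx⟩ := Finset.mem_biUnion.mp (vars_sum_subset _ _ hi)
      rcases Finset.mem_union.mp (vars_mul _ _ hx) with h | h
      · exact hb2 _ h
      · exact hb2' _ h
    · intro z
      rw [Polynomial.coeff_mul, map_sum, Finset.sum_apply]
      refine Finset.sum_congr rfl fun x _ => ?_
      rw [Pi.mul_apply, hb3, hb3', map_mul]
  add_mem' := by
    classical
    intro r r' hr hr' j
    obtain ⟨b, hb1, hb2, hb3⟩ := hr j
    obtain ⟨b', hb1', hb2', hb3'⟩ := hr' j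
    refine ⟨b + b', (totalDegree_add _ _).trans (max_le hb1 hb1'), ?_, ?_⟩
    · intro i hi
      rcases Finset.mem_union.mp (vars_add_subset _ _ hi) with h | h
      · exact hb2 h
      · exact hb2' h
    · intro z
      rw [Polynomial.coeff_add, Pi.add_apply, hb3, hb3', map_add]
  algebraMap_mem' := by
    intro q j
    refine ⟨C (if j = 0 then q else 0), by rw [totalDegree_C]; exact Nat.zero_le j, ?_, ?_⟩
    · rw [vars_C]
      exact Finset.empty_subset L
    · intro z
      rw [Polynomial.algebraMap_apply, Polynomial.coeff_C, aeval_C]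
      split_ifs
      · rfl
      · simp

theorem SQ_term {L : Finset (Fin n)} {Z : Set (Fin n → ℂ)} {b : MvPolynomial (Fin n) ℚ} {s : ℕ}
    (hb : b.totalDegree ≤ s) (hbL : b.vars ⊆ L) :
    Polynomial.C (fun z : Z => (aeval (z : Fin n → ℂ) b : ℂ)) * Polynomial.X ^ s ∈ SQ L Z := by
  intro j
  by_cases hj : j = s
  · subst hj
    refine ⟨b, hb, hbL, fun z => ?_⟩
    rw [Polynomial.coeff_C_mul_X_pow, if_pos rfl]
  · refine ⟨0, by simp, by simp, fun z => ?_⟩
    rw [Polynomial.coeff_C_mul_X_pow, if_neg hj]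
    simp

theorem integral_term {L : Finset (Fin n)} {Z : Set (Fin n → ℂ)} {a : MvPolynomial (Fin n) Qb}
    {s : ℕ} (ha : a.totalDegree ≤ s) (haL : a.vars ⊆ L) :
    IsIntegral (SQ L Z)
      (Polynomial.C (fun z : Z => (aeval (z : Fin n → ℂ) a : ℂ)) * Polynomial.X ^ s :
        Polynomial (Z → ℂ)) := by
  classical
  have h1 : (Polynomial.C (fun z : Z => (aeval (z : Fin n → ℂ) a : ℂ)) * Polynomial.X ^ s :
        Polynomial (Z → ℂ)) = ∑ α ∈ a.support,
      Polynomial.C (fun _ : Z => ((coeff α a : Qb) : ℂ)) *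
        (Polynomial.C (fun z : Z => (aeval (z : Fin n → ℂ) (monomial α (1 : ℚ)) : ℂ)) *
          Polynomial.X ^ s) := by
    have h2 : (fun z : Z => (aeval (z : Fin n → ℂ) a : ℂ)) = ∑ α ∈ a.support,
        (fun _ : Z => ((coeff α a : Qb) : ℂ)) *
          (fun z : Z => (aeval (z : Fin n → ℂ) (monomial α (1 : ℚ)) : ℂ)) := by
      funext z
      rw [Finset.sum_apply, aeval_def, eval₂_eq]
      refine Finset.sum_congr rfl fun α _ => ?_
      rw [Pi.mul_apply, aeval_monomial, map_one, one_mul]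
      rfl
    rw [h2, map_sum, Finset.sum_mul]
    refine Finset.sum_congr rfl fun α _ => ?_
    rw [map_mul, mul_assoc]
  rw [h1]
  refine IsIntegral.sum _ fun α hα => ?_
  refine IsIntegral.mul ?_ ?_
  · -- algebraic constants
    have h3 : IsIntegral ℚ ((coeff α a : Qb) : ℂ) := by
      have h4 : IsAlgebraic ℚ ((coeff α a : Qb) : ℂ) :=
        (mem_algebraicClosure_iff).mp (coeff α a : Qb).2
      exact h4.isIntegral
    let f : ℂ →+* Polynomial (Z → ℂ) := Polynomial.C.comp (RingHom.pi fun _ : Z => RingHom.id ℂ)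
    have h5 : IsIntegral ℚ (f ((coeff α a : Qb) : ℂ)) := h3.map f.toRatAlgHom
    exact h5.tower_top
  · have h6 : (monomial α (1 : ℚ) : MvPolynomial (Fin n) ℚ).totalDegree ≤ s := by
      refine le_trans ?_ ha
      rw [totalDegree_monomial _ one_ne_zero]
      exact le_totalDegree hα
    have h7 : (monomial α (1 : ℚ) : MvPolynomial (Fin n) ℚ).vars ⊆ L := by
      intro i hi
      rw [vars_monomial one_ne_zero] at hi
      exact haL (mem_vars_iff_mem_support i |>.mpr ⟨α, hα, hi⟩)
    exact isIntegral_algebraMap (R := SQ L Z) (x := ⟨_, SQ_term h6 h7⟩)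

theorem isIntegral_of_rel {S R : Type*} [CommRing S] [CommRing R] [Algebra S R] {w : R} {K : ℕ}
    {c : ℕ → R} (hc : ∀ s, IsIntegral S (c s))
    (h : w ^ K + ∑ s ∈ Finset.Icc 1 K, c s * w ^ (K - s) = 0) : IsIntegral S w := by
  have hc' : ∀ s, ∃ c' : integralClosure S R, algebraMap (integralClosure S R) R c' = c s :=
    fun s => ⟨⟨c s, (hc s : c s ∈ integralClosure S R)⟩, rfl⟩
  choose c' hc' using hc'
  have hwO : IsIntegral (integralClosure S R) w := by
    refine ⟨Polynomial.X ^ K + ∑ s ∈ Finset.Icc 1 K,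
      Polynomial.C (c' s) * Polynomial.X ^ (K - s), ?_, ?_⟩
    · refine Polynomial.monic_X_pow_add ?_
      rw [Polynomial.degree_lt_iff_coeff_zero]
      intro m hm
      rw [Polynomial.finsetSum_coeff]
      refine Finset.sum_eq_zero fun s hs => ?_
      rw [Finset.mem_Icc] at hs
      rw [Polynomial.coeff_C_mul_X_pow, if_neg (by omega)]
    · rw [Polynomial.eval₂_add, Polynomial.eval₂_pow, Polynomial.eval₂_X,
        Polynomial.eval₂_finsetSum]
      simp only [Polynomial.eval₂_mul, Polynomial.eval₂_C, Polynomial.eval₂_pow,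
        Polynomial.eval₂_X, hc']
      exact h
  exact isIntegral_trans w hwO

theorem rel_Q_of_Qb {L : Finset (Fin n)} {k : Fin n} {Z : Set (Fin n → ℂ)}
    (h : RelOver Qb L k Z) : RelOver ℚ L k Z := by
  classical
  obtain ⟨K, a, hK, ha, hrel⟩ := h
  let w : Polynomial (Z → ℂ) := Polynomial.C (fun z : Z => (z : Fin n → ℂ) k) * Polynomial.X
  have hwpow : ∀ i : ℕ, w ^ i =
      Polynomial.C ((fun z : Z => (z : Fin n → ℂ) k) ^ i) * Polynomial.X ^ i := by
    intro i
    simp only [w]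
    rw [mul_pow, ← map_pow]
  have hw : IsIntegral (SQ L Z) w := by
    refine isIntegral_of_rel (K := K) (c := fun s =>
      Polynomial.C (fun z : Z => (aeval (z : Fin n → ℂ) (a s) : ℂ)) * Polynomial.X ^ s)
      (fun s => integral_term (ha s).1 (ha s).2) ?_
    have h1 : ∀ s ∈ Finset.Icc 1 K,
        Polynomial.C (fun z : Z => (aeval (z : Fin n → ℂ) (a s) : ℂ)) * Polynomial.X ^ s *
          w ^ (K - s) = Polynomial.C (fun z : Z => (aeval (z : Fin n → ℂ) (a s) : ℂ) *
          ((z : Fin n → ℂ) k) ^ (K - s)) * Polynomial.X ^ K := by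
      intro s hs
      rw [Finset.mem_Icc] at hs
      have h3 : (fun z : Z => (aeval (z : Fin n → ℂ) (a s) : ℂ) *
          ((z : Fin n → ℂ) k) ^ (K - s)) = (fun z : Z => (aeval (z : Fin n → ℂ) (a s) : ℂ)) *
            (fun z : Z => (z : Fin n → ℂ) k) ^ (K - s) := rfl
      rw [hwpow, h3, map_mul]
      have h4 : (Polynomial.X : Polynomial (Z → ℂ)) ^ K =
          Polynomial.X ^ s * Polynomial.X ^ (K - s) := by
        rw [← pow_add, Nat.add_sub_cancel' hs.2]
      rw [h4]
      ring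
    rw [Finset.sum_congr rfl h1, hwpow, ← Finset.sum_mul, ← add_mul, ← map_sum, ← map_add]
    have h5 : ((fun z : Z => (z : Fin n → ℂ) k) ^ K + ∑ s ∈ Finset.Icc 1 K,
        fun z : Z => (aeval (z : Fin n → ℂ) (a s) : ℂ) * ((z : Fin n → ℂ) k) ^ (K - s)) = 0 := by
      funext z
      rw [Pi.add_apply, Finset.sum_apply, Pi.pow_apply, Pi.zero_apply]
      exact hrel z z.2
    rw [h5, map_zero, zero_mul]
  obtain ⟨p₀, hp₀, hp₀0⟩ := hw
  obtain ⟨p, hpdef⟩ : ∃ p : Polynomial (SQ L Z), p = p₀ * Polynomial.X := ⟨_, rfl⟩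
  have hp : p.Monic := by rw [hpdef]; exact hp₀.mul Polynomial.monic_X
  have hp0 : p.eval₂ (algebraMap (SQ L Z) (Polynomial (Z → ℂ))) w = 0 := by
    rw [hpdef, Polynomial.eval₂_mul, hp₀0, zero_mul]
  rcases isEmpty_or_nonempty Z with hZ | hZ
  · refine ⟨1, fun _ => 0, le_rfl, fun s => ⟨by simp, by simp⟩, ?_⟩
    intro z hz
    exact (hZ.false ⟨z, hz⟩).elim
  have hnt : Nontrivial (SQ L Z) := inferInstance
  have hdeg : 1 ≤ p.natDegree := by
    have h1 : p.natDegree = p₀.natDegree + 1 := by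
      rw [hpdef, hp₀.natDegree_mul Polynomial.monic_X, Polynomial.natDegree_X]
    omega
  -- the coefficients
  have hcoef : ∀ (r : SQ L Z) (j : ℕ), ∃ b : MvPolynomial (Fin n) ℚ, b.totalDegree ≤ j ∧
      b.vars ⊆ L ∧ ∀ z : Z, ((r : Polynomial (Z → ℂ)).coeff j) z = aeval (z : Fin n → ℂ) b :=
    fun r j => r.2 j
  choose b hb1 hb2 hb3 using hcoef
  refine ⟨p.natDegree, fun s => b (p.coeff (p.natDegree - s)) s, hdeg,
    fun s => ⟨hb1 _ _, hb2 _ _⟩, ?_⟩
  intro z hz
  rw [Polynomial.eval₂_eq_sum_range] at hp0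
  have h6 := congrArg (fun r : Polynomial (Z → ℂ) => r.coeff p.natDegree ⟨z, hz⟩) hp0
  simp only [Polynomial.finsetSum_coeff, Finset.sum_apply, Polynomial.coeff_zero,
    Pi.zero_apply] at h6
  have h7 : ∀ i ∈ Finset.range (p.natDegree + 1),
      ((algebraMap (SQ L Z) (Polynomial (Z → ℂ))) (p.coeff i) * w ^ i).coeff p.natDegree ⟨z, hz⟩ =
        aeval z (b (p.coeff i) (p.natDegree - i)) * z k ^ i := by
    intro i hi
    have hi' : i ≤ p.natDegree := by
      have := Finset.mem_range.mp hi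
      omega
    rw [hwpow, ← mul_assoc, Polynomial.coeff_mul_X_pow', if_pos hi', Polynomial.coeff_mul_C,
      Pi.mul_apply]
    have h8 := hb3 (p.coeff i) (p.natDegree - i) ⟨z, hz⟩
    rw [← h8]
    rfl
  rw [Finset.sum_congr rfl h7, Finset.sum_range_succ, Nat.sub_self] at h6
  have h9 : (aeval z (b (p.coeff p.natDegree) 0) : ℂ) = 1 := by
    have h10 := hb3 (p.coeff p.natDegree) 0 ⟨z, hz⟩
    rw [← h10, hp.coeff_natDegree]
    simp
  rw [h9, one_mul] at h6
  rw [← h6, add_comm]
  congr 1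
  symm
  refine Finset.sum_nbij' (fun i => p.natDegree - i) (fun s => p.natDegree - s) ?_ ?_ ?_ ?_ ?_
  · intro i hi
    have := Finset.mem_range.mp hi
    rw [Finset.mem_Icc]
    omega
  · intro s hs
    rw [Finset.mem_Icc] at hs
    rw [Finset.mem_range]
    omega
  · intro i hi
    have := Finset.mem_range.mp hi
    omega
  · intro s hs
    rw [Finset.mem_Icc] at hs
    omega
  · intro i hi
    have := Finset.mem_range.mp hi
    have h11 : p.natDegree - (p.natDegree - i) = i := by omega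
    simp only [h11]

end Pool.Agent.ZPS
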