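import Pool.Agent.ZPS.GN1
import Pool.Agent.ZPS.GN2
import Pool.Agent.ZPS.GN3

/-!
# ZPS module GN4: generic linear images are in general position at infinity

For `L` with `d` elements and `k ∉ L`: `exists_dep` and `monic_of_dep` give `c_{L,k} ∈ ℂ[A]`, nonzero
(if `V = ∅` everything is trivial). Choose a coefficient `c_α ≠ 0` and a `ℚ`-linear `π : ℂ → ℚ` with
`π(c_α) ≠ 0`; `P_{L,k} = ∑_α π(c_α) A^α ∈ ℚ[A]` is nonzero and `P_{L,k}(A) = π(c(A))` for rational `A`, so
`P_{L,k}(A) ≠ 0` implies `c(A) ≠ 0`; dividing the relation by `c(A)` gives `RelOver ℂ L k (linImage A V)`,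
then `rel_Qb_of_C`, `rel_Q_of_Qb`. For `k ∈ L` use `K = 1`, `a_1 = -X_k`. `P = ∏ P_{L,k}`.
-/

namespace Pool.Agent.ZPS

open MvPolynomial Pool.Agent.Hhelper14.ZPL

variable {n : ℕ}

/-- the case `k ∈ L` -/
theorem relOver_mem {L : Finset (Fin n)} {k : Fin n} (hk : k ∈ L) (Z : Set (Fin n → ℂ)) :
    RelOver ℚ L k Z := by
  classical
  refine ⟨1, fun s => if s = 1 then -X k else 0, le_rfl, ?_, ?_⟩
  · intro s
    dsimp only
    by_cases hs : s = 1
    · subst hs
      rw [if_pos rfl, totalDegree_neg, totalDegree_X, vars_neg, vars_X]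
      exact ⟨le_rfl, Finset.singleton_subset_iff.2 hk⟩
    · rw [if_neg hs, totalDegree_zero, vars_0]
      exact ⟨Nat.zero_le _, Finset.empty_subset _⟩
  · intro z _
    simp

/-- the empty set -/
theorem relOver_empty {L : Finset (Fin n)} {k : Fin n} {Z : Set (Fin n → ℂ)}
    (hZ : ∀ z ∈ Z, False) : RelOver ℚ L k Z := by
  refine ⟨1, fun _ => 0, le_rfl, ?_, fun z hz => (hZ z hz).elim⟩
  intro s
  rw [totalDegree_zero, vars_0]
  exact ⟨Nat.zero_le _, Finset.empty_subset _⟩

/-- a rational polynomial whose nonvanishing implies the nonvanishing of `c` at rational points -/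
theorem exists_rational {ι : Type} {c : MvPolynomial ι ℂ} (hc : c ≠ 0) :
    ∃ P : MvPolynomial ι ℚ, P ≠ 0 ∧ ∀ x : ι → ℚ, eval x P ≠ 0 →
      eval (fun i => (x i : ℂ)) c ≠ 0 := by
  classical
  obtain ⟨α, hα⟩ := ne_zero_iff.1 hc
  obtain ⟨π, hπ⟩ : ∃ π : Module.Dual ℚ ℂ, π (coeff α c) ≠ 0 := by
    by_contra h
    push Not at h
    exact hα ((Module.forall_dual_apply_eq_zero_iff ℚ _).1 h)
  refine ⟨∑ β ∈ c.support, monomial β (π (coeff β c)), ?_, ?_⟩
  · rw [ne_zero_iff]
    refine ⟨α, ?_⟩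
    rw [coeff_sum]
    simp only [coeff_monomial]
    rw [Finset.sum_ite_eq' c.support α, if_pos (mem_support_iff.2 hα)]
    exact hπ
  · intro x hx h0
    apply hx
    have h1 : π (eval (fun i => (x i : ℂ)) c) =
        eval x (∑ β ∈ c.support, monomial β (π (coeff β c))) := by
      rw [eval_eq, map_sum, map_sum]
      refine Finset.sum_congr rfl fun β _ => ?_
      rw [eval_monomial]
      have h2 : coeff β c * ∏ i ∈ β.support, ((x i : ℚ) : ℂ) ^ β i =
          (β.prod fun i e => x i ^ e) • coeff β c := by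
        rw [Algebra.smul_def, mul_comm]
        congr 1
        rw [Finsupp.prod, map_prod]
        refine Finset.prod_congr rfl fun i _ => ?_
        rw [map_pow]
        rfl
      rw [h2, map_smul, smul_eq_mul, mul_comm]
    rw [← h1, h0, map_zero]

theorem relOver_generic {d : ℕ} {V : Set (Fin n → ℂ)} (hV : KClosed V)
    (hdim : Pool.Agent.Hhelper14.ZPL.dim V ≤ d) (hne : V.Nonempty) {L : Finset (Fin n)}
    (hL : L.card = d) {k : Fin n} (hk : k ∉ L) :
    ∃ P : MvPolynomial (Fin n × Fin n) ℚ, P ≠ 0 ∧ ∀ A : Matrix (Fin n) (Fin n) ℚ,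
      eval (fun ij : Fin n × Fin n => A ij.1 ij.2) P ≠ 0 → RelOver ℚ L k (linImage A V) := by
  classical
  obtain ⟨Φ, hΦ, hvars, h⟩ := exists_dep hV.closed hdim hL hk
  obtain ⟨D, c, a, hD, hc, ha, hrel⟩ := monic_of_dep hne hk hΦ hvars h
  obtain ⟨P, hP, hPA⟩ := exists_rational hc
  refine ⟨P, hP, fun A hA => ?_⟩
  have hcA := hPA _ hA
  apply rel_Q_of_Qb
  apply rel_Qb_of_C hV
  set e : MvPolynomial (Fin n × Fin n) ℂ →+* ℂ :=
    eval (fun ij : Fin n × Fin n => ((A ij.1 ij.2 : ℚ) : ℂ)) with he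
  refine ⟨D, fun s => C (e c)⁻¹ * map e (a s), hD, ?_, ?_⟩
  · intro s
    constructor
    · refine (totalDegree_mul _ _).trans ?_
      rw [totalDegree_C, zero_add]
      refine le_trans ?_ (ha s).1
      exact Finset.sup_mono (support_map_subset _ _)
    · refine (vars_mul _ _).trans ?_
      rw [vars_C, Finset.empty_union]
      exact (vars_map _ _).trans (ha s).2
  · rintro z ⟨y, hy, hz⟩
    have hz' : z = (A.map (fun q : ℚ => (q : ℂ))).mulVec y := by
      funext i
      rw [hz i]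
      rfl
    have h1 := hrel (A.map (fun q : ℚ => (q : ℂ))) y hy
    rw [← hz'] at h1
    have h2 : e c * z k ^ D + ∑ s ∈ Finset.Icc 1 D, eval z (map e (a s)) * z k ^ (D - s) = 0 := h1
    have h3 : ∀ s, aeval z (C (e c)⁻¹ * map e (a s)) = (e c)⁻¹ * eval z (map e (a s)) := by
      intro s
      rw [map_mul, aeval_C]
      rfl
    simp only [h3]
    have h4 : z k ^ D + ∑ s ∈ Finset.Icc 1 D, (e c)⁻¹ * eval z (map e (a s)) * z k ^ (D - s) =
        (e c)⁻¹ * (e c * z k ^ D + ∑ s ∈ Finset.Icc 1 D, eval z (map e (a s)) * z k ^ (D - s)) := by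
      rw [mul_add, ← mul_assoc, inv_mul_cancel₀ hcA, one_mul, Finset.mul_sum]
      congr 1
      refine Finset.sum_congr rfl fun s _ => ?_
      ring
    rw [h4, h2, mul_zero]

theorem generic_genPos {d : ℕ} {V : Set (Fin n → ℂ)} (hV : KClosed V)
    (hdim : Pool.Agent.Hhelper14.ZPL.dim V ≤ d) :
    ∃ P : MvPolynomial (Fin n × Fin n) ℚ, P ≠ 0 ∧ ∀ A : Matrix (Fin n) (Fin n) ℚ,
      eval (fun ij : Fin n × Fin n => A ij.1 ij.2) P ≠ 0 → GenPos d (linImage A V) := by
  classical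
  have key : ∀ (L : Finset (Fin n)) (k : Fin n), ∃ P : MvPolynomial (Fin n × Fin n) ℚ, P ≠ 0 ∧
      ∀ A : Matrix (Fin n) (Fin n) ℚ, eval (fun ij : Fin n × Fin n => A ij.1 ij.2) P ≠ 0 →
        L.card = d → RelOver ℚ L k (linImage A V) := by
    intro L k
    by_cases hL : L.card = d
    · by_cases hk : k ∈ L
      · exact ⟨1, one_ne_zero, fun A _ _ => relOver_mem hk _⟩
      · rcases V.eq_empty_or_nonempty with rfl | hne
        · refine ⟨1, one_ne_zero, fun A _ _ => relOver_empty ?_⟩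
          rintro z ⟨y, hy, _⟩
          exact hy
        · obtain ⟨P, hP, h⟩ := relOver_generic hV hdim hne hL hk
          exact ⟨P, hP, fun A hA _ => h A hA⟩
    · exact ⟨1, one_ne_zero, fun A _ h => absurd h hL⟩
  choose P hP hPA using key
  refine ⟨∏ L : Finset (Fin n), ∏ k : Fin n, P L k, ?_, ?_⟩
  · rw [Finset.prod_ne_zero_iff]
    intro L _
    rw [Finset.prod_ne_zero_iff]
    intro k _
    exact hP L k
  · intro A hA L hL k
    rw [map_prod, Finset.prod_ne_zero_iff] at hA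
    have h1 := hA L (Finset.mem_univ L)
    rw [map_prod, Finset.prod_ne_zero_iff] at h1
    exact hPA L k A (h1 k (Finset.mem_univ k)) hL

end Pool.Agent.ZPS
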