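import Pool.Agent.ZPS.Main
import Pool.Agent.ZPS.DensFixed
import Pool.Agent.ZPS.GN4

/-!
# ZPS: Zilber-Pink for almost all rational translates, final form
-/

namespace Pool.Agent.ZPS

open UpperHalfPlane MvPolynomial Pool.Agent.Hhelper14.ZP Pool.Agent.Hhelper14.ZPL

variable {n d : ℕ}

/-- all atypical components of `V` (`d` stands for `dim V`), with the restriction
`dim Z + 2 d ≤ dim W + n + 1` if `d ≥ 3`, lie in finitely many proper special subvarieties -/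
def ZPAll (d : ℕ) (V : Set (Fin n → ℂ)) : Prop :=
  ∃ S : Set (Set (Fin n → ℂ)), S.Finite ∧
    (∀ T ∈ S, Pool.Agent.Hhelper14.ZPL.IsSpecial T ∧ T ≠ Set.univ) ∧
    ∀ Z W, Pool.Agent.Hhelper14.ZPL.IsSpecial Z → Pool.Agent.Hhelper14.ZPL.IsComponent W (V ∩ Z) →
      Pool.Agent.Hhelper14.ZPL.dim Z + d < Pool.Agent.Hhelper14.ZPL.dim W + n →
      (d ≤ 2 ∨ Pool.Agent.Hhelper14.ZPL.dim Z + 2 * d ≤ Pool.Agent.Hhelper14.ZPL.dim W + n + 1) →
        ∃ T ∈ S, W ⊆ T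

theorem ZPFor.all {V : Set (Fin n → ℂ)} (h : ZPFor d V) : ZPAll d V := by
  obtain ⟨S, hS, hSs, h⟩ := h
  refine ⟨S, hS, hSs, fun Z W hZ hW h1 h2 => h Z W hZ hW h1 ?_⟩
  rcases h2 with h2 | h2
  · obtain ⟨w, hw, -⟩ := exists_dim hW.1
    obtain ⟨r, block, g, s, hb, hg, -, rfl⟩ := isSpecial_iff.mp hZ
    rw [dim_spSet hb hg, Fintype.card_fin, hw] at h1 ⊢
    have h3 : r + d < w + n := by exact_mod_cast h1
    have h4 : r + 2 * d ≤ w + n + 1 := by omega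
    exact_mod_cast h4
  · exact h2

/-- for a variety in general position at infinity: for every direction `u` outside a hypersurface
and almost every denominator `m` -/
theorem main_fixed (hd : 1 ≤ d) {V : Set (Fin n → ℂ)} (hV : GenPos d V) :
    ∃ Q : MvPolynomial (Fin n) ℚ, Q ≠ 0 ∧ ∀ u : Fin n → ℤ, eval (fun i => (u i : ℚ)) Q ≠ 0 →
      ∀ ε : ℝ, 0 < ε → ∀ᶠ H : ℕ in Filter.atTop,
        (Set.ncard {m : ℕ | 1 ≤ m ∧ m ≤ H ∧ ¬ ZPAll d (shift u m V)} : ℝ) ≤ ε * H := by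
  classical
  obtain ⟨A, hA⟩ := exists_GPData hV
  set D : ℕ := ∏ L : Finset (Fin n), ∏ k : Fin n, (A.K L k).factorial with hDdef
  have hD1 : 1 ≤ D := Nat.one_le_iff_ne_zero.mpr
    (Finset.prod_ne_zero_iff.mpr fun L _ => Finset.prod_ne_zero_iff.mpr fun k _ =>
      Nat.factorial_ne_zero _)
  have hD : ∀ L k e, 1 ≤ e → e ≤ A.K L k → e ∣ D := fun L k e h1 h2 =>
    (Nat.dvd_factorial h1 h2).trans ((Finset.dvd_prod_of_mem (fun k => (A.K L k).factorial)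
      (Finset.mem_univ k)).trans (Finset.dvd_prod_of_mem
        (fun L => ∏ k : Fin n, (A.K L k).factorial) (Finset.mem_univ L)))
  refine ⟨∏ L : Finset (Fin n), ∏ k : Fin n, if k ∈ L then 1 else A.G L k,
    Finset.prod_ne_zero_iff.mpr fun L _ => Finset.prod_ne_zero_iff.mpr fun k _ => ?_,
    fun u hu ε hε => ?_⟩
  · split_ifs with h
    · exact one_ne_zero
    · exact G_ne_zero A h
  have hu' : ∀ L : Finset (Fin n), L.card = d → ∀ k', k' ∉ L →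
      eval (fun i => (u i : ℚ)) (A.G L k') ≠ 0 := by
    intro L _ k hk
    rw [map_prod] at hu
    have h1 := Finset.prod_ne_zero_iff.mp hu L (Finset.mem_univ L)
    rw [map_prod] at h1
    have h2 := Finset.prod_ne_zero_iff.mp h1 k (Finset.mem_univ k)
    rwa [if_neg hk] at h2
  filter_upwards [density_fixed A D (n ^ 2 + 1) ((n : ℝ) ^ 2 * (16 * Real.pi + 1)) u hu' hε]
    with H hH
  refine le_trans ?_ hH
  have hfin : {m : ℕ | 1 ≤ m ∧ m ≤ H ∧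
      ¬ A.GoodShift D (n ^ 2 + 1) ((n : ℝ) ^ 2 * (16 * Real.pi + 1)) u m}.Finite :=
    Set.Finite.subset (Set.finite_Iic H) fun m hm => hm.2.1
  have hsub : {m : ℕ | 1 ≤ m ∧ m ≤ H ∧ ¬ ZPAll d (shift u m V)} ⊆ {m : ℕ | 1 ≤ m ∧ m ≤ H ∧
      ¬ A.GoodShift D (n ^ 2 + 1) ((n : ℝ) ^ 2 * (16 * Real.pi + 1)) u m} := by
    rintro m ⟨h2, h3, h4⟩
    refine ⟨h2, h3, fun h5 => h4 (ZPFor.all ?_)⟩
    exact zp_of_good A hd hD1 hD u h2 h5 fun x hx => hA _ hx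
  exact_mod_cast Set.ncard_le_ncard hsub hfin

/-- final form -/
theorem final (hd : 1 ≤ d) (V : Set (Fin n → ℂ)) (hV : KClosed V)
    (hdim : Pool.Agent.Hhelper14.ZPL.dim V = d) :
    ∃ P : MvPolynomial (Fin n × Fin n) ℚ, P ≠ 0 ∧ ∀ A : Matrix (Fin n) (Fin n) ℚ, A.det ≠ 0 →
      (eval (fun ij : Fin n × Fin n => A ij.1 ij.2) P ≠ 0 ∨ GenPos d (linImage A V)) →
      ∃ Q : MvPolynomial (Fin n) ℚ, Q ≠ 0 ∧ ∀ u : Fin n → ℤ, eval (fun i => (u i : ℚ)) Q ≠ 0 →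
        ∀ ε : ℝ, 0 < ε → ∀ᶠ H : ℕ in Filter.atTop,
          (Set.ncard {m : ℕ | 1 ≤ m ∧ m ≤ H ∧ ¬ ZPAll d (shift u m (linImage A V))} : ℝ) ≤
            ε * H := by
  obtain ⟨P, hP, h⟩ := generic_genPos hV hdim.le
  refine ⟨P, hP, fun A _ hA => ?_⟩
  rcases hA with hA | hA
  · exact main_fixed hd (h A hA)
  · exact main_fixed hd hA

end Pool.Agent.ZPS
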