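import Pool.Agent.ZPS.GNDefs
import Pool.Agent.Hhelper14.ZPL.Fib

/-!
# ZPS module GN1: `d + 1` generic linear forms are dependent on a variety of dimension `≤ d`

Let `V` be irreducible closed, `dim V ≤ d`. `X = V × Mat_n(ℂ)` (`ZPL.Fib (Fin n × Fin n) V ⊆
ℂ^((Fin n × Fin n) ⊕ Fin n)`, `fib_irred`, `dim_fib`) is irreducible of dimension `≤ d + n²`. The
`n² + d + 1` functions `A_ij` and `ℓ_l = ∑_j A_lj y_j` (`l ∈ insert k L`) in its coordinate ring (a domain
whose transcendence degree over `ℂ` is its Krull dimension, cf. `ZP/Alg.lean` `krull_eq_card`,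
`ZP/Gen.lean` `exists_basis`, `ZP2/Mob.lean` `card_le_dim`, `ZP2/Main.lean` `exists_relation`) are
algebraically dependent over `ℂ`; write the relation as a polynomial in the `z_l` with coefficients
in `ℂ[A]` (`MvPolynomial.sumAlgEquiv`/`rename`). For a general closed `V` take the product over the
irreducible components (`ZPL.exists_components`).
-/

namespace Pool.Agent.ZPS

open MvPolynomial Pool.Agent.Hhelper14.ZPL

variable {n : ℕ}

/-- algebraically independent families are not longer than the dimension -/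
theorem gn1_card_le {B : Type} [CommRing B] [IsDomain B] [Algebra ℂ B]
    [Algebra.FiniteType ℂ B] {ι : Type} [Fintype ι] {x : ι → B}
    (hx : AlgebraicIndependent ℂ x) : ((Fintype.card ι : ℕ) : WithBot ℕ∞) ≤ ringKrullDim B := by
  obtain ⟨s, g, hg, hint⟩ := exists_integral_inj_algHom_of_fg (k := ℂ) (R := B)
  let _ : Algebra (MvPolynomial (Fin s) ℂ) B := g.toRingHom.toAlgebra
  have : IsScalarTower ℂ (MvPolynomial (Fin s) ℂ) B := .of_algebraMap_eq fun c => (g.commutes c).symm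
  have hI : Algebra.IsIntegral (MvPolynomial (Fin s) ℂ) B := ⟨hint⟩
  have hinj : Function.Injective (algebraMap (MvPolynomial (Fin s) ℂ) B) := hg
  have : FaithfulSMul (MvPolynomial (Fin s) ℂ) B := (faithfulSMul_iff_algebraMap_injective _ _).mpr hinj
  have h1 : IsTranscendenceBasis ℂ (algebraMap (MvPolynomial (Fin s) ℂ) B ∘ MvPolynomial.X) :=
    (IsTranscendenceBasis.mvPolynomial (Fin s) ℂ).algebraMap_comp
  have h2 := hx.cardinalMk_le_trdeg
  rw [← h1.cardinalMk_eq_trdeg] at h2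
  have h3 : Fintype.card ι ≤ s := by
    simpa using h2
  rw [← Pool.Agent.Hhelper14.ZP.krull_eq_of_integral hinj,
    MvPolynomial.ringKrullDim_of_isNoetherianRing]
  simp only [ringKrullDim_eq_zero_of_field, zero_add, Nat.card_eq_fintype_card, Fintype.card_fin]
  exact_mod_cast h3

/-- the generic linear forms, and the entries of the generic matrix -/
noncomputable def gn1W (S : Finset (Fin n)) :
    S ⊕ (Fin n × Fin n) → MvPolynomial ((Fin n × Fin n) ⊕ Fin n) ℂ :=
  Sum.elim (fun l => ∑ j, X (Sum.inl ((l : Fin n), j)) * X (Sum.inr j)) (fun ij => X (Sum.inl ij))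

theorem gn1_irred {d : ℕ} {V : Set (Fin n → ℂ)} (hV : IsIrredClosed V)
    (hdim : Pool.Agent.Hhelper14.ZPL.dim V ≤ d) {S : Finset (Fin n)} (hS : S.card = d + 1) :
    ∃ Φ : MvPolynomial (Fin n) (MvPolynomial (Fin n × Fin n) ℂ), Φ ≠ 0 ∧ Φ.vars ⊆ S ∧
      ∀ (A : Matrix (Fin n) (Fin n) ℂ), ∀ y ∈ V,
        eval (A.mulVec y) (map (eval (fun ij : Fin n × Fin n => A ij.1 ij.2)) Φ) = 0 := by
  classical
  obtain ⟨Q, hQ⟩ : ∃ Q : Ideal (MvPolynomial ((Fin n × Fin n) ⊕ Fin n) ℂ),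
      Q = vanishingIdeal ℂ (Fib (Fin n × Fin n) V) := ⟨_, rfl⟩
  have hQp : Q.IsPrime := by
    rw [hQ]
    exact (fib_irred (m := Fin n × Fin n) hV).1
  have hdimQ : ringKrullDim (MvPolynomial ((Fin n × Fin n) ⊕ Fin n) ℂ ⧸ Q) =
      Pool.Agent.Hhelper14.ZPL.dim V + ((n * n : ℕ) : WithBot ℕ∞) := by
    have h := dim_fib (m := Fin n × Fin n) V
    rw [Pool.Agent.Hhelper14.ZPL.dim, ← hQ] at h
    rw [h]
    simp
  have hdep : ¬ AlgebraicIndependent ℂ (fun i => Ideal.Quotient.mk Q (gn1W S i)) := by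
    intro hind
    have h1 := gn1_card_le hind
    rw [hdimQ] at h1
    have h2 : Fintype.card (S ⊕ (Fin n × Fin n)) = (d + 1) + n * n := by
      simp [hS]
    rw [h2] at h1
    have h3 : (((d + 1) + n * n : ℕ) : WithBot ℕ∞) ≤ (d : WithBot ℕ∞) + ((n * n : ℕ) : WithBot ℕ∞) :=
      h1.trans (by gcongr)
    have h4 : (d + 1) + n * n ≤ d + n * n := by exact_mod_cast h3
    omega
  rw [algebraicIndependent_iff] at hdep
  push Not at hdep
  obtain ⟨H, hH, hH0⟩ := hdep
  have hmem : aeval (gn1W S) H ∈ Q := by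
    rw [← Ideal.Quotient.eq_zero_iff_mem, ← hH]
    have h2 : (aeval (fun i => Ideal.Quotient.mk Q (gn1W S i)) :
        MvPolynomial (S ⊕ (Fin n × Fin n)) ℂ →ₐ[ℂ] _) =
        (Ideal.Quotient.mkₐ ℂ Q).comp (aeval (gn1W S)) := by
      ext b
      simp
    rw [h2]
    rfl
  refine ⟨rename (fun l : S => (l : Fin n)) (sumRingEquiv ℂ S (Fin n × Fin n) H), ?_, ?_, ?_⟩
  · intro h0
    apply hH0
    have h1 := rename_injective (R := MvPolynomial (Fin n × Fin n) ℂ) (fun l : S => (l : Fin n))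
      Subtype.val_injective (h0.trans (map_zero _).symm)
    exact (sumRingEquiv ℂ S (Fin n × Fin n)).injective (h1.trans (map_zero _).symm)
  · intro l hl
    have h1 := vars_rename (fun l : S => (l : Fin n)) _ hl
    obtain ⟨a, -, ha⟩ := Finset.mem_image.1 h1
    rw [← ha]
    exact a.2
  · intro A y hy
    rw [map_rename, eval_rename, ← eval_sumRing]
    have hz : Sum.elim (fun ij : Fin n × Fin n => A ij.1 ij.2) y ∈ Fib (Fin n × Fin n) V := by
      show Sum.elim _ y ∘ Sum.inr ∈ V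
      rw [Sum.elim_comp_inr]
      exact hy
    rw [hQ, mem_vanishingIdeal_iff] at hmem
    have h1 := hmem _ hz
    have h2 : ((aeval (Sum.elim (fun ij : Fin n × Fin n => A ij.1 ij.2) y) :
        MvPolynomial ((Fin n × Fin n) ⊕ Fin n) ℂ →ₐ[ℂ] ℂ)).comp (aeval (gn1W S)) =
        aeval (Sum.elim (A.mulVec y ∘ fun l : S => (l : Fin n))
          (fun ij : Fin n × Fin n => A ij.1 ij.2)) := by
      apply MvPolynomial.algHom_ext
      rintro (l | ij)
      · simp [gn1W, Matrix.mulVec, dotProduct]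
      · simp [gn1W]
    have h3 := congrArg (fun f : MvPolynomial (S ⊕ (Fin n × Fin n)) ℂ →ₐ[ℂ] ℂ => f H) h2
    simp only [AlgHom.comp_apply] at h3
    rw [← MvPolynomial.coe_aeval_eq_eval, RingHom.coe_coe, ← h3]
    exact h1

theorem exists_dep {d : ℕ} {V : Set (Fin n → ℂ)} (hV : IsZClosed V)
    (hdim : Pool.Agent.Hhelper14.ZPL.dim V ≤ d)
    {L : Finset (Fin n)} (hL : L.card = d) {k : Fin n} (hk : k ∉ L) :
    ∃ Φ : MvPolynomial (Fin n) (MvPolynomial (Fin n × Fin n) ℂ), Φ ≠ 0 ∧ Φ.vars ⊆ insert k L ∧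
      ∀ (A : Matrix (Fin n) (Fin n) ℂ), ∀ y ∈ V,
        eval (A.mulVec y) (map (eval (fun ij : Fin n × Fin n => A ij.1 ij.2)) Φ) = 0 := by
  classical
  obtain ⟨F, hF, hF'⟩ := exists_components hV
  have hS : (insert k L).card = d + 1 := by rw [Finset.card_insert_of_notMem hk, hL]
  have hex : ∀ D : F, ∃ Φ : MvPolynomial (Fin n) (MvPolynomial (Fin n × Fin n) ℂ), Φ ≠ 0 ∧
      Φ.vars ⊆ insert k L ∧ ∀ (A : Matrix (Fin n) (Fin n) ℂ), ∀ y ∈ D.1,
        eval (A.mulVec y) (map (eval (fun ij : Fin n × Fin n => A ij.1 ij.2)) Φ) = 0 := by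
    intro D
    obtain ⟨h1, h2, -⟩ := hF D.1 D.2
    exact gn1_irred h1 ((dim_mono h2).trans hdim) hS
  choose Φ h0 hv hΦ using hex
  refine ⟨∏ D : F, Φ D, Finset.prod_ne_zero_iff.2 fun D _ => h0 D, ?_, ?_⟩
  · refine (vars_prod _).trans ?_
    exact Finset.biUnion_subset.2 fun D _ => hv D
  · intro A y hy
    obtain ⟨D, hD, hyD⟩ := hF' {y} (irredClosed_singleton y) (Set.singleton_subset_iff.2 hy)
    have hyD' : y ∈ D := hyD (Set.mem_singleton y)
    have h1 := hΦ ⟨D, hD⟩ A y hyD'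
    rw [map_prod, map_prod]
    exact Finset.prod_eq_zero (Finset.mem_univ (⟨D, hD⟩ : F)) h1

end Pool.Agent.ZPS
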