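import Pool.Agent.Hhelper14.ZPL.KClosed

/-!
# Generic linear images are in general position at infinity: definitions
-/

namespace Pool.Agent.ZPS

open MvPolynomial

variable {n : ℕ}

/-- `V ⊆ ℂⁿ` is in general position at infinity (with respect to `d`): for every set `L` of `d`
coordinates and every `k` there is a relation `y_k^K + ∑_{s=1}^K a_s(y_L) y_k^{K-s} = 0` on `V`, `K ≥ 1`,
`a_s ∈ ℚ[y_L]` of degree at most `s`. -/
def GenPos (d : ℕ) (V : Set (Fin n → ℂ)) : Prop :=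
  ∀ L : Finset (Fin n), L.card = d → ∀ k : Fin n, ∃ (K : ℕ) (a : ℕ → MvPolynomial (Fin n) ℚ),
    1 ≤ K ∧ (∀ s, (a s).totalDegree ≤ s ∧ (a s).vars ⊆ L) ∧
      ∀ y ∈ V, y k ^ K + ∑ s ∈ Finset.Icc 1 K, aeval y (a s) * y k ^ (K - s) = 0

/-- the linear image `A V` -/
def linImage (A : Matrix (Fin n) (Fin n) ℚ) (V : Set (Fin n → ℂ)) : Set (Fin n → ℂ) :=
  {x | ∃ y ∈ V, ∀ i, x i = ∑ j, (A i j : ℂ) * y j}

/-- a one-relation version over an arbitrary field of coefficients -/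
def RelOver (F : Type) [Field F] [Algebra F ℂ] (L : Finset (Fin n)) (k : Fin n)
    (Z : Set (Fin n → ℂ)) : Prop :=
  ∃ (K : ℕ) (a : ℕ → MvPolynomial (Fin n) F), 1 ≤ K ∧
    (∀ s, (a s).totalDegree ≤ s ∧ (a s).vars ⊆ L) ∧
      ∀ z ∈ Z, z k ^ K + ∑ s ∈ Finset.Icc 1 K, aeval z (a s) * z k ^ (K - s) = 0

end Pool.Agent.ZPS
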