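import Mathlib

/-!
# General position at infinity

`GPData n d`: for every set `L` of coordinates and every `k`, an integer `K ≥ 1` and polynomials
`a s ∈ ℚ[y_L]` of degree at most `s`. `Holds y`: `y_k^K + ∑_{s=1}^K a_s(y_L) y_k^{K-s} = 0` for all `L`
with `d` elements and all `k`.
-/

namespace Pool.Agent.ZPS

open MvPolynomial

instance factPrimes (p : Nat.Primes) : Fact (Nat.Prime (p : ℕ)) := ⟨p.2⟩

structure GPData (n d : ℕ) where
  K : Finset (Fin n) → Fin n → ℕ
  a : Finset (Fin n) → Fin n → ℕ → MvPolynomial (Fin n) ℚ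
  hK : ∀ L k, 1 ≤ K L k
  hdeg : ∀ L k s, (a L k s).totalDegree ≤ s
  hvars : ∀ L k s, (a L k s).vars ⊆ L

variable {n d : ℕ}

/-- the relations hold at `y` -/
def GPData.Holds (A : GPData n d) {F : Type*} [Field F] [Algebra ℚ F] (y : Fin n → F) : Prop :=
  ∀ L : Finset (Fin n), L.card = d → ∀ k,
    y k ^ A.K L k + ∑ s ∈ Finset.Icc 1 (A.K L k), aeval y (A.a L k s) * y k ^ (A.K L k - s) = 0

/-- the homogeneous polynomial `G_{L,k} = X_k^K + ∑_s a_s^{top}(X_L) X_k^{K-s}` -/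
noncomputable def GPData.G (A : GPData n d) (L : Finset (Fin n)) (k : Fin n) :
    MvPolynomial (Fin n) ℚ :=
  X k ^ A.K L k + ∑ s ∈ Finset.Icc 1 (A.K L k),
    homogeneousComponent s (A.a L k s) * X k ^ (A.K L k - s)

/-- all the coefficients of the relations are `p`-integral -/
def GPData.GoodAt (A : GPData n d) (p : ℕ) : Prop :=
  ∀ L : Finset (Fin n), L.card = d → ∀ k, ∀ s ≤ A.K L k, ∀ α, padicNorm p (coeff α (A.a L k s)) ≤ 1

/-- the shift `(u, m)` is good: there are `k` primes, `≥ exp B`, with `p_{i+1} > p_i ^ D`, dividing `m`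
exactly once, at which the relations are integral and no `G_{L,k}(u)` vanishes modulo `p` -/
def GPData.GoodShift (A : GPData n d) (D k : ℕ) (B : ℝ) (u : Fin n → ℤ) (m : ℕ) : Prop :=
  ∃ p : Fin k → ℕ, (∀ j, (p j).Prime ∧ B ≤ Real.log (p j) ∧ p j ∣ m ∧ ¬ p j ^ 2 ∣ m ∧
      A.GoodAt (p j) ∧ ∀ L : Finset (Fin n), L.card = d → ∀ k', k' ∉ L →
        padicNorm (p j) (eval (fun i => (u i : ℚ)) (A.G L k')) = 1) ∧
    ∀ i j, i < j → p i ^ D < p j

theorem GPData.Holds.map {A : GPData n d} {F F' : Type*} [Field F] [Algebra ℚ F] [Field F']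
    [Algebra ℚ F'] {y : Fin n → F} (h : A.Holds y) (φ : F →+* F') :
    A.Holds (fun i => φ (y i)) := by
  intro L hL k
  have h1 := congrArg φ (h L hL k)
  rw [map_zero, map_add, map_pow, map_sum] at h1
  rw [← h1]
  congr 1
  refine Finset.sum_congr rfl fun s _ => ?_
  rw [map_mul, map_pow]
  congr 1
  have h2 : (φ.comp (algebraMap ℚ F)) = algebraMap ℚ F' := Subsingleton.elim _ _
  rw [aeval_def, aeval_def, ← h2]
  exact (eval₂_comp_left φ (algebraMap ℚ F) y _).symm

end Pool.Agent.ZPS
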