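import Pool.Agent.ZPS.GP
import Pool.Agent.Hhelper14.ZP2.Tate

/-!
# ZPS module 12a: general position at infinity, all places

(L1) Suppose `Λ = max_i log⁺‖x_i‖ > R` and `#{i | log⁺‖x_i‖ < Λ/2} ≥ d`; choose `L` in this set with
`d` elements and `k` with `log⁺‖x_k‖ = Λ`, so `‖x_k‖ = e^Λ`, and `‖x_l‖ < e^{Λ/2}` for `l ∈ L`. Let
`y = x - b`. `p`-adic case: let `c ≥ 1` with `‖b_i‖ ≤ c` and all coefficients of the `a_{L,k,s}`
(`L.card = d`, `s ≤ K L k`; finitely many) of norm `≤ c`; `c = 1` for all but finitely many `p`;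
`R_p = 2 log c²` or similar (`0` if `c = 1`). Then `‖y_k‖ = ‖x_k‖` (if `e^Λ > c`), `‖y_l‖ ≤ max(e^{Λ/2},
c)`, so `‖a_s(y_L)‖ ≤ c max(e^{Λ/2}, c)^s`, and the relation gives, for some `s ∈ [1, K]`,
`‖y_k‖^s ≤ c max(e^{Λ/2}, c)^s`, so `e^Λ ≤ c max(e^{Λ/2}, c)`, whence `Λ ≤ 2 log c` or `Λ ≤ log c²`:
`Λ ≤ 2 log c`; a contradiction if `R_p = 2 log c`. Archimedean case: the same with the triangle
inequality and larger constants.
-/

namespace Pool.Agent.ZPS

open MvPolynomial Pool.Agent.Hhelper14.ZP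

variable {n d : ℕ}

namespace L1Aux

theorem mon_bound {F : Type*} [NormedField F] {y : Fin n → F} {L : Finset (Fin n)} {B : ℝ}
    (hB : 1 ≤ B) (hy : ∀ l ∈ L, ‖y l‖ ≤ B) {P : MvPolynomial (Fin n) ℚ} (hv : P.vars ⊆ L) {s : ℕ}
    (hs : P.totalDegree ≤ s) {α : Fin n →₀ ℕ} (hα : α ∈ P.support) :
    ‖∏ i, y i ^ α i‖ ≤ B ^ s := by
  have h1 : ‖∏ i, y i ^ α i‖ ≤ ∏ i : Fin n, B ^ α i := by
    rw [norm_prod]
    refine Finset.prod_le_prod (fun i _ => norm_nonneg _) fun i _ => ?_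
    rw [norm_pow]
    by_cases hi : i ∈ L
    · exact pow_le_pow_left₀ (norm_nonneg _) (hy i hi) _
    · have h2 : α i = 0 := by
        by_contra hne
        apply hi
        apply hv
        rw [MvPolynomial.mem_vars_iff_mem_support]
        exact ⟨α, hα, Finsupp.mem_support_iff.mpr hne⟩
      rw [h2, pow_zero, pow_zero]
  refine h1.trans ?_
  rw [Finset.prod_pow_eq_pow_sum]
  apply pow_le_pow_right₀ hB
  have h3 := MvPolynomial.le_totalDegree hα
  rw [Finsupp.sum_fintype _ _ (fun _ => rfl)] at h3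
  exact h3.trans hs

theorem aeval_ultra {F : Type*} [NormedField F] [IsUltrametricDist F] [Algebra ℚ F]
    {y : Fin n → F} {L : Finset (Fin n)} {B c : ℝ} (hc : 0 ≤ c)
    (hB : 1 ≤ B) (hy : ∀ l ∈ L, ‖y l‖ ≤ B) {P : MvPolynomial (Fin n) ℚ} (hv : P.vars ⊆ L) {s : ℕ}
    (hs : P.totalDegree ≤ s) (hcoef : ∀ α ∈ P.support, ‖algebraMap ℚ F (coeff α P)‖ ≤ c) :
    ‖aeval y P‖ ≤ c * B ^ s := by
  rw [aeval_def, eval₂_eq']
  refine IsUltrametricDist.norm_sum_le_of_forall_le_of_nonneg (by positivity) fun α hα => ?_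
  rw [norm_mul]
  exact mul_le_mul (hcoef α hα) (mon_bound hB hy hv hs hα) (norm_nonneg _) hc

theorem aeval_arch {F : Type*} [NormedField F] [Algebra ℚ F]
    {y : Fin n → F} {L : Finset (Fin n)} {B c : ℝ}
    (hB : 1 ≤ B) (hy : ∀ l ∈ L, ‖y l‖ ≤ B) {P : MvPolynomial (Fin n) ℚ} (hv : P.vars ⊆ L) {s : ℕ}
    (hs : P.totalDegree ≤ s) (hcoef : ∑ α ∈ P.support, ‖algebraMap ℚ F (coeff α P)‖ ≤ c) :
    ‖aeval y P‖ ≤ c * B ^ s := by
  rw [aeval_def, eval₂_eq']
  calc ‖∑ α ∈ P.support, (algebraMap ℚ F) (coeff α P) * ∏ i, y i ^ α i‖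
      ≤ ∑ α ∈ P.support, ‖(algebraMap ℚ F) (coeff α P) * ∏ i, y i ^ α i‖ := norm_sum_le _ _
    _ ≤ ∑ α ∈ P.support, ‖(algebraMap ℚ F) (coeff α P)‖ * B ^ s := by
        refine Finset.sum_le_sum fun α hα => ?_
        rw [norm_mul]
        exact mul_le_mul_of_nonneg_left (mon_bound hB hy hv hs hα) (norm_nonneg _)
    _ = (∑ α ∈ P.support, ‖(algebraMap ℚ F) (coeff α P)‖) * B ^ s := by rw [Finset.sum_mul]
    _ ≤ c * B ^ s := mul_le_mul_of_nonneg_right hcoef (by positivity)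

theorem term_bound {B Y c a : ℝ} (hB : 1 ≤ B) (hBY : B ≤ Y) (hc : 0 ≤ c) {K s : ℕ}
    (hs : s ∈ Finset.Icc 1 K) (ha : a ≤ c * B ^ s) :
    a * Y ^ (K - s) ≤ c * B * Y ^ (K - 1) := by
  rw [Finset.mem_Icc] at hs
  obtain ⟨t, rfl⟩ : ∃ t, s = t + 1 := ⟨s - 1, by omega⟩
  have hY : 0 ≤ Y := by linarith
  calc a * Y ^ (K - (t + 1)) ≤ c * B ^ (t + 1) * Y ^ (K - (t + 1)) :=
        mul_le_mul_of_nonneg_right ha (by positivity)
    _ = c * B * (B ^ t * Y ^ (K - (t + 1))) := by ring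
    _ ≤ c * B * (Y ^ t * Y ^ (K - (t + 1))) := by
        apply mul_le_mul_of_nonneg_left _ (by positivity)
        apply mul_le_mul_of_nonneg_right _ (by positivity)
        exact pow_le_pow_left₀ (by linarith) hBY _
    _ = c * B * Y ^ (K - 1) := by
        rw [← pow_add]
        congr 2
        omega

theorem ultra_core {F : Type*} [NormedField F] [IsUltrametricDist F] [Algebra ℚ F]
    (A : GPData n d) {y : Fin n → F} {L : Finset (Fin n)} {B c : ℝ} (hc : 1 ≤ c)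
    (hB : 1 ≤ B) (hy : ∀ l ∈ L, ‖y l‖ ≤ B) (k : Fin n)
    (hcoef : ∀ s ∈ Finset.Icc 1 (A.K L k), ∀ α ∈ (A.a L k s).support,
      ‖algebraMap ℚ F (coeff α (A.a L k s))‖ ≤ c)
    (h : y k ^ A.K L k + ∑ s ∈ Finset.Icc 1 (A.K L k),
      aeval y (A.a L k s) * y k ^ (A.K L k - s) = 0) : ‖y k‖ ≤ c * B := by
  by_contra hcon
  rw [not_le] at hcon
  have hBY : B ≤ ‖y k‖ := by
    have : B ≤ c * B := le_mul_of_one_le_left (by linarith) hc
    linarith
  have h1 : ‖∑ s ∈ Finset.Icc 1 (A.K L k), aeval y (A.a L k s) * y k ^ (A.K L k - s)‖ ≤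
      c * B * ‖y k‖ ^ (A.K L k - 1) := by
    refine IsUltrametricDist.norm_sum_le_of_forall_le_of_nonneg (by positivity) fun s hs => ?_
    rw [norm_mul, norm_pow]
    exact term_bound hB hBY (by linarith) hs
      (aeval_ultra (by linarith) hB hy (A.hvars L k s) (A.hdeg L k s) (hcoef s hs))
  have h2 : y k ^ A.K L k = -∑ s ∈ Finset.Icc 1 (A.K L k),
      aeval y (A.a L k s) * y k ^ (A.K L k - s) := by
    linear_combination h
  have h3 := congrArg norm h2
  rw [norm_neg, norm_pow] at h3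
  rw [← h3] at h1
  have hK := A.hK L k
  obtain ⟨K', hK'⟩ : ∃ K', A.K L k = K' + 1 := ⟨A.K L k - 1, by omega⟩
  rw [hK', Nat.add_sub_cancel, pow_succ] at h1
  have h4 : 0 < ‖y k‖ ^ K' := by
    have : 0 < ‖y k‖ := by linarith
    positivity
  have h5 : c * B * ‖y k‖ ^ K' < ‖y k‖ ^ K' * ‖y k‖ := by
    rw [mul_comm]
    exact mul_lt_mul_of_pos_left hcon h4
  linarith

theorem arch_core {F : Type*} [NormedField F] [Algebra ℚ F]
    (A : GPData n d) {y : Fin n → F} {L : Finset (Fin n)} {B c : ℝ} (hc : 0 ≤ c)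
    (hB : 1 ≤ B) (hy : ∀ l ∈ L, ‖y l‖ ≤ B) (k : Fin n)
    (hcoef : ∀ s ∈ Finset.Icc 1 (A.K L k), ∑ α ∈ (A.a L k s).support,
      ‖algebraMap ℚ F (coeff α (A.a L k s))‖ ≤ c)
    (h : y k ^ A.K L k + ∑ s ∈ Finset.Icc 1 (A.K L k),
      aeval y (A.a L k s) * y k ^ (A.K L k - s) = 0) : ‖y k‖ ≤ (1 + A.K L k * c) * B := by
  by_contra hcon
  rw [not_le] at hcon
  have hKc : 0 ≤ (A.K L k : ℝ) * c := by positivity
  have hBY : B ≤ ‖y k‖ := by
    have : 0 ≤ (A.K L k : ℝ) * c * B := by positivity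
    have h0 : (1 + A.K L k * c) * B = B + A.K L k * c * B := by ring
    linarith
  have h1 : ‖∑ s ∈ Finset.Icc 1 (A.K L k), aeval y (A.a L k s) * y k ^ (A.K L k - s)‖ ≤
      A.K L k * (c * B * ‖y k‖ ^ (A.K L k - 1)) := by
    refine (norm_sum_le _ _).trans ?_
    calc ∑ s ∈ Finset.Icc 1 (A.K L k), ‖aeval y (A.a L k s) * y k ^ (A.K L k - s)‖
        ≤ ∑ s ∈ Finset.Icc 1 (A.K L k), c * B * ‖y k‖ ^ (A.K L k - 1) := by
          refine Finset.sum_le_sum fun s hs => ?_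
          rw [norm_mul, norm_pow]
          exact term_bound hB hBY hc hs
            (aeval_arch hB hy (A.hvars L k s) (A.hdeg L k s) (hcoef s hs))
      _ = A.K L k * (c * B * ‖y k‖ ^ (A.K L k - 1)) := by
          rw [Finset.sum_const, Nat.card_Icc, nsmul_eq_mul, Nat.add_sub_cancel]
  have h2 : y k ^ A.K L k = -∑ s ∈ Finset.Icc 1 (A.K L k),
      aeval y (A.a L k s) * y k ^ (A.K L k - s) := by
    linear_combination h
  have h3 := congrArg norm h2
  rw [norm_neg, norm_pow] at h3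
  rw [← h3] at h1
  have hK := A.hK L k
  have hpow : ‖y k‖ ^ A.K L k = ‖y k‖ ^ (A.K L k - 1) * ‖y k‖ := by
    rw [← pow_succ]
    congr 1
    omega
  rw [hpow] at h1
  have hy0 : 0 < ‖y k‖ := by linarith
  have h4 : 0 < ‖y k‖ ^ (A.K L k - 1) := by positivity
  have h5 : ‖y k‖ ^ (A.K L k - 1) * ((1 + A.K L k * c) * B) <
      ‖y k‖ ^ (A.K L k - 1) * ‖y k‖ := mul_lt_mul_of_pos_left hcon h4
  have h6 : 0 < ‖y k‖ ^ (A.K L k - 1) * B := mul_pos h4 (by linarith)
  nlinarith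

theorem exp_of_posLog {x Λ : ℝ} (h : Real.posLog x = Λ) (hΛ : 0 < Λ) (hx : 0 ≤ x) :
    x = Real.exp Λ := by
  replace h : max 0 (Real.log x) = Λ := h
  have h1 : Real.log x = Λ := by
    rcases le_total 0 (Real.log x) with h0 | h0
    · rw [max_eq_right h0] at h
      exact h
    · rw [max_eq_left h0] at h
      linarith
  have h2 : 0 < x := by
    rcases hx.lt_or_eq with h3 | h3
    · exact h3
    · rw [← h3, Real.log_zero] at h1
      linarith
  rw [← h1, Real.exp_log h2]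

theorem le_exp_of_posLog {x Λ : ℝ} (h : Real.posLog x ≤ Λ) (hx : 0 ≤ x) : x ≤ Real.exp Λ := by
  have h1 : Real.log x ≤ Λ := by
    replace h : max 0 (Real.log x) ≤ Λ := h
    exact (le_max_right _ _).trans h
  rcases hx.lt_or_eq with h3 | h3
  · exact (Real.log_le_iff_le_exp h3).mp h1
  · rw [← h3]
    exact (Real.exp_pos _).le

theorem norm_rat_eq' (p : Nat.Primes) (ν : ℚ) :
    ‖((ν : ℚ) : PadicComplex p)‖ = ‖(ν : ℚ_[p])‖ := by
  rw [Rat.cast_def, Rat.cast_def, norm_div, norm_div, norm_intCast_eq, norm_natCast_eq]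

/-- all the rational numbers which occur -/
noncomputable def TT (A : GPData n d) (b : Fin n → ℚ) : Finset ℚ :=
  Finset.univ.image b ∪ (Finset.univ : Finset (Finset (Fin n) × Fin n)).biUnion fun q =>
    (Finset.Icc 1 (A.K q.1 q.2)).biUnion fun s =>
      (A.a q.1 q.2 s).support.image fun α => coeff α (A.a q.1 q.2 s)

theorem b_mem (A : GPData n d) (b : Fin n → ℚ) (i : Fin n) : b i ∈ TT A b :=
  Finset.mem_union_left _ (Finset.mem_image_of_mem _ (Finset.mem_univ i))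

theorem coeff_mem (A : GPData n d) (b : Fin n → ℚ) {L : Finset (Fin n)} {k : Fin n} {s : ℕ}
    (hs : s ∈ Finset.Icc 1 (A.K L k)) {α : Fin n →₀ ℕ} (hα : α ∈ (A.a L k s).support) :
    coeff α (A.a L k s) ∈ TT A b := by
  apply Finset.mem_union_right
  rw [Finset.mem_biUnion]
  refine ⟨(L, k), Finset.mem_univ _, ?_⟩
  rw [Finset.mem_biUnion]
  exact ⟨s, hs, Finset.mem_image_of_mem _ hα⟩

/-- the constant at `p` -/
noncomputable def cc (A : GPData n d) (b : Fin n → ℚ) (p : Nat.Primes) : ℝ :=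
  ∏ t ∈ TT A b, max 1 ‖(t : ℚ_[p])‖

theorem one_le_cc (A : GPData n d) (b : Fin n → ℚ) (p : Nat.Primes) : 1 ≤ cc A b p := by
  unfold cc
  have h : ∀ S : Finset ℚ, 1 ≤ ∏ t ∈ S, max 1 ‖(t : ℚ_[p])‖ := by
    classical
    intro S
    induction S using Finset.induction_on with
    | empty => simp
    | insert a S ha ih =>
      rw [Finset.prod_insert ha]
      exact one_le_mul_of_one_le_of_one_le (le_max_left _ _) ih
  exact h _

theorem le_cc (A : GPData n d) (b : Fin n → ℚ) (p : Nat.Primes) {t : ℚ} (ht : t ∈ TT A b) :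
    ‖(t : ℚ_[p])‖ ≤ cc A b p := by
  classical
  unfold cc
  rw [← Finset.mul_prod_erase _ _ ht]
  have h : ∀ S : Finset ℚ, 1 ≤ ∏ t ∈ S, max 1 ‖(t : ℚ_[p])‖ := by
    intro S
    induction S using Finset.induction_on with
    | empty => simp
    | insert a S ha ih =>
      rw [Finset.prod_insert ha]
      exact one_le_mul_of_one_le_of_one_le (le_max_left _ _) ih
  calc ‖(t : ℚ_[p])‖ ≤ max 1 ‖(t : ℚ_[p])‖ := le_max_right _ _
    _ = max 1 ‖(t : ℚ_[p])‖ * 1 := (mul_one _).symm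
    _ ≤ _ := mul_le_mul_of_nonneg_left (h _) (by positivity)

theorem cc_finite (A : GPData n d) (b : Fin n → ℚ) : {p : Nat.Primes | cc A b p ≠ 1}.Finite := by
  have h1 : {p : Nat.Primes | cc A b p ≠ 1} ⊆ ⋃ t ∈ TT A b, {p : Nat.Primes | (p : ℕ) ∣ t.den} := by
    intro p hp
    by_contra hcon
    apply hp
    unfold cc
    apply Finset.prod_eq_one
    intro t ht
    apply max_eq_left
    have h2 : ¬ (p : ℕ) ∣ t.den := by
      intro h3
      apply hcon
      rw [Set.mem_iUnion₂]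
      exact ⟨t, ht, h3⟩
    exact Padic.norm_rat_le_one h2
  refine Set.Finite.subset ?_ h1
  refine Set.Finite.biUnion (Finset.finite_toSet _) fun t _ => ?_
  apply Set.Finite.of_injOn (t := {q : ℕ | q ∣ t.den}) (f := fun p : Nat.Primes => (p : ℕ))
  · intro p hp
    exact hp
  · intro p _ q _ h
    exact Subtype.ext h
  · exact (Nat.divisors t.den).finite_toSet.subset fun q hq => by
      rw [Finset.mem_coe, Nat.mem_divisors]
      exact ⟨hq, t.den_nz⟩

end L1Aux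

open L1Aux

theorem L1_padic (A : GPData n d) (b : Fin n → ℚ) :
    ∃ R : Nat.Primes → ℝ, (∀ p, 0 ≤ R p) ∧ {p | R p ≠ 0}.Finite ∧
      ∀ (p : Nat.Primes) (x : Fin n → PadicComplex p), A.Holds (fun i => x i - (b i : PadicComplex p)) →
        ∀ Λ : ℝ, (∀ i, Real.posLog ‖x i‖ ≤ Λ) → (∃ i, Real.posLog ‖x i‖ = Λ) → R p < Λ →
          (Finset.univ.filter fun i => Real.posLog ‖x i‖ < Λ / 2).card < d := by
  refine ⟨fun p => 2 * Real.log (cc A b p), fun p => ?_, ?_, ?_⟩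
  · have := Real.log_nonneg (one_le_cc A b p)
    positivity
  · refine (cc_finite A b).subset fun p hp h1 => hp ?_
    simp only [h1, Real.log_one, mul_zero]
  · intro p x hx Λ _ hk hR
    obtain ⟨k, hk⟩ := hk
    by_contra hcard
    rw [not_lt] at hcard
    obtain ⟨L, hL, hLd⟩ := Finset.exists_subset_card_eq hcard
    set c := cc A b p with hcdef
    have hc1 : 1 ≤ c := one_le_cc A b p
    have hlogc : 0 ≤ Real.log c := Real.log_nonneg hc1
    have hΛ : 0 < Λ := by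
      have : 0 ≤ 2 * Real.log c := by positivity
      linarith
    have hxk : ‖x k‖ = Real.exp Λ := exp_of_posLog hk hΛ (norm_nonneg _)
    have hc2 : c ^ 2 < Real.exp Λ := by
      have h1 : c ^ 2 = Real.exp (2 * Real.log c) := by
        rw [mul_comm, Real.exp_mul, Real.exp_log (by linarith)]
        norm_cast
      rw [h1]
      exact Real.exp_lt_exp.mpr hR
    have hc3 : c < Real.exp Λ := lt_of_le_of_lt (by nlinarith) hc2
    have hbn : ∀ i, ‖((b i : ℚ) : PadicComplex p)‖ ≤ c := fun i => by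
      rw [norm_rat_eq']
      exact le_cc A b p (b_mem A b i)
    have hyk : Real.exp Λ ≤ ‖x k - (b k : PadicComplex p)‖ := by
      rw [← hxk]
      by_contra hlt
      rw [not_le] at hlt
      have h1 : ‖x k‖ ≤ max ‖x k - (b k : PadicComplex p)‖ ‖((b k : ℚ) : PadicComplex p)‖ := by
        have h2 := IsUltrametricDist.norm_add_le_max (x k - (b k : PadicComplex p))
          ((b k : ℚ) : PadicComplex p)
        rwa [sub_add_cancel] at h2
      have h3 : max ‖x k - (b k : PadicComplex p)‖ ‖((b k : ℚ) : PadicComplex p)‖ < ‖x k‖ :=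
        max_lt hlt (by rw [hxk]; exact (hbn k).trans_lt hc3)
      linarith
    set B := max (Real.exp (Λ / 2)) c with hBdef
    have hB : 1 ≤ B := hc1.trans (le_max_right _ _)
    have hyL : ∀ l ∈ L, ‖x l - (b l : PadicComplex p)‖ ≤ B := by
      intro l hl
      have h1 := (Finset.mem_filter.mp (hL hl)).2
      rw [sub_eq_add_neg]
      refine (IsUltrametricDist.norm_add_le_max _ _).trans ?_
      rw [norm_neg]
      exact max_le_max (le_exp_of_posLog h1.le (norm_nonneg _)) (hbn l)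
    have h := ultra_core A hc1 hB hyL k (fun s hs α hα => by
      rw [eq_ratCast, norm_rat_eq']
      exact le_cc A b p (coeff_mem A b hs hα)) (hx L hLd k)
    have h2 : Real.exp Λ ≤ c * B := hyk.trans h
    have h3 : Real.exp Λ = Real.exp (Λ / 2) * Real.exp (Λ / 2) := by
      rw [← Real.exp_add]
      ring_nf
    rcases le_total (Real.exp (Λ / 2)) c with h4 | h4
    · rw [hBdef, max_eq_right h4] at h2
      nlinarith
    · rw [hBdef, max_eq_left h4] at h2
      have h5 : 0 < Real.exp (Λ / 2) := Real.exp_pos _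
      have h6 : Real.exp (Λ / 2) ≤ c := by
        rw [h3] at h2
        exact le_of_mul_le_mul_right h2 h5
      nlinarith

theorem L1_arch (A : GPData n d) (b : Fin n → ℚ) :
    ∃ R : ℝ, 0 ≤ R ∧ ∀ x : Fin n → ℂ, A.Holds (fun i => x i - (b i : ℂ)) →
        ∀ Λ : ℝ, (∀ i, Real.posLog ‖x i‖ ≤ Λ) → (∃ i, Real.posLog ‖x i‖ = Λ) → R < Λ →
          (Finset.univ.filter fun i => Real.posLog ‖x i‖ < Λ / 2).card < d := by
  classical
  -- constants
  set c : ℝ := ∑ i, |(b i : ℝ)| with hc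
  have hc0 : 0 ≤ c := Finset.sum_nonneg fun i _ => abs_nonneg _
  set S : Finset (Fin n) → Fin n → ℕ → ℝ := fun L k s =>
    ∑ α ∈ (A.a L k s).support, ‖algebraMap ℚ ℂ (coeff α (A.a L k s))‖ with hS
  have hS0 : ∀ L k s, 0 ≤ S L k s := fun L k s => Finset.sum_nonneg fun _ _ => norm_nonneg _
  set S1 : Finset (Fin n) → Fin n → ℝ := fun L k => ∑ s ∈ Finset.Icc 1 (A.K L k), S L k s with hS1
  have hS10 : ∀ L k, 0 ≤ S1 L k := fun L k => Finset.sum_nonneg fun _ _ => hS0 _ _ _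
  set C2 : ℝ := 1 + ∑ L : Finset (Fin n), ∑ k : Fin n, (A.K L k : ℝ) * S1 L k with hC2
  have hC2le : ∀ L k, 1 + (A.K L k : ℝ) * S1 L k ≤ C2 := by
    intro L k
    have h1 : (A.K L k : ℝ) * S1 L k ≤ ∑ k : Fin n, (A.K L k : ℝ) * S1 L k :=
      Finset.single_le_sum (f := fun k => (A.K L k : ℝ) * S1 L k)
        (fun k _ => mul_nonneg (Nat.cast_nonneg _) (hS10 L k)) (Finset.mem_univ k)
    have h2 : ∑ k : Fin n, (A.K L k : ℝ) * S1 L k ≤
        ∑ L : Finset (Fin n), ∑ k : Fin n, (A.K L k : ℝ) * S1 L k :=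
      Finset.single_le_sum (f := fun L => ∑ k : Fin n, (A.K L k : ℝ) * S1 L k)
        (fun L _ => Finset.sum_nonneg fun k _ => mul_nonneg (Nat.cast_nonneg _) (hS10 L k))
        (Finset.mem_univ L)
    linarith
  have hC21 : 1 ≤ C2 := by
    have : 0 ≤ ∑ L : Finset (Fin n), ∑ k : Fin n, (A.K L k : ℝ) * S1 L k :=
      Finset.sum_nonneg fun L _ => Finset.sum_nonneg fun k _ =>
        mul_nonneg (Nat.cast_nonneg _) (hS10 L k)
    linarith
  set C3 : ℝ := C2 + C2 * (c + 1) + c with hC3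
  have hC31 : 1 ≤ C3 := by nlinarith
  refine ⟨2 * Real.log C3, by have := Real.log_nonneg hC31; positivity, ?_⟩
  intro x hx Λ _ hk hR
  obtain ⟨k, hk⟩ := hk
  by_contra hcard
  rw [not_lt] at hcard
  obtain ⟨L, hL, hLd⟩ := Finset.exists_subset_card_eq hcard
  have hlog : 0 ≤ Real.log C3 := Real.log_nonneg hC31
  have hΛ : 0 < Λ := by
    have : 0 ≤ 2 * Real.log C3 := by positivity
    linarith
  have hxk : ‖x k‖ = Real.exp Λ := exp_of_posLog hk hΛ (norm_nonneg _)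
  have hbn : ∀ i, ‖((b i : ℚ) : ℂ)‖ ≤ c := fun i => by
    have h1 : ‖((b i : ℚ) : ℂ)‖ = |(b i : ℝ)| := by
      rw [← Complex.ofReal_ratCast, Complex.norm_real, Real.norm_eq_abs]
    rw [h1, hc]
    exact Finset.single_le_sum (f := fun i => |(b i : ℝ)|) (fun i _ => abs_nonneg _)
      (Finset.mem_univ i)
  set t := Real.exp (Λ / 2) with ht
  have ht1 : 1 ≤ t := by
    rw [ht]
    exact Real.one_le_exp (by linarith)
  have htt : Real.exp Λ = t * t := by
    rw [ht, ← Real.exp_add]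
    ring_nf
  have hC3t : C3 < t := by
    rw [ht]
    have h1 : C3 = Real.exp (Real.log C3) := (Real.exp_log (by linarith)).symm
    rw [h1]
    exact Real.exp_lt_exp.mpr (by linarith)
  have hyk : t * t - c ≤ ‖x k - (b k : ℂ)‖ := by
    have h1 := norm_sub_norm_le (x k) (b k : ℂ)
    rw [hxk, htt] at h1
    have h2 := hbn k
    linarith
  have hB : 1 ≤ t + c := by linarith
  have hyL : ∀ l ∈ L, ‖x l - (b l : ℂ)‖ ≤ t + c := by
    intro l hl
    have h1 := (Finset.mem_filter.mp (hL hl)).2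
    refine (norm_sub_le _ _).trans ?_
    exact add_le_add (le_exp_of_posLog h1.le (norm_nonneg _)) (hbn l)
  have h := arch_core A (hS10 L k) hB hyL k (fun s hs => by
    exact Finset.single_le_sum (f := fun s => S L k s) (fun s _ => hS0 L k s) hs) (hx L hLd k)
  have h2 : t * t - c ≤ C2 * (t + c) := by
    refine hyk.trans (h.trans ?_)
    exact mul_le_mul_of_nonneg_right (hC2le L k) (by linarith)
  have h3 : C3 * t < t * t := mul_lt_mul_of_pos_right hC3t (by linarith)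
  have h4 : C2 * (c + 1) + c ≤ (C2 * (c + 1) + c) * t :=
    le_mul_of_one_le_right (by positivity) ht1
  rw [hC3] at h3
  nlinarith

end Pool.Agent.ZPS
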