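import Pool.Agent.ZPS.Relations
import Pool.Agent.ZPS.Density
import Pool.Agent.ZPS.GNDefs

/-!
# ZPS: the main theorem
-/

namespace Pool.Agent.ZPS

open UpperHalfPlane MvPolynomial Pool.Agent.Hhelper14.ZP Pool.Agent.Hhelper14.ZPL

variable {n d : ℕ}

/-- the translate `V + u/m` -/
def shift (u : Fin n → ℤ) (m : ℕ) (V : Set (Fin n → ℂ)) : Set (Fin n → ℂ) :=
  {x | (fun i => x i - (u i : ℂ) / m) ∈ V}

theorem exists_GPData {V : Set (Fin n → ℂ)} (h : GenPos d V) :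
    ∃ A : GPData n d, ∀ y ∈ V, A.Holds y := by
  classical
  choose! K a hK ha hV using h
  refine ⟨{ K := fun L k => if L.card = d then K L k else 1
            a := fun L k s => if L.card = d then a L k s else 0
            hK := fun L k => ?_
            hdeg := fun L k s => ?_
            hvars := fun L k s => ?_ }, fun y hy L hL k => ?_⟩
  · split_ifs with h1
    · exact hK L h1 k
    · exact le_rfl
  · split_ifs with h1
    · exact (ha L h1 k s).1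
    · simp
  · split_ifs with h1
    · exact (ha L h1 k s).2
    · simp
  · simp only [hL, if_true]
    exact hV L hL k y hy

theorem main (hd : 1 ≤ d) {V : Set (Fin n → ℂ)} (hV : GenPos d V) {ε : ℝ} (hε : 0 < ε) :
    ∀ᶠ H : ℕ in Filter.atTop,
      (Set.ncard {um : (Fin n → ℤ) × ℕ | (∀ i, |um.1 i| ≤ (H : ℤ)) ∧ 1 ≤ um.2 ∧ um.2 ≤ H ∧
        ¬ ZPFor d (shift um.1 um.2 V)} : ℝ) ≤ ε * ((2 * (H : ℝ) + 1) ^ n * H) := by
  classical
  obtain ⟨A, hA⟩ := exists_GPData hV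
  set D : ℕ := ∏ L : Finset (Fin n), ∏ k : Fin n, (A.K L k).factorial with hDdef
  have hD1 : 1 ≤ D := Nat.one_le_iff_ne_zero.mpr
    (Finset.prod_ne_zero_iff.mpr fun L _ => Finset.prod_ne_zero_iff.mpr fun k _ =>
      Nat.factorial_ne_zero _)
  have hD : ∀ L k e, 1 ≤ e → e ≤ A.K L k → e ∣ D := fun L k e h1 h2 =>
    (Nat.dvd_factorial h1 h2).trans ((Finset.dvd_prod_of_mem (fun k => (A.K L k).factorial)
      (Finset.mem_univ k)).trans (Finset.dvd_prod_of_mem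
        (fun L => ∏ k : Fin n, (A.K L k).factorial) (Finset.mem_univ L)))
  filter_upwards [density A D (n ^ 2 + 1) ((n : ℝ) ^ 2 * (16 * Real.pi + 1)) hε] with H hH
  refine le_trans ?_ hH
  have hfin : {um : (Fin n → ℤ) × ℕ | (∀ i, |um.1 i| ≤ (H : ℤ)) ∧ 1 ≤ um.2 ∧ um.2 ≤ H ∧
        ¬ A.GoodShift D (n ^ 2 + 1) ((n : ℝ) ^ 2 * (16 * Real.pi + 1)) um.1 um.2}.Finite := by
    refine Set.Finite.subset (Finset.finite_toSet ((Fintype.piFinset fun _ : Fin n =>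
      Finset.Icc (-(H : ℤ)) H) ×ˢ Finset.Icc 1 H)) ?_
    rintro ⟨u, m⟩ ⟨h1, h2, h3, -⟩
    rw [Finset.mem_coe, Finset.mem_product, Fintype.mem_piFinset]
    exact ⟨fun i => Finset.mem_Icc.mpr (abs_le.mp (h1 i)), Finset.mem_Icc.mpr ⟨h2, h3⟩⟩
  have hsub : {um : (Fin n → ℤ) × ℕ | (∀ i, |um.1 i| ≤ (H : ℤ)) ∧ 1 ≤ um.2 ∧ um.2 ≤ H ∧
        ¬ ZPFor d (shift um.1 um.2 V)} ⊆
      {um : (Fin n → ℤ) × ℕ | (∀ i, |um.1 i| ≤ (H : ℤ)) ∧ 1 ≤ um.2 ∧ um.2 ≤ H ∧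
        ¬ A.GoodShift D (n ^ 2 + 1) ((n : ℝ) ^ 2 * (16 * Real.pi + 1)) um.1 um.2} := by
    rintro ⟨u, m⟩ ⟨h1, h2, h3, h4⟩
    refine ⟨h1, h2, h3, fun h5 => h4 ?_⟩
    exact zp_of_good A hd hD1 hD u h2 h5 fun x hx => hA _ hx
  exact_mod_cast Set.ncard_le_ncard hsub hfin

end Pool.Agent.ZPS
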