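import Pool.Agent.ZPS.Bounds
import Pool.Agent.ZPS.Conv

/-!
# ZPS module 09b: cyclic isogenies at archimedean places

`arch_pair`: let `C₁` be from `exists_C1`, `C = 2 C₁` (or larger). Choose `τ` in the fundamental domain with
`jInv τ = σ x` (`ZPL.j_surj`, `ModularGroup.exists_smul_mem_fd`, `jInv_smul`), `t = qN N τ`
(`qN_pow`, `norm_qN_lt`), apply `H`: `a, d, c`. As `σ(c)^d = 1`, `σ c = exp(2πi/d)^b`, and
`σ c * t^{a²} = qParam 1 (Bτ)` for `B = (a b; 0 d)` (computation as in `qParam_act'`), so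
`σ x' = jInv (Bτ)` (`Ev.unique`, `evZ_J`); `t^{Na} = q^a = qParam 1 (aτ)`, so `σ (y a) = jInv (a τ)`.
Let `U ∈ SL₂(ℤ)` with `τ' = U B τ` in the fundamental domain, `R = U B = (· ·; C D)`.
If `C ≠ 0`: `Im τ' = N Im τ / |Cτ+D|² ≤ N / Im τ`; as `2π Im τ ≥ ℓ - C₁ ≥ ℓ/2` and the same for `τ'`,
`ℓ ℓ' ≤ (4π)² Im τ Im τ' ≤ 16 π² N`. If `C = 0`: `U = ±(1 n; 0 1)`, `Im τ' = (a/d) Im τ`, so
`a/d = Im τ'/Im τ ≥ (ℓ'/2)/(3ℓ/2) ≥ 1/6`, i.e. `N ≤ 6 a²`; and `Im (aτ) = a Im τ ≥ √3/2`, so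
`log⁺|j(aτ)| ≥ 2π a Im τ - C₁ ≥ a (ℓ - C₁) - C₁ ≥ a ℓ / 2 - C₁`.
-/

namespace Pool.Agent.ZPS

open UpperHalfPlane ModularForm MatrixGroups Function PowerSeries Pool.Agent.Hhelper14.ZP

theorem pairA_im (U : SL(2, ℤ)) (w : ℍ) : (U • w).im * w.im ≤ 1 ∨ (U • w).im = w.im := by
  have h := ModularGroup.im_smul_eq_div_normSq U w
  rw [ModularGroup.denom_apply] at h
  have hw := w.im_pos
  by_cases hc : U.1 1 0 = 0
  · right
    have hdet : U.1 0 0 * U.1 1 1 = 1 := by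
      have h1 := U.2
      rw [Matrix.det_fin_two, hc, mul_zero, sub_zero] at h1
      exact h1
    have h2 : (U.1 1 1) ^ 2 = 1 := by
      rcases Int.isUnit_iff.1 (IsUnit.of_mul_eq_one_right (U.1 0 0) hdet) with h3 | h3
      · rw [h3]; norm_num
      · rw [h3]; norm_num
    have h3 : ((U.1 1 1 : ℤ) : ℝ) ^ 2 = 1 := by exact_mod_cast h2
    have h4 : Complex.normSq (((U.1 1 0 : ℤ) : ℂ) * (w : ℂ) + ((U.1 1 1 : ℤ) : ℂ)) = 1 := by
      rw [hc, Int.cast_zero, zero_mul, zero_add, Complex.normSq_intCast, ← sq, h3]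
    rw [h, h4, div_one]
  · left
    have h2 : (1 : ℝ) ≤ ((U.1 1 0 : ℤ) : ℝ) ^ 2 := by
      have h3 : 1 ≤ (U.1 1 0) ^ 2 := by
        have : 0 < (U.1 1 0) ^ 2 := by positivity
        omega
      exact_mod_cast h3
    have h4 : w.im ^ 2 ≤
        Complex.normSq (((U.1 1 0 : ℤ) : ℂ) * (w : ℂ) + ((U.1 1 1 : ℤ) : ℂ)) := by
      rw [Complex.normSq_apply]
      have e1 : (((U.1 1 0 : ℤ) : ℂ) * (w : ℂ) + ((U.1 1 1 : ℤ) : ℂ)).im =
          ((U.1 1 0 : ℤ) : ℝ) * w.im := by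
        simp
      rw [e1]
      nlinarith [mul_self_nonneg (((U.1 1 0 : ℤ) : ℂ) * (w : ℂ) + ((U.1 1 1 : ℤ) : ℂ)).re,
        mul_nonneg (sub_nonneg.2 h2) (sq_nonneg w.im)]
    have h5 : 0 < Complex.normSq (((U.1 1 0 : ℤ) : ℂ) * (w : ℂ) + ((U.1 1 1 : ℤ) : ℂ)) :=
      lt_of_lt_of_le (by positivity) h4
    rw [h, div_mul_eq_mul_div, div_le_one h5, ← sq]
    exact h4

theorem pairA_fd (z : ℂ) : ∃ τ : ℍ, jInv τ = z ∧ √3 / 2 ≤ τ.im := by
  obtain ⟨τ, hτ⟩ := Pool.Agent.Hhelper14.ZPL.j_surj z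
  obtain ⟨g, hg⟩ := ModularGroup.exists_smul_mem_fd τ
  refine ⟨g • τ, by rw [jInv_smul, hτ], ?_⟩
  have h := ModularGroup.three_le_four_mul_im_sq_of_mem_fd hg
  have h1 := (g • τ).im_pos
  rw [div_le_iff₀ (by norm_num : (0 : ℝ) < 2), Real.sqrt_le_left (by positivity)]
  nlinarith

theorem arch_pair : ∃ C : ℝ, 0 < C ∧ ∀ (σ : ℂ →+* ℂ) (N : ℕ), 0 < N → ∀ (x x' : ℂ) (y : ℕ → ℂ),
    (∀ t : ℂ, t ≠ 0 → ‖t‖ < 1 → EvZ JZ (t ^ N) (t ^ N * σ x) →
      ∃ (a d : ℕ) (c : ℂ), 0 < a ∧ 0 < d ∧ a * d = N ∧ c ^ d = 1 ∧ (a = d → IsPrimitiveRoot c d) ∧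
        EvZ JZ (σ c * t ^ a ^ 2) (σ c * t ^ a ^ 2 * σ x') ∧
        EvZ JZ (t ^ (N * a)) (t ^ (N * a) * σ (y a))) →
    C ≤ Real.posLog ‖σ x‖ → C ≤ Real.posLog ‖σ x'‖ →
    Real.posLog ‖σ x‖ ≤ 2 * Real.posLog ‖σ x'‖ → Real.posLog ‖σ x'‖ ≤ 2 * Real.posLog ‖σ x‖ →
      Real.posLog ‖σ x‖ * Real.posLog ‖σ x'‖ ≤ 16 * Real.pi ^ 2 * N ∨
      ∃ a : ℕ, 0 < a ∧ a ∣ N ∧ N ≤ 6 * a ^ 2 ∧
        a * Real.posLog ‖σ x‖ / 2 - C ≤ Real.posLog ‖σ (y a)‖ := by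
  obtain ⟨C₁, hC₁, hb⟩ := exists_C1
  refine ⟨2 * C₁, by linarith, ?_⟩
  intro σ N hN x x' y H hl hl' hll hll'
  have hpi := Real.pi_pos
  obtain ⟨τ, hτj, hτ⟩ := pairA_fd (σ x)
  have ht0 : qN N τ ≠ 0 := qN_ne_zero N τ
  have hev : EvZ JZ (qN N τ ^ N) (qN N τ ^ N * σ x) := by
    rw [qN_pow hN, ← hτj]
    exact evZ_J τ
  obtain ⟨a, d, c, ha, hd, had, hc, -, h1, h2⟩ := H _ ht0 (norm_qN_lt hN τ) hev
  have hd' : (d : ℂ) ≠ 0 := by exact_mod_cast hd.ne'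
  have ha' : (a : ℂ) ≠ 0 := by exact_mod_cast ha.ne'
  have haR : (0 : ℝ) < a := by exact_mod_cast ha
  have hdR : (0 : ℝ) < d := by exact_mod_cast hd
  have hNc : (N : ℂ) = a * d := by rw [← had]; push_cast; ring
  have hσc : σ c ^ d = 1 := by rw [← map_pow, hc, map_one]
  have : NeZero d := ⟨hd.ne'⟩
  obtain ⟨b, -, hb'⟩ := (Complex.isPrimitiveRoot_exp d hd.ne').eq_pow_of_pow_eq_one hσc
  -- the point `B τ`
  have him : 0 < (((a : ℂ) * τ + b) / d).im := by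
    have e : ((a : ℂ) * τ + b) / d = ((a / d : ℝ) : ℂ) * τ + ((b / d : ℝ) : ℂ) := by
      push_cast
      field_simp
    rw [e, Complex.add_im, Complex.im_ofReal_mul, Complex.ofReal_im, add_zero]
    exact mul_pos (div_pos haR hdR) τ.im_pos
  obtain ⟨w, hw⟩ : ∃ w : ℍ, (w : ℂ) = ((a : ℂ) * τ + b) / d := ⟨⟨_, him⟩, rfl⟩
  have hwim : w.im = a / d * τ.im := by
    have e : ((a : ℂ) * τ + b) / d = ((a / d : ℝ) : ℂ) * τ + ((b / d : ℝ) : ℂ) := by
      push_cast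
      field_simp
    rw [← UpperHalfPlane.coe_im, hw, e, Complex.add_im, Complex.im_ofReal_mul, Complex.ofReal_im,
      add_zero]
    rfl
  have hwq : Periodic.qParam 1 (w : ℂ) = σ c * qN N τ ^ a ^ 2 := by
    rw [hw, ← hb']
    simp only [qN, Periodic.qParam]
    rw [← Complex.exp_nat_mul, ← Complex.exp_nat_mul, ← Complex.exp_add]
    congr 1
    push_cast
    rw [hNc]
    field_simp
    ring
  have hx' : jInv w = σ x' := by
    have h3 := evZ_J w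
    rw [hwq] at h3
    have h4 := h3.unique h1
    have h5 : σ c * qN N τ ^ a ^ 2 ≠ 0 := by
      rw [← hwq]
      exact Periodic.qParam_ne_zero _
    exact mul_left_cancel₀ h5 h4
  -- the point `a τ`
  have him2 : 0 < ((a : ℂ) * τ).im := by
    have e : ((a : ℂ) * τ) = ((a : ℝ) : ℂ) * τ := by push_cast; rfl
    rw [e, Complex.im_ofReal_mul]
    exact mul_pos haR τ.im_pos
  obtain ⟨v, hv⟩ : ∃ v : ℍ, (v : ℂ) = (a : ℂ) * τ := ⟨⟨_, him2⟩, rfl⟩
  have hvim : v.im = a * τ.im := by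
    have e : ((a : ℂ) * τ) = ((a : ℝ) : ℂ) * τ := by push_cast; rfl
    rw [← UpperHalfPlane.coe_im, hv, e, Complex.im_ofReal_mul]
    rfl
  have hvq : Periodic.qParam 1 (v : ℂ) = qN N τ ^ (N * a) := by
    rw [hv, pow_mul, qN_pow hN]
    simp only [Periodic.qParam]
    rw [← Complex.exp_nat_mul]
    congr 1
    ring
  have hy : jInv v = σ (y a) := by
    have h3 := evZ_J v
    rw [hvq] at h3
    have h4 := h3.unique h2
    have h5 : qN N τ ^ (N * a) ≠ 0 := pow_ne_zero _ ht0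
    exact mul_left_cancel₀ h5 h4
  obtain ⟨U, hU⟩ := ModularGroup.exists_smul_mem_fd w
  have hτ' : √3 / 2 ≤ (U • w).im := by
    have h := ModularGroup.three_le_four_mul_im_sq_of_mem_fd hU
    have h1 := (U • w).im_pos
    rw [div_le_iff₀ (by norm_num : (0 : ℝ) < 2), Real.sqrt_le_left (by positivity)]
    nlinarith
  have k1 := hb τ hτ
  have k2 := hb (U • w) hτ'
  rw [hτj] at k1
  rw [jInv_smul, hx'] at k2
  rw [abs_le] at k1 k2
  have m1 : Real.posLog ‖σ x‖ ≤ 4 * Real.pi * τ.im := by linarith [k1.2]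
  have m2 : Real.posLog ‖σ x'‖ ≤ 4 * Real.pi * (U • w).im := by linarith [k2.2]
  have hl0 : 0 ≤ Real.posLog ‖σ x‖ := Real.posLog_nonneg
  have hl0' : 0 ≤ Real.posLog ‖σ x'‖ := Real.posLog_nonneg
  have hNad : (N : ℝ) = a * d := by rw [← had]; push_cast; ring
  have ha1 : (1 : ℝ) ≤ a := by exact_mod_cast ha
  rcases pairA_im U w with hcase | hcase
  · left
    rw [hwim] at hcase
    have h3 : τ.im * (U • w).im ≤ N := by
      have h4 : (U • w).im * τ.im * a ≤ d := by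
        have e : (U • w).im * (a / d * τ.im) = ((U • w).im * τ.im * a) / d := by ring
        rw [e, div_le_one hdR] at hcase
        exact hcase
      have h5 : 0 < (U • w).im * τ.im := mul_pos (U • w).im_pos τ.im_pos
      rw [hNad]
      nlinarith
    calc Real.posLog ‖σ x‖ * Real.posLog ‖σ x'‖
        ≤ (4 * Real.pi * τ.im) * (4 * Real.pi * (U • w).im) :=
          mul_le_mul m1 m2 hl0' (by have := τ.im_pos; positivity)
      _ = 16 * Real.pi ^ 2 * (τ.im * (U • w).im) := by ring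
      _ ≤ 16 * Real.pi ^ 2 * N := mul_le_mul_of_nonneg_left h3 (by positivity)
  · right
    rw [hwim] at hcase
    refine ⟨a, ha, ⟨d, had.symm⟩, ?_, ?_⟩
    · have h3 : d * (U • w).im = a * τ.im := by
        rw [hcase]
        field_simp
      have h4 : 2 * Real.pi * τ.im ≤ 2 * Real.pi * (6 * (U • w).im) := by
        linarith [k1.1]
      have h5 : τ.im ≤ 6 * (U • w).im := le_of_mul_le_mul_left h4 (by positivity)
      have h6 : (d : ℝ) * τ.im ≤ 6 * a * τ.im := by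
        calc (d : ℝ) * τ.im ≤ d * (6 * (U • w).im) := mul_le_mul_of_nonneg_left h5 hdR.le
          _ = 6 * (d * (U • w).im) := by ring
          _ = 6 * a * τ.im := by rw [h3]; ring
      have h7 : (d : ℝ) ≤ 6 * a := le_of_mul_le_mul_right h6 τ.im_pos
      have h8 : d ≤ 6 * a := by exact_mod_cast h7
      rw [← had]
      nlinarith
    · have h3 : √3 / 2 ≤ v.im := by
        rw [hvim]
        have := τ.im_pos
        nlinarith
      have k3 := hb v h3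
      rw [hy, hvim, abs_le] at k3
      have h4 : a * (Real.posLog ‖σ x‖ - C₁) ≤ a * (2 * Real.pi * τ.im) :=
        mul_le_mul_of_nonneg_left (by linarith [k1.2]) haR.le
      have h5 : a * (2 * C₁) ≤ a * Real.posLog ‖σ x‖ := mul_le_mul_of_nonneg_left hl haR.le
      nlinarith [k3.1]

end Pool.Agent.ZPS
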