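import Pool.Agent.ZPS.Conv

/-!
# ZPS module 09a: cyclic isogenies at `p`-adic places

`padic_pair`: take `t` from `exists_tate` (`x = φ(jInv τ)`), apply the hypothesis `H`; norms:
`‖t‖^N = ‖x‖⁻¹`, `‖t‖^{a²} ‖x'‖ = 1`, `‖t‖^{Na} ‖y a‖ = 1` (`norm_sub_one`; `‖σ c‖ = 1`). If `a = d`
then `N = a²` and `ζ = φ c`: `x t^N = J(t^N)`, `x' ζ t^N = J(ζ t^N)`, both `≡ 1`, so `x/x' ≡ ζ`
(`x / x' - ζ = ζ (J(t^N)/J(ζ t^N) - 1)`).
-/

namespace Pool.Agent.ZPS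

open UpperHalfPlane ModularForm MatrixGroups Function PowerSeries Pool.Agent.Hhelper14.ZP

theorem padic_pair {p : ℕ} [Fact p.Prime] (φ : ℂ →+* PadicComplex p) {N : ℕ} (hN : 0 < N)
    {x x' : ℂ} {y : ℕ → ℂ}
    (H : ∀ t : PadicComplex p, t ≠ 0 → ‖t‖ < 1 → EvZ JZ (t ^ N) (t ^ N * φ x) →
      ∃ (a d : ℕ) (c : ℂ), 0 < a ∧ 0 < d ∧ a * d = N ∧ c ^ d = 1 ∧ (a = d → IsPrimitiveRoot c d) ∧
        EvZ JZ (φ c * t ^ a ^ 2) (φ c * t ^ a ^ 2 * φ x') ∧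
        EvZ JZ (t ^ (N * a)) (t ^ (N * a) * φ (y a)))
    (hx : 1 < ‖φ x‖) :
    ∃ a d : ℕ, 0 < a ∧ 0 < d ∧ a * d = N ∧ ‖φ x'‖ ^ d = ‖φ x‖ ^ a ∧ ‖φ (y a)‖ = ‖φ x‖ ^ a ∧
      (a = d → ∃ ζ : PadicComplex p, IsPrimitiveRoot ζ a ∧ ‖φ x / φ x' - ζ‖ < 1) := by
  obtain ⟨t, ht0, ht1, hE, hNx⟩ := exists_tate hN hx
  obtain ⟨a, d, c, ha, hd, had, hcd, hprim, h1, h2⟩ := H t ht0 ht1 hE
  have htpos : 0 < ‖t‖ := norm_pos_iff.mpr ht0
  have hc1 : ‖φ c‖ = 1 := by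
    have h : ‖φ c‖ ^ d = 1 := by
      rw [← norm_pow, ← map_pow, hcd, map_one, norm_one]
    exact (pow_eq_one_iff_of_nonneg (norm_nonneg _) hd.ne').mp h
  have hz1 : ‖φ c * t ^ a ^ 2‖ < 1 := by
    rw [norm_mul, hc1, one_mul, norm_pow]
    exact pow_lt_one₀ htpos.le ht1 (pow_ne_zero _ ha.ne')
  have hz2 : ‖t ^ (N * a)‖ < 1 := by
    rw [norm_pow]
    exact pow_lt_one₀ htpos.le ht1 (Nat.mul_ne_zero hN.ne' ha.ne')
  have hz0 : ‖t ^ N‖ < 1 := by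
    rw [norm_pow]
    exact pow_lt_one₀ htpos.le ht1 hN.ne'
  obtain ⟨k0, k0'⟩ := norm_sub_one spec_series.1 hz0 hE
  obtain ⟨k1, k1'⟩ := norm_sub_one spec_series.1 hz1 h1
  obtain ⟨k2, k2'⟩ := norm_sub_one spec_series.1 hz2 h2
  have e1 : ‖t‖ ^ a ^ 2 * ‖φ x'‖ = 1 := by
    have := k1'
    rwa [norm_mul, norm_mul, hc1, one_mul, norm_pow] at this
  have e2 : ‖t‖ ^ (N * a) * ‖φ (y a)‖ = 1 := by
    have := k2'
    rwa [norm_mul, norm_pow] at this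
  have e0 : ‖t‖ ^ (N * a) * ‖φ x‖ ^ a = 1 := by
    rw [pow_mul, ← mul_pow, hNx, one_pow]
  have e1' : ‖t‖ ^ (N * a) * ‖φ x'‖ ^ d = 1 := by
    have : ‖t‖ ^ (N * a) = (‖t‖ ^ a ^ 2) ^ d := by
      rw [← pow_mul]
      congr 1
      rw [← had]
      ring
    rw [this, ← mul_pow, e1, one_pow]
  have hne : ‖t‖ ^ (N * a) ≠ 0 := pow_ne_zero _ htpos.ne'
  refine ⟨a, d, ha, hd, had, mul_left_cancel₀ hne (e1'.trans e0.symm),
    mul_left_cancel₀ hne (e2.trans e0.symm), fun hEq => ⟨φ c, ?_, ?_⟩⟩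
  · rw [hEq]
    exact (hprim hEq).map_of_injective φ.injective
  · have hN2 : a ^ 2 = N := by
      rw [← had, ← hEq]
      ring
    rw [hN2] at k1 k1'
    set u : PadicComplex p := t ^ N * φ x with hu
    set v : PadicComplex p := φ c * t ^ N * φ x' with hv
    have hv0 : v ≠ 0 := by
      intro h
      rw [h, norm_zero] at k1'
      exact zero_ne_one k1'
    have hc0 : φ c ≠ 0 := by
      intro h
      rw [h, norm_zero] at hc1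
      exact zero_ne_one hc1
    have htN : t ^ N ≠ 0 := pow_ne_zero _ ht0
    have hx'0 : φ x' ≠ 0 := by
      intro h
      rw [h, mul_zero] at hv
      exact hv0 hv
    have key : φ x / φ x' - φ c = φ c * ((u - v) / v) := by
      rw [hu, hv]
      field_simp
    rw [key, norm_mul, hc1, one_mul, norm_div, k1', div_one]
    have : u - v = (u - 1) + -(v - 1) := by ring
    rw [this]
    refine lt_of_le_of_lt (IsUltrametricDist.norm_add_le_max _ _) (max_lt k0 ?_)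
    rwa [norm_neg]

end Pool.Agent.ZPS
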