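import Pool.Agent.ZPS.ChainConj
import Pool.Agent.ZPS.PairP
import Pool.Agent.ZPS.PairA

/-!
# ZPS: cyclic isogenies at `p`-adic and archimedean places
-/

namespace Pool.Agent.ZPS

open UpperHalfPlane ModularForm MatrixGroups Function PowerSeries Pool.Agent.Hhelper14.ZP

/-- the two previous theorems applied to `chain_conj` -/
theorem exists_chain : ∃ C : ℝ, 0 < C ∧ ∀ (N : ℕ) (hN : 0 < N) (M : DD N), IsPrim M → ∀ τ : ℍ,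
    ∃ y : ℕ → ℂ, (∀ a, ∀ ha : 0 < a, a ∣ N → ∃ A : DD a, y a = jA ha A τ) ∧
      (∀ (p : ℕ) [Fact p.Prime] (φ : ℂ →+* PadicComplex p), 1 < ‖φ (jInv τ)‖ →
        ∃ a d : ℕ, 0 < a ∧ 0 < d ∧ a * d = N ∧ ‖φ (jA hN M τ)‖ ^ d = ‖φ (jInv τ)‖ ^ a ∧
          ‖φ (y a)‖ = ‖φ (jInv τ)‖ ^ a ∧
          (a = d → ∃ ζ : PadicComplex p, IsPrimitiveRoot ζ a ∧
            ‖φ (jInv τ) / φ (jA hN M τ) - ζ‖ < 1)) ∧
      ∀ σ : ℂ →+* ℂ, C ≤ Real.posLog ‖σ (jInv τ)‖ → C ≤ Real.posLog ‖σ (jA hN M τ)‖ →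
        Real.posLog ‖σ (jInv τ)‖ ≤ 2 * Real.posLog ‖σ (jA hN M τ)‖ →
        Real.posLog ‖σ (jA hN M τ)‖ ≤ 2 * Real.posLog ‖σ (jInv τ)‖ →
          Real.posLog ‖σ (jInv τ)‖ * Real.posLog ‖σ (jA hN M τ)‖ ≤ 16 * Real.pi ^ 2 * N ∨
          ∃ a : ℕ, 0 < a ∧ a ∣ N ∧ N ≤ 6 * a ^ 2 ∧
            a * Real.posLog ‖σ (jInv τ)‖ / 2 - C ≤ Real.posLog ‖σ (y a)‖ := by
  obtain ⟨C, hC, H⟩ := arch_pair
  refine ⟨C, hC, fun N hN M hM τ => ?_⟩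
  obtain ⟨y, hy, h⟩ := chain_conj hN M hM τ
  refine ⟨y, hy, fun p _ φ hx => ?_, fun σ h1 h2 h3 h4 => ?_⟩
  · exact padic_pair φ hN (fun t ht ht1 hJ => h (PadicComplex p) φ t ht ht1
      (fun z hz => conv_Cp JZ z hz) hJ) hx
  · exact H σ N hN _ _ y (fun t ht ht1 hJ => h ℂ σ t ht ht1 (fun z hz => (conv_C z hz).1) hJ)
      h1 h2 h3 h4

end Pool.Agent.ZPS
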