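import Pool.Agent.ZPS.Pair
import Pool.Agent.ZPS.GP

/-!
# The pointwise theorem: definitions
-/

namespace Pool.Agent.ZPS

open UpperHalfPlane Pool.Agent.Hhelper14.ZP

variable {n d : ℕ}

/-- the points for which `x_i`, `x_k` are related by a cyclic isogeny of degree at most `N₂` -/
def HypSet (N₂ : ℕ) (i k : Fin n) : Set (Fin n → ℂ) :=
  {x | ∃ (N : ℕ) (hN : 0 < N) (M : DD N) (τ : ℍ), N ≤ N₂ ∧ IsPrim M ∧ x i = jInv τ ∧
    x k = jA hN M τ}

/-- block data for a point, in terms of primitive integral matrices: for `i ≠ k` in the same block,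
`x i = j (t i)` and `x k = j (M (t i))` -/
structure PtData (n r : ℕ) where
  x : Fin n → ℂ
  hx : ∀ i, IsAlgebraic ℚ (x i)
  block : Fin n → Option (Fin r)
  hnone : ∀ i, block i = none → x i ∈ OO
  t : Fin n → ℍ
  N : Fin n → Fin n → ℕ
  hN : ∀ i k, 0 < N i k
  M : ∀ i k, DD (N i k)
  hM : ∀ i k, IsPrim (M i k)
  ht : ∀ i, block i ≠ none → x i = jInv (t i)
  hk : ∀ i k, block i = block k → block i ≠ none → x k = jA (hN i k) (M i k) (t i)

end Pool.Agent.ZPS
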