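import Pool.Agent.ZPS.Rigid
import Pool.Agent.ZPS.CoreApply

/-!
# ZPS: the pointwise theorem

Let `V = V₀ + u/m` be a good shift, `x ∈ V` algebraic, with a block structure with `r` blocks:
`block i = none → x_i` an algebraic integer; `block i = some b → x_i = j(g_i τ_b)`. If
`r ≤ n - d - 1` and `r ≤ n - 2d + 1`, two coordinates in the same block satisfy a cyclic isogeny of
degree `≤ N₂`, `N₂` depending only on `V`.
-/

namespace Pool.Agent.ZPS

open UpperHalfPlane Pool.Agent.Hhelper14.ZP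

variable {n d : ℕ}

/-- **The pointwise theorem.** -/
theorem pointwise (A : GPData n d) (hd : 1 ≤ d) (hdn : d < n) {D : ℕ} (hD1 : 1 ≤ D)
    (hD : ∀ L k e, 1 ≤ e → e ≤ A.K L k → e ∣ D) (u : Fin n → ℤ) {m : ℕ} (hm : 0 < m)
    (hgood : A.GoodShift D (n ^ 2 + 1) ((n : ℝ) ^ 2 * (16 * Real.pi + 1)) u m) :
    ∃ N₂ : ℕ, ∀ r : ℕ, r + d + 1 ≤ n → r + 2 * d ≤ n + 1 → ∀ x : Fin n → ℂ,
      (∀ i, IsAlgebraic ℚ (x i)) → A.Holds (fun i => x i - (u i : ℂ) / m) →
      ∀ (block : Fin n → Option (Fin r)) (g : Fin n → GL (Fin 2) ℚ) (τ : Fin r → ℍ),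
        (∀ i, 0 < (g i).det.val) → (∀ i, block i = none → x i ∈ OO) →
        (∀ i b, block i = some b → x i = jInv (gact (g i) (τ b))) →
          ∃ i k, i ≠ k ∧ x ∈ HypSet N₂ i k := by
  obtain ⟨p, hp, hpp⟩ := hgood
  obtain ⟨N₃, h3⟩ := exists_nonrigid A hdn hD1 hD u hm (fun j => ⟨p j, (hp j).1⟩)
    (fun j => ⟨(hp j).2.2.1, (hp j).2.2.2.1, (hp j).2.2.2.2.1, (hp j).2.2.2.2.2⟩) hpp
  obtain ⟨N₂, h2⟩ := core_apply A hd u hm (κ := (n : ℝ) ^ 2 * (16 * Real.pi + 1)) le_rfl
  refine ⟨max N₂ N₃, fun r hr1 hr2 x hx hH block g τ hg hnone hsome => ?_⟩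
  classical
  -- the base points
  let b₀ : Fin n → ℍ := fun i => (block i).elim UpperHalfPlane.I (fun b => gact (g i) (τ b))
  have hpos : ∀ i k, 0 < (g k * (g i)⁻¹).det.val := fun i k => by
    rw [map_mul, Units.val_mul]
    exact mul_pos (hg _) (det_inv_pos (hg _))
  choose N hN M hM hMact using fun i k => exists_prim (hpos i k)
  let X : PtData n r :=
    { x := x
      hx := hx
      block := block
      hnone := hnone
      t := b₀
      N := N
      hN := hN
      M := M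
      hM := hM
      ht := fun i hi => by
        obtain ⟨b, hb⟩ := Option.ne_none_iff_exists'.mp hi
        rw [hsome i b hb]
        simp only [b₀, hb, Option.elim]
      hk := fun i k hik hi => by
        obtain ⟨b, hb⟩ := Option.ne_none_iff_exists'.mp hi
        have hbk : block k = some b := by rw [← hik, hb]
        rw [hsome k b hbk, jA, ← hMact]
        simp only [b₀, hb, Option.elim]
        rw [← gact_mul, inv_mul_cancel_right] }
  by_contra hcon
  push Not at hcon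
  have hbig : ∀ i k, i ≠ k → block i = block k → block i ≠ none → max N₂ N₃ < N i k := by
    intro i k hne hik hi
    by_contra hle
    rw [not_lt] at hle
    exact hcon i k hne ⟨N i k, hN i k, M i k, b₀ i, hle, hM i k, X.ht i hi, X.hk i k hik hi⟩
  obtain ⟨j, hj⟩ := h3 r X hr1 hH fun i k h1 h2 h3 => (le_max_right _ _).trans_lt (hbig i k h1 h2 h3)
  obtain ⟨i, k, h4, h5, h6, h7⟩ := h2 r X hr1 hr2 hH ⟨p j, (hp j).1⟩ (fun φ Λ h8 h9 => by
    have h10 := hj φ Λ h8 h9
    exact ⟨(hp j).2.1.trans h10.1, h10.2⟩)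
  exact absurd h7 (not_le.mpr ((le_max_left _ _).trans_lt (hbig i k h4 h5 h6)))

end Pool.Agent.ZPS
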