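import Pool.Agent.ZPS.PointDefs
import Pool.Agent.Hhelper14.ZP2.Main
import Pool.Agent.Hhelper14.ZPL.KClosed
import Pool.Agent.Hhelper77.ZPL.SpKClosed

/-!
# ZPS module 20: from atypical components to algebraic points with integral coordinates

`Y` is `Qb`-closed (for us the zero set of the relations `A` shifted by `u/m`), `Z` special, `W ⊆ Y ∩ Z`
irreducible closed, `Σ` a finite set of special (so `Qb`-closed, `special_kclosed`) sets not covering `W`
(i.e. `W` is in none of them). There is an algebraic point `x ∈ Y ∩ Z`, in no member of `Σ`, with a block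
structure with `r` blocks, `r + dim W ≤ dim Z`: outside the blocks the coordinates are algebraic integers.

Proof. Adapt `ZP2/Point.lean`, `exists_point`. Let `W' = kcl W` (`ZPL/KClosed.lean`): irreducible
(`kcl_irred`), `Qb`-closed, `W ⊆ W' ⊆ Y ∩ Z` (`KClosed.inter`, `special_kclosed`), `dim W ≤ dim W'`
(`ZPL.dim_mono`), and `W'` is in no `T ∈ Σ`. Let `P = vanishingIdeal ℂ W'`, `I` from `exists_basis P`:
`#I = dim W'` (`krull_eq_card`). The coordinates in `I` lie in distinct blocks of `Z` (as in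
`exists_point`). For every `T ∈ Σ` choose a polynomial `f_T ∈ I(T)` not in `P` (`T` closed); the product
`f ∉ P`. CLAIM: there is `h' ≠ 0` in `ℂ[x_I]` with: if `x ∈ W'` and `h'(x_I) ≠ 0` then `f(x) ≠ 0` (`f` mod `P`
is algebraic over `ℂ(x_I)` and nonzero, so it has an equation `∑ c_j(x_I) f^j = 0` in `ℂ[x]/P` with
`c_0 ≠ 0`; `h' = c_0`). With `h` from `exists_generic` choose INTEGERS `a_i`, `i ∈ I`, with
`h(a) h'(a) ≠ 0` (`MvPolynomial.funext_set` with the infinite set of integers, as in
`exists_integral_point`). Then `X = W' ∩ {x | x_i = a_i, i ∈ I}` is nonempty (`exists_generic`) and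
`Qb`-closed, so it has a `Qb`-point `x` (`exists_Qb_point` with `p = 1`). `f(x) ≠ 0` so `x` is in no
`T ∈ Σ`. The blocks of `Z` containing an element of `I` become `none`: there the coordinates are in `OO`
(`mem_OO_iff_gact`, `a_i ∈ ℤ ⊆ OO`); `r = (number of blocks of Z) - #I`, `dim Z =` the number of blocks
(`ZPL.dim_spSet`).
-/

namespace Pool.Agent.ZPS

open UpperHalfPlane MvPolynomial Pool.Agent.Hhelper14.ZP Pool.Agent.Hhelper14.ZPL

variable {n : ℕ}

/-- a polynomial that does not vanish on an irreducible set does not vanish above a generic value of the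
coordinates of a transcendence basis -/
theorem exists_generic_ne (P : Ideal (MvPolynomial (Fin n) ℂ)) [hP : P.IsPrime] {I : Finset (Fin n)}
    (hI : IsTranscendenceBasis ℂ (fun i : I => xbar P i)) {f : MvPolynomial (Fin n) ℂ} (hf : f ∉ P) :
    ∃ h : MvPolynomial I ℂ, h ≠ 0 ∧ ∀ x ∈ zeroLocus ℂ P,
      MvPolynomial.eval (fun i : I => x i) h ≠ 0 → MvPolynomial.eval x f ≠ 0 := by
  classical
  have halg := hI.isAlgebraic
  have hf0 : Ideal.Quotient.mk P f ≠ 0 := by
    rw [Ne, Ideal.Quotient.eq_zero_iff_mem]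
    exact hf
  obtain ⟨r, hr0, t, ht⟩ := (halg.isAlgebraic (Ideal.Quotient.mk P f)).exists_nonzero_dvd
    (mem_nonZeroDivisors_of_ne_zero hf0)
  obtain ⟨t₀, rfl⟩ := Ideal.Quotient.mk_surjective t
  let e := hI.1.aevalEquiv
  refine ⟨e.symm r, ?_, fun x hx hne h0 => hne ?_⟩
  · rw [Ne, EmbeddingLike.map_eq_zero_iff]
    exact hr0
  · have h3 := hI.1.algebraMap_aevalEquiv (e.symm r)
    have h4 : hI.1.aevalEquiv (e.symm r) = r := e.apply_symm_apply r
    rw [h4, ht] at h3
    have h1 : aeval (fun j : I => xbar P j) (e.symm r) =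
        Ideal.Quotient.mk P (rename (fun j : I => (j : Fin n)) (e.symm r)) := by
      have h2 : (aeval (fun j : I => xbar P j) : MvPolynomial I ℂ →ₐ[ℂ] _) =
          (Ideal.Quotient.mkₐ ℂ P).comp (rename (fun j : I => (j : Fin n))) := by
        ext b
        simp
      rw [h2]
      rfl
    rw [h1, ← map_mul, Ideal.Quotient.eq] at h3
    have h5 := (mem_zeroLocus_iff.mp hx) _ h3
    rw [map_sub, map_mul, aeval_rename] at h5
    have h6 : (aeval x f : ℂ) = 0 := h0
    rw [h6, zero_mul, zero_sub, neg_eq_zero] at h5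
    exact h5

/-- the set where some coordinates have given integral values is closed over `Qb` -/
theorem kclosed_coords (I : Finset (Fin n)) (a : I → ℤ) :
    KClosed {x : Fin n → ℂ | ∀ i : I, x i = (a i : ℂ)} := by
  rw [kclosed_iff]
  intro x hx i
  have h1 := hx (X (i : Fin n) - C (a i : Qb)) (by
    rw [mem_vanishingIdeal_iff]
    intro y hy
    rw [map_sub, aeval_X, aeval_C, hy i]
    simp)
  rw [map_sub, aeval_X, aeval_C] at h1
  have h2 : algebraMap Qb ℂ (a i : Qb) = (a i : ℂ) := by simp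
  rw [h2] at h1
  exact sub_eq_zero.mp h1

theorem exists_alg_point {Y Z W : Set (Fin n → ℂ)} (hY : KClosed Y)
    (hZ : Pool.Agent.Hhelper14.ZPL.IsSpecial Z)
    (hW : Pool.Agent.Hhelper14.ZPL.IsIrredClosed W) (hWY : W ⊆ Y ∩ Z)
    {S : Set (Set (Fin n → ℂ))} (hS : S.Finite)
    (hSs : ∀ T ∈ S, Pool.Agent.Hhelper14.ZPL.IsSpecial T) (hSW : ∀ T ∈ S, ¬ W ⊆ T) :
    ∃ (r : ℕ) (x : Fin n → ℂ) (block : Fin n → Option (Fin r)) (g : Fin n → GL (Fin 2) ℚ)
      (τ : Fin r → ℍ), (r : WithBot ℕ∞) + Pool.Agent.Hhelper14.ZPL.dim W ≤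
        Pool.Agent.Hhelper14.ZPL.dim Z ∧
      x ∈ Y ∧ (∀ T ∈ S, x ∉ T) ∧ (∀ i, IsAlgebraic ℚ (x i)) ∧ (∀ i, 0 < (g i).det.val) ∧
      (∀ i, block i = none → x i ∈ OO) ∧
      ∀ i b, block i = some b → x i = jInv (gact (g i) (τ b)) := by
  classical
  obtain ⟨r, block, g, s, hb, hg, hs, hZ'⟩ := isSpecial_iff.mp hZ
  have hZk : KClosed Z := special_kclosed hZ
  set W' : Set (Fin n → ℂ) := kcl W with hW'def
  have hW' : Pool.Agent.Hhelper14.ZPL.IsIrredClosed W' := kcl_irred hW.1
  have hW'k : KClosed W' := kcl_kclosed W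
  have hWW' : W ⊆ W' := subset_kcl W
  have hW'Y : W' ⊆ Y ∩ Z := kcl_subset (hY.inter hZk) hWY
  obtain ⟨hP, hPW⟩ := id hW'
  set P : Ideal (MvPolynomial (Fin n) ℂ) := vanishingIdeal ℂ W' with hPdef
  obtain ⟨I, hI⟩ := exists_basis P
  have hdimW' : Pool.Agent.Hhelper14.ZPL.dim W' = I.card := by
    rw [Pool.Agent.Hhelper14.ZPL.dim, ← hPdef, krull_eq_card hI]
    simp
  have hdimW : Pool.Agent.Hhelper14.ZPL.dim W ≤ I.card := by
    rw [← hdimW']
    exact Pool.Agent.Hhelper14.ZPL.dim_mono hWW'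
  have hdimZ : Pool.Agent.Hhelper14.ZPL.dim Z = r := by
    rw [hZ', dim_spSet hb hg, Fintype.card_fin]
  have hZP : vanishingIdeal ℂ Z ≤ P := vanishingIdeal_anti_mono fun x hx => (hW'Y hx).2
  -- the coordinates in `I` lie in distinct blocks
  have hblock : ∀ i : I, ∃ b, block i = some b := by
    intro i
    rw [← Option.ne_none_iff_exists']
    intro hnone
    have h1 : X (i : Fin n) - MvPolynomial.C (jInv (s i)) ∈ P := by
      apply hZP
      rw [mem_vanishingIdeal_iff]
      intro x hx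
      rw [hZ'] at hx
      obtain ⟨τ, hτ⟩ := hx
      have h2 := hτ i
      rw [hnone] at h2
      simp [h2]
    have h2 : xbar P i = algebraMap ℂ _ (jInv (s i)) := by
      rw [← sub_eq_zero]
      have h3 := Ideal.Quotient.eq_zero_iff_mem.mpr h1
      rw [map_sub] at h3
      exact h3
    have h3 := hI.1.transcendental i
    rw [h2] at h3
    exact h3 (isAlgebraic_algebraMap _)
  choose f hf using hblock
  have hfinj : Function.Injective f := by
    intro i i' hii'
    by_contra hne
    have hne' : (i : Fin n) ≠ i' := fun h => hne (Subtype.ext h)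
    have hpos : 0 < (g i' * (g i)⁻¹).det.val := by
      rw [map_mul, Units.val_mul]
      exact mul_pos (hg _) (det_inv_pos (hg _))
    obtain ⟨Φ, hΦ, hΦτ⟩ := modular_eq_rat hpos
    refine not_indep hZP hI.1 i.2 i'.2 hne' hΦ fun x hx => ?_
    rw [hZ'] at hx
    obtain ⟨τ, hτ⟩ := hx
    have h1 := hτ i
    have h2 := hτ i'
    rw [hf i] at h1
    rw [hf i', ← hii'] at h2
    simp only [Option.elim] at h1 h2
    have h3 := hΦτ (gact (g i) (τ (f i)))
    rw [← gact_mul, inv_mul_cancel_right] at h3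
    rw [h1, h2]
    exact h3
  -- a polynomial vanishing on all members of `S` but not on `W'`
  obtain ⟨F, hFS, hFP⟩ : ∃ F : MvPolynomial (Fin n) ℂ, (∀ T ∈ S, F ∈ vanishingIdeal ℂ T) ∧ F ∉ P := by
    have h1 : ∀ T ∈ S, ∃ p : MvPolynomial (Fin n) ℂ, p ∈ vanishingIdeal ℂ T ∧ p ∉ P := by
      intro T hT
      by_contra hcon
      push Not at hcon
      apply hSW T hT
      have h2 : IsZClosed T := (special_kclosed (hSs T hT)).closed
      refine hWW'.trans ?_
      rw [← h2, ← hPW]
      exact zeroLocus_anti_mono hcon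
    choose! p hp hpP using h1
    refine ⟨∏ T ∈ hS.toFinset, p T, fun T hT => ?_, fun h => ?_⟩
    · exact Ideal.mem_of_dvd _ (Finset.dvd_prod_of_mem p (hS.mem_toFinset.mpr hT)) (hp T hT)
    · obtain ⟨T, hT, hT'⟩ := hP.prod_mem_iff.mp h
      exact hpP T (hS.mem_toFinset.mp hT) hT'
  -- a generic integral point
  obtain ⟨h, hh0, hgen⟩ := exists_generic P hI
  obtain ⟨h', hh0', hgen'⟩ := exists_generic_ne P hI hFP
  obtain ⟨a, ha⟩ : ∃ a : I → ℤ, MvPolynomial.eval (fun i => (a i : ℂ)) (h * h') ≠ 0 := by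
    by_contra hcon
    push Not at hcon
    apply mul_ne_zero hh0 hh0'
    apply MvPolynomial.funext_set (fun _ : I => Set.range (fun m : ℤ => (m : ℂ)))
      (fun _ => Set.infinite_range_of_injective Int.cast_injective)
    intro a ha
    choose m hm using fun i => ha i (Set.mem_univ i)
    have : a = fun i => (m i : ℂ) := funext fun i => (hm i).symm
    rw [this, hcon m, map_zero]
  rw [map_mul] at ha
  obtain ⟨y, hyP, hya⟩ := hgen _ (left_ne_zero_of_mul ha)
  have hyW : y ∈ W' := by rw [← hPW]; exact hyP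
  have hXk : KClosed (W' ∩ {x : Fin n → ℂ | ∀ i : I, x i = (a i : ℂ)}) :=
    hW'k.inter (kclosed_coords I a)
  obtain ⟨z, ⟨hzW, hza⟩, -⟩ := exists_Qb_point hXk (p := 1) (by
    intro h1
    have h2 := (mem_vanishingIdeal_iff.mp h1) y ⟨hyW, hya⟩
    rw [map_one] at h2
    exact one_ne_zero h2)
  set x : Fin n → ℂ := fun i => (z i : ℂ) with hxdef
  have hxP : x ∈ zeroLocus ℂ P := by rw [hPW]; exact hzW
  have hFx : MvPolynomial.eval x F ≠ 0 := by
    refine hgen' x hxP ?_
    have h1 : (fun i : I => x i) = fun i => (a i : ℂ) := funext hza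
    rw [h1]
    exact right_ne_zero_of_mul ha
  obtain ⟨hxY, hxZ⟩ := hW'Y hzW
  rw [hZ'] at hxZ
  obtain ⟨τ, hτ⟩ := hxZ
  -- the remaining blocks
  let T : Finset (Fin r) := Finset.univ.image f
  have hT : T.card = I.card := by
    rw [Finset.card_image_of_injective _ hfinj, Finset.card_univ, Fintype.card_coe]
  have hrem : (Tᶜ).card = r - I.card := by
    rw [Finset.card_compl, hT, Fintype.card_fin]
  let e : (Tᶜ : Finset (Fin r)) ≃ Fin (r - I.card) := Finset.equivFinOfCardEq hrem
  have hTle : I.card ≤ r := by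
    rw [← hT]
    simpa using Finset.card_le_univ T
  have hnone : ∀ i, block i = none → x i ∈ OO := by
    intro i hi
    have h1 := hτ i
    rw [hi] at h1
    simp only [Option.elim] at h1
    rw [h1]
    exact jInv_mem_of_isCM (hs i hi)
  have hxτ : ∀ i b, block i = some b → x i = jInv (gact (g i) (τ b)) := by
    intro i b hi
    have h1 := hτ i
    rw [hi] at h1
    simpa only [Option.elim] using h1
  have hTV : ∀ b ∈ T, jInv (τ b) ∈ OO := by
    intro b hb
    obtain ⟨i, -, rfl⟩ := Finset.mem_image.mp hb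
    rw [← mem_OO_iff_gact (hg i), ← hxτ i (f i) (hf i), hza i]
    exact intCast_mem OO (a i)
  refine ⟨r - I.card, x,
    fun i => (block i).bind fun b => if hb : b ∈ (Tᶜ : Finset (Fin r)) then some (e ⟨b, hb⟩) else none,
    g, fun l => τ (e.symm l), ?_, hxY, fun T' hT' hxT' => ?_, fun i => ?_, hg, fun i hi => ?_,
    fun i l hl => ?_⟩
  · rw [hdimZ]
    refine (add_le_add_right hdimW _).trans ?_
    have h1 : r - I.card + I.card = r := Nat.sub_add_cancel hTle
    exact_mod_cast h1.le
  · apply hFx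
    exact (mem_vanishingIdeal_iff.mp (hFS T' hT')) x hxT'
  · exact mem_algebraicClosure_iff.mp (z i).2
  · rcases hbi : block i with _ | b
    · exact hnone i hbi
    · dsimp only at hi
      rw [hbi, Option.bind_some] at hi
      split_ifs at hi with hb
      rw [hxτ i b hbi, mem_OO_iff_gact (hg i)]
      exact hTV b (by simpa using hb)
  · dsimp only at hl
    obtain ⟨b, hbi, hb⟩ := Option.bind_eq_some_iff.mp hl
    split_ifs at hb with h1
    have h2 : e ⟨b, h1⟩ = l := Option.some.inj hb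
    rw [hxτ i b hbi]
    simp only
    rw [← h2, Equiv.symm_apply_apply]

end Pool.Agent.ZPS
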