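import Pool.Agent.ZPS.Pointwise
import Pool.Agent.ZPS.Hyp
import Pool.Agent.ZPS.Reduction

/-!
# ZPS: Zilber-Pink for a good shift
-/

namespace Pool.Agent.ZPS

open UpperHalfPlane MvPolynomial Pool.Agent.Hhelper14.ZP Pool.Agent.Hhelper14.ZPL

variable {n d : ℕ}

/-- the shifted relation as a polynomial over `Qb` -/
noncomputable def relPoly (A : GPData n d) (u : Fin n → ℤ) (m : ℕ) (L : Finset (Fin n)) (k : Fin n) :
    MvPolynomial (Fin n) Qb :=
  (X k - C ((u k : Qb) / m)) ^ A.K L k + ∑ s ∈ Finset.Icc 1 (A.K L k),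
    aeval (fun i => (X i - C ((u i : Qb) / m) : MvPolynomial (Fin n) Qb)) (A.a L k s) *
      (X k - C ((u k : Qb) / m)) ^ (A.K L k - s)

theorem aeval_relPoly (A : GPData n d) (u : Fin n → ℤ) (m : ℕ) (L : Finset (Fin n)) (k : Fin n)
    (x : Fin n → ℂ) : (aeval x (relPoly A u m L k) : ℂ) =
      (x k - (u k : ℂ) / m) ^ A.K L k + ∑ s ∈ Finset.Icc 1 (A.K L k),
        aeval (fun i => x i - (u i : ℂ) / m) (A.a L k s) *
          (x k - (u k : ℂ) / m) ^ (A.K L k - s) := by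
  have h0 : ∀ i, (aeval x (X i - C ((u i : Qb) / m) : MvPolynomial (Fin n) Qb) : ℂ) =
      x i - (u i : ℂ) / m := by
    intro i
    rw [map_sub, aeval_X, aeval_C]
    congr 1
  have h1 : ∀ p : MvPolynomial (Fin n) ℚ, (aeval x (aeval
      (fun i => (X i - C ((u i : Qb) / m) : MvPolynomial (Fin n) Qb)) p) : ℂ) =
      aeval (fun i => x i - (u i : ℂ) / m) p := by
    intro p
    induction p using MvPolynomial.induction_on with
    | C a => 
      rw [aeval_C, aeval_C, IsScalarTower.algebraMap_apply ℚ Qb (MvPolynomial (Fin n) Qb),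
        AlgHom.commutes]
      rfl
    | add p q hp hq => rw [map_add, map_add, hp, hq, map_add]
    | mul_X p i hp => rw [map_mul, map_mul, hp, aeval_X, h0, map_mul, aeval_X]
  rw [relPoly, map_add, map_pow, h0, map_sum]
  congr 1
  refine Finset.sum_congr rfl fun s _ => ?_
  rw [map_mul, map_pow, h0, h1]

/-- the zero set of the shifted relations is defined over the algebraic numbers -/
theorem rel_kclosed (A : GPData n d) (u : Fin n → ℤ) (m : ℕ) :
    KClosed {x : Fin n → ℂ | A.Holds (fun i => x i - (u i : ℂ) / m)} := by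
  have h : {x : Fin n → ℂ | A.Holds (fun i => x i - (u i : ℂ) / m)} =
      zeroLocus ℂ (Ideal.span {p | ∃ L : Finset (Fin n), L.card = d ∧ ∃ k, p = relPoly A u m L k}) := by
    ext x
    rw [mem_zeroLocus_iff]
    constructor
    · intro hx p hp
      induction hp using Submodule.span_induction with
      | mem p hp =>
        obtain ⟨L, hL, k, rfl⟩ := hp
        rw [aeval_relPoly]
        exact hx L hL k
      | zero => exact map_zero _
      | add p q _ _ hp hq => rw [map_add, hp, hq, add_zero]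
      | smul a p _ hp => rw [smul_eq_mul, map_mul, hp, mul_zero]
    · intro hx L hL k
      have := hx _ (Ideal.subset_span ⟨L, hL, k, rfl⟩)
      rwa [aeval_relPoly] at this
  rw [h]
  exact kclosed_zeroLocus _

/-- the conclusion: Zilber-Pink in the form of the problem for intersections with special
subvarieties of dimension at most `dim W + n - max (d + 1) (2 d - 1)` -/
def ZPFor (d : ℕ) (V : Set (Fin n → ℂ)) : Prop :=
  ∃ S : Set (Set (Fin n → ℂ)), S.Finite ∧
    (∀ T ∈ S, Pool.Agent.Hhelper14.ZPL.IsSpecial T ∧ T ≠ Set.univ) ∧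
    ∀ Z W, Pool.Agent.Hhelper14.ZPL.IsSpecial Z → Pool.Agent.Hhelper14.ZPL.IsComponent W (V ∩ Z) →
      Pool.Agent.Hhelper14.ZPL.dim Z + d < Pool.Agent.Hhelper14.ZPL.dim W + n →
      Pool.Agent.Hhelper14.ZPL.dim Z + 2 * d ≤ Pool.Agent.Hhelper14.ZPL.dim W + n + 1 →
        ∃ T ∈ S, W ⊆ T

theorem zp_of_good (A : GPData n d) (hd : 1 ≤ d) {D : ℕ} (hD1 : 1 ≤ D)
    (hD : ∀ L k e, 1 ≤ e → e ≤ A.K L k → e ∣ D) (u : Fin n → ℤ) {m : ℕ} (hm : 0 < m)
    (hgood : A.GoodShift D (n ^ 2 + 1) ((n : ℝ) ^ 2 * (16 * Real.pi + 1)) u m)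
    {V : Set (Fin n → ℂ)} (hV : ∀ x ∈ V, A.Holds (fun i => x i - (u i : ℂ) / m)) :
    ZPFor d V := by
  classical
  by_cases hdn : d < n
  swap
  · -- no atypical components at all
    refine ⟨∅, Set.finite_empty, by simp, fun Z W hZ hW h1 _ => ?_⟩
    exfalso
    have h2 : Pool.Agent.Hhelper14.ZPL.dim W ≤ Pool.Agent.Hhelper14.ZPL.dim Z :=
      Pool.Agent.Hhelper14.ZPL.dim_mono fun x hx => (hW.2.1 hx).2
    obtain ⟨w, hw, -⟩ := exists_dim hW.1
    have h3 : (n : WithBot ℕ∞) ≤ d := by exact_mod_cast not_lt.mp hdn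
    have h4 : Pool.Agent.Hhelper14.ZPL.dim W + n ≤ Pool.Agent.Hhelper14.ZPL.dim Z + d :=
      add_le_add h2 h3
    exact absurd h1 (not_lt.mpr h4)
  obtain ⟨N₂, hN₂⟩ := pointwise A hd hdn hD1 hD u hm hgood
  obtain ⟨S, hSf, hSs, hS⟩ := exists_hyps n N₂
  refine ⟨S, hSf, hSs, fun Z W hZ hW h1 h2 => ?_⟩
  by_contra hcon
  push Not at hcon
  obtain ⟨r, x, block, g, τ, hr, hxY, hxS, halg, hg, hnone, hsome⟩ :=
    exists_alg_point (rel_kclosed A u m) hZ hW.1
      (fun x hx => ⟨hV x (hW.2.1 hx).1, (hW.2.1 hx).2⟩) hSf (fun T hT => (hSs T hT).1) hcon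
  obtain ⟨w, hw, -⟩ := exists_dim hW.1
  rw [hw] at h1 h2 hr
  have hr1 : r + d + 1 ≤ n := by
    have h3 : ((r : WithBot ℕ∞) + w) + d < w + n := (add_le_add_left hr (d : WithBot ℕ∞)).trans_lt h1
    have h4 : r + w + d < w + n := by exact_mod_cast h3
    omega
  have hr2 : r + 2 * d ≤ n + 1 := by
    have h3 : ((r : WithBot ℕ∞) + w) + 2 * d ≤ w + n + 1 :=
      (add_le_add_left hr (2 * d : WithBot ℕ∞)).trans h2
    have h4 : r + w + 2 * d ≤ w + n + 1 := by exact_mod_cast h3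
    omega
  obtain ⟨i, k, hik, hx⟩ := hN₂ r hr1 hr2 x halg hxY block g τ hg hnone hsome
  obtain ⟨T, hT, hxT⟩ := hS i k hik x hx
  exact hxS T hT hxT

end Pool.Agent.ZPS
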