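import Pool.Agent.ZPS.PointDefs
import Pool.Agent.ZPS.Local

/-!
# ZPS module 17: one of the primes has no rigid place
-/

namespace Pool.Agent.ZPS

open UpperHalfPlane Pool.Agent.Hhelper14.ZP

variable {n d : ℕ}

private theorem norm_sub_le_max' {K : Type*} [NormedField K] [IsUltrametricDist K] (x y : K) :
    ‖x - y‖ ≤ max ‖x‖ ‖y‖ := by
  have h := IsUltrametricDist.norm_add_le_max x (-y)
  rwa [norm_neg, ← sub_eq_add_neg] at h

private theorem posLog_pos_iff {x : ℝ} (hx : 0 ≤ x) : 0 < Real.posLog x ↔ 1 < x := by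
  constructor
  · intro h
    by_contra hle
    rw [not_lt] at hle
    have h0 : Real.posLog x = 0 := (Real.posLog_eq_zero_iff _).mpr (by rw [abs_of_nonneg hx]; exact hle)
    linarith
  · intro h
    rw [Real.posLog_eq_log (by rw [abs_of_nonneg hx]; exact h.le)]
    exact Real.log_pos h

private theorem norm_eq_exp {x Λ : ℝ} (hx : 0 ≤ x) (hΛ : 0 < Λ) (h : Real.posLog x = Λ) :
    x = Real.exp Λ := by
  have h1 : 1 < x := (posLog_pos_iff hx).mp (by rw [h]; exact hΛ)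
  rw [Real.posLog_eq_log (by rw [abs_of_nonneg hx]; exact h1.le)] at h
  rw [← h, Real.exp_log (by linarith)]

/-- the analysis of one prime: if the conclusion fails at the embedding `φ`, there is a pair in the same
block whose isogeny degree is the square of a multiple `μ` of `p` with `μ ∣ p^s (p^D - 1)`. -/
private theorem pair_of_rigid (A : GPData n d) (hdn : d < n) {D : ℕ} (hD1 : 1 ≤ D)
    (hD : ∀ L k e, 1 ≤ e → e ≤ A.K L k → e ∣ D) (u : Fin n → ℤ) {m : ℕ} (hm : 0 < m)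
    {p : ℕ} [hp : Fact p.Prime] (hpm : p ∣ m) (hpm2 : ¬ p ^ 2 ∣ m) (hgood : A.GoodAt p)
    (hG : ∀ L : Finset (Fin n), L.card = d → ∀ k', k' ∉ L →
        padicNorm p (MvPolynomial.eval (fun i => (u i : ℚ)) (A.G L k')) = 1)
    {r : ℕ} (X : PtData n r) (hr : r + d + 1 ≤ n)
    (hX : A.Holds (fun i => X.x i - (u i : ℂ) / m))
    (φ : ℂ →+* PadicComplex p) (Λ : ℝ) (h1 : ∀ i, Real.posLog ‖φ (X.x i)‖ ≤ Λ)
    (h2 : ∃ i, Real.posLog ‖φ (X.x i)‖ = Λ)
    (hnot : ¬ (Real.log p ≤ Λ ∧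
      (Finset.univ.filter fun i => Real.posLog ‖φ (X.x i)‖ < Λ).card < d))
    (hN : ∀ i k, i ≠ k → X.block i = X.block k → X.block i ≠ none → (p ^ D) ^ 2 < X.N i k) :
    ∃ i k : Fin n, ∃ μ : ℕ, μ ^ 2 = X.N i k ∧ p ∣ μ ∧ ∃ s, μ ∣ p ^ s * (p ^ D - 1) := by
  classical
  have hholds : A.Holds (fun i => φ (X.x i) - (u i : PadicComplex p) / m) := by
    have h3 := hX.map φ
    have h4 : (fun i => φ (X.x i - (u i : ℂ) / m)) =
        fun i => φ (X.x i) - (u i : PadicComplex p) / m := by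
      funext i
      rw [map_sub, map_div₀, map_intCast, map_natCast]
    rwa [h4] at h3
  obtain ⟨hlog, hcase⟩ := L2 A hdn hD hgood u hm hpm hpm2 hG (fun i => φ (X.x i)) hholds h1 h2
  have hcase' := hcase.resolve_left fun h => hnot ⟨hlog, h⟩
  obtain ⟨hcard, hrig⟩ := hcase'
  have hp1 : 1 < (p : ℝ) := by exact_mod_cast hp.out.one_lt
  have hΛ : 0 < Λ := lt_of_lt_of_le (Real.log_pos hp1) hlog
  -- the maximal coordinates
  set E : Finset (Fin n) := Finset.univ.filter fun i => ¬ Real.posLog ‖φ (X.x i)‖ < Λ with hE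
  have hEcard : r < E.card := by
    have h3 := Finset.card_filter_add_card_filter_not (s := (Finset.univ : Finset (Fin n)))
      (fun i => Real.posLog ‖φ (X.x i)‖ < Λ)
    rw [Finset.card_univ, Fintype.card_fin] at h3
    have h4 : (Finset.univ.filter fun i => Real.posLog ‖φ (X.x i)‖ < Λ).card = d := hcard
    rw [h4, ← hE] at h3
    omega
  have hEmem : ∀ i ∈ E, Real.posLog ‖φ (X.x i)‖ = Λ := by
    intro i hi
    rw [hE, Finset.mem_filter] at hi
    exact le_antisymm (h1 i) (not_lt.mp hi.2)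
  have hsome : ∀ i : E, ∃ b, X.block i = some b := by
    intro i
    rw [← Option.ne_none_iff_exists']
    intro hnone
    have h3 := norm_OO_le (K := PadicComplex p) norm_intCast_le φ (X.hnone i hnone)
    have h4 := hEmem i i.2
    have h5 : 1 < ‖φ (X.x i)‖ := (posLog_pos_iff (norm_nonneg _)).mp (by rw [h4]; exact hΛ)
    linarith
  choose f hf using hsome
  have hcard2 : Fintype.card (Fin r) < Fintype.card E := by
    rw [Fintype.card_fin, Fintype.card_coe]
    exact hEcard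
  obtain ⟨i, k, hne, hff⟩ := Fintype.exists_ne_map_eq_of_card_lt f hcard2
  have hne' : (i : Fin n) ≠ k := fun h => hne (Subtype.ext h)
  have hblock : X.block i = X.block k := by rw [hf i, hf k, hff]
  have hbn : X.block i ≠ none := by rw [hf i]; exact Option.some_ne_none _
  have hi := hEmem i i.2
  have hk := hEmem k k.2
  have hni : ‖φ (X.x i)‖ = Real.exp Λ := norm_eq_exp (norm_nonneg _) hΛ hi
  have hnk : ‖φ (X.x k)‖ = Real.exp Λ := norm_eq_exp (norm_nonneg _) hΛ hk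
  have hexp : 1 < Real.exp Λ := Real.one_lt_exp_iff.mpr hΛ
  -- the chain
  obtain ⟨C, -, hchain⟩ := exists_chain
  obtain ⟨y, -, hpad, -⟩ := hchain (X.N i k) (X.hN i k) (X.M i k) (X.hM i k) (X.t i)
  have e1 : X.x i = jInv (X.t i) := X.ht i hbn
  have e2 : X.x k = jA (X.hN i k) (X.M i k) (X.t i) := X.hk i k hblock hbn
  obtain ⟨a, d', ha, hd', had, hpow, -, hroot⟩ := hpad p φ (by rw [← e1, hni]; exact hexp)
  rw [← e1, ← e2, hni, hnk] at hpow
  have had' : d' = a := by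
    rw [← Real.exp_nat_mul, ← Real.exp_nat_mul] at hpow
    have h3 := Real.exp_injective hpow
    have h4 : (d' : ℝ) = a := mul_right_cancel₀ hΛ.ne' h3
    exact_mod_cast h4
  obtain ⟨ζ, hζ, hclose⟩ := hroot had'.symm
  rw [← e1, ← e2] at hclose
  have hN2 : a ^ 2 = X.N i k := by rw [← had, had', sq]
  have hsq : (p ^ D) ^ 2 < a ^ 2 := by rw [hN2]; exact hN i k hne' hblock hbn
  have hlt : p ^ D < a := lt_of_pow_lt_pow_left₀ 2 (Nat.zero_le _) hsq
  -- the root of unity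
  have hζe : ‖ζ ^ (p ^ D - 1) - 1‖ < 1 := by
    have h3 := hrig i k hi hk
    have hz : ‖φ (X.x i) / φ (X.x k)‖ = 1 := by
      rw [norm_div, hni, hnk, div_self (Real.exp_pos Λ).ne']
    have hζn : ‖ζ‖ ≤ 1 := by
      have h4 : ζ = φ (X.x i) / φ (X.x k) - (φ (X.x i) / φ (X.x k) - ζ) := by ring
      rw [h4]
      refine (norm_sub_le_max' _ _).trans (max_le hz.le hclose.le)
    have h5 : ‖(φ (X.x i) / φ (X.x k)) ^ (p ^ D - 1) - ζ ^ (p ^ D - 1)‖ < 1 := by
      set z := φ (X.x i) / φ (X.x k) with hzdef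
      have h6 : z ^ (p ^ D - 1) - ζ ^ (p ^ D - 1) =
          (z - ζ) * ∑ l ∈ Finset.range (p ^ D - 1), z ^ l * ζ ^ (p ^ D - 1 - 1 - l) := by
        rw [mul_comm]
        exact ((Commute.all z ζ).geom_sum₂_mul _).symm
      rw [h6, norm_mul]
      have h7 : ‖∑ l ∈ Finset.range (p ^ D - 1), z ^ l * ζ ^ (p ^ D - 1 - 1 - l)‖ ≤ 1 := by
        refine IsUltrametricDist.norm_sum_le_of_forall_le_of_nonneg zero_le_one fun l _ => ?_
        rw [norm_mul, norm_pow, norm_pow, hz, one_pow, one_mul]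
        exact pow_le_one₀ (norm_nonneg _) hζn
      exact lt_of_le_of_lt (mul_le_of_le_one_right (norm_nonneg _) h7) hclose
    have h8 : ζ ^ (p ^ D - 1) - 1 = ((φ (X.x i) / φ (X.x k)) ^ (p ^ D - 1) - 1) -
        ((φ (X.x i) / φ (X.x k)) ^ (p ^ D - 1) - ζ ^ (p ^ D - 1)) := by ring
    rw [h8]
    exact lt_of_le_of_lt (norm_sub_le_max' _ _) (max_lt h3 h5)
  obtain ⟨s, hs⟩ := root_of_unity ha hζ hζe
  refine ⟨i, k, a, hN2, ?_, s, hs⟩
  by_contra hnd
  have hcop : Nat.Coprime a (p ^ s) := ((Nat.Prime.coprime_iff_not_dvd hp.out).mpr hnd).symm.pow_right s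
  have hdvd : a ∣ p ^ D - 1 := hcop.dvd_of_dvd_mul_left hs
  have hpos : 0 < p ^ D - 1 := by
    have h9 : 1 < p ^ D := Nat.one_lt_pow (by omega) hp.out.one_lt
    omega
  have := Nat.le_of_dvd hpos hdvd
  omega

/-- **Step 1: one of the primes has no rigid place.** If all the degrees `N i k` of the same-block
pairs are `> N₂` (depending only on the primes), then for one of the primes `p_j` every embedding has
fewer than `d` coordinates which are not maximal.

Proof. Otherwise for every `j` there is `φ_j : ℂ → ℂ_{p_j}` with (by `L2`) exactly `d` nonmaximal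
coordinates; the set `E` of the maximal ones has `n - d > r` elements, `Λ ≥ log p > 0`, so `E` contains
no coordinate with `block = none` (`norm_OO_le`), hence a pair `i ≠ k` in the same block:
`‖φ x_i‖ = ‖φ x_k‖ > 1`. By the chain (`exists_chain`, the `p`-adic part) `a d' = N i k` and
`‖x_k‖^{d'} = ‖x_i‖^a`, so `a = d' =: μ`, `N i k = μ²`, and `ζ` a primitive `μ`-th root of unity with
`‖φ x_i / φ x_k - ζ‖ < 1`; with the rigidity `‖(x_i/x_k)^{p^D-1} - 1‖ < 1`: `‖ζ^{p^D-1} - 1‖ < 1`, so by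
`root_of_unity` `μ ∣ p^s (p^D - 1)`. As `μ² > N₂ ≥ p^{2D}`, `μ > p^D`, so `p ∣ μ`. There are `n² + 1`
primes and at most `n²` pairs: `j < j'` share the pair `(i,k)`, hence `μ`: `p_{j'} ∣ μ ∣
p_j^s (p_j^D - 1)`, so `p_{j'} ∣ p_j^D - 1`, `p_{j'} < p_j^D`, a contradiction. -/
theorem exists_nonrigid (A : GPData n d) (hdn : d < n) {D : ℕ} (hD1 : 1 ≤ D)
    (hD : ∀ L k e, 1 ≤ e → e ≤ A.K L k → e ∣ D) (u : Fin n → ℤ) {m : ℕ} (hm : 0 < m)
    (p : Fin (n ^ 2 + 1) → Nat.Primes)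
    (hp : ∀ j, ((p j : ℕ) ∣ m ∧ ¬ (p j : ℕ) ^ 2 ∣ m ∧
      A.GoodAt (p j) ∧ ∀ L : Finset (Fin n), L.card = d → ∀ k', k' ∉ L →
        padicNorm (p j) (MvPolynomial.eval (fun i => (u i : ℚ)) (A.G L k')) = 1))
    (hpp : ∀ i j, i < j → (p i : ℕ) ^ D < p j) :
    ∃ N₂ : ℕ, ∀ (r : ℕ) (X : PtData n r), r + d + 1 ≤ n →
      A.Holds (fun i => X.x i - (u i : ℂ) / m) →
      (∀ i k, i ≠ k → X.block i = X.block k → X.block i ≠ none → N₂ < X.N i k) →
      ∃ j, ∀ (φ : ℂ →+* PadicComplex (p j)) (Λ : ℝ), (∀ i, Real.posLog ‖φ (X.x i)‖ ≤ Λ) →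
        (∃ i, Real.posLog ‖φ (X.x i)‖ = Λ) →
          Real.log (p j) ≤ Λ ∧ (Finset.univ.filter fun i => Real.posLog ‖φ (X.x i)‖ < Λ).card < d := by
  classical
  refine ⟨∑ j, ((p j : ℕ) ^ D) ^ 2, fun r X hr hX hN => ?_⟩
  by_contra hcon
  push Not at hcon
  have key : ∀ j, ∃ i k : Fin n, ∃ μ : ℕ, μ ^ 2 = X.N i k ∧ (p j : ℕ) ∣ μ ∧
      ∃ s, μ ∣ (p j : ℕ) ^ s * ((p j : ℕ) ^ D - 1) := by
    intro j
    obtain ⟨φ, Λ, h1, h2, h3⟩ := hcon j
    refine pair_of_rigid A hdn hD1 hD u hm (hp j).1 (hp j).2.1 (hp j).2.2.1 (hp j).2.2.2 X hr hX φ Λ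
      h1 h2 (fun h => absurd h.2 (not_lt.mpr (h3 h.1))) fun i k hik hb hbn => ?_
    refine lt_of_le_of_lt ?_ (hN i k hik hb hbn)
    exact Finset.single_le_sum (f := fun j => ((p j : ℕ) ^ D) ^ 2) (fun _ _ => Nat.zero_le _)
      (Finset.mem_univ j)
  choose f g μ hμ hpμ s hs using key
  have hcard : Fintype.card (Fin n × Fin n) < Fintype.card (Fin (n ^ 2 + 1)) := by
    rw [Fintype.card_prod, Fintype.card_fin, Fintype.card_fin]
    have : n * n = n ^ 2 := (sq n).symm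
    omega
  obtain ⟨j, j', hne, hff⟩ := Fintype.exists_ne_map_eq_of_card_lt (fun j => (f j, g j)) hcard
  have main : ∀ j j', j < j' → (f j, g j) = (f j', g j') → False := by
    intro j j' hlt heq
    have h1 : f j = f j' := (Prod.ext_iff.mp heq).1
    have h2 : g j = g j' := (Prod.ext_iff.mp heq).2
    have h3 : μ j ^ 2 = μ j' ^ 2 := by rw [hμ j, hμ j', h1, h2]
    have h4 : μ j = μ j' := Nat.pow_left_injective (n := 2) (by norm_num) h3
    have h5 : (p j' : ℕ) ∣ (p j : ℕ) ^ s j * ((p j : ℕ) ^ D - 1) :=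
      (hpμ j').trans (h4 ▸ hs j)
    have hpr : Nat.Prime (p j : ℕ) := (p j).2
    have hpr' : Nat.Prime (p j' : ℕ) := (p j').2
    have h6 := hpp j j' hlt
    have h7 : (p j : ℕ) ≤ (p j : ℕ) ^ D := Nat.le_self_pow (by omega) _
    have h8 : 1 < (p j : ℕ) ^ D := lt_of_lt_of_le hpr.one_lt h7
    rcases (Nat.Prime.dvd_mul hpr').mp h5 with h9 | h9
    · have h10 := hpr'.dvd_of_dvd_pow h9
      have h11 := Nat.le_of_dvd hpr.pos h10
      omega
    · have h11 := Nat.le_of_dvd (by omega) h9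
      omega
  rcases lt_or_gt_of_ne hne with h | h
  · exact main j j' h hff
  · exact main j' j h hff.symm

end Pool.Agent.ZPS
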